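import Mathlib

/-! Choice of three base neighbours at one vertex. -/

namespace Pool.Agent.Lib.MP_439fea_co.Pw
open Finset
open scoped Classical

theorem accs_mk {V : Type} (S : Finset V) (f : V → ℝ) {t n : ℝ} (ht : 0 < t) (hn : 4 ≤ n)
    (hS : n - 1 ≤ S.card) (hf : ∀ a ∈ S, 0 ≤ f a) (h : ∑ a ∈ S, f a ≤ t * n) :
    n / 2 ≤ (S.filter fun a => f a ≤ 4 * t).card := by
  have h1 : ((S.filter fun a => ¬ f a ≤ 4 * t).card : ℝ) * (4 * t) ≤ t * n := by
    refine le_trans ?_ ((sum_le_sum_of_subset_of_nonneg (filter_subset (fun a => ¬ f a ≤ 4 * t) S)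
      fun a ha _ => hf a ha).trans h)
    rw [← nsmul_eq_mul]
    exact card_nsmul_le_sum _ _ _ fun a ha => (not_le.1 (mem_filter.1 ha).2).le
  have h2 : ((S.filter fun a => f a ≤ 4 * t).card : ℝ) +
      (S.filter fun a => ¬ f a ≤ 4 * t).card = S.card := by
    exact_mod_cast card_filter_add_card_filter_not (s := S) fun a => f a ≤ 4 * t
  have h3 : ((S.filter fun a => ¬ f a ≤ 4 * t).card : ℝ) ≤ n / 4 := by
    by_contra h4
    nlinarith
  linarith

/-- Three base points with small mutual weights. -/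
theorem acc_sel {V : Type} (N : Finset V) (Γ : V → V → ℝ) (J : V → ℝ) {t : ℝ} (ht : 0 < t)
    (hN : 4 ≤ N.card) (hΓ : ∀ a ∈ N, ∀ a' ∈ N, a ≠ a' → 0 ≤ Γ a a') (hJ : ∀ a ∈ N, 0 ≤ J a)
    (h1 : ∑ a ∈ N, ∑ a' ∈ N.erase a, Γ a a' ≤ t * (N.card : ℝ) ^ 2)
    (h2 : ∑ a ∈ N, J a ≤ t * N.card) :
    ∃ (c : Fin 3 → V) (G : Finset V), Function.Injective c ∧ (∀ k, c k ∈ N) ∧
      G ⊆ N.erase (c 2) ∧ (N.card : ℝ) / 2 ≤ G.card ∧ (∀ a ∈ G, Γ (c 2) a ≤ 4 * t) ∧
      Γ (c 0) (c 1) ≤ 8 * t ∧ J (c 0) ≤ 4 * t ∧ J (c 1) ≤ 4 * t := by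
  have hn : (4 : ℝ) ≤ N.card := by exact_mod_cast hN
  have hΓ' : ∀ a ∈ N, ∀ a' ∈ N.erase a, 0 ≤ Γ a a' := fun a ha a' ha' =>
    hΓ a ha a' (mem_of_mem_erase ha') (ne_of_mem_erase ha').symm
  obtain ⟨p, hp, hp1⟩ := exists_le_of_sum_le (s := N) (card_pos.1 (by omega))
    (f := fun a => ∑ a' ∈ N.erase a, Γ a a') (g := fun _ => t * N.card)
    (by rw [sum_const, nsmul_eq_mul]; linarith)
  have hc : (N.card : ℝ) - 1 ≤ (N.erase p).card := by
    rw [← card_erase_add_one hp]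
    push_cast
    linarith
  have hG := accs_mk (N.erase p) (Γ p) ht hn hc (hΓ' p hp) hp1
  have hM := accs_mk (N.erase p) J ht hn hc (fun a ha => hJ a (mem_of_mem_erase ha))
    ((sum_le_sum_of_subset_of_nonneg (erase_subset _ _) fun a ha _ => hJ a ha).trans h2)
  generalize hMe : (N.erase p).filter (fun a => J a ≤ 4 * t) = M at hM
  have hm : ∀ a ∈ M, (a ≠ p ∧ a ∈ N) ∧ J a ≤ 4 * t := fun a ha => by
    rwa [← hMe, mem_filter, mem_erase] at ha
  obtain ⟨a, ha, b, hb, hab⟩ : ∃ a ∈ M, ∃ b ∈ M.erase a, Γ a b ≤ 8 * t := by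
    by_contra h3
    push Not at h3
    have hm2 : (2 : ℝ) ≤ M.card := by linarith
    have h4 : ∀ a ∈ M, ((M.card : ℝ) - 1) * (8 * t) < ∑ a' ∈ N.erase a, Γ a a' := fun a ha => by
      have h5 : ((M.erase a).card : ℝ) = M.card - 1 := by
        rw [← card_erase_add_one ha]
        push_cast
        ring
      refine lt_of_lt_of_le ?_ (sum_le_sum_of_subset_of_nonneg
        (erase_subset_erase a fun x hx => (hm x hx).1.2) fun x hx _ => hΓ' a (hm a ha).1.2 x hx)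
      rw [← h5, ← nsmul_eq_mul, ← sum_const]
      refine sum_lt_sum_of_nonempty (card_pos.1 ?_) (h3 a ha)
      have : (0 : ℝ) < (M.erase a).card := by linarith
      exact_mod_cast this
    have h6 := sum_lt_sum_of_nonempty (s := M) (card_pos.1 (by
      have : (0 : ℝ) < M.card := by linarith
      exact_mod_cast this)) h4
    have h7 := (sum_le_sum_of_subset_of_nonneg (s := M) (t := N) (fun x hx => (hm x hx).1.2)
      fun x hx _ => sum_nonneg (hΓ' x hx)).trans h1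
    rw [sum_const, nsmul_eq_mul] at h6
    have h8 : (N.card : ℝ) ^ 2 ≤ 8 * (M.card * (M.card - 1)) := by nlinarith
    nlinarith
  obtain ⟨hba, hb⟩ := mem_erase.1 hb
  refine ⟨![a, b, p], _, ?_, ?_, filter_subset _ _, hG, fun x hx => (mem_filter.1 hx).2, hab,
    (hm a ha).2, (hm b hb).2⟩
  · have := (hm a ha).1.1
    have := (hm b hb).1.1
    intro i j
    fin_cases i <;> fin_cases j <;> simp_all [eq_comm]
  · intro k
    fin_cases k
    exacts [(hm a ha).1.2, (hm b hb).1.2, hp]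

end Pool.Agent.Lib.MP_439fea_co.Pw
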