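import Pool.Agent.Lib.MP_439fea_co.Pw.AcLevel
import Pool.Agent.Lib.MP_439fea_co.Pw.AcSel

/-! Abstract accounting with an additive error. -/

namespace Pool.Agent.Lib.MP_439fea_co.Pw
open Finset Pool.Agent.Lib.MP_439fea_co.Z
open scoped Classical

variable {V : Type}

theorem abs_pair (N : Finset V) (g : V → ℝ) :
    ∑ a ∈ N, ∑ a' ∈ N.erase a, (g a' + g a) = 2 * ((N.card : ℝ) - 1) * ∑ a ∈ N, g a := by
  have h : ∀ a ∈ N, ∑ a' ∈ N.erase a, (g a' + g a) =
      ∑ a' ∈ N, g a' + ((N.card : ℝ) - 2) * g a := by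
    intro a ha
    rw [sum_add_distrib, sum_erase_eq_sub ha, sum_const, card_erase_of_mem ha, nsmul_eq_mul,
      Nat.cast_sub (card_pos.2 ⟨a, ha⟩)]
    push_cast
    ring
  rw [sum_congr rfl h, sum_add_distrib, sum_const, nsmul_eq_mul, ← mul_sum]
  ring

theorem abs_one (N : Finset V) (f J : V → ℝ) (Γ : V → V → ℝ) {x : ℝ} (hN : 0 < N.card)
    (hf : ∀ a, 0 ≤ f a) (hJ : ∀ a, 0 ≤ J a)
    (h : ∀ a ∈ N, ∀ a' ∈ N, a ≠ a' → 2 * Γ a a' ≤ f a + f a' - 2 * x + 4 * J a + 4 * J a') :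
    (∑ a ∈ N, ∑ a' ∈ N.erase a, Γ a' a) / N.card + ∑ a ∈ N, J a ≤
      ∑ a ∈ N, f a - N.card * x + x + 5 * ∑ a ∈ N, J a := by
  have hn : (0 : ℝ) < N.card := by exact_mod_cast hN
  have h1 : ∑ a ∈ N, ∑ a' ∈ N.erase a, 2 * Γ a' a ≤
      ∑ a ∈ N, ∑ a' ∈ N.erase a, ((f a' - x + 4 * J a') + (f a - x + 4 * J a)) :=
    sum_le_sum fun a ha => sum_le_sum fun a' ha' => by
      linarith [h a' (mem_of_mem_erase ha') a ha (ne_of_mem_erase ha')]
  rw [abs_pair N fun a => f a - x + 4 * J a, sum_add_distrib, sum_sub_distrib, sum_const,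
    nsmul_eq_mul, ← mul_sum] at h1
  simp only [← mul_sum] at h1
  have h2 : 0 ≤ ∑ a ∈ N, f a := sum_nonneg fun a _ => hf a
  have h3 : 0 ≤ ∑ a ∈ N, J a := sum_nonneg fun a _ => hJ a
  have h4 : (∑ a ∈ N, ∑ a' ∈ N.erase a, Γ a' a) / N.card ≤
      ∑ a ∈ N, f a - N.card * x + x + 4 * ∑ a ∈ N, J a := by
    rw [div_le_iff₀ hn]
    nlinarith
  linarith

theorem abs_swap [Fintype V] {E : V → V → Prop} (hs : ∀ a b, E a b → E b a) (f : V → ℝ) :
    ∑ b, ∑ a ∈ nb E univ b, f a = ∑ b, ((nb E univ b).card : ℝ) * f b := by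
  rw [sum_comm' (t' := univ) (s' := fun a => nb E univ a)]
  · simp only [sum_const, nsmul_eq_mul]
  · intro b a
    simp only [mem_nb, mem_univ, true_and, and_true]
    exact ⟨hs _ _, hs _ _⟩

theorem absS : AbsS := by
  intro C κ K θ hC hκ hκ1 hK hθ
  obtain ⟨c, ω1, hc, hc1, hω1, hω2, hlev⟩ := ac_level C κ θ hC hκ hκ1 hθ
  refine ⟨min (c / 2) (κ / 2), lt_min (by linarith) (by linarith), fun ε hε => ?_⟩
  set τ := min (ε / 12) (1 / 32) with hτ
  have hτ0 : 0 < τ := lt_min (by linarith) (by norm_num)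
  have hτ1 : τ ≤ ε / 12 := min_le_left _ _
  have hτ2 : τ ≤ 1 / 32 := min_le_right _ _
  obtain ⟨δ, hδ, hδe⟩ : ∃ δ : ℝ, 0 < δ ∧ τ * κ * c = 48 * δ :=
    ⟨τ * κ * c / 48, by positivity, by ring⟩
  have hδ1 : δ ≤ 1 := by
    have := mul_le_one₀ (mul_le_one₀ (by linarith : τ ≤ 1) hκ.le hκ1) hc.le hc1
    linarith
  refine ⟨δ, K / δ, min ω1 δ, hδ, lt_min hω1 hδ,
    fun V _ E ω d e f J Γ hω h he hf0 hJ0 hJ1 hΓ hJ => ?_⟩
  obtain ⟨hd1, hd2⟩ := le_min_iff.1 hω
  have hd0 := h.amb.dpos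
  have hN := h.amb.Npos
  have hd3 : 1 ≤ δ * d := h.amb.big.trans (mul_le_mul_of_nonneg_right hd2 hd0.le)
  have hd4 : 4 ≤ κ * d := by nlinarith [h.amb.big]
  have hs := h.amb.symm
  obtain ⟨s, hT, hB, hF⟩ := hlev V E K ω d e f hd1 h he.le hf0 fun b a a' h1 h2 h3 => by
    linarith [(hΓ b a a' h1 h2 h3).1, (hΓ b a a' h1 h2 h3).2, hJ1 a b, hJ1 a' b]
  refine ⟨s, hT, fun hA => ?_⟩
  rw [div_mul_eq_mul_div, div_le_iff₀ hδ] at hA
  have hs0 : 0 < s := by
    by_contra hn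
    nlinarith [not_lt.1 hn]
  replace hF := hF (by nlinarith)
  have hn : ∀ b, 4 ≤ (nb E univ b).card := fun b => by
    have : ((4 : ℕ) : ℝ) ≤ (nb E univ b).card := by
      push_cast
      linarith [h.lo b]
    exact_mod_cast this
  have hE : ∀ b, ∀ a ∈ nb E univ b, E b a := fun b a ha => (mem_nb.1 ha).2
  set Q : V → ℝ := fun b => ∑ a ∈ nb E univ b, ∑ a' ∈ (nb E univ b).erase a, Γ b a' a with hQ
  set R : V → ℝ := fun b => Q b / (nb E univ b).card + ∑ a ∈ nb E univ b, J a b with hR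
  have hQ0 : ∀ b, 0 ≤ Q b := fun b => sum_nonneg fun a ha => sum_nonneg fun a' ha' =>
    (hΓ b a' a (hE b _ (mem_of_mem_erase ha')) (hE b _ ha) (ne_of_mem_erase ha')).1
  have hJs : ∀ b, 0 ≤ ∑ a ∈ nb E univ b, J a b := fun b => sum_nonneg fun a _ => hJ0 a b
  have hR0 : ∀ b, 0 ≤ R b := fun b =>
    add_nonneg (div_nonneg (hQ0 b) (Nat.cast_nonneg _)) (hJs b)
  have hsum : ∑ b, R b ≤ c * NN V / 2 * (τ * s * (κ * d)) := by
    have h1 : ∑ b, R b ≤ ∑ b, (∑ a ∈ nb E univ b, f a - (nb E univ b).card * f b + f b +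
        5 * ∑ a ∈ nb E univ b, J a b + K * d * e / 2) := sum_le_sum fun b _ => by
      have h2 := abs_one (nb E univ b) f (fun a => J a b) (Γ b) (x := f b - e / 2)
        (by linarith [hn b]) hf0 (fun a => hJ0 a b) fun a ha a' ha' hne => by
          linarith [(hΓ b a a' (hE b _ ha) (hE b _ ha') hne).2]
      have h3 := mul_le_mul_of_nonneg_right (h.amb.hi b) he.le
      simp only [hR, hQ]
      linarith
    generalize ∑ b, R b = r at h1 ⊢
    rw [sum_add_distrib, sum_add_distrib, sum_add_distrib, sum_sub_distrib, abs_swap hs, ← mul_sum,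
      sum_const, card_univ, nsmul_eq_mul] at h1
    have h2 : 0 ≤ ∑ p, f p := sum_nonneg fun p _ => hf0 p
    have h3 := mul_le_mul_of_nonneg_right hd3 h2
    have h4 := mul_le_mul_of_nonneg_left hF (mul_pos hδ hd0).le
    have h5 := mul_le_mul_of_nonneg_left hA (mul_pos hN hd0).le
    have h6 : c * NN V / 2 * (τ * s * (κ * d)) = 24 * (δ * d * s * NN V) := by
      calc _ = τ * κ * c * (d * s * NN V) / 2 := by ring
        _ = _ := by rw [hδe]; ring
    have h7 : 0 ≤ δ * d * s * NN V := by positivity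
    rw [h6]
    change r ≤ _ + NN V * _ at h1
    linarith
  set G := (univ.filter fun p => s ≤ f p).filter fun b => R b ≤ τ * s * (κ * d) with hG
  have hGc : c * NN V / 2 ≤ G.card := by
    set B := (univ.filter fun p => s ≤ f p).filter fun b => ¬ R b ≤ τ * s * (κ * d) with hBd
    have h1 := card_nsmul_le_sum B R (τ * s * (κ * d)) fun b hb => (not_le.1 (mem_filter.1 hb).2).le
    have h2 : ∑ b ∈ B, R b ≤ ∑ b, R b :=
      sum_le_sum_of_subset_of_nonneg (subset_univ _) fun b _ _ => hR0 b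
    rw [nsmul_eq_mul] at h1
    have h3 : (B.card : ℝ) ≤ c * NN V / 2 :=
      le_of_mul_le_mul_right (h1.trans (h2.trans hsum)) (by positivity)
    have h4 : G.card + B.card = (univ.filter fun p => s ≤ f p).card :=
      card_filter_add_card_filter_not _
    have h5 : (G.card : ℝ) + B.card = (univ.filter fun p => s ≤ f p).card := by exact_mod_cast h4
    linarith
  refine ⟨G, ?_, fun b hb => ⟨(mem_filter.1 (mem_filter.1 hb).1).2, ?_⟩⟩
  · have := mul_le_mul_of_nonneg_right (min_le_left (c / 2) (κ / 2)) hN.le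
    linarith
  have hp : (0 : ℝ) < (nb E univ b).card := lt_of_lt_of_le (by positivity) (h.lo b)
  have h1 : R b ≤ τ * s * (nb E univ b).card :=
    (mem_filter.1 hb).2.trans (mul_le_mul_of_nonneg_left (h.lo b) (by positivity))
  have h2 : Q b / (nb E univ b).card ≤ τ * s * (nb E univ b).card := by
    have := hJs b
    simp only [hR] at h1
    linarith
  have h3 : ∑ a ∈ nb E univ b, J a b ≤ τ * s * (nb E univ b).card := by
    have := div_nonneg (hQ0 b) hp.le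
    simp only [hR] at h1
    linarith
  rw [div_le_iff₀ hp, mul_assoc, ← sq] at h2
  obtain ⟨A, g, a1, a2, a3, a4, a5, a6, a7, a8⟩ := acc_sel (nb E univ b) (fun a a' => Γ b a' a)
    (fun a => J a b) (mul_pos hτ0 hs0) (hn b)
    (fun a ha a' ha' hne => (hΓ b a' a (hE b _ ha') (hE b _ ha) hne.symm).1)
    (fun a _ => hJ0 a b) h2 h3
  have h4 := mul_le_mul_of_nonneg_right hτ1 hs0.le
  have h5 := mul_le_mul_of_nonneg_right hτ2 hs0.le
  refine ⟨A, a1, fun k => hE b _ (a2 k), by linarith, ?_⟩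
  have h6 := mul_le_mul_of_nonneg_right (min_le_right (c / 2) (κ / 2)) hd0.le
  refine le_trans (by linarith [h.lo b]) (Nat.cast_le.2 (card_le_card (s := g) fun a ha => ?_))
  refine mem_filter.2 ⟨mem_of_mem_erase (a3 ha), ne_of_mem_erase (a3 ha), ?_⟩
  linarith [a5 a ha]

end Pool.Agent.Lib.MP_439fea_co.Pw
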