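import Pool.Agent.Lib.MP_439fea_co.Pw.Asm

/-! Interfaces inside the dichotomy. -/

namespace Pool.Agent.Lib.MP_439fea_co.Pw
open Finset Pool.Agent.Lib.MP_439fea_co.Z
open scoped Classical

/-- Sums of minima along edges for a function with small support. -/
def SseS : Prop := ∀ C K δ : ℝ, 1 ≤ C → 0 < δ → ∃ η ω0 : ℝ, 0 < η ∧ 0 < ω0 ∧
  ∀ (V : Type) [Fintype V] (E : V → V → Prop) (ω d : ℝ) (φ : V → ℝ), ω ≤ ω0 → Amb E C K ω d →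
    (∀ p, 0 ≤ φ p) → ((univ.filter fun p => φ p ≠ 0).card : ℝ) ≤ η * NN V →
    ∑ b, ∑ a ∈ nb E univ b, min (φ a) (φ b) ≤ δ * d * ∑ p, φ p

/-- Abstract accounting with an additive error `e`. -/
def AbsS : Prop := ∀ C κ K θ : ℝ, 1 ≤ C → 0 < κ → κ ≤ 1 → 1 ≤ K → 0 < θ → ∃ c : ℝ, 0 < c ∧
  ∀ ε : ℝ, 0 < ε → ∃ δ A ω0 : ℝ, 0 < δ ∧ 0 < ω0 ∧
    ∀ (V : Type) [Fintype V] (E : V → V → Prop) (ω d e : ℝ) (f : V → ℝ) (J : V → V → ℝ)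
      (Γ : V → V → V → ℝ), ω ≤ ω0 → Host E C κ K ω d → 0 < e →
      (∀ p, 0 ≤ f p) → (∀ a b, 0 ≤ J a b) → (∀ a b, J a b ≤ f a) →
      (∀ b a a', E b a → E b a' → a ≠ a' → 0 ≤ Γ b a a' ∧
        2 * Γ b a a' ≤ f a + f a' - 2 * f b + 4 * J a b + 4 * J a' b + e) →
      ∑ b, ∑ a ∈ nb E univ b, J a b ≤ δ * d * ∑ p, f p →
      ∃ s : ℝ, ((univ.filter fun p => s < f p).card : ℝ) ≤ θ * NN V ∧ (A * e ≤ s →
        ∃ G : Finset V, c * NN V ≤ G.card ∧ ∀ b ∈ G, s ≤ f b ∧ ∃ n : Fin 3 → V,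
          Function.Injective n ∧ (∀ k, E b (n k)) ∧ J (n 0) b + J (n 1) b ≤ s / 4 ∧
          c * d ≤ ((nb E univ b).filter fun a => a ≠ n 2 ∧
            Γ b a (n 2) + Γ b (n 1) (n 0) ≤ ε * s).card)

end Pool.Agent.Lib.MP_439fea_co.Pw
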