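import Pool.Agent.Lib.MP_439fea_co.Pw.AcLoc

/-! The dichotomy from the abstract accounting. -/

namespace Pool.Agent.Lib.MP_439fea_co.Pw
open Finset Pool.Agent.Lib.MP_439fea_co.Z
open scoped Classical
noncomputable section

variable {V O : Type} [Fintype V] [Field O] {E : V → V → Prop} {z w : V → O}

theorem acc_places (P : Places O) (hR : Re E z w) (hm : ∀ a, z a ∈ P.L ∧ w a ∈ P.L) :
    ∃ S : Finset P.I, P.ar ⊆ S ∧ ∀ i, i ∉ S → ∀ p q, p ≠ q →
      P.v i (z p - z q) = 1 ∧ P.v i (w p - w q) = 1 := by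
  have h : ∀ e : V × V, ∃ S : Finset P.I, ∀ i, i ∉ S → e.1 ≠ e.2 →
      P.v i (z e.1 - z e.2) = 1 ∧ P.v i (w e.1 - w e.2) = 1 := by
    intro e
    by_cases he : e.1 = e.2
    · exact ⟨∅, fun _ _ h => absurd he h⟩
    have h1 := P.fin _ (P.L.sub_mem (hm e.1).1 (hm e.2).1) (hR.zne he)
    have h2 := P.fin _ (P.L.sub_mem (hm e.1).2 (hm e.2).2) (hR.wne he)
    refine ⟨h1.toFinset ∪ h2.toFinset, fun i hi _ => ⟨?_, ?_⟩⟩
    · by_contra h3
      exact hi (mem_union_left _ (h1.mem_toFinset.2 h3))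
    · by_contra h3
      exact hi (mem_union_right _ (h2.mem_toFinset.2 h3))
  choose S hS using h
  exact ⟨P.ar ∪ univ.biUnion S, subset_union_left, fun i hi p q n => hS (p, q) i
    (fun h => hi (mem_union_right _ (mem_biUnion.2 ⟨(p, q), mem_univ _, h⟩))) n⟩

/-- The constant in the triangle inequality. -/
def Places.T (P : Places O) (i : P.I) : ℝ := if i ∈ P.ar then 2 else 1

theorem Places.tri (P : Places O) (i : P.I) : Tri (P.v i) (P.T i) := by
  unfold Places.T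
  split_ifs with h
  · exact ⟨by norm_num, fun x y => by
      linarith [(P.v i).add_le x y, le_max_left (P.v i x) (P.v i y),
        le_max_right (P.v i x) (P.v i y)]⟩
  · exact ⟨le_rfl, fun x y => by rw [one_mul]; exact P.na i h x y⟩

theorem Places.sum_T (P : Places O) {S : Finset P.I} (hS : P.ar ⊆ S) :
    ∑ i ∈ S, P.wt i * Real.log (P.T i) ≤ 1 := by
  rw [← sum_subset hS fun i _ hi => by rw [Places.T, if_neg hi, Real.log_one, mul_zero],
    sum_congr rfl fun i hi => by rw [Places.T, if_pos hi], ← sum_mul, P.arw, one_mul]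
  linarith [Real.log_le_sub_one_of_pos (x := 2) (by norm_num)]

/-- Boxes at all places. -/
structure Fam (E : V → V → Prop) (z w : V → O) (P : Places O) (B : P.I → ℝ) (E0 t : ℝ) where
  re : Re E z w
  mem : ∀ a, z a ∈ P.L ∧ w a ∈ P.L
  S : Finset P.I
  sub : P.ar ⊆ S
  out : ∀ i, i ∉ S → ∀ p q, p ≠ q → P.v i (z p - z q) = 1 ∧ P.v i (w p - w q) = 1
  hB : ∀ S : Finset P.I, ∑ i ∈ S, P.wt i * Real.log (B i) ≤ E0
  X : ∀ i, Loc E (P.v i) z w (Real.log (P.T i)) (Real.log (B i)) t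

namespace Fam
variable {P : Places O} {B : P.I → ℝ} {E0 t : ℝ} (D : Fam E z w P B E0 t)

def f (p : V) : ℝ := ∑ i ∈ D.S, P.wt i * ((D.X i).F p + (D.X i).G p)
def J (a b : V) : ℝ := ∑ i ∈ D.S, P.wt i * min ((D.X i).ph a) ((D.X i).ph b)
def Γ (b p q : V) : ℝ := ∑ i ∈ D.S, P.wt i * (D.X i).gam b p q

theorem f_nonneg (p : V) : 0 ≤ D.f p :=
  sum_nonneg fun i _ => mul_nonneg (P.pos i).le (add_nonneg ((D.X i).F0 p) ((D.X i).G0 p))

theorem J_nonneg (a b : V) : 0 ≤ D.J a b :=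
  sum_nonneg fun i _ => mul_nonneg (P.pos i).le (le_min ((D.X i).ph_nonneg a) ((D.X i).ph_nonneg b))

theorem J_le (a b : V) : D.J a b ≤ D.f a :=
  sum_le_sum fun i _ => mul_le_mul_of_nonneg_left
    ((min_le_left _ _).trans ((D.X i).ph_le a)) (P.pos i).le

theorem Γ_nonneg (b p q : V) : 0 ≤ D.Γ b p q :=
  sum_nonneg fun i _ => mul_nonneg (P.pos i).le ((D.X i).gam_nonneg b p q)

theorem prod {p q : V} (n : p ≠ q) :
    ∑ i ∈ D.S, P.wt i * ((D.X i).x p q + (D.X i).y p q + 2 * Real.log (B i)) = 0 := by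
  have p1 := P.prod _ (P.L.sub_mem (D.mem p).1 (D.mem q).1) (D.re.zne n) D.S
    fun i hi => by_contra fun h => hi (D.out i h p q n).1
  have p2 := P.prod _ (P.L.sub_mem (D.mem p).2 (D.mem q).2) (D.re.wne n) D.S
    fun i hi => by_contra fun h => hi (D.out i h p q n).2
  rw [← add_zero (0 : ℝ)]
  nth_rewrite 1 [← p1]
  rw [← p2, ← sum_add_distrib]
  refine sum_congr rfl fun i _ => ?_
  rw [(D.X i).hx p q n, (D.X i).hy p q n]
  ring

theorem Γ_le {a a' b : V} (h : E b a) (h' : E b a') (n : a ≠ a') :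
    2 * D.Γ b a a' ≤ D.f a + D.f a' - 2 * D.f b + 4 * D.J a b + 4 * D.J a' b + (10 + 4 * E0) := by
  have h1 := sum_le_sum fun i (_ : i ∈ D.S) =>
    mul_le_mul_of_nonneg_left ((D.X i).gam_le h h' n) (P.pos i).le
  have h2 := D.prod n
  have h3 := P.sum_T D.sub
  have h4 := D.hB D.S
  simp only [mul_sub, mul_add (P.wt _) _ (4 * _), mul_add (P.wt _) _ (10 * _ + _),
    mul_add (P.wt _) (_ + _) (_ + _), mul_left_comm (P.wt _),
    sum_sub_distrib, sum_add_distrib, ← mul_sum] at h1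
  unfold Γ f J
  linarith

theorem sse {C K ω d δ : ℝ} (hA : Amb E C K ω d) (hδ : 0 ≤ δ)
    (h : ∀ φ : V → ℝ, (∀ p, 0 ≤ φ p) → ((univ.filter fun p => φ p ≠ 0).card : ℝ) ≤ t →
      ∑ b, ∑ a ∈ nb E univ b, min (φ a) (φ b) ≤ δ * d * ∑ p, φ p) :
    ∑ b, ∑ a ∈ nb E univ b, D.J a b ≤ δ * d * ∑ p, D.f p := by
  have hδd : 0 ≤ δ * d := mul_nonneg hδ hA.dpos.le
  unfold J f
  rw [sum_comm (s := univ) (t := D.S), mul_sum,
    sum_congr rfl fun b _ => sum_comm (s := nb E univ b) (t := D.S), sum_comm]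
  refine sum_le_sum fun i _ => ?_
  have h1 := h (D.X i).ph (D.X i).ph_nonneg (D.X i).few
  have h3 : ∑ p, (D.X i).ph p ≤ ∑ p, ((D.X i).F p + (D.X i).G p) :=
    sum_le_sum fun p _ => (D.X i).ph_le p
  simp only [← mul_sum]
  rw [mul_left_comm]
  exact mul_le_mul_of_nonneg_left (h1.trans (mul_le_mul_of_nonneg_left h3 hδd)) (P.pos i).le

theorem ratio {H : Ht O} (hI : IsHt P H) {a a' b : V} (h : E b a) (h' : E b a') (n : a ≠ a') :
    (z a' - z b) / (z a - z a') ∈ H.dom ∧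
      D.f b / 2 - D.J a b - D.J a' b - 2 ≤ H.h ((z a' - z b) / (z a - z a')) := by
  have n1 := D.re.ne h'
  have hm : (z a' - z b) / (z a - z a') ∈ P.L :=
    P.L.div_mem (P.L.sub_mem (D.mem _).1 (D.mem _).1) (P.L.sub_mem (D.mem _).1 (D.mem _).1)
  refine ⟨hI.1 ▸ hm, ?_⟩
  rw [hI.2 _ hm D.S fun _ i hi => by_contra fun h1 => hi (by
    rw [map_div₀, (D.out i h1 _ _ n1).1, (D.out i h1 _ _ n).1, div_one])]
  have h1 := sum_le_sum fun i (_ : i ∈ D.S) =>
    mul_le_mul_of_nonneg_left ((D.X i).le_ratio h h' n) (P.pos i).le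
  have h2 : ∀ i ∈ D.S, P.wt i * Real.posLog (P.v i ((z a' - z b) / (z a - z a'))) =
      P.wt i * max 0 ((D.X i).x a' b - (D.X i).x a a') := fun i _ => by
    rw [Real.posLog_apply, map_div₀, Real.log_div ((P.v i).ne_zero (D.re.zne n1))
      ((P.v i).ne_zero (D.re.zne n)), (D.X i).hx _ _ n1, (D.X i).hx _ _ n]
    congr 2
    ring
  have h3 := P.sum_T D.sub
  rw [sum_congr rfl h2]
  simp only [mul_sub, ← mul_div_assoc, mul_left_comm (P.wt _), sum_sub_distrib, ← sum_div,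
    ← mul_sum] at h1
  unfold f J
  linarith

theorem cross {H : Ht O} (hI : IsHt P H) {a b : V} {n : Fin 3 → V} (hn : ∀ k, E b (n k))
    (hi : Function.Injective n) (h : E b a) (h2 : a ≠ n 2) :
    cr (fun k => z (n k) - z b) (z a - z b) ∈ H.dom ∧
      H.h (cr (fun k => z (n k) - z b) (z a - z b)) ≤ D.Γ b a (n 2) + D.Γ b (n 1) (n 0) := by
  have n10 : n 1 ≠ n 0 := hi.ne (by decide)
  have n12 : n 1 ≠ n 2 := hi.ne (by decide)
  have hs : ∀ p q, z p - z q ∈ P.L := fun p q => P.L.sub_mem (D.mem _).1 (D.mem _).1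
  simp only [cr, sub_sub_sub_cancel_right]
  have hm := P.L.div_mem (P.L.mul_mem (hs a (n 0)) (hs (n 1) (n 2)))
    (P.L.mul_mem (hs a (n 2)) (hs (n 1) (n 0)))
  refine ⟨hI.1 ▸ hm, ?_⟩
  by_cases n0 : a = n 0
  · rw [n0, sub_self, zero_mul, zero_div, H.zero]
    exact add_nonneg (D.Γ_nonneg _ _ _) (D.Γ_nonneg _ _ _)
  rw [hI.2 _ hm D.S fun _ i hi => by_contra fun h1 => hi (by
    rw [map_div₀, map_mul, map_mul, (D.out i h1 _ _ n0).1, (D.out i h1 _ _ n12).1,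
      (D.out i h1 _ _ h2).1, (D.out i h1 _ _ n10).1, div_self (by norm_num)])]
  unfold Γ
  rw [← sum_add_distrib]
  refine sum_le_sum fun i _ => ?_
  have vz : ∀ {p q : V}, p ≠ q → P.v i (z p - z q) ≠ 0 := fun e => (P.v i).ne_zero (D.re.zne e)
  rw [← mul_add]
  refine mul_le_mul_of_nonneg_left (le_trans (le_of_eq ?_)
    ((D.X i).cr_le h (hn 0) (hn 1) (hn 2) n0 h2 n12 n10)) (P.pos i).le
  rw [Real.posLog_apply, map_div₀, map_mul, map_mul,
    Real.log_div (mul_ne_zero (vz n0) (vz n12)) (mul_ne_zero (vz h2) (vz n10)),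
    Real.log_mul (vz n0) (vz n12), Real.log_mul (vz h2) (vz n10), (D.X i).hx _ _ n0,
    (D.X i).hx _ _ n12, (D.X i).hx _ _ h2, (D.X i).hx _ _ n10]
  congr 1
  ring

theorem bd (a : V) : ∑ i ∈ P.ar, P.wt i * (Real.posLog (P.v i (z a - z (D.X i).o) / (D.X i).R) +
    Real.posLog (P.v i (w a - w (D.X i).o) * (D.X i).R)) ≤ D.f a + 2 * E0 := by
  have h1 : ∑ i ∈ P.ar, P.wt i * ((D.X i).F a + (D.X i).G a) ≤ D.f a :=
    sum_le_sum_of_subset_of_nonneg D.sub fun i _ _ =>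
      mul_nonneg (P.pos i).le (add_nonneg ((D.X i).F0 a) ((D.X i).G0 a))
  have h2 := D.hB P.ar
  refine le_trans (sum_le_sum (g := fun i => P.wt i * ((D.X i).F a + (D.X i).G a) +
    2 * (P.wt i * Real.log (B i))) fun i _ => ?_) ?_
  · have := mul_le_mul_of_nonneg_left (add_le_add ((D.X i).hF a) ((D.X i).hG a)) (P.pos i).le
    linarith
  · rw [sum_add_distrib, ← mul_sum]
    linarith

theorem sep {a b : V} (n : a ≠ b) :
    ∑ i ∈ P.ar, P.wt i * (Real.posLog (P.v i (z a - z b) / (D.X i).R)⁻¹ +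
      Real.posLog (P.v i (w a - w b) * (D.X i).R)⁻¹) ≤ D.f a + D.f b + 2 * E0 + 2 := by
  refine (sum_le_sum_of_subset_of_nonneg D.sub fun i _ _ =>
    mul_nonneg (P.pos i).le (add_nonneg Real.posLog_nonneg Real.posLog_nonneg)).trans ?_
  have h2 := D.prod n
  have h3 := P.sum_T D.sub
  have h4 := D.hB D.S
  refine le_trans (sum_le_sum (g := fun i => P.wt i * ((D.X i).F a + (D.X i).G a) +
    P.wt i * ((D.X i).F b + (D.X i).G b) + 2 * (P.wt i * Real.log (B i)) +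
    2 * (P.wt i * Real.log (P.T i)) -
    P.wt i * ((D.X i).x a b + (D.X i).y a b + 2 * Real.log (B i))) fun i _ => ?_) ?_
  · have hR := (D.X i).Rpos.ne'
    rw [Real.posLog_apply, Real.posLog_apply, Real.log_inv, Real.log_inv,
      Real.log_div ((P.v i).ne_zero (D.re.zne n)) hR,
      Real.log_mul ((P.v i).ne_zero (D.re.wne n)) hR, (D.X i).hx _ _ n, (D.X i).hy _ _ n]
    have a1 := (D.X i).x_le a b
    have a2 := (D.X i).y_le a b
    have a3 := (D.X i).α0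
    have a4 := (D.X i).β0
    have b1 : max 0 (-((D.X i).x a b + Real.log (B i) + Real.log (D.X i).R - Real.log (D.X i).R)) ≤
        Real.log (P.T i) + (D.X i).F a + (D.X i).F b - (D.X i).x a b :=
      max_le (by linarith) (by linarith [(D.X i).F0 a, (D.X i).F0 b])
    have b2 : max 0 (-((D.X i).y a b + Real.log (B i) - Real.log (D.X i).R + Real.log (D.X i).R)) ≤
        Real.log (P.T i) + (D.X i).G a + (D.X i).G b - (D.X i).y a b :=
      max_le (by linarith) (by linarith [(D.X i).G0 a, (D.X i).G0 b])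
    have := mul_le_mul_of_nonneg_left (add_le_add b1 b2) (P.pos i).le
    linarith
  · simp only [sum_sub_distrib, sum_add_distrib, ← mul_sum]
    unfold f
    linarith

theorem tame {θ s Λ : ℝ} (hs : ((univ.filter fun p => s < D.f p).card : ℝ) ≤ θ * NN V)
    (h1 : s + 2 * E0 ≤ Λ) (h2 : 2 * s + 2 * E0 + 2 ≤ Λ) : Nonempty (Tame E θ Λ) := by
  choose φ hφ using P.arc
  have hR : ∀ i, (((D.X i).R : ℝ) : ℂ) ≠ 0 := fun i => by exact_mod_cast (D.X i).Rpos.ne'
  have hN : ∀ i, ‖(((D.X i).R : ℝ) : ℂ)‖ = (D.X i).R := fun i => by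
    rw [Complex.norm_real, Real.norm_of_nonneg (D.X i).Rpos.le]
  have hG : ∀ a ∈ (univ.filter fun p => s < D.f p)ᶜ, D.f a ≤ s := fun a ha =>
    not_lt.1 fun h => mem_compl.1 ha (mem_filter.2 ⟨mem_univ _, h⟩)
  refine ⟨⟨{i // i ∈ P.ar}, P.ar.attach, fun i => P.wt i.1, fun i _ => (P.pos i.1).le,
    (sum_attach P.ar P.wt).trans P.arw,
    fun i a => φ i.1 i.2 (z a - z (D.X i.1).o) / (D.X i.1).R,
    fun i a => φ i.1 i.2 (w a - w (D.X i.1).o) * (D.X i.1).R, fun i _ => ⟨fun a b e => ?_,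
      fun a b e => ?_, fun a b e => ?_⟩, (univ.filter fun p => s < D.f p)ᶜ, by rwa [compl_compl],
    fun a ha => ?_, fun a ha b hb n => ?_⟩⟩
  · exact D.re.zinj (sub_left_injective ((φ i.1 i.2).injective ((div_left_inj' (hR _)).1 e)))
  · exact D.re.winj (sub_left_injective ((φ i.1 i.2).injective (mul_right_cancel₀ (hR _) e)))
  · rw [← sub_div, ← sub_mul, ← map_sub, ← map_sub, sub_sub_sub_cancel_right,
      sub_sub_sub_cancel_right, div_mul_eq_mul_div, ← mul_assoc, mul_div_cancel_right₀ _ (hR _),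
      ← map_mul, D.re.adj a b e, map_one]
  · refine le_trans (le_of_eq ?_) ((D.bd a).trans (by linarith [hG a ha]))
    rw [← sum_attach P.ar]
    refine sum_congr rfl fun i _ => ?_
    rw [norm_div, norm_mul, hN, ← hφ, ← hφ]
  · refine le_trans (le_of_eq ?_) ((D.sep n).trans (by linarith [hG a ha, hG b hb]))
    rw [← sum_attach P.ar]
    refine sum_congr rfl fun i _ => ?_
    rw [← sub_div, ← sub_mul, ← map_sub, ← map_sub, sub_sub_sub_cancel_right,
      sub_sub_sub_cancel_right, norm_div, norm_mul, hN, ← hφ, ← hφ]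

end Fam

theorem accS_of (hS : SseS) (hA : AbsS) : AccS := by
  intro C κ K θ hC hκ hκ1 hK hθ
  obtain ⟨c, hc, hA⟩ := hA C κ K θ hC hκ hκ1 hK hθ
  refine ⟨c, hc, fun ε hε => ?_⟩
  obtain ⟨δ, A, ω1, hδ, hω1, hA⟩ := hA ε hε
  obtain ⟨η, ω2, hη, hω2, hS⟩ := hS C K δ hC hδ
  refine ⟨η, hη, fun E0 hE0 => ⟨2 * max (A * (10 + 4 * E0)) (max 16 (1 / ε)) + 2 * E0 + 2,
    min ω1 ω2, lt_min hω1 hω2, fun V O _ _ E z w P H B ω d hω hH hR hI hm hB1 hB hX => ?_⟩⟩
  obtain ⟨S, s1, s2⟩ := acc_places P hR hm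
  have D : Fam E z w P B E0 (η * NN V) :=
    ⟨hR, hm, S, s1, s2, hB, fun i => (loc_of_box hR (P.tri i) (hB1 i) (hX i)).some⟩
  obtain ⟨s, h1, h2⟩ := hA V E ω d (10 + 4 * E0) D.f D.J D.Γ (hω.trans (min_le_left _ _)) hH
    (by linarith) D.f_nonneg D.J_nonneg D.J_le
    (fun b a a' e e' n => ⟨D.Γ_nonneg _ _ _, D.Γ_le e e' n⟩)
    (D.sse hH.amb hδ.le fun φ => hS V E ω d φ (hω.trans (min_le_right _ _)) hH.amb)
  have m1 := le_max_left (A * (10 + 4 * E0)) (max 16 (1 / ε))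
  have m2 := (le_max_left _ _).trans (le_max_right (A * (10 + 4 * E0)) (max 16 (1 / ε)))
  have m3 := (le_max_right _ _).trans (le_max_right (A * (10 + 4 * E0)) (max 16 (1 / ε)))
  rcases le_total s (max (A * (10 + 4 * E0)) (max 16 (1 / ε))) with h3 | h3
  · exact Or.inl (D.tame h1 (by linarith) (by linarith))
  obtain ⟨G, g1, g2⟩ := h2 (m1.trans h3)
  refine Or.inr ⟨s, G, (div_le_iff₀' hε).1 (m3.trans h3), g1, fun b hb => ?_⟩
  obtain ⟨k1, n, k2, k3, k4, k5⟩ := g2 b hb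
  obtain ⟨r1, r2⟩ := D.ratio hI (k3 0) (k3 1) (k2.ne (by decide))
  refine ⟨n, k2, k3, r1, by linarith, k5.trans (Nat.cast_le.2 (card_le_card fun a ha => ?_))⟩
  obtain ⟨a1, a2, a3⟩ := mem_filter.1 ha
  obtain ⟨c1, c2⟩ := D.cross hI k3 k2 (mem_nb.1 a1).2 a2
  exact mem_filter.2 ⟨a1, a2, c1, c2.trans a3⟩

end
end Pool.Agent.Lib.MP_439fea_co.Pw
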