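import Pool.Agent.Lib.MP_439fea_co.Pw.AcSse

/-! The level of the accounting function. -/

namespace Pool.Agent.Lib.MP_439fea_co.Pw
open Finset Pool.Agent.Lib.MP_439fea_co.Z
open scoped Classical

variable {V : Type} [Fintype V] {E : V → V → Prop} {C κ K ω d e η : ℝ} {f : V → ℝ}

theorem lev_step (hC : 1 ≤ C) (hκ : 0 < κ) (hκ1 : κ ≤ 1) (h : Host E C κ K ω d) (hη0 : 0 ≤ η)
    (hη : 1536 * C * η ≤ κ ^ 3) (hω : ω ≤ η)
    (hf : ∀ b a a', E b a → E b a' → a ≠ a' → 2 * f b ≤ 5 * (f a + f a') + e) (s : ℝ)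
    (hs : e ≤ 2 * s) (hT : ((univ.filter fun p => s < f p).card : ℝ) ≤ η ^ 2 * NN V) :
    12 * ((univ.filter fun p => 6 * s < f p).card : ℝ) ≤ (univ.filter fun p => s < f p).card := by
  set T := univ.filter fun p => s < f p with hTd
  set R := univ.filter fun p => 6 * s < f p with hRd
  have hd0 := h.amb.dpos
  have hκ3 : κ ^ 3 ≤ κ := by nlinarith [mul_le_one₀ hκ1 hκ.le hκ1]
  have hm : ω ≤ κ / 4 := by nlinarith
  have hd : 4 ≤ κ * d := by nlinarith [h.amb.big]
  have hR : ∀ b ∈ R, κ * d / 2 ≤ (nb E T b).card := by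
    intro b hb
    have hb' : 6 * s < f b := (mem_filter.1 hb).2
    have h1 : (nb E univ b \ nb E T b).card ≤ 1 := by
      refine card_le_one.2 fun a ha a' ha' => ?_
      by_contra hne
      have key : ∀ x ∈ nb E univ b \ nb E T b, E b x ∧ f x ≤ s := fun x hx => by
        obtain ⟨h1, h2⟩ := mem_sdiff.1 hx
        have h3 := (mem_nb.1 h1).2
        refine ⟨h3, not_lt.1 fun h4 => h2 (mem_nb.2 ⟨?_, h3⟩)⟩
        exact mem_filter.2 ⟨mem_univ _, h4⟩
      have := hf b a a' (key a ha).1 (key a' ha').1 hne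
      linarith [(key a ha).2, (key a' ha').2]
    have h2 := le_card_sdiff (nb E T b) (nb E univ b)
    have h3 : (nb E univ b).card ≤ (nb E T b).card + 1 := by omega
    have h4 : ((nb E univ b).card : ℝ) ≤ (nb E T b).card + 1 := by exact_mod_cast h3
    linarith [h.lo b]
  have h1 := (card_mul_le_ed R T hR).trans (h.amb.small hC hm (by linarith) hη0 R T hT)
  have h2 : C / (κ / 4) ^ 2 * (η + ω) ≤ κ / 48 := by
    rw [div_mul_eq_mul_div, div_le_iff₀ (by positivity)]
    nlinarith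
  have h3 := mul_le_mul_of_nonneg_right h2 (mul_nonneg hd0.le (Nat.cast_nonneg (α := ℝ) T.card))
  have h4 : κ * d * (12 * (R.card : ℝ)) ≤ κ * d * T.card := by linarith
  exact le_of_mul_le_mul_left h4 (by positivity)

theorem lev_tail {t : ℝ} (he : 0 ≤ e)
    (hs : ∀ s : ℝ, e ≤ 2 * s → ((univ.filter fun p => s < f p).card : ℝ) ≤ t →
      12 * ((univ.filter fun p => 6 * s < f p).card : ℝ) ≤ (univ.filter fun p => s < f p).card)
    (n : ℕ) : ∀ s : ℝ, e ≤ 2 * s → (univ.filter fun p => s < f p).card ≤ n →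
      ((univ.filter fun p => s < f p).card : ℝ) ≤ t →
      ∑ p ∈ univ.filter fun p => s < f p, f p ≤ 12 * s * (univ.filter fun p => s < f p).card := by
  induction n with
  | zero =>
    intro s _ hn _
    rw [card_eq_zero.1 (Nat.le_zero.1 hn)]
    simp
  | succ n ih =>
    intro s hs0 hn ht
    have h1 := hs s hs0 ht
    have hs1 : 0 ≤ s := by linarith
    set T := univ.filter fun p => s < f p with hTd
    set R := univ.filter fun p => 6 * s < f p with hRd
    have hR0 : (0 : ℝ) ≤ R.card := Nat.cast_nonneg _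
    have h2 : 12 * R.card ≤ T.card := by exact_mod_cast h1
    have h3 := ih (6 * s) (by linarith) (by rw [← hRd]; omega) (by rw [← hRd]; linarith)
    rw [← hRd] at h3
    have hsub : R ⊆ T := fun p hp =>
      mem_filter.2 ⟨mem_univ _, by linarith [(mem_filter.1 hp).2]⟩
    have h4 : ∑ p ∈ T \ R, f p ≤ 6 * s * T.card := by
      have h5 := sum_le_card_nsmul (T \ R) f (6 * s) fun p hp =>
        not_lt.1 fun h6 => (mem_sdiff.1 hp).2 (mem_filter.2 ⟨mem_univ _, h6⟩)
      have h6 : ((T \ R).card : ℝ) ≤ T.card := by exact_mod_cast card_le_card sdiff_subset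
      rw [nsmul_eq_mul] at h5
      nlinarith
    rw [← sum_sdiff hsub]
    nlinarith

theorem ac_level (C κ θ : ℝ) (hC : 1 ≤ C) (hκ : 0 < κ) (hκ1 : κ ≤ 1) (hθ : 0 < θ) :
    ∃ c ω0 : ℝ, 0 < c ∧ c ≤ 1 ∧ 0 < ω0 ∧ ω0 ≤ κ / 4 ∧
    ∀ (V : Type) [Fintype V] (E : V → V → Prop) (K ω d e : ℝ) (f : V → ℝ), ω ≤ ω0 →
      Host E C κ K ω d → 0 ≤ e → (∀ p, 0 ≤ f p) →
      (∀ b a a', E b a → E b a' → a ≠ a' → 2 * f b ≤ 5 * (f a + f a') + e) →
      ∃ s : ℝ, ((univ.filter fun p => s < f p).card : ℝ) ≤ θ * NN V ∧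
        c * NN V ≤ (univ.filter fun p => s ≤ f p).card ∧
        (e ≤ 2 * s → ∑ p, f p ≤ 2 * s * NN V) := by
  have hC0 : 0 < C := by linarith
  set η := κ ^ 3 / (1536 * C) with hη
  have hη0 : 0 < η := by positivity
  have hη1 : 1536 * C * η ≤ κ ^ 3 := by
    rw [hη]
    exact le_of_eq (by field_simp)
  have hκ3 : κ ^ 3 ≤ κ := by nlinarith [mul_le_one₀ hκ1 hκ.le hκ1]
  set c := min (1 / 12 : ℝ) (min θ (η ^ 2)) with hc
  have hc0 : 0 < c := lt_min (by norm_num) (lt_min hθ (by positivity))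
  have hc1 : c ≤ 1 / 12 := min_le_left _ _
  have hc2 : c ≤ θ := (min_le_right _ _).trans (min_le_left _ _)
  have hc3 : c ≤ η ^ 2 := (min_le_right _ _).trans (min_le_right _ _)
  refine ⟨c, η, hc0, by linarith, hη0, by nlinarith, fun V _ E K ω d e f hω h he hf0 hf => ?_⟩
  have hN := h.amb.Npos
  have hne : (univ : Finset V).Nonempty := by
    rw [← card_pos, card_univ, ← Nat.cast_pos (α := ℝ)]
    exact hN
  obtain ⟨q, -, hq⟩ := exists_min_image univ f hne
  obtain ⟨p, hp, hm⟩ := exists_max_image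
    (univ.filter fun p => c * NN V ≤ (univ.filter fun r => f p ≤ f r).card) f
    ⟨q, mem_filter.2 ⟨mem_univ _, by
      rw [filter_true_of_mem hq, card_univ]
      nlinarith⟩⟩
  have hT : ((univ.filter fun r => f p < f r).card : ℝ) ≤ c * NN V := by
    by_contra hlt
    rw [not_le] at hlt
    have hne : (univ.filter fun r => f p < f r).Nonempty := by
      rw [← card_pos, ← Nat.cast_pos (α := ℝ)]
      exact (mul_pos hc0 hN).trans hlt
    obtain ⟨r, hr, hr2⟩ := exists_min_image _ f hne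
    have h1 := hm r (mem_filter.2 ⟨mem_univ _, hlt.le.trans (by
      exact_mod_cast card_le_card fun x hx => mem_filter.2 ⟨mem_univ _, hr2 x hx⟩)⟩)
    exact absurd (mem_filter.1 hr).2 (not_lt.2 h1)
  refine ⟨f p, hT.trans (mul_le_mul_of_nonneg_right hc2 hN.le), (mem_filter.1 hp).2, fun hs => ?_⟩
  have h1 := lev_tail he (fun s => lev_step hC hκ hκ1 h hη0.le hη1 hω hf s) _ (f p) hs
    le_rfl (hT.trans (mul_le_mul_of_nonneg_right hc3 hN.le))
  have h2 := sum_le_card_nsmul (univ.filter fun r => ¬ f p < f r) f (f p) fun r hr =>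
    not_lt.1 (mem_filter.1 hr).2
  have h3 : ((univ.filter fun r => ¬ f p < f r).card : ℝ) ≤ NN V := by
    exact_mod_cast card_le_univ _
  rw [nsmul_eq_mul] at h2
  rw [← sum_filter_add_sum_filter_not univ fun r => f p < f r]
  have h5 := mul_le_mul_of_nonneg_left hT (hf0 p)
  have h6 := mul_le_mul_of_nonneg_left h3 (hf0 p)
  have h7 := mul_le_mul_of_nonneg_left hc1 (mul_nonneg (hf0 p) hN.le)
  nlinarith

end Pool.Agent.Lib.MP_439fea_co.Pw
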