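import Pool.Agent.Lib.MP_439fea_co.Pw.AcDefs

/-! Local inequalities at one place, with additive errors. -/

namespace Pool.Agent.Lib.MP_439fea_co.Pw
open Finset Pool.Agent.Lib.MP_439fea_co.Z
open scoped Classical
noncomputable section

variable {V : Type}

theorem loc_mx {a α b c : ℝ} (h : a ≤ α + max b c) : a ≤ α + b ∨ a ≤ α + c := by
  rcases le_total b c with h1 | h1
  · rw [max_eq_right h1] at h
    exact Or.inr h
  · rw [max_eq_left h1] at h
    exact Or.inl h

theorem loc_edge {α β Fa Ga Fb Gb x y : ℝ} (hα : 0 ≤ α) (hβ : 0 ≤ β) (h2 : 0 ≤ Ga)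
    (h4 : 0 ≤ Gb) (a1 : Fa ≤ α + max x Fb) (a2 : Fb ≤ α + max x Fa) (a3 : y ≤ α + max Ga Gb)
    (a4 : Gb ≤ α + max y Ga) (e : x + y = -2 * β) (h : Gb ≤ Fb) :
    Fa - Ga - x + Fb + Gb ≤ 4 * min (max Fa Ga) (max Fb Gb) + 4 * α + 2 * β := by
  rw [max_eq_left h]
  have b1 := le_max_left Fa Ga
  have b2 := le_max_right Fa Ga
  generalize max Fa Ga = m at *
  rcases min_cases m Fb with ⟨b3, b4⟩ | ⟨b3, b4⟩ <;> rw [b3] <;> rcases loc_mx a1 with c1 | c1 <;>
    rcases loc_mx a2 with c2 | c2 <;> rcases loc_mx a3 with c3 | c3 <;>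
    rcases loc_mx a4 with c4 | c4 <;> linarith

theorem loc_ratio {α Fa Fa' Fb ja ja' m x x' : ℝ} (hα : 0 ≤ α) (h1 : 0 ≤ ja) (h2 : 0 ≤ ja')
    (b1 : ja = m ∨ Fa ≤ ja) (b2 : ja' = m ∨ Fa' ≤ ja') (hm : m = Fb)
    (a1 : Fb ≤ α + max x Fa') (a2 : x' ≤ α + max Fa Fa') :
    m - ja - ja' - 2 * α ≤ max 0 (x - x') := by
  have c1 := le_max_left 0 (x - x')
  have c2 := le_max_right 0 (x - x')
  rcases b1 with b1 | b1 <;> rcases b2 with b2 | b2 <;> rcases loc_mx a1 with c3 | c3 <;>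
    rcases loc_mx a2 with c4 | c4 <;> linarith

/-- Logarithmic distances to a box and between points at one place. -/
structure Lc (E : V → V → Prop) (α β : ℝ) where
  F : V → ℝ
  G : V → ℝ
  x : V → V → ℝ
  y : V → V → ℝ
  α0 : 0 ≤ α
  β0 : 0 ≤ β
  F0 : ∀ p, 0 ≤ F p
  G0 : ∀ p, 0 ≤ G p
  xs : ∀ p q, x p q = x q p
  ys : ∀ p q, y p q = y q p
  x1 : ∀ p q, x p q ≤ α + max (F p) (F q)
  x2 : ∀ p q, p ≠ q → F p ≤ α + max (x p q) (F q)
  y1 : ∀ p q, y p q ≤ α + max (G p) (G q)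
  y2 : ∀ p q, p ≠ q → G p ≤ α + max (y p q) (G q)
  ne : ∀ a b, E b a → a ≠ b
  ed : ∀ a b, E b a → x a b + y a b = -2 * β
  ch : ∀ a a' b, E b a → E b a' → a ≠ a' → y a a' = x a a' - x a b - x a' b - 2 * β

namespace Lc
variable {E : V → V → Prop} {α β : ℝ} (X : Lc E α β)

/-- Distance to the box. -/
def ph (p : V) : ℝ := max (X.F p) (X.G p)

/-- Defect of a pair, in the coordinate in which `b` is far. -/
def gam (b p q : V) : ℝ :=
  if X.G b ≤ X.F b then X.F p + X.F q - X.x p q + α else X.G p + X.G q - X.y p q + α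

theorem ph_nonneg (p : V) : 0 ≤ X.ph p := le_max_of_le_left (X.F0 p)

theorem ph_le (p : V) : X.ph p ≤ X.F p + X.G p :=
  max_le (by linarith [X.G0 p]) (by linarith [X.F0 p])

theorem x_le (p q : V) : X.x p q ≤ α + X.F p + X.F q := by
  rcases loc_mx (X.x1 p q) with h | h <;> linarith [X.F0 p, X.F0 q]

theorem y_le (p q : V) : X.y p q ≤ α + X.G p + X.G q := by
  rcases loc_mx (X.y1 p q) with h | h <;> linarith [X.G0 p, X.G0 q]

theorem gam_nonneg (b p q : V) : 0 ≤ X.gam b p q := by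
  unfold gam
  split_ifs <;> linarith [X.x_le p q, X.y_le p q]

theorem edge_le {a b : V} (h : E b a) :
    (X.G b ≤ X.F b → X.F a - X.G a - X.x a b + X.F b + X.G b ≤
      4 * min (X.ph a) (X.ph b) + 4 * α + 2 * β) ∧
    (¬ X.G b ≤ X.F b → X.G a - X.F a - X.y a b + X.G b + X.F b ≤
      4 * min (X.ph a) (X.ph b) + 4 * α + 2 * β) := by
  have n := X.ne a b h
  have e := X.ed a b h
  have a1 := X.x2 b a n.symm
  have a2 := X.y2 b a n.symm
  rw [X.xs] at a1
  rw [X.ys] at a2
  refine ⟨fun h1 => loc_edge X.α0 X.β0 (X.G0 a) (X.G0 b) (X.x2 a b n) a1 (X.y1 a b) a2 e h1,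
    fun h1 => ?_⟩
  unfold ph
  rw [max_comm (X.F a), max_comm (X.F b)]
  exact loc_edge X.α0 X.β0 (X.F0 a) (X.F0 b) (X.y2 a b n) a2 (X.x1 a b) a1 (by linarith)
    (not_le.1 h1).le

theorem gam_le {a a' b : V} (h : E b a) (h' : E b a') (hne : a ≠ a') :
    2 * X.gam b a a' ≤ (X.F a + X.G a) + (X.F a' + X.G a') - 2 * (X.F b + X.G b) +
      4 * min (X.ph a) (X.ph b) + 4 * min (X.ph a') (X.ph b) +
      (10 * α + 4 * β) - (X.x a a' + X.y a a' + 2 * β) := by
  have a1 := X.edge_le h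
  have a2 := X.edge_le h'
  have a3 := X.ch a a' b h h' hne
  have a4 := X.ed a b h
  have a5 := X.ed a' b h'
  unfold gam
  split_ifs with h1
  · linarith [a1.1 h1, a2.1 h1]
  · linarith [a1.2 h1, a2.2 h1]

theorem cr_le {a b p q r : V} (h : E b a) (hp : E b p) (hq : E b q) (hr : E b r) (n1 : a ≠ p)
    (n2 : a ≠ r) (n3 : q ≠ r) (n4 : q ≠ p) :
    max 0 (X.x a p + X.x q r - (X.x a r + X.x q p)) ≤ X.gam b a r + X.gam b q p := by
  refine max_le (add_nonneg (X.gam_nonneg _ _ _) (X.gam_nonneg _ _ _)) ?_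
  have a1 := X.ch a p b h hp n1
  have a2 := X.ch a r b h hr n2
  have a3 := X.ch q r b hq hr n3
  have a4 := X.ch q p b hq hp n4
  unfold gam
  split_ifs <;> linarith [X.x_le a p, X.x_le q r, X.y_le a p, X.y_le q r]

theorem le_ratio {a a' b : V} (h : E b a) (h' : E b a') (hne : a ≠ a') :
    (X.F b + X.G b) / 2 - min (X.ph a) (X.ph b) - min (X.ph a') (X.ph b) - 2 * α ≤
      max 0 (X.x a' b - X.x a a') := by
  have j0 : ∀ p, 0 ≤ min (X.ph p) (X.ph b) := fun p => le_min (X.ph_nonneg p) (X.ph_nonneg b)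
  have j1 : ∀ p, min (X.ph p) (X.ph b) = X.ph b ∨ X.ph p ≤ min (X.ph p) (X.ph b) := fun p =>
    (min_choice _ _).symm.imp id fun e => e.ge
  have jF : ∀ p, min (X.ph p) (X.ph b) = X.ph b ∨ X.F p ≤ min (X.ph p) (X.ph b) := fun p =>
    (j1 p).imp id (le_max_left _ _).trans
  have jG : ∀ p, min (X.ph p) (X.ph b) = X.ph b ∨ X.G p ≤ min (X.ph p) (X.ph b) := fun p =>
    (j1 p).imp id (le_max_right _ _).trans
  have m1 : X.F b ≤ X.ph b := le_max_left _ _
  have m2 : X.G b ≤ X.ph b := le_max_right _ _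
  rcases max_choice (X.F b) (X.G b) with hm | hm
  · have a1 := X.x2 b a' (X.ne a' b h').symm
    rw [X.xs] at a1
    linarith [loc_ratio X.α0 (j0 a) (j0 a') (jF a) (jF a') hm a1 (X.x1 a a')]
  · have a1 := X.y2 b a (X.ne a b h).symm
    rw [X.ys] at a1
    have a2 := X.y1 a' a
    rw [X.ys] at a2
    have a3 := loc_ratio X.α0 (j0 a') (j0 a) (jG a') (jG a) hm a1 a2
    have e : X.y a b - X.y a a' = X.x a' b - X.x a a' := by
      linarith [X.ch a a' b h h' hne, X.ed a b h]
    rw [e] at a3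
    linarith

end Lc

theorem loc_pos {a b c T : ℝ} (hT : 1 ≤ T) (ha : 0 ≤ a) (h : a ≤ T * max b c) :
    Real.posLog a ≤ Real.log T + max (Real.posLog b) (Real.posLog c) := by
  refine ((Real.posLog_le_posLog ha h).trans Real.posLog_mul).trans ?_
  rw [Real.posLog_eq_log (by rwa [abs_of_pos (by linarith)])]
  rcases max_choice b c with e | e <;> rw [e]
  · linarith [le_max_left (Real.posLog b) (Real.posLog c)]
  · linarith [le_max_right (Real.posLog b) (Real.posLog c)]

variable {O : Type} [Field O]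

/-- Triangle inequality with the constant `T`. -/
def Tri (v : AbsoluteValue O ℝ) (T : ℝ) : Prop := 1 ≤ T ∧ ∀ x y, v (x + y) ≤ T * max (v x) (v y)

theorem Tri.pos {v : AbsoluteValue O ℝ} {T r : ℝ} (hT : Tri v T) (hr : 0 < r) (x y : O) :
    Real.posLog (v (x + y) / r) ≤
      Real.log T + max (Real.posLog (v x / r)) (Real.posLog (v y / r)) := by
  refine loc_pos hT.1 (div_nonneg (v.nonneg _) hr.le) ?_
  rw [max_div_div_right hr.le, ← mul_div_assoc]
  exact div_le_div_of_nonneg_right (hT.2 x y) hr.le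

theorem Tri.one {v : AbsoluteValue O ℝ} {T r : ℝ} (hT : Tri v T) (hr : 0 < r) (p q o : O) :
    Real.log (v (p - q) / r) ≤
      Real.log T + max (Real.posLog (v (p - o) / r)) (Real.posLog (v (q - o) / r)) := by
  have h := hT.pos hr (p - o) (o - q)
  rw [sub_add_sub_cancel, v.map_sub o q] at h
  exact (le_max_right _ _).trans h

theorem Tri.two {v : AbsoluteValue O ℝ} {T r : ℝ} (hT : Tri v T) (hr : 0 < r) (p q o : O) :
    Real.posLog (v (p - o) / r) ≤
      Real.log T + max (Real.log (v (p - q) / r)) (Real.posLog (v (q - o) / r)) := by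
  have h := hT.pos hr (p - q) (q - o)
  rw [sub_add_sub_cancel, Real.posLog_apply (x := v (p - q) / r), max_comm 0, max_assoc,
    max_eq_right Real.posLog_nonneg] at h
  exact h

/-- The local data of a box. -/
structure Loc [Fintype V] (E : V → V → Prop) (v : AbsoluteValue O ℝ) (z w : V → O)
    (α β t : ℝ) extends Lc E α β where
  o : V
  R : ℝ
  Rpos : 0 < R
  hx : ∀ p q, p ≠ q → Real.log (v (z p - z q)) = x p q + β + Real.log R
  hy : ∀ p q, p ≠ q → Real.log (v (w p - w q)) = y p q + β - Real.log R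
  hF : ∀ p, Real.posLog (v (z p - z o) / R) ≤ F p + β
  hG : ∀ p, Real.posLog (v (w p - w o) * R) ≤ G p + β
  few : ((univ.filter fun p => max (F p) (G p) ≠ 0).card : ℝ) ≤ t

variable {E : V → V → Prop} {z w : V → O}

theorem Re.zne (hR : Re E z w) {p q : V} (h : p ≠ q) : z p - z q ≠ 0 :=
  sub_ne_zero.2 (hR.zinj.ne h)

theorem Re.wne (hR : Re E z w) {p q : V} (h : p ≠ q) : w p - w q ≠ 0 :=
  sub_ne_zero.2 (hR.winj.ne h)

theorem Re.ne (hR : Re E z w) {a b : V} (h : E b a) : a ≠ b := fun e => by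
  have := hR.adj b a h
  rw [e, sub_self, zero_mul] at this
  exact zero_ne_one this

theorem Re.adj' (hR : Re E z w) {a b : V} (h : E b a) : w a - w b = (z a - z b)⁻¹ :=
  eq_inv_of_mul_eq_one_right (by rw [← hR.adj b a h]; ring)

theorem Re.cherry (hR : Re E z w) {a a' b : V} (h : E b a) (h' : E b a') :
    w a - w a' = -((z a - z a') / (z a - z b) / (z a' - z b)) := by
  have hz := hR.zne (hR.ne h)
  have hz' := hR.zne (hR.ne h')
  rw [← sub_sub_sub_cancel_right (w a) (w a') (w b), hR.adj' h, hR.adj' h']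
  field_simp
  ring

theorem loc_of_box [Fintype V] {v : AbsoluteValue O ℝ} {T B t : ℝ} (hR : Re E z w)
    (hT : Tri v T) (hB : 1 ≤ B) (h : Box v z w B t) :
    Nonempty (Loc E v z w (Real.log T) (Real.log B) t) := by
  obtain ⟨o, R, hR0, h⟩ := h
  have hB0 : 0 < B := by linarith
  have r1 : 0 < B * R := mul_pos hB0 hR0
  have r2 : 0 < B / R := div_pos hB0 hR0
  have vz : ∀ {p q : V}, p ≠ q → v (z p - z q) ≠ 0 := fun e => v.ne_zero (hR.zne e)
  have vw : ∀ {p q : V}, p ≠ q → v (w p - w q) ≠ 0 := fun e => v.ne_zero (hR.wne e)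
  have hx : ∀ p q, p ≠ q → Real.log (v (z p - z q)) =
      Real.log (v (z p - z q) / (B * R)) + Real.log B + Real.log R := fun p q e => by
    rw [Real.log_div (vz e) r1.ne', Real.log_mul hB0.ne' hR0.ne']
    ring
  have hy : ∀ p q, p ≠ q → Real.log (v (w p - w q)) =
      Real.log (v (w p - w q) / (B / R)) + Real.log B - Real.log R := fun p q e => by
    rw [Real.log_div (vw e) r2.ne', Real.log_div hB0.ne' hR0.ne']
    ring
  have hp : ∀ u : ℝ, Real.posLog (u * B) ≤ Real.posLog u + Real.log B := fun u => by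
    refine Real.posLog_mul.trans ?_
    rw [Real.posLog_eq_log (x := B) (by rwa [abs_of_pos hB0])]
  refine ⟨⟨⟨fun p => Real.posLog (v (z p - z o) / (B * R)),
    fun p => Real.posLog (v (w p - w o) / (B / R)),
    fun p q => Real.log (v (z p - z q) / (B * R)), fun p q => Real.log (v (w p - w q) / (B / R)),
    Real.log_nonneg hT.1, Real.log_nonneg hB, fun _ => Real.posLog_nonneg,
    fun _ => Real.posLog_nonneg, fun p q => by rw [v.map_sub], fun p q => by rw [v.map_sub],
    fun p q => hT.one r1 _ _ _, fun p q _ => hT.two r1 _ _ _, fun p q => hT.one r2 _ _ _,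
    fun p q _ => hT.two r2 _ _ _, fun a b e => hR.ne e, fun a b e => ?_,
    fun a a' b e e' n => ?_⟩, o, R, hR0, hx, hy, fun p => ?_, fun p => ?_,
    le_trans (Nat.cast_le.2 (card_le_card fun a ha => ?_)) h⟩⟩
  · have a1 := hx a b (hR.ne e)
    have a2 := hy a b (hR.ne e)
    have a3 : Real.log (v (w a - w b)) = -Real.log (v (z a - z b)) := by
      rw [hR.adj' e, map_inv₀, Real.log_inv]
    linarith
  · have a1 := hx a b (hR.ne e)
    have a2 := hx a' b (hR.ne e')
    have a3 := hx a a' n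
    have a4 := hy a a' n
    have a5 : Real.log (v (w a - w a')) =
        Real.log (v (z a - z a')) - Real.log (v (z a - z b)) - Real.log (v (z a' - z b)) := by
      rw [hR.cherry e e', v.map_neg, map_div₀, map_div₀,
        Real.log_div (div_ne_zero (vz n) (vz (hR.ne e))) (vz (hR.ne e')),
        Real.log_div (vz n) (vz (hR.ne e))]
    linarith
  · refine le_trans (le_of_eq ?_) (hp _)
    congr 1
    field_simp
  · refine le_trans (le_of_eq ?_) (hp _)
    congr 1
    field_simp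
  · refine mem_filter.2 ⟨mem_univ _, fun hb => (mem_filter.1 ha).2 ?_⟩
    have e1 := (Real.posLog_eq_zero_iff (v (z a - z o) / (B * R))).2
      (by rw [abs_of_nonneg (div_nonneg (v.nonneg _) r1.le), div_le_one r1]; exact hb.1)
    have e2 := (Real.posLog_eq_zero_iff (v (w a - w o) / (B / R))).2
      (by rw [abs_of_nonneg (div_nonneg (v.nonneg _) r2.le), div_le_one r2]; exact hb.2)
    simp only [e1, e2, max_self]

end
end Pool.Agent.Lib.MP_439fea_co.Pw
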