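import Pool.Agent.Lib.MP_439fea_co.Pw.AcDefs

/-! Layer cake for sums of minima along edges. -/

namespace Pool.Agent.Lib.MP_439fea_co.Pw
open Finset Pool.Agent.Lib.MP_439fea_co.Z
open scoped Classical

variable {V : Type} [Fintype V] {E : V → V → Prop}

theorem sse_ed (E : V → V → Prop) (T : Finset V) :
    ∑ b, ∑ a ∈ nb E univ b, (if a ∈ T ∧ b ∈ T then (1 : ℝ) else 0) = ed E T T := by
  unfold ed
  push_cast
  rw [← sum_filter_add_sum_filter_not univ (· ∈ T), filter_mem_eq_inter, univ_inter,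
    sum_eq_zero (s := univ.filter _) fun b hb => by simp [(mem_filter.1 hb).2], add_zero]
  refine sum_congr rfl fun b hb => ?_
  simp only [hb, and_true, sum_boole, nb, filter_filter]
  congr 2
  ext a
  simp only [mem_filter, mem_univ, true_and, and_comm]

theorem sse_cake {D t : ℝ}
    (h : ∀ T : Finset V, (T.card : ℝ) ≤ t → (ed E T T : ℝ) ≤ D * T.card) (n : ℕ) :
    ∀ φ : V → ℝ, (∀ p, 0 ≤ φ p) → (univ.filter fun p => φ p ≠ 0).card ≤ n →
      ((univ.filter fun p => φ p ≠ 0).card : ℝ) ≤ t →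
      ∑ b, ∑ a ∈ nb E univ b, min (φ a) (φ b) ≤ D * ∑ p, φ p := by
  have h0 : ∀ φ : V → ℝ, (univ.filter fun p => φ p ≠ 0) = ∅ →
      ∑ b, ∑ a ∈ nb E univ b, min (φ a) (φ b) ≤ D * ∑ p, φ p := fun φ hφ => by
    have : ∀ p, φ p = 0 := fun p => by simpa using filter_eq_empty_iff.1 hφ (mem_univ p)
    simp [this]
  induction n with
  | zero => exact fun φ _ hn _ => h0 φ (card_eq_zero.1 (Nat.le_zero.1 hn))
  | succ n ih =>
    intro φ hφ hn ht
    set T := univ.filter fun p => φ p ≠ 0 with hT
    rcases T.eq_empty_or_nonempty with he | he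
    · exact h0 φ he
    obtain ⟨q, hq, hm⟩ := exists_min_image T φ he
    have hz : ∀ p, p ∉ T → φ p = 0 := fun p hp => by simpa [hT] using hp
    set ψ : V → ℝ := fun p => if p ∈ T then φ p - φ q else 0 with hψ
    have hψ0 : ∀ p, 0 ≤ ψ p := fun p => by
      simp only [hψ]
      split_ifs with hp
      · linarith [hm p hp]
      · exact le_rfl
    have hsub : (univ.filter fun p => ψ p ≠ 0) ⊆ T.erase q := fun p hp => by
      have h1 := (mem_filter.1 hp).2
      simp only [hψ] at h1
      refine mem_erase.2 ⟨fun e => h1 (by rw [e]; simp), by_contra fun e => h1 (if_neg e)⟩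
    have hc := card_le_card hsub
    rw [card_erase_of_mem hq] at hc
    have h1 := ih ψ hψ0 (by omega) (le_trans (by exact_mod_cast hc.trans (Nat.sub_le _ _)) ht)
    have h2 : ∀ a b, min (φ a) (φ b) =
        min (ψ a) (ψ b) + φ q * if a ∈ T ∧ b ∈ T then (1 : ℝ) else 0 := fun a b => by
      by_cases ha : a ∈ T
      · by_cases hb : b ∈ T
        · simp only [hψ, ha, hb, if_true, and_self, mul_one, min_sub_sub_right, sub_add_cancel]
        · have : ψ b = 0 := if_neg hb
          rw [hz b hb, this, min_eq_right (hφ a), min_eq_right (hψ0 a)]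
          simp [hb]
      · have : ψ a = 0 := if_neg ha
        rw [hz a ha, this, min_eq_left (hφ b), min_eq_left (hψ0 b)]
        simp [ha]
    have h3 : ∑ p, φ p = ∑ p, ψ p + φ q * T.card := by
      have : ∀ p, φ p = ψ p + φ q * if p ∈ T then (1 : ℝ) else 0 := fun p => by
        by_cases hp : p ∈ T
        · simp [hψ, hp]
        · simp [hψ, hp, hz p hp]
      rw [sum_congr rfl fun p _ => this p, sum_add_distrib, ← mul_sum, sum_boole,
        filter_mem_eq_inter, univ_inter]
    simp only [h2, sum_add_distrib, ← mul_sum]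
    rw [sse_ed, h3]
    have h4 := mul_le_mul_of_nonneg_left (h T ht) (hφ q)
    linarith

/-- Small sets span few edges. -/
theorem Amb.small {C K ω d m η : ℝ} (h : Amb E C K ω d) (hC : 1 ≤ C) (hm : ω ≤ m) (hm1 : m ≤ 1)
    (hη : 0 ≤ η) (X Y : Finset V) (hY : (Y.card : ℝ) ≤ η ^ 2 * NN V) :
    (ed E X Y : ℝ) ≤ m * d * X.card + C / m ^ 2 * (η + ω) * d * Y.card := by
  have h1 : √(Y.card / NN V) ≤ η := by
    rw [Real.sqrt_le_left hη, div_le_iff₀ h.Npos]
    exact hY
  have h2 : 0 ≤ C / m ^ 2 * d * Y.card := by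
    have := h.dpos
    have : 0 < C := by linarith
    positivity
  have h3 := mul_le_mul_of_nonneg_left (add_le_add_left h1 ω) h2
  linarith [h.stB X Y m hm hm1]

theorem sseS : SseS := by
  intro C K δ hC hδ
  set m := min (δ / 2) 1 with hm
  have hm0 : 0 < m := lt_min (by linarith) one_pos
  have hC0 : 0 < C := by linarith
  set k := δ * m ^ 2 / (4 * C) with hk
  have hk0 : 0 < k := by positivity
  refine ⟨k ^ 2, min m k, by positivity, lt_min hm0 hk0, fun V _ E ω d φ hω h hφ hs => ?_⟩
  refine sse_cake (t := k ^ 2 * NN V) (fun T hT => ?_) _ φ hφ le_rfl hs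
  have h1 := h.small hC (hω.trans (min_le_left _ _)) (min_le_right _ _) hk0.le T T hT
  have h2 : C / m ^ 2 * (k + ω) ≤ δ / 2 := by
    have h3 : C / m ^ 2 * (k + k) = δ / 2 := by
      rw [hk]
      field_simp
      ring
    rw [← h3]
    exact mul_le_mul_of_nonneg_left (by linarith [hω.trans (min_le_right _ _)]) (by positivity)
  have h4 : 0 ≤ d * T.card := mul_nonneg h.dpos.le (Nat.cast_nonneg _)
  have h5 := mul_le_mul_of_nonneg_right h2 h4
  have h6 := mul_le_mul_of_nonneg_right (min_le_left (δ / 2) 1) h4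
  rw [← hm] at h6
  linarith

end Pool.Agent.Lib.MP_439fea_co.Pw
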