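import Pool.Agent.Lib.MP_439fea_co.Pw.AcFin
import Pool.Agent.Lib.MP_439fea_co.Pw.AcAbs
import Pool.Agent.Lib.MP_439fea_co.Pw.AcSse

/-! The dichotomy. -/

namespace Pool.Agent.Lib.MP_439fea_co.Pw

theorem accS : AccS := accS_of sseS absS

end Pool.Agent.Lib.MP_439fea_co.Pw
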