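import Pool.Agent.Lib.MP_439fea_co.Pw.Defs

/-! Assembly of the dichotomy. -/

namespace Pool.Agent.Lib.MP_439fea_co.Pw
open Finset Pool.Agent.Lib.MP_439fea_co.Z
open scoped Classical

variable {V : Type}

theorem Amb.dpos [Fintype V] {E : V → V → Prop} {C K ω d : ℝ} (h : Amb E C K ω d) : 0 < d := by
  have h1 := h.big
  have h2 := h.ωpos
  by_contra hd
  nlinarith [not_lt.1 hd]

theorem Amb.one_le [Fintype V] {E : V → V → Prop} {C K ω d : ℝ} (h : Amb E C K ω d) : 1 ≤ d := by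
  have h1 := h.big
  have h2 := h.ω1
  nlinarith [h.dpos]

theorem Amb.Npos [Fintype V] {E : V → V → Prop} {C K ω d : ℝ} (h : Amb E C K ω d) : 0 < NN V := by
  have h1 := h.cub
  have h2 : 0 < d ^ 3 := pow_pos h.dpos 3
  rcases (Nat.cast_nonneg (α := ℝ) (Fintype.card V)).lt_or_eq with h3 | h3
  · exact h3
  · rw [NN, ← h3, mul_zero] at h1
    linarith

theorem noHost_of (hS : SpecS) (hH : HtS) (hB : BoxAllS) (hA : AccS) (hP : PatS) (hL : LimS)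
    (hN : LlnS) : NoHostS := by
  intro C κ K hC hκ hκ1 hK
  by_contra hno
  refine hL (AlgebraicClosure ℚ) fun j => Classical.choice ?_
  have hε : (0 : ℝ) < 1 / ((j : ℝ) + 1) := by positivity
  obtain ⟨θ, hθ, hN⟩ := hN C κ K hC hκ hκ1 hK
  obtain ⟨c, hc, hA⟩ := hA C κ K θ hC hκ hκ1 hK hθ
  obtain ⟨η, hη, hA⟩ := hA _ hε
  obtain ⟨E0, ω1, hE0, hω1, hB⟩ := hB (AlgebraicClosure ℚ) C κ K η hC hκ hκ1 hK hη
  obtain ⟨Λ, ω2, hω2, hA⟩ := hA E0 hE0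
  obtain ⟨ω3, hω3, hP⟩ := hP C κ K c j hC hκ hκ1 hK hc
  obtain ⟨ω4, hω4, hN⟩ := hN Λ
  by_contra hn
  refine hno ⟨min (min (min ω1 ω2) (min ω3 ω4)) 1, by positivity, min_le_right _ _,
    fun V _ E z w d hH' hR => ?_⟩
  obtain ⟨z', w', P, hR', hm⟩ := hS V E z w hR
  obtain ⟨H, hI⟩ := hH _ P
  have e0 := min_le_left (min (min ω1 ω2) (min ω3 ω4)) 1
  have e1 := (e0.trans (min_le_left _ _)).trans (min_le_left _ _)
  have e2 := (e0.trans (min_le_left _ _)).trans (min_le_right _ _)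
  have e3 := (e0.trans (min_le_right _ _)).trans (min_le_left _ _)
  have e4 := (e0.trans (min_le_right _ _)).trans (min_le_right _ _)
  obtain ⟨B, b1, b2, b3⟩ := hB V E z' w' P _ d e1 hH' hR'
  rcases hA V _ E z' w' P H B _ d e2 hH' hR' hI hm b1 b2 b3 with ⟨⟨T⟩⟩ | ⟨s, G, h1, h2, h3⟩
  · exact hN V E _ d e4 hH' T
  · exact hn (hP V _ E z' w' _ d _ s H G e3 hH' hR' hε h1 h2 h3)

theorem graph_of (hH : HostS) (hN : NoHostS) : GraphS := by
  obtain ⟨C, κ, K, hC, hκ, hκ1, hK, hH⟩ := hH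
  obtain ⟨ω, hω, hω1, hN⟩ := hN C κ K hC hκ hκ1 hK
  obtain ⟨η, hη, n0, hH⟩ := hH ω hω hω1
  refine ⟨η, hη, n0, fun V E z w hP hR U n hn hU => ?_⟩
  by_contra h
  obtain ⟨S, -, d, hS⟩ := hH V E hP U n hn hU (not_lt.1 h)
  exact hN S _ (fun a => z a.1) (fun a => w a.1) d hS
    ⟨fun a b e => Subtype.ext (hR.zinj e), fun a b e => Subtype.ext (hR.winj e),
      fun a b e => hR.adj _ _ e⟩

end Pool.Agent.Lib.MP_439fea_co.Pw
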