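import Pool.Agent.Lib.MP_439fea_co.Pw.BoxA

/-! All but few vertices lie in one box of bounded area. -/

namespace Pool.Agent.Lib.MP_439fea_co.Pw
open Finset Pool.Agent.Lib.MP_439fea_co.Z
open scoped Classical

/-- If few edges are long, almost all vertices lie in one ball. -/
theorem bx_giant (C κ K θ : ℝ) (hC : 1 ≤ C) (hκ : 0 < κ) (hκ1 : κ ≤ 1) (hK : 1 ≤ K) (hθ : 0 < θ) :
    ∃ c : ℝ, 0 < c ∧ 4 * c ≤ κ ∧ ∃ (n : ℕ) (ω0 : ℝ), 0 < n ∧ 0 < ω0 ∧
      ∀ (V O : Type) [Fintype V] [Field O] (v : AbsoluteValue O ℝ) (E : V → V → Prop) (f : V → O)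
        (ω d ρ : ℝ), ω ≤ ω0 → Host E C κ K ω d → Dbl v → 0 < ρ →
        (ed (fun a b => E a b ∧ ρ ≤ v (f a - f b)) univ univ : ℝ) ≤ c * d * NN V →
        ∃ p, ((univ.filter fun a => ¬ v (f a - f p) ≤ n * ρ).card : ℝ) ≤ θ * NN V := by
  obtain ⟨δ, δ0, δ1, ω0, w0, HH⟩ := bx_heavy C (κ / 2) (1 / 2) hC (by positivity) (by linarith)
    (by norm_num) (by norm_num)
  obtain ⟨m, m0, m1, m2⟩ : ∃ m : ℝ, 0 < m ∧ m ≤ δ ∧ m ≤ θ :=
    ⟨min δ θ, by positivity, min_le_left _ _, min_le_right _ _⟩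
  obtain ⟨n, hn⟩ := exists_nat_ge (4 * K / (κ * m))
  rw [div_le_iff₀ (by positivity)] at hn
  have n0 : 0 < n := Nat.pos_of_ne_zero fun h => by rw [h] at hn; norm_num at hn; linarith
  refine ⟨κ * m / 4, by positivity, by nlinarith, n, ω0, n0, w0, ?_⟩
  intro V O _ _ v E f ω d ρ hω H hv hρ hB
  have d0 := H.amb.dpos
  have N0 := H.amb.Npos
  have kd : 0 < κ * d := mul_pos hκ d0
  set Bd := fun a b => E a b ∧ ρ ≤ v (f a - f b) with hBd
  set F := fun a b => E a b ∧ v (f a - f b) ≤ ρ with hF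
  set X := univ.filter fun a => κ / 2 * d ≤ (nb F univ a).card with hX
  have h1 := card_mul_le_ed (E := E) Xᶜ univ fun a _ => H.lo a
  have h2 := bx_ed_or (E := E) (A := F) (B := Bd) (X := Xᶜ) (Y := univ) (Y1 := univ) (Y2 := univ)
    fun a _ b hb e => (le_total (v (f a - f b)) ρ).imp (fun q => ⟨hb, e, q⟩) fun q => ⟨hb, e, q⟩
  have h3 := ed_le_card_mul (E := F) Xᶜ univ (j := κ / 2 * d) fun a ha =>
    le_of_not_ge fun q => mem_compl.1 ha (mem_filter.2 ⟨mem_univ a, q⟩)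
  have hs : ∀ T : Finset V, (ed Bd T univ : ℝ) ≤ κ * m / 4 * d * NN V := fun T =>
    le_trans (Nat.cast_le.2 (ed_mono (subset_univ _) subset_rfl)) hB
  have hc : ∀ T : Finset V, (T.card : ℝ) + Tᶜ.card = NN V := fun T => by
    exact_mod_cast card_add_card_compl T
  have h4 : (Xᶜ.card : ℝ) ≤ m / 2 * NN V := le_of_mul_le_mul_left (by linarith [hs Xᶜ]) kd
  obtain ⟨p, -, hp⟩ := HH V O v E F f X K ω d ρ hω H.amb hv hρ (fun _ _ h => h)
    (by nlinarith [hc X]) fun x hx => (mem_filter.1 hx).2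
  set U := fun i : ℕ => univ.filter fun a => v (f a - f p) ≤ (i + 1) * ρ with hU
  have mU : ∀ i a, a ∈ U i ↔ v (f a - f p) ≤ (i + 1) * ρ := fun i a => by simp [hU]
  obtain ⟨i, hi, h5⟩ := bx_step (fun i => (U i).card) (M := NN V) (c := κ * m / (4 * K) * NN V) n0
    (Nat.cast_nonneg _) (Nat.cast_le.2 (card_le_univ _)) (by
      rw [← mul_assoc]
      refine le_mul_of_one_le_left N0.le ?_
      rw [← mul_div_assoc, one_le_div (by positivity)]
      exact hn)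
  have s1 : U i ⊆ U (i + 1) := fun a ha => (mU _ a).2 (((mU _ a).1 ha).trans (by
    push_cast; linarith))
  have h6 : (((U (i + 1)) \ U i).card : ℝ) ≤ κ * m / (4 * K) * NN V := by
    rw [card_sdiff_of_subset s1, Nat.cast_sub (card_le_card s1)]
    linarith
  have h7 := bx_ed_or (E := E) (A := E) (B := Bd) (X := U i) (Y := (U i)ᶜ)
    (Y1 := U (i + 1) \ U i) (Y2 := univ) fun a ha b hb e =>
      (le_total (v (f a - f b)) ρ).imp (fun q => ⟨mem_sdiff.2 ⟨(mU _ b).2 (by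
        have t1 := v.sub_le (f b) (f a) (f p)
        have t2 := (mU _ a).1 ha
        rw [v.map_sub (f b) (f a)] at t1
        push_cast
        linarith), mem_compl.1 hb⟩, e⟩) fun q => ⟨mem_univ b, e, q⟩
  have h8 : (ed E (U i) (U (i + 1) \ U i) : ℝ) ≤ κ * m / 4 * d * NN V := by
    rw [ed_comm H.amb.symm]
    have t1 := ed_le_card_mul (E := E) (U (i + 1) \ U i) (U i) fun a _ =>
      le_trans (Nat.cast_le.2 (card_le_card (nb_mono (subset_univ _) a))) (H.amb.hi a)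
    have t2 := mul_le_mul_of_nonneg_left h6 (show 0 ≤ K * d by positivity)
    have t3 : K * d * (κ * m / (4 * K) * NN V) = κ * m / 4 * d * NN V := by field_simp
    linarith
  have h9 : δ * NN V ≤ (U i).card := hp.trans (Nat.cast_le.2 (card_le_card fun a ha =>
    (mU _ a).2 ((mem_filter.1 ha).2.trans (le_mul_of_one_le_left hρ.le (by simp)))))
  have h10 : ∀ T : Finset V, κ * d * T.card ≤ ed E (U i) (U i)ᶜ → (T.card : ℝ) ≤ m / 2 * NN V :=
    fun T h => le_of_mul_le_mul_left (by linarith [hs (U i)]) kd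
  have hc' := card_add_card_compl (U i)
  refine ⟨p, ?_⟩
  rcases le_total (2 * (U i).card) (Fintype.card V) with q | q
  · nlinarith [h10 _ (H.ex _ q)]
  · have k1 := H.ex (U i)ᶜ (by omega)
    rw [compl_compl, ed_comm H.amb.symm] at k1
    refine le_trans (Nat.cast_le.2 (card_le_card fun a ha => mem_compl.2 fun h =>
      (mem_filter.1 ha).2 (((mU _ a).1 h).trans ?_))) ((h10 _ k1).trans (by nlinarith))
    exact mul_le_mul_of_nonneg_right (by exact_mod_cast hi) hρ.le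

theorem bx_far {O : Type} [Field O] (v : AbsoluteValue O ℝ) {x y p r : O} {t G g : ℝ} (ht : 0 < t)
    (hG : 2 ≤ G) (h1 : t ≤ v r) (h2 : v r ≤ 2 * t) (h3 : v (x - p) ≤ t) (h4 : G * t ≤ v (x - y))
    (hg : g ≤ G) : g ≤ 4 * v ((y - p) / r) := by
  have t1 := v.sub_le x p y
  rw [v.map_sub p y] at t1
  rw [map_div₀, ← mul_div_assoc, le_div_iff₀ (ht.trans_le h1)]
  nlinarith

theorem bx_inv {V O : Type} [Field O] (v : AbsoluteValue O ℝ) {E : V → V → Prop} {z w : V → O}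
    (R : Re E z w) {a b : V} (h : E a b) : v (z a - z b) * v (w a - w b) = 1 := by
  rw [← v.map_mul, R.adj a b h, v.map_one]

/-- Few vertices have many short and many long edges. -/
theorem bx_mix (hM : MixS) (O : Type) [Field O] [CharZero O] (C K ξ : ℝ) (hC : 1 ≤ C) (hK : 1 ≤ K)
    (hξ : 0 < ξ) (hξ1 : ξ ≤ 1) : ∃ (J : ℕ) (G ω0 : ℝ), 2 ≤ G ∧ 0 < ω0 ∧
      ∀ (V : Type) [Fintype V] (E : V → V → Prop) (z w : V → O) (v : AbsoluteValue O ℝ)
        (ω d t : ℝ), ω ≤ ω0 → Amb E C K ω d → Re E z w → Ab v J → 0 < t →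
        ((univ.filter fun a =>
          ξ * d ≤ (nb (fun a b => E a b ∧ v (z a - z b) ≤ t) univ a).card ∧
          ξ * d ≤ (nb (fun a b => E a b ∧ G * t ≤ v (z a - z b)) univ a).card).card : ℝ)
          ≤ ξ * NN V := by
  obtain ⟨δ1, p1, q1, ω1, w1, H1⟩ := bx_heavy C ξ ξ hC hξ hξ1 hξ hξ1
  obtain ⟨δ2, p2, -, ω2, w2, H2⟩ := bx_heavy C ξ δ1 hC hξ hξ1 p1 q1
  obtain ⟨J, G0, ω3, w3, H3⟩ := hM O C K ξ δ2 hC hK hξ hξ1 p2
  obtain ⟨G, g1, g2⟩ : ∃ G : ℝ, 2 ≤ G ∧ 4 * G0 ≤ G := ⟨_, le_max_left _ _, le_max_right _ _⟩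
  refine ⟨J, G, min ω1 (min ω2 ω3), g1, by positivity, ?_⟩
  intro V _ E z w v ω d t hω H R hv ht
  by_contra! hn
  simp only [le_min_iff] at hω
  have gt : 0 < G * t := by positivity
  have gi : 0 < (G * t)⁻¹ := inv_pos.2 gt
  obtain ⟨x1, -, h1⟩ := H1 V O v E (fun a b => E a b ∧ v (z a - z b) ≤ t) z _ K ω d t hω.1 H
    hv.dbl ht (fun _ _ h => h) hn.le fun x hx => (mem_filter.1 hx).2.1
  obtain ⟨x2, -, h2⟩ := H2 V O v E (fun a b => E a b ∧ G * t ≤ v (z a - z b)) w _ K ω d (G * t)⁻¹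
    hω.2.1 H hv.dbl gi (fun a b h => ⟨h.1, by
      rw [eq_inv_of_mul_eq_one_right (bx_inv v R h.1)]
      exact inv_anti₀ gt h.2⟩) h1 fun x hx => (mem_filter.1 (mem_filter.1 hx).1).2.2
  obtain ⟨r1, a1, b1⟩ := hv.den t 2 ht one_lt_two
  obtain ⟨r2, a2, b2⟩ := hv.den _ 2 gi one_lt_two
  have v1 := ht.trans_le a1
  have v2 := gi.trans_le a2
  have n1 := v.pos_iff.1 v1
  have n2 := v.pos_iff.1 v2
  have e0 : G * (t * (G * t)⁻¹) = 1 := by field_simp
  have e1 : v (r1 * r2)⁻¹ = (v r1 * v r2)⁻¹ := by rw [map_inv₀, v.map_mul]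
  have e2 : v (r1 * r2)⁻¹ ≤ G := by
    rw [e1, inv_le_iff_one_le_mul₀ (mul_pos v1 v2), ← e0]
    exact mul_le_mul_of_nonneg_left (mul_le_mul a1 a2 gi.le v1.le) (by linarith)
  have e3 : G / 4 ≤ v (r1 * r2)⁻¹ := by
    rw [e1, ← one_div, le_div_iff₀ (mul_pos v1 v2)]
    have := mul_le_mul_of_nonneg_left (mul_le_mul b1 b2 v2.le (by linarith))
      (show 0 ≤ G / 4 by linarith)
    linarith
  obtain ⟨X, h2, mX⟩ : ∃ X : Finset V, δ2 * NN V ≤ X.card ∧ ∀ a ∈ X,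
      (v (z a - z x1) ≤ t ∧ v (w a - w x2) ≤ (G * t)⁻¹) ∧
      ξ * d ≤ (nb (fun a b => E a b ∧ v (z a - z b) ≤ t) univ a).card ∧
      ξ * d ≤ (nb (fun a b => E a b ∧ G * t ≤ v (z a - z b)) univ a).card :=
    ⟨_, h2, fun a ha => by
      simp only [mem_filter] at ha
      exact ⟨⟨ha.1.2, ha.2⟩, ha.1.1.2⟩⟩
  refine H3 V ⟨v, (r1 * r2)⁻¹, E, fun a => (z a - z x1) / r1, fun a => (w a - w x2) / r2, X,
    univ.filter fun b => v (r1 * r2)⁻¹ ≤ 4 * v ((z b - z x1) / r1),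
    univ.filter fun b => v (r1 * r2)⁻¹ ≤ 4 * v ((w b - w x2) / r2), d⟩ ω hω.2.2 hv
    ⟨H, fun a b h => R.zinj (sub_left_injective ((div_left_inj' n1).1 h)), fun a b h => ?_,
      le_trans (by linarith) e3, fun a ha => ⟨?_, ?_⟩,
      fun b hb => (mem_filter.1 hb).2, fun b hb => (mem_filter.1 hb).2,
      fun a ha => (mX a ha).2.2.trans (Nat.cast_le.2 (card_le_card fun b hb => ?_)),
      fun a ha => (mX a ha).2.1.trans (Nat.cast_le.2 (card_le_card fun b hb => ?_)), h2⟩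
  · have := R.adj a b h
    dsimp only
    field_simp
    linear_combination this
  · dsimp only
    rw [map_div₀, div_le_one v1]
    exact (mX a ha).1.1.trans a1
  · dsimp only
    rw [map_div₀, div_le_one v2]
    exact (mX a ha).1.2.trans a2
  · have q := (mem_nb.1 hb).2
    exact mem_nb.2 ⟨mem_filter.2 ⟨mem_univ b, bx_far v ht g1 a1 b1 (mX a ha).1.1 q.2 e2⟩, q.1⟩
  · have q := (mem_nb.1 hb).2
    refine mem_nb.2 ⟨mem_filter.2 ⟨mem_univ b, bx_far v gi g1 a2 b2 (mX a ha).1.2 ?_ e2⟩, q.1⟩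
    have k := bx_inv v R q.1
    have k1 := mul_le_mul_of_nonneg_right q.2 (v.nonneg (w a - w b))
    refine le_of_mul_le_mul_left ?_ ht
    linarith

/-- If many edges are short then few edges are much longer. -/
theorem bx_up (hM : MixS) (O : Type) [Field O] [CharZero O] (C κ K c : ℝ) (hC : 1 ≤ C) (hκ : 0 < κ)
    (hκ1 : κ ≤ 1) (hK : 1 ≤ K) (hc : 0 < c) (hc1 : 4 * c ≤ κ) :
    ∃ (J : ℕ) (L ω0 : ℝ), 1 ≤ L ∧ 0 < ω0 ∧
      ∀ (V : Type) [Fintype V] (E : V → V → Prop) (z w : V → O) (v : AbsoluteValue O ℝ)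
        (ω d t : ℝ), ω ≤ ω0 → Host E C κ K ω d → Re E z w → Ab v J → 0 < t →
        κ / 2 * d * NN V ≤ ed (fun a b => E a b ∧ v (z a - z b) ≤ t) univ univ →
        (ed (fun a b => E a b ∧ L * t ≤ v (z a - z b)) univ univ : ℝ) ≤ c * d * NN V := by
  have c0 : 0 ≤ K * (2 + K) / κ := by positivity
  have c1 : 0 < 1 + K + K * (2 + K) / κ := by positivity
  obtain ⟨J, G, ω0, g2, w0, HM⟩ := bx_mix hM O C K (c / 2 / (1 + K + K * (2 + K) / κ)) hC hK
    (by positivity) (by rw [div_le_one c1]; linarith)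
  obtain ⟨n, hn⟩ := exists_nat_ge (2 * K ^ 2 / (c * κ))
  rw [div_le_iff₀ (by positivity)] at hn
  have n0 : 0 < n := Nat.pos_of_ne_zero fun h => by rw [h] at hn; norm_num at hn; nlinarith
  have g1 : (1 : ℝ) ≤ G := by linarith
  refine ⟨J, G ^ n, ω0, one_le_pow₀ g1, w0, fun V _ E z w v ω d t hω H R hv ht h => ?_⟩
  have d0 := H.amb.dpos
  have N0 := H.amb.Npos
  have dN := mul_pos d0 N0
  obtain ⟨i, hi, h1⟩ := bx_step
    (fun i => ed (fun a b => E a b ∧ v (z a - z b) ≤ G ^ i * t) univ univ) (M := K * d * NN V)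
    (c := c * κ / (2 * K) * d * NN V) n0 (Nat.cast_nonneg _)
    (le_trans (Nat.cast_le.2 (bx_ed_le fun a _ b hb e => ⟨hb, e.1⟩))
      (ed_le_card_mul univ univ fun a _ => H.amb.hi a)) (by
      have : K ≤ n * (c * κ / (2 * K)) := by
        rw [← mul_div_assoc, le_div_iff₀ (by positivity)]; linarith
      nlinarith)
  have gi : t ≤ G ^ i * t := le_mul_of_one_le_left ht.le (one_le_pow₀ g1)
  have gj : G ^ i * t ≤ G ^ (i + 1) * t :=
    mul_le_mul_of_nonneg_right (pow_le_pow_right₀ g1 i.le_succ) ht.le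
  have h2 := bx_ed_add (E := fun a b => E a b ∧ v (z a - z b) ≤ G ^ (i + 1) * t)
    (A := fun a b => E a b ∧ v (z a - z b) ≤ G ^ i * t)
    (B := fun a b => E a b ∧ G ^ i * t < v (z a - z b) ∧ v (z a - z b) ≤ G ^ (i + 1) * t)
    (X := univ) (Y := univ) (fun a b q => ⟨q.1, q.2.trans gj⟩) (fun a b q => ⟨q.1, q.2.2⟩)
    fun a b q q' => q.2.not_gt q'.2.1
  have h3 := bx_dich H hκ (by linarith) (by positivity) (γ := c * κ / (2 * K)) (by positivity)
    (fun _ _ q => q.1) (fun _ _ q => q.1)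
    (fun a b q => ⟨H.amb.symm a b q.1, by rw [v.map_sub]; exact q.2⟩)
    (W := fun a b => E a b ∧ G ^ i * t < v (z a - z b) ∧ v (z a - z b) ≤ G ^ (i + 1) * t)
    (fun a b e => (le_or_gt (v (z a - z b)) (G ^ i * t)).imp (fun q => ⟨e, q⟩) fun q =>
      (le_total (G ^ (i + 1) * t) (v (z a - z b))).imp
        (fun q' => ⟨e, by rwa [pow_succ', mul_assoc] at q'⟩) fun q' => ⟨e, q, q'⟩)
    (by linarith) (HM V E z w v ω d (G ^ i * t) hω H.amb R hv (ht.trans_le gi))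
  have e : c / 2 / (1 + K + K * (2 + K) / κ) * (1 + K + K * (2 + K) / κ) +
      c * κ / (2 * K) * K / κ = c := by
    rw [div_mul_cancel₀ _ c1.ne']; field_simp; ring
  rw [e] at h3
  rcases h3 with h3 | h3
  · refine le_trans (Nat.cast_le.2 (bx_ed_le fun a _ b hb q => ⟨hb, q.1, le_trans ?_ q.2⟩)) h3
    rw [← mul_assoc, ← pow_succ']
    exact mul_le_mul_of_nonneg_right (pow_le_pow_right₀ g1 hi) ht.le
  · have h4 := (h.trans (Nat.cast_le.2 (bx_ed_le fun a _ b hb q => ⟨hb, q.1, q.2.trans gi⟩))).trans h3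
    nlinarith

theorem boxS (hM : MixS) : BoxS := by
  intro O _ _ C κ K ε hC hκ hκ1 hK hε
  obtain ⟨θ, t0, t1, t2⟩ : ∃ θ : ℝ, 0 < θ ∧ 2 * θ ≤ ε ∧ 4 * θ ≤ 1 :=
    ⟨min (ε / 2) (1 / 4), by positivity, by linarith [min_le_left (ε / 2) (1 / 4)],
      by linarith [min_le_right (ε / 2) (1 / 4)]⟩
  obtain ⟨c, c0, c1, n, ω1, n0, w1, HG⟩ := bx_giant C κ K θ hC hκ hκ1 hK t0
  obtain ⟨J, L, ω2, l1, w2, HU⟩ := bx_up hM O C κ K c hC hκ hκ1 hK c0 c1
  have n1 : (1 : ℝ) ≤ n := by exact_mod_cast n0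
  refine ⟨J, 4 * n * L, min ω1 ω2, by nlinarith, by positivity, ?_⟩
  intro V _ E z w v ω d hω H R hv
  have d0 := H.amb.dpos
  have N0 := H.amb.Npos
  have dN : 0 < κ / 2 * d * NN V := by positivity
  rw [le_min_iff] at hω
  obtain ⟨B, B0, hB⟩ : ∃ B : ℝ, 0 < B ∧ ∀ a b, v (z a - z b) < B ∧ v (w a - w b) < B := by
    obtain ⟨B, hB⟩ := (Set.finite_range fun q : V × V =>
      v (z q.1 - z q.2) + v (w q.1 - w q.2)).bddAbove
    refine ⟨|B| + 1, by positivity, fun a b => ?_⟩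
    have : v (z a - z b) + v (w a - w b) ≤ B := hB ⟨(a, b), rfl⟩
    constructor <;> linarith [le_abs_self B, v.nonneg (z a - z b), v.nonneg (w a - w b)]
  have h0 := card_mul_le_ed (E := E) univ univ fun a _ => H.lo a
  rw [card_univ] at h0
  obtain ⟨k, h1, h2⟩ := Nat.exists_not_and_succ_of_not_zero_of_exists (p := fun k : ℕ =>
    κ / 2 * d * NN V ≤ ed (fun a b => E a b ∧ v (z a - z b) ≤ 2 ^ k / B) univ univ) (by
      have : ed (fun a b => E a b ∧ v (z a - z b) ≤ 2 ^ 0 / B) univ univ = 0 :=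
        sum_eq_zero fun a _ => card_eq_zero.2 (eq_empty_of_forall_notMem fun b hb => by
          have h := (mem_nb.1 hb).2
          have h1 := bx_inv v R h.1
          have h2 := (le_div_iff₀ B0).1 h.2
          have h3 := (v.nonneg (z a - z b)).lt_of_ne' (left_ne_zero_of_mul_eq_one h1)
          nlinarith [(hB a b).2])
      rw [this, Nat.cast_zero]
      exact dN.not_ge) (by
      obtain ⟨k, hk⟩ := pow_unbounded_of_one_lt (B * B) (one_lt_two (α := ℝ))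
      refine ⟨k, le_trans (by linarith) (h0.trans (Nat.cast_le.2 (bx_ed_le fun a _ b hb e =>
        ⟨hb, e, (hB a b).1.le.trans ((le_div_iff₀ B0).2 hk.le)⟩)))⟩)
  obtain ⟨t, ht, e1, e2⟩ : ∃ t : ℝ, 0 < t ∧ 2 ^ (k + 1) / B = t ∧ 2 ^ k / B = t / 2 :=
    ⟨_, by positivity, rfl, by ring⟩
  rw [e1] at h2
  rw [e2] at h1
  have h3 := bx_ed_or (E := E) (A := fun a b => E a b ∧ v (z a - z b) ≤ t / 2)
    (B := fun a b => E a b ∧ v (w a - w b) ≤ 2 / t) (X := univ) (Y := univ) (Y1 := univ)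
    (Y2 := univ) fun a _ b hb e => (le_total (v (z a - z b)) (t / 2)).imp (fun q => ⟨hb, e, q⟩)
      fun q => ⟨hb, e, (le_div_iff₀ ht).2 (by
        nlinarith [bx_inv v R e, v.nonneg (w a - w b)])⟩
  obtain ⟨p1, k1⟩ := HG V O v E z ω d (L * t) hω.1 H hv.dbl (by positivity)
    (HU V E z w v ω d t hω.2 H R hv ht h2)
  obtain ⟨p2, k2⟩ := HG V O v E w ω d (L * (2 / t)) hω.1 H hv.dbl (by positivity)
    (HU V E w z v ω d (2 / t) hω.2 H ⟨R.winj, R.zinj, fun a b e => by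
      rw [mul_comm]; exact R.adj a b e⟩ hv (by positivity) (by linarith))
  have h4 : (((univ.filter fun a => ¬ v (z a - z p1) ≤ n * (L * t)) ∪
      univ.filter fun a => ¬ v (w a - w p2) ≤ n * (L * (2 / t))).card : ℝ) ≤ 2 * θ * NN V :=
    le_trans (by exact_mod_cast card_union_le _ _) ((add_le_add k1 k2).trans_eq (by ring))
  obtain ⟨p, -, hp⟩ := exists_mem_notMem_of_card_lt_card (t := univ) (s :=
    (univ.filter fun a => ¬ v (z a - z p1) ≤ n * (L * t)) ∪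
      univ.filter fun a => ¬ v (w a - w p2) ≤ n * (L * (2 / t))) (by
      rw [card_univ, ← Nat.cast_lt (α := ℝ)]
      nlinarith)
  simp only [mem_union, mem_filter, mem_univ, true_and, not_or, not_not] at hp
  refine ⟨p, t, ht, le_trans (Nat.cast_le.2 (card_le_card fun a ha => ?_))
    (h4.trans (mul_le_mul_of_nonneg_right t1 N0.le))⟩
  simp only [mem_union, mem_filter, mem_univ, true_and] at ha ⊢
  by_contra hn
  rw [not_or, not_not, not_not] at hn
  have a1 := v.sub_le (z a) (z p1) (z p)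
  have a2 := v.sub_le (w a) (w p2) (w p)
  rw [v.map_sub (z p1)] at a1
  rw [v.map_sub (w p2)] at a2
  have a3 : 0 ≤ n * (L * t) := by positivity
  have a4 : 4 * n * L / t = 2 * (n * (L * (2 / t))) := by ring
  exact ha ⟨by linarith [hn.1, hp.1], by linarith [hn.2, hp.2]⟩

end Pool.Agent.Lib.MP_439fea_co.Pw
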