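import Pool.Agent.Lib.MP_439fea_co.Pw.Asm

/-! Heavy cells, giant balls and the dichotomy for a splitting of the edges. -/

namespace Pool.Agent.Lib.MP_439fea_co.Pw
open Finset Pool.Agent.Lib.MP_439fea_co.Z
open scoped Classical

variable {V : Type} {E F A B W : V → V → Prop} {C κ K ω d : ℝ}

theorem bx_ed_le {X Y Y' : Finset V} (h : ∀ a ∈ X, ∀ b ∈ Y, F a b → b ∈ Y' ∧ E a b) :
    ed F X Y ≤ ed E X Y' :=
  sum_le_sum fun a ha => card_le_card fun b hb =>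
    mem_nb.2 (h a ha b (mem_nb.1 hb).1 (mem_nb.1 hb).2)

theorem bx_ed_or {X Y Y1 Y2 : Finset V}
    (h : ∀ a ∈ X, ∀ b ∈ Y, E a b → (b ∈ Y1 ∧ A a b) ∨ (b ∈ Y2 ∧ B a b)) :
    (ed E X Y : ℝ) ≤ ed A X Y1 + ed B X Y2 := by
  rw [← Nat.cast_add, Nat.cast_le]
  unfold ed
  rw [← sum_add_distrib]
  refine sum_le_sum fun a ha => le_trans (card_le_card fun b hb => ?_) (card_union_le _ _)
  rcases h a ha b (mem_nb.1 hb).1 (mem_nb.1 hb).2 with q | q
  · exact mem_union_left _ (mem_nb.2 q)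
  · exact mem_union_right _ (mem_nb.2 q)

theorem bx_ed_add {X Y : Finset V} (hA : ∀ a b, A a b → E a b) (hB : ∀ a b, B a b → E a b)
    (h : ∀ a b, A a b → ¬ B a b) : (ed A X Y : ℝ) + ed B X Y ≤ ed E X Y := by
  rw [← Nat.cast_add, Nat.cast_le]
  unfold ed
  rw [← sum_add_distrib]
  refine sum_le_sum fun a _ => ?_
  rw [← card_union_of_disjoint (disjoint_left.2 fun b h1 h2 =>
    h a b (mem_nb.1 h1).2 (mem_nb.1 h2).2)]
  refine card_le_card fun b hb => ?_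
  rcases mem_union.1 hb with q | q
  · exact mem_nb.2 ⟨(mem_nb.1 q).1, hA a b (mem_nb.1 q).2⟩
  · exact mem_nb.2 ⟨(mem_nb.1 q).1, hB a b (mem_nb.1 q).2⟩

theorem bx_step (u : ℕ → ℝ) {n : ℕ} {M c : ℝ} (hn : 0 < n) (h0 : 0 ≤ u 0) (h1 : u n ≤ M)
    (h2 : M ≤ n * c) : ∃ i < n, u (i + 1) ≤ u i + c := by
  by_contra! h
  have h3 := sum_lt_sum_of_nonempty (s := range n) (f := fun _ => c) (g := fun i => u (i + 1) - u i)
    ⟨0, mem_range.2 hn⟩ fun i hi => by linarith [h i (mem_range.1 hi)]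
  rw [sum_range_sub, sum_const, card_range, nsmul_eq_mul] at h3
  linarith

theorem bx_near {O : Type} [Field O] (v : AbsoluteValue O ℝ) {ρ : ℝ} (hρ : 0 ≤ ρ) {x y : O}
    (h : v (x - y) ≤ ρ) : Near v ρ x y :=
  ⟨Pi.single 0 (y - x), fun i => by
    by_cases q : i = 0
    · rw [q, Pi.single_eq_same, v.map_sub]; exact h
    · rw [Pi.single_eq_of_ne q, v.map_zero]; exact hρ, by simp⟩

theorem bx_heavy (C ξ α : ℝ) (hC : 1 ≤ C) (hξ : 0 < ξ) (hξ1 : ξ ≤ 1) (hα : 0 < α) (hα1 : α ≤ 1) :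
    ∃ δ : ℝ, 0 < δ ∧ δ ≤ 1 ∧ ∃ ω0 : ℝ, 0 < ω0 ∧ ∀ (V O : Type) [Fintype V] [Field O]
      (v : AbsoluteValue O ℝ) (E F : V → V → Prop) (f : V → O) (X : Finset V) (K ω d ρ : ℝ),
      ω ≤ ω0 → Amb E C K ω d → Dbl v → 0 < ρ → (∀ a b, F a b → E a b ∧ v (f a - f b) ≤ ρ) →
      α * NN V ≤ X.card → (∀ x ∈ X, ξ * d ≤ (nb F univ x).card) →
      ∃ p ∈ X, δ * NN V ≤ (X.filter fun x => v (f x - f p) ≤ ρ).card := by
  obtain ⟨m, hm⟩ : ∃ m, m = ξ * α / 4000 := ⟨_, rfl⟩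
  have m0 : 0 < m := by rw [hm]; positivity
  have m1 : m ≤ 1 := by rw [hm]; nlinarith
  obtain ⟨s, hs⟩ : ∃ s, s = ξ * m ^ 2 / (8 * C) := ⟨_, rfl⟩
  have s0 : 0 < s := by rw [hs]; positivity
  have s1 : s ≤ 1 := by
    rw [hs, div_le_one (by positivity)]
    nlinarith [mul_le_one₀ hξ1 (sq_nonneg m) (pow_le_one₀ m0.le m1)]
  refine ⟨s ^ 2, by positivity, pow_le_one₀ s0.le s1, min m s, by positivity, ?_⟩
  intro V O _ _ v E F f X K ω d ρ hω H hv hρ hF hX hdeg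
  by_contra! hn
  obtain ⟨lab, l1, l2⟩ := hv ρ hρ
  have N0 := H.Npos
  have d0 := H.dpos
  set T := X.image fun x => lab (f x) with hT
  set Xc := fun c => X.filter fun x => lab (f x) = c with hXc
  set Yc := fun c => univ.filter fun y => ∃ x ∈ Xc c, F x y with hYc
  have e1 : ∑ c ∈ T, ((Xc c).card : ℝ) = X.card := by
    rw [← Nat.cast_sum, ← card_eq_sum_card_image]
  have e2 : ∑ c ∈ T, ((Yc c).card : ℝ) ≤ 2000 * NN V := by
    have h1 : ∑ c ∈ T, (Yc c).card = ∑ y : V, (T.filter fun c => ∃ x ∈ Xc c, F x y).card := by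
      simp only [hYc, card_filter]
      exact sum_comm
    have h2 : ∀ y ∈ (univ : Finset V), (T.filter fun c => ∃ x ∈ Xc c, F x y).card ≤ 2000 :=
      fun y _ => by
        obtain ⟨U, u1, u2⟩ := l2 (f y)
        refine le_trans (card_le_card fun c hc => ?_) u1
        obtain ⟨x, hx, h⟩ := (mem_filter.1 hc).2
        rw [← (mem_filter.1 hx).2]
        exact u2 _ (bx_near v hρ.le (by rw [v.map_sub]; exact (hF x y h).2))
    have h3 := sum_le_card_nsmul _ _ _ h2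
    rw [← h1, card_univ, smul_eq_mul, mul_comm] at h3
    exact_mod_cast h3
  have e3 : ∀ c ∈ T, ξ * d * (Xc c).card ≤ m * d * (Yc c).card + ξ * d / 4 * (Xc c).card := by
    intro c hc
    obtain ⟨p, hp, rfl⟩ := mem_image.1 hc
    have h1 := card_mul_le_ed (E := F) (Xc (lab (f p))) univ fun x hx => hdeg x (mem_filter.1 hx).1
    have h2 : ed F (Xc (lab (f p))) univ ≤ ed E (Xc (lab (f p))) (Yc (lab (f p))) :=
      bx_ed_le fun a ha b _ h => ⟨mem_filter.2 ⟨mem_univ b, a, ha, h⟩, (hF a b h).1⟩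
    rw [ed_comm H.symm] at h2
    have h3 := H.stB (Yc (lab (f p))) (Xc (lab (f p))) m (hω.trans (min_le_left _ _)) m1
    have h4 : ((Xc (lab (f p))).card : ℝ) ≤ s ^ 2 * NN V :=
      le_trans (Nat.cast_le.2 (card_le_card fun x hx =>
        mem_filter.2 ⟨(mem_filter.1 hx).1, l1 _ _ (mem_filter.1 hx).2⟩)) (hn p hp).le
    have h5 : √((Xc (lab (f p))).card / NN V) ≤ s :=
      Real.sqrt_le_iff.2 ⟨s0.le, (div_le_iff₀ N0).2 h4⟩
    have h6 := mul_le_mul_of_nonneg_left (add_le_add h5 (hω.trans (min_le_right _ _)))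
      (show 0 ≤ C / m ^ 2 * d * (Xc (lab (f p))).card by positivity)
    have h7 : C / m ^ 2 * d * (Xc (lab (f p))).card * (s + s) =
        ξ * d / 4 * (Xc (lab (f p))).card := by
      rw [hs]; field_simp; ring
    have h8 : (ed F (Xc (lab (f p))) univ : ℝ) ≤ _ := Nat.cast_le.2 h2
    linarith
  have e4 := sum_le_sum e3
  rw [sum_add_distrib, ← mul_sum, ← mul_sum, ← mul_sum, e1] at e4
  have e5 := mul_le_mul_of_nonneg_left e2 (mul_pos m0 d0).le
  have e6 := mul_le_mul_of_nonneg_left hX (mul_pos hξ d0).le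
  have e7 : m * d * (2000 * NN V) = ξ * d * (α * NN V) / 2 := by rw [hm]; ring
  have e8 : 0 < ξ * d * (α * NN V) := by positivity
  linarith

variable [Fintype V]

theorem bx_few (H : Amb E C K ω d) (hB : ∀ a b, B a b → E a b) {ξ : ℝ} (hξ : 0 ≤ ξ)
    (T S : Finset V) (h : ∀ a ∈ T, a ∉ S → ((nb B univ a).card : ℝ) ≤ ξ * d) :
    (ed B T univ : ℝ) ≤ ξ * d * NN V + K * d * S.card := by
  have d0 := H.dpos
  have h1 : (ed B T univ : ℝ) ≤ ed B (T \ S) univ + ed B S univ := by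
    rw [← Nat.cast_add]
    refine Nat.cast_le.2 ((ed_mono (X' := T \ S ∪ S) (by simp) subset_rfl).trans ?_)
    unfold ed
    rw [sum_union sdiff_disjoint]
  have h2 := ed_le_card_mul (E := B) (T \ S) univ fun a ha =>
    h a (mem_sdiff.1 ha).1 (mem_sdiff.1 ha).2
  have h3 := ed_le_card_mul (E := B) S univ fun a _ => le_trans (Nat.cast_le.2 (card_le_card
    fun b hb => mem_nb.2 ⟨mem_univ b, hB a b (mem_nb.1 hb).2⟩)) (H.hi a)
  have h4 : ((T \ S).card : ℝ) ≤ NN V := Nat.cast_le.2 (card_le_univ _)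
  have h5 := mul_le_mul_of_nonneg_left h4 (mul_nonneg hξ d0.le)
  linarith

theorem bx_dich (H : Host E C κ K ω d) (hκ : 0 < κ) (hK : 0 < K) {ξ γ : ℝ} (hξ : 0 < ξ)
    (hγ : 0 ≤ γ) (hA : ∀ a b, A a b → E a b) (hB : ∀ a b, B a b → E a b)
    (sA : ∀ a b, A a b → A b a) (hE : ∀ a b, E a b → A a b ∨ B a b ∨ W a b)
    (hW : (ed W univ univ : ℝ) ≤ γ * d * NN V)
    (hM : ((univ.filter fun a => ξ * d ≤ (nb A univ a).card ∧ ξ * d ≤ (nb B univ a).card).card : ℝ)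
      ≤ ξ * NN V) :
    (ed B univ univ : ℝ) ≤ (ξ * (1 + K + K * (2 + K) / κ) + γ * K / κ) * d * NN V ∨
      (ed A univ univ : ℝ) ≤ (ξ * (1 + K + K * (2 + K) / κ) + γ * K / κ) * d * NN V := by
  have d0 := H.amb.dpos
  have N0 := H.amb.Npos
  set M := univ.filter fun a => ξ * d ≤ (nb A univ a).card ∧ ξ * d ≤ (nb B univ a).card with eM
  obtain ⟨T, hT⟩ : ∃ T : Finset V, ∀ a, a ∈ T ↔ ξ * d ≤ (nb B univ a).card :=
    ⟨univ.filter fun a => ξ * d ≤ (nb B univ a).card, fun a => by simp⟩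
  have a1 : ∀ a ∈ T, a ∉ M → ((nb A univ a).card : ℝ) ≤ ξ * d := fun a ha h =>
    le_of_not_ge fun q => h (mem_filter.2 ⟨mem_univ a, q, (hT a).1 ha⟩)
  have h1 := bx_few H.amb hA hξ.le T M a1
  have h2 := bx_few H.amb hB hξ.le Tᶜ ∅ fun a ha _ =>
    le_of_not_ge fun q => mem_compl.1 ha ((hT a).2 q)
  have h3 := bx_ed_or (E := E) (A := A) (B := fun a b => B a b ∨ W a b) (X := Tᶜ) (Y := T)
    (Y1 := T) (Y2 := univ) fun a _ b hb e => (hE a b e).imp (fun q => ⟨hb, q⟩)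
      fun q => ⟨mem_univ b, q⟩
  have h3' := bx_ed_or (E := fun a b => B a b ∨ W a b) (A := B) (B := W) (X := Tᶜ) (Y := univ)
    (Y1 := univ) (Y2 := univ) fun a _ b hb e => e.imp (fun q => ⟨hb, q⟩) fun q => ⟨hb, q⟩
  have h6 : (ed A Tᶜ T : ℝ) ≤ ed A T univ := by
    rw [ed_comm sA T univ]
    exact Nat.cast_le.2 (ed_mono (subset_univ _) subset_rfl)
  have h7 : (ed W Tᶜ univ : ℝ) ≤ ed W univ univ := Nat.cast_le.2 (ed_mono (subset_univ _) subset_rfl)
  have h4 := mul_le_mul_of_nonneg_left hM (mul_pos hK d0).le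
  have h5 : (ed E Tᶜ T : ℝ) ≤ (ξ * (2 + K) + γ) * d * NN V := by
    rw [card_empty, Nat.cast_zero] at h2
    linarith
  have key : ∀ S : Finset V, κ * d * S.card ≤ ed E Tᶜ T →
      K * d * S.card ≤ (ξ * (K * (2 + K) / κ) + γ * K / κ) * d * NN V := fun S h => by
    have := mul_le_mul_of_nonneg_left (h.trans h5) (div_pos hK hκ).le
    calc K * d * S.card = K / κ * (κ * d * S.card) := by field_simp
      _ ≤ _ := this
      _ = _ := by field_simp
  have p4 : 0 ≤ ξ * K * d * NN V := by positivity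
  have hc := card_add_card_compl T
  rcases le_total (2 * T.card) (Fintype.card V) with q | q
  · have k1 := key T (ed_comm H.amb.symm T Tᶜ ▸ H.ex T q)
    have k2 := bx_few H.amb hB hξ.le univ T fun a _ ha => le_of_not_ge fun q => ha ((hT a).2 q)
    left
    linarith
  · have k1 := key Tᶜ (by have := H.ex Tᶜ (by omega); rwa [compl_compl] at this)
    have k2 := bx_few H.amb hA hξ.le univ (M ∪ Tᶜ) fun a _ ha => by
      rw [mem_union, not_or, mem_compl, not_not] at ha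
      exact a1 a ha.2 ha.1
    have k3 : ((M ∪ Tᶜ).card : ℝ) ≤ M.card + Tᶜ.card := by exact_mod_cast card_union_le _ _
    have k4 := mul_le_mul_of_nonneg_left k3 (mul_pos hK d0).le
    right
    linarith

end Pool.Agent.Lib.MP_439fea_co.Pw
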