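import Pool.Agent.Lib.MP_439fea_co.Pw.Defs

/-! Boxes at all places. -/

namespace Pool.Agent.Lib.MP_439fea_co.Pw
open Finset Filter
open scoped Classical
noncomputable section

variable {O : Type} [Field O]

/-- A power of a nonarchimedean absolute value. -/
def avPow (v : AbsoluteValue O ℝ) (hv : IsNonarchimedean v) (m : ℕ) : AbsoluteValue O ℝ where
  toFun x := v x ^ (m + 1)
  map_mul' x y := by rw [map_mul, mul_pow]
  nonneg' x := pow_nonneg (v.nonneg x) _
  eq_zero' x := by simp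
  add_le' x y := by
    have a := pow_nonneg (v.nonneg x) (m + 1)
    have b := pow_nonneg (v.nonneg y) (m + 1)
    rcases le_max_iff.1 (hv x y) with k | k
    · linarith [pow_le_pow_left₀ (v.nonneg _) k (m + 1)]
    · linarith [pow_le_pow_left₀ (v.nonneg _) k (m + 1)]

variable {v : AbsoluteValue O ℝ}

theorem avPow_apply (hv : IsNonarchimedean v) (m : ℕ) (x : O) : avPow v hv m x = v x ^ (m + 1) :=
  rfl

theorem avPow_na (hv : IsNonarchimedean v) (m : ℕ) : IsNonarchimedean (avPow v hv m) := by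
  intro x y
  rcases le_max_iff.1 (hv x y) with k | k
  · exact le_max_of_le_left (pow_le_pow_left₀ (v.nonneg _) k (m + 1))
  · exact le_max_of_le_right (pow_le_pow_left₀ (v.nonneg _) k (m + 1))

theorem avPow_den (hv : IsNonarchimedean v) (hd : Den v) (m : ℕ) : Den (avPow v hv m) := by
  intro r t hr ht
  have hm : m + 1 ≠ 0 := m.succ_ne_zero
  have h0 : (0 : ℝ) < ((m + 1 : ℕ) : ℝ)⁻¹ := by positivity
  have hr' := Real.rpow_pos_of_pos hr ((m + 1 : ℕ) : ℝ)⁻¹
  obtain ⟨x, h1, h2⟩ := hd _ _ hr' (Real.one_lt_rpow ht h0)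
  refine ⟨x, ?_, ?_⟩
  · have := pow_le_pow_left₀ hr'.le h1 (m + 1)
    rwa [Real.rpow_inv_natCast_pow hr.le hm] at this
  · have := pow_le_pow_left₀ (v.nonneg x) h2 (m + 1)
    rwa [mul_pow, Real.rpow_inv_natCast_pow hr.le hm,
      Real.rpow_inv_natCast_pow (zero_le_one.trans ht.le) hm] at this

theorem exists_mid {V : Type} (G : Finset V) (f g : V → ℝ) (hf : ∀ a, 0 ≤ f a) (hg : ∀ a, 0 ≤ g a)
    (h : ∀ a ∈ G, ∀ b ∈ G, f a * g b ≤ 1) : ∃ R : ℝ, 0 < R ∧ ∀ a ∈ G, f a ≤ R ∧ g a ≤ 1 / R := by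
  rcases G.eq_empty_or_nonempty with rfl | hG
  · exact ⟨1, one_pos, by simp⟩
  obtain ⟨a, ha, h1⟩ := G.exists_max_image f hG
  rcases (hf a).lt_or_eq with h2 | h2
  · refine ⟨f a, h2, fun b hb => ⟨h1 b hb, ?_⟩⟩
    rw [le_div_iff₀ h2, mul_comm]
    exact h a ha b hb
  · obtain ⟨b, -, h3⟩ := G.exists_max_image g hG
    have h4 : 0 < 1 / (g b + 1) := by
      have := hg b
      positivity
    refine ⟨1 / (g b + 1), h4, fun c hc => ⟨((h1 c hc).trans h2.ge).trans h4.le, ?_⟩⟩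
    rw [one_div_one_div]
    linarith [h3 c hc]

theorem box_one {V : Type} [Fintype V] (hv : IsNonarchimedean v) {z w : V → O} {B t : ℝ}
    (h : ∀ m, Box (avPow v hv m) z w B t) : Box v z w 1 t := by
  have h1 : ∀ᶠ m : ℕ in atTop, ∀ q : V × V × V, 1 < v (z q.1 - z q.2.2) * v (w q.2.1 - w q.2.2) →
      B ^ 2 < (v (z q.1 - z q.2.2) * v (w q.2.1 - w q.2.2)) ^ (m + 1) := by
    refine eventually_all.2 fun q => ?_
    by_cases k : 1 < v (z q.1 - z q.2.2) * v (w q.2.1 - w q.2.2)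
    · exact (((tendsto_pow_atTop_atTop_of_one_lt k).comp
        (tendsto_add_atTop_nat 1)).eventually_gt_atTop _).mono fun m hm _ => hm
    · exact .of_forall fun m k' => (k k').elim
  obtain ⟨m, hm⟩ := h1.exists
  obtain ⟨p, R, hR, hc⟩ := h m
  obtain ⟨R', hR', k⟩ := exists_mid (univ.filter fun a =>
      avPow v hv m (z a - z p) ≤ B * R ∧ avPow v hv m (w a - w p) ≤ B / R)
    (fun a => v (z a - z p)) (fun a => v (w a - w p)) (fun _ => v.nonneg _) (fun _ => v.nonneg _)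
    fun a ha b hb => by
      by_contra hn
      have h2 := hm (a, b, p) (not_le.1 hn)
      have h3 := (mem_filter.1 ha).2.1
      have h4 := mul_le_mul h3 (mem_filter.1 hb).2.2 ((avPow v hv m).nonneg _)
        (((avPow v hv m).nonneg _).trans h3)
      rw [avPow_apply, avPow_apply, ← mul_pow] at h4
      have h5 : B * R * (B / R) = B ^ 2 := by field_simp
      exact absurd (h2.trans_le h4) (by rw [h5]; exact lt_irrefl _)
  refine ⟨p, R', hR', le_trans (Nat.cast_le.2 (card_le_card fun a ha => ?_)) hc⟩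
  refine mem_filter.2 ⟨mem_univ _, fun hn => (mem_filter.1 ha).2 ?_⟩
  rw [one_mul]
  exact k a (mem_filter.2 ⟨mem_univ _, hn⟩)

theorem boxAllS (hB : BoxS) (hD : DblS) : BoxAllS := by
  intro O _ _ C κ K ε hC hκ hκ1 hK hε
  obtain ⟨J, B, ω0, hB1, hω0, hB⟩ := hB O C κ K ε hC hκ hκ1 hK hε
  refine ⟨max 1 ((J + 1) * Real.log B), ω0, le_max_left _ _, hω0,
    fun V _ E z w P ω d hω hH hR => ?_⟩
  obtain ⟨S, hS, hS'⟩ := P.sm J
  refine ⟨fun i => if i ∈ S then B else 1, fun i => ?_, fun T => ?_, fun i => ?_⟩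
  · dsimp only
    split_ifs
    · exact hB1
    · exact le_rfl
  · have h1 : ∑ i ∈ T, P.wt i * Real.log (if i ∈ S then B else 1) =
        (∑ i ∈ T.filter (· ∈ S), P.wt i) * Real.log B := by
      rw [sum_filter, sum_mul]
      refine sum_congr rfl fun i _ => ?_
      split_ifs <;> simp
    have h2 : ∑ i ∈ T.filter (· ∈ S), P.wt i ≤ ∑ i ∈ S, P.wt i :=
      sum_le_sum_of_subset_of_nonneg (fun i hi => (mem_filter.1 hi).2) fun i _ _ => (P.pos i).le
    exact h1.le.trans (le_max_of_le_right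
      (mul_le_mul_of_nonneg_right (h2.trans hS) (Real.log_nonneg hB1)))
  · dsimp only
    split_ifs with hi
    · refine hB V E z w _ ω d hω hH hR ⟨fun n h1 _ => P.nat i n h1, P.den i, hD O _ ?_⟩
      by_cases ha : i ∈ P.ar
      · exact .inr (P.arc i ha)
      · exact .inl (P.na i ha)
    · obtain ⟨ha, h1⟩ := hS' i hi
      refine box_one (P.na i ha) (B := B) fun m => hB V E z w _ ω d hω hH hR
        ⟨fun n h2 h3 => ?_, avPow_den _ (P.den i) m, hD O _ (.inl (avPow_na _ m))⟩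
      rw [avPow_apply, h1 n h2 h3, one_pow, mul_one]
      exact_mod_cast h2

end
end Pool.Agent.Lib.MP_439fea_co.Pw
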