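import Pool.Agent.Lib.MP_439fea_co.Pw.ClB

/-! The cluster lemma. -/

namespace Pool.Agent.Lib.MP_439fea_co.Pw
open Finset Pool.Agent.Lib.MP_439fea_co.Z
open scoped Classical
noncomputable section

namespace Mx
variable {V O : Type} [Field O] {D : Mx V O} [Fintype V] {e c ω : ℝ}

theorem exists_scale (hz : Function.Injective D.Z)
    (hX : ∀ a ∈ D.X, D.v (D.Z a) ≤ 1 ∧ D.v (D.W a) ≤ 1) {L : ℝ}
    (h1 : ∀ a, ((D.H {a}).card : ℝ) * (D.U {a}).card ≤ L)
    (h2 : L < ((D.H D.X).card : ℝ) * (D.U D.X).card) (a : V) : ∃ n, a ∈ D.X →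
      L < ((D.H (D.ball a (rr n))).card : ℝ) * (D.U (D.ball a (rr n))).card ∧
      ((D.H (D.ball a (rr n / 2))).card : ℝ) * (D.U (D.ball a (rr n / 2))).card ≤ L := by
  have mono : ∀ {S T : Finset V}, S ⊆ T → ((D.H S).card : ℝ) * (D.U S).card ≤
      ((D.H T).card : ℝ) * (D.U T).card := fun h =>
    mul_le_mul (D.cardH h) (D.cardU h) (Nat.cast_nonneg _) (Nat.cast_nonneg _)
  have ex : ∃ n, ((D.H (D.ball a (rr (n + 1)))).card : ℝ) * (D.U (D.ball a (rr (n + 1)))).card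
      ≤ L := by
    have h3 : ∀ x, ∃ i, x ≠ a → rr i < D.v (D.Z x - D.Z a) := fun x => by
      by_cases hx : x = a
      · exact ⟨0, fun h => absurd hx h⟩
      have hp : 0 < D.v (D.Z x - D.Z a) / 2 :=
        half_pos (D.v.pos (sub_ne_zero.2 fun h => hx (hz h)))
      obtain ⟨i, hi⟩ := exists_pow_lt_of_lt_one hp (show (1 / 2 : ℝ) < 1 by norm_num)
      refine ⟨i, fun _ => ?_⟩
      have : rr i = 2 * (1 / 2) ^ i := by rw [rr, one_div, inv_pow, div_eq_mul_inv]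
      linarith
    choose i hi using h3
    refine ⟨univ.sup i, (mono fun x hx => mem_singleton.2 ?_).trans (h1 a)⟩
    by_contra hxa
    have h4 := rr_anti ((le_sup (f := i) (mem_univ x)).trans (Nat.le_succ _))
    linarith [hi x hxa, (D.mem_ball.1 hx).2.1]
  refine ⟨Nat.find ex, fun ha => ⟨?_, rr_succ _ ▸ Nat.find_spec ex⟩⟩
  rcases h0 : Nat.find ex with _ | m
  · refine h2.trans_le (mono fun x hx => D.mem_ball.2 ⟨hx, ?_, ?_⟩)
    · have := D.v.sub_le_add (D.Z x) (D.Z a)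
      rw [rr]
      linarith [(hX x hx).1, (hX a ha).1]
    · have := D.v.sub_le_add (D.W x) (D.W a)
      rw [rr]
      linarith [(hX x hx).2, (hX a ha).2]
  · exact not_le.1 (Nat.find_min ex (by omega))

theorem Fl.centres (h : D.Fl e c ω) (h' : D.sw.Fl e c ω) (he : e ≤ 1 / 200) (n : V → ℕ) {ε : ℝ}
    (hN : 0 < NN V) (S : Finset V)
    (h1 : ∀ a ∈ S, ε ^ 2 * NN V < (D.H (D.sl a (rr (n a)))).card)
    (h2 : ∀ a ∈ S, ε ^ 2 * NN V < (D.sw.H (D.sw.sl a (rr (n a)))).card) :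
    ∃ (T : Finset V) (ct : V → V), T ⊆ S ∧ (T.card : ℝ) * ε ^ 4 ≤ 1 ∧
      ∀ a ∈ S, ct a ∈ T ∧ D.ds a (ct a) ≤ rr (n (ct a)) / 4 := by
  let P : V → Finset (V × V) := fun a =>
    D.H (D.sl a (rr (n a))) ×ˢ D.sw.H (D.sw.sl a (rr (n a)))
  have h0 : 0 ≤ ε ^ 2 * NN V := by positivity
  have hP : ∀ a ∈ S, ε ^ 2 * NN V * (ε ^ 2 * NN V) < (P a).card := fun a ha => by
    simp only [P]
    rw [card_product, Nat.cast_mul]
    exact mul_lt_mul'' (h1 a ha) (h2 a ha) h0 h0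
  obtain ⟨T, hT, t1, t2⟩ := cl_greedy n (fun a a' => ∃ y, y ∈ P a ∧ y ∈ P a')
    (fun a a' ⟨y, y1, y2⟩ => ⟨y, y2, y1⟩) S fun a ha => by
      have h3 : (0 : ℝ) < (P a).card := (mul_nonneg h0 h0).trans_lt (hP a ha)
      obtain ⟨y, hy⟩ := card_pos.1 (Nat.cast_pos.1 h3)
      exact ⟨y, hy, hy⟩
  choose! ct c1 c2 c3 using t2
  refine ⟨T, ct, hT, ?_, fun a ha => ⟨c1 a ha, ?_⟩⟩
  · have s1 := cl_sum_le T P univ 1 (fun _ _ => subset_univ _) fun y _ =>
      card_le_one.2 fun a ha a' ha' => t1 a (mem_filter.1 ha).1 a' (mem_filter.1 ha').1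
        ⟨y, (mem_filter.1 ha).2, (mem_filter.1 ha').2⟩
    have s2 : ∑ _a ∈ T, ε ^ 2 * NN V * (ε ^ 2 * NN V) ≤ ∑ a ∈ T, ((P a).card : ℝ) :=
      sum_le_sum fun a ha => (hP a (hT ha)).le
    rw [sum_const, nsmul_eq_mul] at s2
    rw [card_univ, Fintype.card_prod, Nat.cast_mul, Nat.cast_one] at s1
    refine le_of_mul_le_mul_right ?_ (mul_pos hN hN)
    have s3 := s2.trans s1
    unfold NN at *
    nlinarith
  · obtain ⟨y, y1, y2⟩ := c3 a ha
    exact h.cross h' he (rr_anti (c2 a ha)) (mem_product.1 y1).1 (mem_product.1 y2).1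
      (mem_product.1 y1).2 (mem_product.1 y2).2

/-- Fine rows inside the clusters. -/
theorem Fl.fine (h : D.Fl e c ω) (hc : 0 ≤ c) (he0 : 0 ≤ e) {A : ℝ} (hA : 0 < A)
    (he : e * A ≤ 1 / 2) (hd : Dbl D.v) {S T : Finset V} (hS : S ⊆ D.X) (ct : V → V) (r : V → ℝ)
    (hr : ∀ a, 0 < r a) (h1 : ∀ a ∈ S, ct a ∈ T ∧ D.ds a (ct a) ≤ r (ct a) / 4) {M : ℕ}
    (hM : T.card ≤ M) {ε : ℝ} (hε : ω ≤ ε) (hε0 : 0 < ε) (hN : 0 < NN V) :
    ∃ S' ⊆ S, ∃ q : V → V × Set O, (S.card : ℝ) ≤ S'.card + c * ε * ((2000 * M : ℕ) * NN V) ∧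
      ((S'.image q).card : ℝ) * ε ^ 2 ≤ (2000 * M : ℕ) ∧
      ∀ a a', q a = q a' → ct a = ct a' ∧ D.v (D.W a - D.W a') ≤ r (ct a') / (4 * A) := by
  choose lab hl1 hl2 using fun a => hd (r a / (4 * A)) (div_pos (hr a) (by positivity))
  let q : V → V × Set O := fun a => (ct a, lab (ct a) (D.W a))
  obtain ⟨S', s1, s2, s3⟩ := h.rows hc hS q (2000 * M) (fun b hb => by
    refine (card_le_mul_card_image (f := Prod.fst) _ 2000 fun i hi => ?_).trans
      (Nat.mul_le_mul_left _ ((card_le_card fun i hi => ?_).trans hM))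
    · obtain ⟨t, ht, rfl⟩ := mem_image.1 hi
      obtain ⟨x, hx, rfl⟩ := mem_image.1 ht
      obtain ⟨x1, x2⟩ := mem_filter.1 hx
      obtain ⟨T1, c1, d1⟩ := hl2 (ct x) (D.W x)
      refine (card_le_card (t := T1.image fun u => (ct x, u)) fun t2 ht2 => ?_).trans
        (card_image_le.trans c1)
      obtain ⟨m1, m2⟩ := mem_filter.1 ht2
      obtain ⟨y, hy, rfl⟩ := mem_image.1 m1
      obtain ⟨y1, y2⟩ := mem_filter.1 hy
      have m3 : ct y = ct x := m2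
      refine mem_image.2 ⟨lab (ct x) (D.W y), d1 _ (near_one _ ?_), by simp only [q, m3]⟩
      have l1 := h.lip y (hS y1) x (hS x1) b hb y2 x2
      have a1 := (max_le_iff.1 (h1 x x1).2).1
      have a2 := (max_le_iff.1 (h1 y y1).2).1
      rw [m3] at a2
      have a3 := D.v.sub_le (D.Z y) (D.Z (ct x)) (D.Z x)
      rw [D.v.map_sub (D.Z (ct x))] at a3
      have a4 : e * D.v (D.Z y - D.Z x) ≤ e * (r (ct x) / 2) :=
        mul_le_mul_of_nonneg_left (by linarith) he0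
      rw [le_div_iff₀ (by positivity)]
      nlinarith [hr (ct x)]
    · obtain ⟨t, ht, rfl⟩ := mem_image.1 hi
      obtain ⟨x, hx, rfl⟩ := mem_image.1 ht
      exact (h1 x (mem_filter.1 hx).1).1) hε hε0 hN
  refine ⟨S', s1, q, s2, s3, fun a a' hq => ?_⟩
  obtain ⟨a1, a2⟩ : ct a = ct a' ∧ lab (ct a) (D.W a) = lab (ct a') (D.W a') := by
    simpa only [q, Prod.mk.injEq] using hq
  rw [a1] at a2
  exact ⟨a1, hl1 _ _ _ a2⟩

end Mx

theorem clusterS : ClusterS := by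
  intro C K k δ g hC hK hk hk1 hδ hg
  obtain ⟨c, hc⟩ : ∃ c, c = 16 * C / k ^ 3 := ⟨_, rfl⟩
  have hc0 : 0 < c := by rw [hc]; positivity
  obtain ⟨ε1, e1⟩ : ∃ ε1, ε1 = min g (δ * g ^ 2 / (8 * c * 20000000)) := ⟨_, rfl⟩
  have p1 : 0 < ε1 := by rw [e1]; positivity
  obtain ⟨M1, hM1⟩ := exists_nat_ge (1 / ε1 ^ 4)
  have q1 : (0 : ℝ) < (2000 * M1 : ℕ) := by
    have : (0 : ℝ) < M1 := lt_of_lt_of_le (by positivity) hM1
    push_cast
    positivity
  obtain ⟨ε2, e2⟩ : ∃ ε2 : ℝ, ε2 = δ / (8 * c * (2000 * M1 : ℕ)) := ⟨_, rfl⟩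
  have p2 : 0 < ε2 := by rw [e2]; positivity
  obtain ⟨M2, hM2⟩ := exists_nat_ge (((2000 * M1 : ℕ) : ℝ) / ε2 ^ 2)
  have q2 : 0 < M2 := Nat.cast_pos.1 (lt_of_lt_of_le (by positivity) hM2)
  refine ⟨M2 * M2 + 1, min (min (k / 2) (g / (K * C))) (min ε1 ε2), by positivity,
    fun A hA => ⟨12800 * A, fun V O _ _ D ω hω hd ok => ?_⟩⟩
  simp only [le_min_iff] at hω
  obtain ⟨⟨w1, w2⟩, w3, w4⟩ := hω
  have hN := ok.amb.Npos
  have hA0 : 0 < A := by linarith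
  have h : D.Fl (64 / (12800 * A)) c ω := hc ▸ Mx.fl_of ok.amb hC hk hk1 w1 (by linarith) ok.adj
    ok.μbig (fun a ha => (ok.hX a ha).1) ok.hY ok.loH
  have h' : D.sw.Fl (64 / (12800 * A)) c ω := hc ▸ Mx.fl_of (D := D.sw) ok.amb hC hk hk1 w1
    (by linarith) (fun a b hab => (mul_comm _ _).trans (ok.adj a b hab)) ok.μbig
    (fun a ha => (ok.hX a ha).2) ok.hY' ok.loU
  have he0 : 0 ≤ 64 / (12800 * A) := by positivity
  have he : 64 / (12800 * A) ≤ 1 / 200 := by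
    rw [div_le_iff₀ (by positivity)]
    linarith
  have heA : 64 / (12800 * A) * A ≤ 1 / 2 := by
    rw [div_mul_eq_mul_div, div_le_iff₀ (by positivity)]
    linarith
  obtain ⟨x0, hx0⟩ : D.X.Nonempty :=
    card_pos.1 (Nat.cast_pos.1 ((mul_pos hδ hN).trans_le ok.cX))
  have mono : ∀ {S T : Finset V}, S ⊆ T → ((D.H S).card : ℝ) * (D.U S).card ≤
      ((D.H T).card : ℝ) * (D.U T).card := fun h =>
    mul_le_mul (D.cardH h) (D.cardU h) (Nat.cast_nonneg _) (Nat.cast_nonneg _)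
  by_cases hall : ((D.H D.X).card : ℝ) * (D.U D.X).card ≤ g ^ 2 * NN V ^ 2
  · refine Mx.pack D.X (Subset.refl _) (by nlinarith [ok.cX]) (fun _ => ())
      ((card_le_univ _).trans (Nat.mul_pos q2 q2)) hx0 (fun _ => 2) (fun _ => two_pos)
      (fun a ha a' ha' _ => max_le ?_ ?_) fun a _ => (mono (filter_subset _ _)).trans hall
    · linarith [D.v.sub_le_add (D.Z a) (D.Z a'), (ok.hX a ha).1, (ok.hX a' ha').1]
    · linarith [D.v.sub_le_add (D.W a) (D.W a'), (ok.hX a ha).2, (ok.hX a' ha').2]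
  have hK' : K * D.d ≤ g * NN V := by
    have d1 := ok.amb.one_le
    have d2 := ok.amb.big
    have d3 := ok.amb.cub
    rw [le_div_iff₀ (by positivity)] at w2
    have d4 : K * C ≤ g * D.d := by nlinarith [mul_pos (by linarith : 0 < K) (by linarith : 0 < C)]
    have d5 : D.d * D.d ≤ C * NN V := by nlinarith
    refine le_of_mul_le_mul_left ?_ (show 0 < C by linarith)
    nlinarith
  have one : ∀ a, ((D.H {a}).card : ℝ) * (D.U {a}).card ≤ g ^ 2 * NN V ^ 2 := fun a => by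
    have f : ∀ Y : Finset V, ((Y.filter fun b => ∃ x ∈ ({a} : Finset V), D.E x b).card : ℝ) ≤
        g * NN V := fun Y => by
      refine le_trans (Nat.cast_le.2 (card_le_card fun b hb => ?_)) ((ok.amb.hi a).trans hK')
      obtain ⟨x, hx, hb'⟩ := (mem_filter.1 hb).2
      exact mem_filter.2 ⟨mem_univ _, mem_singleton.1 hx ▸ hb'⟩
    rw [← mul_pow, sq]
    exact mul_le_mul (f _) (f _) (Nat.cast_nonneg _) (by positivity)
  choose n hn using Mx.exists_scale ok.zinj ok.hX one (not_le.1 hall)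
  have le : ∀ S : Finset V, (S.card : ℝ) ≤ NN V := fun S => Nat.cast_le.2 (card_le_univ S)
  have hH : ∀ a ∈ D.X, g ^ 2 * NN V < (D.H (D.ball a (rr (n a)))).card := fun a ha => by
    have := (hn a ha).1.trans_le (mul_le_mul_of_nonneg_left (le _) (Nat.cast_nonneg _))
    exact lt_of_mul_lt_mul_right (by nlinarith) hN.le
  have hU : ∀ a ∈ D.X, g ^ 2 * NN V < (D.U (D.ball a (rr (n a)))).card := fun a ha => by
    have := (hn a ha).1.trans_le (mul_le_mul_of_nonneg_right (le _) (Nat.cast_nonneg _))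
    exact lt_of_mul_lt_mul_right (by nlinarith) hN.le
  have g1 : ε1 ≤ g := e1 ▸ min_le_left _ _
  have g2 : c * ε1 * (20000000 * NN V) ≤ δ / 8 * NN V * g ^ 2 := by
    have : ε1 ≤ δ * g ^ 2 / (8 * c * 20000000) := e1 ▸ min_le_right _ _
    rw [le_div_iff₀ (by positivity)] at this
    nlinarith
  have g3 : c * ε2 * ((2000 * M1 : ℕ) * NN V) = δ / 8 * NN V := by
    rw [e2]
    field_simp
  have t1 := le_of_mul_le_mul_right
    ((h.thin h' he0 he hc0.le hd n w3 p1 g1 hN hH hU).trans g2) (by positivity)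
  have t2 := le_of_mul_le_mul_right ((h'.thin (D := D.sw) h he0 he hc0.le hd n w3 p1 g1 hN
    (fun a ha => D.sw_ball a _ ▸ hU a ha) (fun a ha => D.sw_ball a _ ▸ hH a ha)).trans g2)
    (by positivity)
  set S1 := D.X.filter fun a => ε1 ^ 2 * NN V < (D.H (D.sl a (rr (n a)))).card ∧
    ε1 ^ 2 * NN V < (D.sw.H (D.sw.sl a (rr (n a)))).card with hS1
  have t3 : (D.X.card : ℝ) ≤ S1.card + δ / 8 * NN V + δ / 8 * NN V := by
    refine le_trans ?_ (add_le_add (add_le_add_right t1 _) t2)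
    rw [← Nat.cast_add, ← Nat.cast_add, Nat.cast_le]
    refine (card_le_card fun a ha => ?_).trans
      ((card_union_le _ _).trans (Nat.add_le_add_right (card_union_le _ _) _))
    simp only [hS1, mem_union, mem_filter]
    have ha' : a ∈ D.sw.X := ha
    simp only [ha, ha', true_and, ← not_lt]
    tauto
  obtain ⟨T, ct, hT, c1, c2⟩ := h.centres h' he n hN S1 (fun a ha => (mem_filter.1 ha).2.1)
    fun a ha => (mem_filter.1 ha).2.2
  have c3 : T.card ≤ M1 := by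
    rw [← le_div_iff₀ (by positivity)] at c1
    exact_mod_cast c1.trans hM1
  have hS1X : S1 ⊆ D.X := filter_subset _ _
  obtain ⟨S2, s2, qa, a1, a2, a3⟩ := h.fine hc0.le he0 hA0 heA hd hS1X ct (fun a => rr (n a))
    (fun a => rr_pos _) c2 c3 w4 p2 hN
  obtain ⟨S3, s3, qb, b1, b2, b3⟩ := h'.fine (D := D.sw) hc0.le he0 hA0 heA hd (s2.trans hS1X) ct
    (fun a => rr (n a)) (fun a => rr_pos _) (fun a ha => D.sw_ds _ _ ▸ c2 a (s2 ha)) c3 w4 p2 hN
  have m : ∀ {j : ℕ}, (j : ℝ) * ε2 ^ 2 ≤ (2000 * M1 : ℕ) → j ≤ M2 := fun hj => by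
    rw [← le_div_iff₀ (by positivity)] at hj
    exact_mod_cast hj.trans hM2
  refine Mx.pack S3 ((s3.trans s2).trans hS1X) (by linarith [ok.cX]) (fun a => (qa a, qb a)) ?_ hx0
    (fun a => rr (n (ct a)) / (4 * A)) (fun a => div_pos (rr_pos _) (by positivity))
    (fun a _ a' _ hq => max_le (b3 a a' (congrArg Prod.snd hq)).2
      (a3 a a' (congrArg Prod.fst hq)).2) fun a ha => ?_
  · refine (card_le_card (t := S2.image qa ×ˢ S3.image qb) fun t ht => ?_).trans ?_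
    · obtain ⟨a, ha, rfl⟩ := mem_image.1 ht
      exact mem_product.2 ⟨mem_image_of_mem _ (s3 ha), mem_image_of_mem _ ha⟩
    · rw [card_product]
      exact Nat.mul_le_mul (m a2) (m b2)
  · obtain ⟨d1, d2⟩ := c2 a (s2 (s3 ha))
    refine (mono fun x hx => ?_).trans (hn _ (hS1X (hT d1))).2
    have d3 : A * (rr (n (ct a)) / (4 * A)) = rr (n (ct a)) / 4 := by field_simp
    rw [d3] at hx
    obtain ⟨x0, x1, x2⟩ := D.mem_ball.1 hx
    obtain ⟨y1, y2⟩ := max_le_iff.1 d2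
    exact D.mem_ball.2 ⟨x0, by linarith [D.v.sub_le (D.Z x) (D.Z a) (D.Z (ct a))],
      by linarith [D.v.sub_le (D.W x) (D.W a) (D.W (ct a))]⟩

end
end Pool.Agent.Lib.MP_439fea_co.Pw
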