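import Pool.Agent.Lib.MP_439fea_co.Pw.Asm

/-! Counting tools for the cluster lemma. -/

namespace Pool.Agent.Lib.MP_439fea_co.Pw
open Finset Pool.Agent.Lib.MP_439fea_co.Z
open scoped Classical
noncomputable section

theorem cl_sum_le {β γ : Type} [DecidableEq γ] (T : Finset β) (P : β → Finset γ) (Ω : Finset γ)
    (D : ℕ) (hP : ∀ q ∈ T, P q ⊆ Ω) (h : ∀ y ∈ Ω, (T.filter fun q => y ∈ P q).card ≤ D) :
    ∑ q ∈ T, ((P q).card : ℝ) ≤ D * Ω.card := by
  have h0 : ∑ q ∈ T, (P q).card ≤ D * Ω.card := by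
    calc ∑ q ∈ T, (P q).card = ∑ q ∈ T, ∑ y ∈ Ω, if y ∈ P q then 1 else 0 := by
          refine sum_congr rfl fun q hq => ?_
          rw [← card_filter, filter_mem_eq_inter, inter_eq_right.2 (hP q hq)]
      _ = ∑ y ∈ Ω, (T.filter fun q => y ∈ P q).card := by
          rw [sum_comm]
          simp only [card_filter]
      _ ≤ ∑ _y ∈ Ω, D := sum_le_sum h
      _ = D * Ω.card := by rw [sum_const, smul_eq_mul, mul_comm]
  exact_mod_cast h0

theorem cl_greedy {α : Type} (n : α → ℕ) (R : α → α → Prop) (hs : ∀ a b, R a b → R b a)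
    (s : Finset α) (hr : ∀ a ∈ s, R a a) :
    ∃ t ⊆ s, (∀ a ∈ t, ∀ b ∈ t, R a b → a = b) ∧ ∀ a ∈ s, ∃ c ∈ t, n c ≤ n a ∧ R c a := by
  induction s using Finset.strongInduction with
  | H s ih =>
    rcases s.eq_empty_or_nonempty with rfl | hne
    · exact ⟨∅, Subset.refl _, by simp, by simp⟩
    obtain ⟨c, hc, hmin⟩ := s.exists_min_image n hne
    have hss : s.filter (fun a => ¬ R c a) ⊂ s :=
      filter_ssubset.2 ⟨c, hc, not_not.2 (hr c hc)⟩
    obtain ⟨t, ht, h1, h2⟩ := ih _ hss fun a ha => hr a (mem_filter.1 ha).1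
    refine ⟨insert c t, insert_subset hc (ht.trans (filter_subset _ _)), ?_, ?_⟩
    · intro a ha b hb hab
      rcases mem_insert.1 ha with rfl | ha' <;> rcases mem_insert.1 hb with rfl | hb'
      · rfl
      · exact absurd hab (mem_filter.1 (ht hb')).2
      · exact absurd (hs _ _ hab) (mem_filter.1 (ht ha')).2
      · exact h1 a ha' b hb' hab
    · intro a ha
      by_cases h : R c a
      · exact ⟨c, mem_insert_self _ _, hmin a ha, h⟩
      · obtain ⟨c', hc', h3⟩ := h2 a (mem_filter.2 ⟨ha, h⟩)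
        exact ⟨c', mem_insert_of_mem hc', h3⟩

theorem cl_fib {α β : Type} [DecidableEq β] (S : Finset α) (q : α → β) (w : β → ℝ)
    (h : ∀ a ∈ S, ((S.filter fun x => q x = q a).card : ℝ) ≤ w (q a)) :
    (S.card : ℝ) ≤ ∑ t ∈ S.image q, w t := by
  rw [card_eq_sum_card_image q S, Nat.cast_sum]
  refine sum_le_sum fun t ht => ?_
  obtain ⟨a, ha, rfl⟩ := mem_image.1 ht
  exact h a ha

theorem near_of {O : Type} [Field O] (v : AbsoluteValue O ℝ) {ρ : ℝ} (hρ : 0 ≤ ρ)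
    {x a b c d y : O} (h1 : v (a - x) ≤ ρ) (h2 : v (b - a) ≤ ρ) (h3 : v (c - b) ≤ ρ)
    (h4 : v (d - c) ≤ ρ) (h5 : v (y - d) ≤ ρ) : Near v ρ x y := by
  refine ⟨![a - x, b - a, c - b, d - c, y - d, 0, 0, 0], fun i => ?_, ?_⟩
  · fin_cases i <;> simp [*]
  · simp [Fin.sum_univ_succ]

theorem near_one {O : Type} [Field O] (v : AbsoluteValue O ℝ) {ρ : ℝ} {x y : O}
    (h : v (y - x) ≤ ρ) : Near v ρ x y := by
  have hρ : 0 ≤ ρ := (v.nonneg _).trans h
  have h0 : v (x - x) ≤ ρ := by simpa using hρ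
  exact near_of v hρ h0 h0 h0 h0 h

namespace Mx
variable {V O : Type} [Field O] (D : Mx V O)

/-- The two coordinates exchanged. -/
def sw : Mx V O := { D with Z := D.W, W := D.Z, Y := D.Y', Y' := D.Y }

/-- Points of the box within distance `r` of `a`. -/
def ball (a : V) (r : ℝ) : Finset V := D.X.filter fun x => D.ds x a ≤ r

theorem sw_ds (a b : V) : D.sw.ds a b = D.ds a b := max_comm _ _

theorem sw_ball (a : V) (r : ℝ) : D.sw.ball a r = D.ball a r := by
  unfold ball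
  simp only [sw_ds]
  rfl

theorem mem_ball {a x : V} {r : ℝ} : x ∈ D.ball a r ↔
    x ∈ D.X ∧ D.v (D.Z x - D.Z a) ≤ r ∧ D.v (D.W x - D.W a) ≤ r := by
  simp only [ball, ds, mem_filter, max_le_iff]

theorem mem_H {S : Finset V} {b : V} : b ∈ D.H S ↔ b ∈ D.Y ∧ ∃ a ∈ S, D.E a b := mem_filter

theorem mem_U {S : Finset V} {b : V} : b ∈ D.U S ↔ b ∈ D.Y' ∧ ∃ a ∈ S, D.E a b := mem_filter

theorem H_mono {S T : Finset V} (h : S ⊆ T) : D.H S ⊆ D.H T := fun _ hb =>
  let ⟨h1, a, ha, h2⟩ := D.mem_H.1 hb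
  D.mem_H.2 ⟨h1, a, h ha, h2⟩

theorem U_mono {S T : Finset V} (h : S ⊆ T) : D.U S ⊆ D.U T := D.sw.H_mono h

theorem cardH [Fintype V] {S T : Finset V} (h : S ⊆ T) :
    ((D.H S).card : ℝ) ≤ (D.H T).card := Nat.cast_le.2 (card_le_card (D.H_mono h))

theorem cardU [Fintype V] {S T : Finset V} (h : S ⊆ T) :
    ((D.U S).card : ℝ) ≤ (D.U T).card := Nat.cast_le.2 (card_le_card (D.U_mono h))

/-- Flat horizontals and the relative incidence bound. -/
structure Fl [Fintype V] (e c ω : ℝ) : Prop where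
  lip : ∀ x ∈ D.X, ∀ y ∈ D.X, ∀ b ∈ D.Y, D.E x b → D.E y b →
    D.v (D.W x - D.W y) ≤ e * D.v (D.Z x - D.Z y)
  cnt : ∀ S ⊆ D.X, ∀ ε : ℝ, ω ≤ ε → ((D.H S).card : ℝ) ≤ ε ^ 2 * NN V →
    (S.card : ℝ) ≤ c * ε * (D.H S).card

variable {D} [Fintype V]

theorem fl_of {C K ω k G : ℝ} (amb : Amb D.E C K ω D.d) (hC : 1 ≤ C) (hk : 0 < k) (hk1 : k ≤ 1)
    (hω : ω ≤ k / 2) (hG : 8 ≤ G)
    (adj : ∀ a b, D.E a b → (D.Z a - D.Z b) * (D.W a - D.W b) = D.μ) (hμ : G ≤ D.v D.μ)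
    (hX : ∀ a ∈ D.X, D.v (D.Z a) ≤ 1) (hY : ∀ b ∈ D.Y, D.v D.μ ≤ 4 * D.v (D.Z b))
    (lo : ∀ a ∈ D.X, k * D.d ≤ (nb D.E D.Y a).card) : D.Fl (64 / G) (16 * C / k ^ 3) ω := by
  constructor
  · intro x hx y hy b hb h1 h2
    have key : ∀ a ∈ D.X, D.v D.μ / 8 ≤ D.v (D.Z a - D.Z b) := fun a ha => by
      have h3 := D.v.le_sub (D.Z b) (D.Z a)
      rw [D.v.map_sub (D.Z b)] at h3
      linarith [hX a ha, hY b hb]
    have e1 : (D.Z x - D.Z b) * (D.Z y - D.Z b) * (D.W x - D.W y) = D.μ * (D.Z y - D.Z x) := by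
      have a1 := adj x b h1
      have a2 := adj y b h2
      linear_combination (D.Z y - D.Z b) * a1 - (D.Z x - D.Z b) * a2
    have e2 := congrArg D.v e1
    rw [D.v.map_mul, D.v.map_mul, D.v.map_mul, D.v.map_sub (D.Z y) (D.Z x)] at e2
    have hμ0 : 0 < D.v D.μ := by linarith
    have h4 : D.v D.μ / 8 * (D.v D.μ / 8) ≤ D.v (D.Z x - D.Z b) * D.v (D.Z y - D.Z b) :=
      mul_le_mul (key x hx) (key y hy) (by positivity) (D.v.nonneg _)
    have h5 := mul_le_mul_of_nonneg_right h4 (D.v.nonneg (D.W x - D.W y))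
    rw [e2] at h5
    have h6 : D.v D.μ * D.v (D.W x - D.W y) ≤ 64 * D.v (D.Z x - D.Z y) := by
      refine le_of_mul_le_mul_left ?_ hμ0
      nlinarith
    rw [div_mul_eq_mul_div, le_div_iff₀ (by linarith)]
    nlinarith [D.v.nonneg (D.W x - D.W y)]
  · intro S hS ε hε hH
    have hd := amb.dpos
    have hN := amb.Npos
    have hε0 : 0 < ε := amb.ωpos.trans_le hε
    have h1 : k * D.d * S.card ≤ ed D.E S (D.H S) := by
      unfold ed
      rw [Nat.cast_sum, mul_comm, ← nsmul_eq_mul, ← sum_const]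
      refine sum_le_sum fun a ha => (lo a (hS ha)).trans (Nat.cast_le.2 (card_le_card ?_))
      intro b hb
      obtain ⟨b1, b2⟩ := mem_filter.1 hb
      exact mem_filter.2 ⟨D.mem_H.2 ⟨b1, a, ha, b2⟩, b2⟩
    have h2 := amb.stB S (D.H S) (k / 2) hω (by linarith)
    have h3 : √(((D.H S).card : ℝ) / NN V) ≤ ε := by
      rw [Real.sqrt_le_left hε0.le, div_le_iff₀ hN]
      exact hH
    have h4 : C / (k / 2) ^ 2 * D.d * (D.H S).card * (√(((D.H S).card : ℝ) / NN V) + ω) ≤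
        C / (k / 2) ^ 2 * D.d * (D.H S).card * (2 * ε) :=
      mul_le_mul_of_nonneg_left (by linarith) (by positivity)
    have h5 : k / 2 * D.d * S.card ≤ k / 2 * D.d * (16 * C / k ^ 3 * ε * (D.H S).card) := by
      have : k / 2 * D.d * (16 * C / k ^ 3 * ε * (D.H S).card) =
          C / (k / 2) ^ 2 * D.d * (D.H S).card * (2 * ε) := by
        field_simp
        ring
      linarith
    exact le_of_mul_le_mul_left h5 (by positivity)

/-- Most points lie in few classes when every horizontal meets few classes. -/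
theorem Fl.rows {e c ω : ℝ} (h : D.Fl e c ω) (hc : 0 ≤ c) {β : Type} [DecidableEq β]
    {S : Finset V} (hS : S ⊆ D.X) (q : V → β) (D2 : ℕ)
    (hq : ∀ b ∈ D.Y, ((S.filter fun x => D.E x b).image q).card ≤ D2) {ε : ℝ} (hε : ω ≤ ε)
    (hε0 : 0 < ε) (hN : 0 < NN V) :
    ∃ S' ⊆ S, (S.card : ℝ) ≤ S'.card + c * ε * (D2 * NN V) ∧
      ((S'.image q).card : ℝ) * ε ^ 2 ≤ D2 := by
  set P : β → Finset V := fun t => D.H (S.filter fun x => q x = t) with hP
  have hsum : ∑ t ∈ S.image q, ((P t).card : ℝ) ≤ D2 * NN V := by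
    refine cl_sum_le _ P univ D2 (fun _ _ => subset_univ _) fun b _ => ?_
    by_cases hb : b ∈ D.Y
    · refine le_trans (card_le_card fun t ht => ?_) (hq b hb)
      obtain ⟨-, a, ha, hab⟩ := D.mem_H.1 (mem_filter.1 ht).2
      obtain ⟨a1, a2⟩ := mem_filter.1 ha
      exact mem_image.2 ⟨a, mem_filter.2 ⟨a1, hab⟩, a2⟩
    · rw [filter_eq_empty_iff.2 fun t _ ht => hb (D.mem_H.1 ht).1]
      simp
  set p : V → Prop := fun a => ε ^ 2 * NN V < (P (q a)).card with hp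
  refine ⟨S.filter p, filter_subset _ _, ?_, ?_⟩
  · have h1 : (S.card : ℝ) = (S.filter p).card + (S.filter fun a => ¬ p a).card := by
      exact_mod_cast (card_filter_add_card_filter_not p).symm
    have h2 : ((S.filter fun a => ¬ p a).card : ℝ) ≤
        ∑ t ∈ (S.filter fun a => ¬ p a).image q, c * ε * (P t).card := by
      refine cl_fib _ q _ fun a ha => ?_
      refine le_trans (Nat.cast_le.2 (card_le_card (filter_subset_filter _ (filter_subset _ _))))
        (h.cnt _ ((filter_subset _ _).trans hS) ε hε (not_lt.1 (mem_filter.1 ha).2))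
    have h3 : ∑ t ∈ (S.filter fun a => ¬ p a).image q, c * ε * ((P t).card : ℝ) ≤
        ∑ t ∈ S.image q, c * ε * ((P t).card : ℝ) :=
      sum_le_sum_of_subset_of_nonneg (image_subset_image (filter_subset _ _))
        fun _ _ _ => by positivity
    rw [← mul_sum] at h3
    rw [← mul_sum] at h2 h3
    have h4 := mul_le_mul_of_nonneg_left hsum (show 0 ≤ c * ε by positivity)
    linarith
  · have h1 : ∑ _t ∈ (S.filter p).image q, ε ^ 2 * NN V ≤
        ∑ t ∈ (S.filter p).image q, ((P t).card : ℝ) := by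
      refine sum_le_sum fun t ht => ?_
      obtain ⟨a, ha, rfl⟩ := mem_image.1 ht
      exact (mem_filter.1 ha).2.le
    have h3 : ∑ t ∈ (S.filter p).image q, ((P t).card : ℝ) ≤
        ∑ t ∈ S.image q, ((P t).card : ℝ) :=
      sum_le_sum_of_subset_of_nonneg (image_subset_image (filter_subset _ _))
        fun _ _ _ => by positivity
    rw [sum_const, nsmul_eq_mul] at h1
    refine le_of_mul_le_mul_right ?_ hN
    nlinarith

/-- Packing labelled points into numbered pieces. -/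
theorem pack {β : Type} [DecidableEq β] {M : ℕ} {g A δ : ℝ} (S : Finset V) (hS : S ⊆ D.X)
    (hc : δ * NN V ≤ S.card) (q : V → β) (hM : (S.image q).card ≤ M) {x0 : V} (hx : x0 ∈ D.X)
    (ρ : V → ℝ) (hρ : ∀ a, 0 < ρ a) (h1 : ∀ a ∈ S, ∀ a' ∈ S, q a = q a' → D.ds a a' ≤ ρ a')
    (h2 : ∀ a ∈ S, ((D.H (D.ball a (A * ρ a))).card : ℝ) * (D.U (D.ball a (A * ρ a))).card ≤
      g ^ 2 * NN V ^ 2) : Nonempty (D.Pieces (M + 1) g A δ) := by
  let cl : V → Fin (M + 1) := fun a =>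
    if h : q a ∈ S.image q then ((S.image q).equivFin ⟨q a, h⟩).castLE (by omega) else 0
  let p : Fin (M + 1) → V := fun c => if h : ∃ a ∈ S, cl a = c then h.choose else x0
  have hp : ∀ a ∈ S, p (cl a) ∈ S ∧ q (p (cl a)) = q a := fun a ha => by
    have h : ∃ a' ∈ S, cl a' = cl a := ⟨a, ha, rfl⟩
    have e : p (cl a) = h.choose := dif_pos h
    obtain ⟨b1, b2⟩ := h.choose_spec
    rw [e]
    refine ⟨b1, ?_⟩
    have e1 : ∀ x (hx : x ∈ S), cl x =
        ((S.image q).equivFin ⟨q x, mem_image_of_mem q hx⟩).castLE (by omega) :=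
      fun x hx => dif_pos (mem_image_of_mem q hx)
    exact congrArg Subtype.val ((S.image q).equivFin.injective (Fin.castLE_injective _
      (((e1 _ b1).symm.trans b2).trans (e1 _ ha))))
  refine ⟨⟨S, hS, hc, cl, p, fun c => ?_, fun c => ρ (p c), fun c => hρ _,
    fun a ha => h1 a ha _ (hp a ha).1 (hp a ha).2.symm, fun a ha T hT h3 => ?_⟩⟩
  · by_cases h : ∃ a ∈ S, cl a = c
    · have e : p c = h.choose := dif_pos h
      rw [e]
      exact hS h.choose_spec.1
    · have e : p c = x0 := dif_neg h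
      rw [e]
      exact hx
  · have h4 : T ⊆ D.ball (p (cl a)) (A * ρ (p (cl a))) := fun x hx =>
      mem_filter.2 ⟨hT hx, h3 x hx⟩
    exact (mul_le_mul (D.cardH h4) (D.cardU h4) (Nat.cast_nonneg _) (Nat.cast_nonneg _)).trans
      (h2 _ (hp a ha).1)

end Mx
end
end Pool.Agent.Lib.MP_439fea_co.Pw
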