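import Pool.Agent.Lib.MP_439fea_co.Pw.ClA

/-! Most points lie in a heavy row at their own scale. -/

namespace Pool.Agent.Lib.MP_439fea_co.Pw
open Finset Pool.Agent.Lib.MP_439fea_co.Z
open scoped Classical
noncomputable section

/-- Dyadic scales. -/
def rr (n : ℕ) : ℝ := 2 / 2 ^ n

theorem rr_pos (n : ℕ) : 0 < rr n := by
  unfold rr
  positivity

theorem rr_anti {m n : ℕ} (h : m ≤ n) : rr n ≤ rr m :=
  div_le_div_of_nonneg_left (by norm_num) (by positivity) (pow_le_pow_right₀ (by norm_num) h)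

theorem rr_five (n : ℕ) : rr (n + 5) = rr n / 32 := by
  unfold rr
  rw [pow_add]
  field_simp
  norm_num

theorem rr_succ (n : ℕ) : rr (n + 1) = rr n / 2 := by
  unfold rr
  rw [pow_succ]
  field_simp

namespace Mx
variable {V O : Type} [Field O] (D : Mx V O)

/-- A flat slab around `a`. -/
def sl (a : V) (r : ℝ) : Finset V :=
  D.X.filter fun y => D.v (D.Z y - D.Z a) ≤ 6 * r ∧ D.v (D.W y - D.W a) ≤ r / 16

variable {D} [Fintype V] {e c ω : ℝ}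

theorem Fl.cmp (h : D.Fl e c ω) (h' : D.sw.Fl e c ω) (he0 : 0 ≤ e) (he : e ≤ 1 / 200) {r : ℝ}
    {x a x' y a2 y' b b' : V} (hb : b ∈ D.Y) (hb' : b' ∈ D.Y') (h1 : x ∈ D.ball a r)
    (h2 : x' ∈ D.ball a r) (h3 : y ∈ D.ball a2 r) (h4 : y' ∈ D.ball a2 r) (e1 : D.E x b)
    (e2 : D.E y b) (e3 : D.E x' b') (e4 : D.E y' b') :
    D.v (D.Z y - D.Z x) ≤ 5 * r ∧ D.v (D.Z y' - D.Z x') ≤ r ∧ D.v (D.W y - D.W x) ≤ r / 32 := by
  obtain ⟨x0, x1, x2⟩ := D.mem_ball.1 h1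
  obtain ⟨u0, u1, u2⟩ := D.mem_ball.1 h2
  obtain ⟨y0, y1, y2⟩ := D.mem_ball.1 h3
  obtain ⟨w0, w1, w2⟩ := D.mem_ball.1 h4
  have l1 := h.lip y y0 x x0 b hb e2 e1
  have l2 : D.v (D.Z y' - D.Z x') ≤ e * D.v (D.W y' - D.W x') := h'.lip y' w0 x' u0 b' hb' e4 e3
  have hr : 0 ≤ r := (D.v.nonneg _).trans x1
  have t1 : D.v (D.W y' - D.W x') ≤ 4 * r + D.v (D.W y - D.W x) := by
    have s1 := D.v.sub_le (D.W y') (D.W a2) (D.W x')
    have s2 := D.v.sub_le (D.W a2) (D.W y) (D.W x')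
    have s3 := D.v.sub_le (D.W y) (D.W x) (D.W x')
    have s4 := D.v.sub_le (D.W x) (D.W a) (D.W x')
    rw [D.v.map_sub (D.W a2) (D.W y)] at s2
    rw [D.v.map_sub (D.W a) (D.W x')] at s4
    linarith
  have t2 : D.v (D.Z y - D.Z x) ≤ 4 * r + D.v (D.Z y' - D.Z x') := by
    have s1 := D.v.sub_le (D.Z y) (D.Z a2) (D.Z x)
    have s2 := D.v.sub_le (D.Z a2) (D.Z y') (D.Z x)
    have s3 := D.v.sub_le (D.Z y') (D.Z x') (D.Z x)
    have s4 := D.v.sub_le (D.Z x') (D.Z a) (D.Z x)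
    rw [D.v.map_sub (D.Z a2) (D.Z y')] at s2
    rw [D.v.map_sub (D.Z a) (D.Z x)] at s4
    linarith
  have n1 := D.v.nonneg (D.Z y - D.Z x)
  have n2 := D.v.nonneg (D.W y' - D.W x')
  have l3 : D.v (D.W y - D.W x) ≤ 1 / 200 * D.v (D.Z y - D.Z x) :=
    l1.trans (mul_le_mul_of_nonneg_right he n1)
  have l4 : D.v (D.Z y' - D.Z x') ≤ 1 / 200 * D.v (D.W y' - D.W x') :=
    l2.trans (mul_le_mul_of_nonneg_right he n2)
  refine ⟨by linarith, by linarith, by linarith⟩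

theorem Fl.thin (h : D.Fl e c ω) (h' : D.sw.Fl e c ω) (he0 : 0 ≤ e) (he : e ≤ 1 / 200)
    (hc : 0 ≤ c) (hd : Dbl D.v) (n : V → ℕ) {g ε : ℝ} (hε : ω ≤ ε) (hε0 : 0 < ε) (hεg : ε ≤ g)
    (hN : 0 < NN V)
    (hH : ∀ a ∈ D.X, g ^ 2 * NN V < (D.H (D.ball a (rr (n a)))).card)
    (hU : ∀ a ∈ D.X, g ^ 2 * NN V < (D.U (D.ball a (rr (n a)))).card) :
    ((D.X.filter fun a => ((D.H (D.sl a (rr (n a)))).card : ℝ) ≤ ε ^ 2 * NN V).card : ℝ) * g ^ 2
      ≤ c * ε * (20000000 * NN V) := by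
  choose lab hl1 hl2 using fun i => hd (rr i) (rr_pos i)
  set S := D.X.filter fun a => ((D.H (D.sl a (rr (n a)))).card : ℝ) ≤ ε ^ 2 * NN V with hS
  let q : V → ℕ × Set O × Set O := fun a => (n a, lab (n a) (D.Z a), lab (n a + 5) (D.W a))
  let Q : ℕ × Set O × Set O → Finset V := fun t => S.filter fun x => q x = t
  let P : ℕ × Set O × Set O → Finset (V × V) := fun t =>
    D.H (Q t) ×ˢ D.Y'.filter fun b' => ∃ a ∈ Q t, ∃ x ∈ D.ball a (rr t.1), D.E x b'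
  have hg : 0 < g := hε0.trans_le hεg
  have hq : ∀ x a, q x = q a → n x = n a ∧ D.v (D.Z x - D.Z a) ≤ rr (n a) ∧
      D.v (D.W x - D.W a) ≤ rr (n a) / 32 := fun x a hx => by
    obtain ⟨a1, a2, a3⟩ : n x = n a ∧ lab (n x) (D.Z x) = lab (n a) (D.Z a) ∧
      lab (n x + 5) (D.W x) = lab (n a + 5) (D.W a) := by simpa only [q, Prod.mk.injEq] using hx
    rw [a1] at a2 a3
    exact ⟨a1, hl1 _ _ _ a2, rr_five (n a) ▸ hl1 _ _ _ a3⟩
  have hqb : ∀ x ∈ S, ∀ a, q x = q a → x ∈ D.ball a (rr (n a)) := fun x hx a hxa => by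
    obtain ⟨-, a2, a3⟩ := hq x a hxa
    exact D.mem_ball.2 ⟨(mem_filter.1 hx).1, a2, by linarith [rr_pos (n a)]⟩
  have hball : ∀ a {r r' : ℝ}, r ≤ r' → D.ball a r ⊆ D.ball a r' := fun a r r' hr x hx =>
    mem_filter.2 ⟨(mem_filter.1 hx).1, (mem_filter.1 hx).2.trans hr⟩
  have hsum : ∑ t ∈ S.image q, ((P t).card : ℝ) ≤ (20000000 : ℕ) * (univ : Finset (V × V)).card := by
    refine cl_sum_le _ P univ _ (fun _ _ => subset_univ _) fun y _ => ?_
    obtain ⟨b, b'⟩ := y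
    set F := (S.image q).filter fun t => (b, b') ∈ P t with hF
    have wit : ∀ t ∈ F, b ∈ D.Y ∧ b' ∈ D.Y' ∧ ∃ x ∈ S, ∃ a, ∃ x' ∈ D.ball a (rr t.1),
        q x = t ∧ x ∈ D.ball a (rr t.1) ∧ D.E x b ∧ D.E x' b' := fun t ht => by
      obtain ⟨m1, m2⟩ := mem_product.1 (mem_filter.1 ht).2
      obtain ⟨b1, x, hx, b2⟩ := D.mem_H.1 m1
      obtain ⟨b3, a, ha, x', hx', b4⟩ := mem_filter.1 m2
      obtain ⟨x1, x2⟩ := mem_filter.1 hx
      obtain ⟨a1, a2⟩ := mem_filter.1 ha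
      refine ⟨b1, b3, x, x1, a, x', hx', x2, ?_, b2, b4⟩
      rw [← a2]
      exact hqb x x1 a (x2.trans a2.symm)
    have key : ∀ t ∈ F, ∃ x, ∀ t2 ∈ F, t.1 ≤ t2.1 → t2.1 < t.1 + 5 ∧ ∃ y, q y = t2 ∧
        Near D.v (rr t.1) (D.Z x) (D.Z y) ∧ Near D.v (rr (t.1 + 5)) (D.W x) (D.W y) := by
      intro t ht
      obtain ⟨hb, hb', x, hx, a, x', hx', qx, xa, e1, e3⟩ := wit t ht
      refine ⟨x, fun t2 ht2 hle => ?_⟩
      obtain ⟨-, -, y, hy, a2, y', hy', qy, ya, e2, e4⟩ := wit t2 ht2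
      have ya' := hball a2 (rr_anti hle) ya
      have hy'' := hball a2 (rr_anti hle) hy'
      obtain ⟨c1, c2, c3⟩ := h.cmp h' he0 he hb hb' xa hx' ya' hy'' e1 e2 e3 e4
      have nx : n x = t.1 := by rw [← qx]
      have ny : n y = t2.1 := by rw [← qy]
      have hr := rr_pos t.1
      refine ⟨?_, y, qy, ?_, near_one _ (rr_five t.1 ▸ c3)⟩
      · by_contra hlt
        have r2 : rr t2.1 ≤ rr t.1 / 32 := rr_five t.1 ▸ rr_anti (not_lt.1 hlt)
        have hsub : D.ball y (rr (n y)) ⊆ D.sl x (rr (n x)) := fun z hz => by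
          rw [ny] at hz
          rw [nx]
          obtain ⟨z0, z1, z2⟩ := D.mem_ball.1 hz
          have s1 := D.v.sub_le (D.Z z) (D.Z y) (D.Z x)
          have s2 := D.v.sub_le (D.W z) (D.W y) (D.W x)
          exact mem_filter.2 ⟨z0, by linarith, by linarith⟩
        have f1 := hH y (mem_filter.1 hy).1
        have f2 := D.cardH hsub
        have f3 := (mem_filter.1 hx).2
        have f4 : ε ^ 2 * NN V ≤ g ^ 2 * NN V := by gcongr
        linarith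
      · refine near_of D.v hr.le (a := D.Z a) (b := D.Z x') (c := D.Z y') (d := D.Z a2) ?_
          (D.mem_ball.1 hx').2.1 c2 ?_ (D.mem_ball.1 ya').2.1
        · rw [D.v.map_sub]
          exact (D.mem_ball.1 xa).2.1
        · rw [D.v.map_sub]
          exact (D.mem_ball.1 hy'').2.1
    have k1 : F.card ≤ 4000000 * (F.image Prod.fst).card := by
      refine card_le_mul_card_image F _ fun i hi => ?_
      obtain ⟨t, ht, rfl⟩ := mem_image.1 hi
      obtain ⟨x, hx⟩ := key t ht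
      obtain ⟨T1, c1, d1⟩ := hl2 t.1 (D.Z x)
      obtain ⟨T2, c2, d2⟩ := hl2 (t.1 + 5) (D.W x)
      refine (card_le_card (t := (T1 ×ˢ T2).image fun u => (t.1, u)) fun t2 ht2 => ?_).trans
        (card_image_le.trans ?_)
      · obtain ⟨m1, m2⟩ := mem_filter.1 ht2
        obtain ⟨-, y, qy, n1, n2⟩ := hx t2 m1 m2.ge
        have ny : n y = t.1 := by rw [← m2, ← qy]
        refine mem_image.2 ⟨t2.2, mem_product.2 ?_, Prod.ext m2.symm rfl⟩
        rw [← qy]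
        simp only [q, ny]
        exact ⟨d1 _ n1, d2 _ n2⟩
      · rw [card_product]
        exact (Nat.mul_le_mul c1 c2).trans (by norm_num)
    have k2 : (F.image Prod.fst).card ≤ 5 := by
      rcases F.eq_empty_or_nonempty with h0 | h0
      · simp [h0]
      obtain ⟨t, ht, hmin⟩ := F.exists_min_image Prod.fst h0
      obtain ⟨x, hx⟩ := key t ht
      refine (card_le_card (t := Ico t.1 (t.1 + 5)) fun i hi => ?_).trans (by simp)
      obtain ⟨t2, ht2, rfl⟩ := mem_image.1 hi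
      exact mem_Ico.2 ⟨hmin t2 ht2, (hx t2 ht2 (hmin t2 ht2)).1⟩
    omega
  have h1 : (S.card : ℝ) ≤ ∑ t ∈ S.image q, c * ε / (g ^ 2 * NN V) * (P t).card := by
    refine cl_fib S q _ fun a ha => ?_
    have hsub : Q (q a) ⊆ D.sl a (rr (n a)) := fun x hx => by
      obtain ⟨x1, x2⟩ := mem_filter.1 hx
      obtain ⟨-, a2, a3⟩ := hq x a x2
      exact mem_filter.2 ⟨(mem_filter.1 x1).1, by linarith [rr_pos (n a)],
        by linarith [rr_pos (n a)]⟩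
    have f1 := h.cnt (Q (q a)) ((filter_subset _ _).trans (filter_subset _ _)) ε hε
      ((D.cardH hsub).trans (mem_filter.1 ha).2)
    have f2 : g ^ 2 * NN V ≤ ((D.Y'.filter fun b' => ∃ a' ∈ Q (q a),
        ∃ x ∈ D.ball a' (rr (q a).1), D.E x b').card : ℝ) := by
      refine (hU a (mem_filter.1 ha).1).le.trans (Nat.cast_le.2 (card_le_card fun b hb => ?_))
      obtain ⟨b1, x, hx, b2⟩ := D.mem_U.1 hb
      exact mem_filter.2 ⟨b1, a, mem_filter.2 ⟨ha, rfl⟩, x, hx, b2⟩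
    refine f1.trans ?_
    simp only [P]
    rw [card_product, Nat.cast_mul, div_mul_eq_mul_div, le_div_iff₀ (by positivity), mul_assoc]
    exact mul_le_mul_of_nonneg_left (mul_le_mul_of_nonneg_left f2 (Nat.cast_nonneg _))
      (mul_nonneg hc hε0.le)
  rw [← mul_sum] at h1
  rw [card_univ, Fintype.card_prod, Nat.cast_mul] at hsum
  have h2 := h1.trans (mul_le_mul_of_nonneg_left hsum (by positivity))
  rw [← le_div_iff₀ (by positivity)]
  refine h2.trans (le_of_eq ?_)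
  have hN' : (Fintype.card V : ℝ) ≠ 0 := hN.ne'
  push_cast
  field_simp

/-- A horizontal and a vertical through two pairs of slabs force the centres to be close. -/
theorem Fl.cross (h : D.Fl e c ω) (h' : D.sw.Fl e c ω) (he : e ≤ 1 / 200) {r r2 : ℝ}
    (hr : r2 ≤ r) {a a2 b b' : V} (h1 : b ∈ D.H (D.sl a r)) (h2 : b ∈ D.H (D.sl a2 r2))
    (h3 : b' ∈ D.sw.H (D.sw.sl a r)) (h4 : b' ∈ D.sw.H (D.sw.sl a2 r2)) : D.ds a2 a ≤ r / 4 := by
  have key : ∀ {D : Mx V O}, D.Fl e c ω → ∀ {b}, b ∈ D.H (D.sl a r) → b ∈ D.H (D.sl a2 r2) →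
      D.v (D.W a2 - D.W a) ≤ r / 8 + 1 / 200 * (12 * r + D.v (D.Z a2 - D.Z a)) := by
    intro D h b h1 h2
    obtain ⟨hb, x, hx, e1⟩ := D.mem_H.1 h1
    obtain ⟨-, y, hy, e2⟩ := D.mem_H.1 h2
    obtain ⟨x0, x1, x2⟩ := mem_filter.1 hx
    obtain ⟨y0, y1, y2⟩ := mem_filter.1 hy
    have l1 := (h.lip y y0 x x0 b hb e2 e1).trans (mul_le_mul_of_nonneg_right he (D.v.nonneg _))
    have s1 := D.v.sub_le (D.W a2) (D.W y) (D.W a)
    have s2 := D.v.sub_le (D.W y) (D.W x) (D.W a)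
    have s3 := D.v.sub_le (D.Z y) (D.Z a2) (D.Z x)
    have s4 := D.v.sub_le (D.Z a2) (D.Z a) (D.Z x)
    rw [D.v.map_sub (D.W a2) (D.W y)] at s1
    rw [D.v.map_sub (D.Z a) (D.Z x)] at s4
    linarith
  have k1 := key h h1 h2
  have k2 : D.v (D.Z a2 - D.Z a) ≤ r / 8 + 1 / 200 * (12 * r + D.v (D.W a2 - D.W a)) :=
    key h' h3 h4
  have hr0 : 0 ≤ r := by
    obtain ⟨-, x, hx, -⟩ := D.mem_H.1 h1
    linarith [D.v.nonneg (D.Z x - D.Z a), (mem_filter.1 hx).2.1]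
  exact max_le (by linarith) (by linarith)

end Mx
end
end Pool.Agent.Lib.MP_439fea_co.Pw
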