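import Pool.Agent.Lib.MP_439fea_co.Pw.Defs

/-! Cells for nonarchimedean and for complex absolute values. -/

namespace Pool.Agent.Lib.MP_439fea_co.Pw
open Finset
open scoped Classical

variable {O : Type} [Field O]

theorem dbl_na {v : AbsoluteValue O ℝ} (hv : IsNonarchimedean v) : Dbl v := by
  intro ρ hρ
  refine ⟨fun x => {y | v (y - x) ≤ ρ}, fun x y e => ?_, fun x => ⟨{{y | v (y - x) ≤ ρ}},
    by simp, fun y ⟨f, hf, e⟩ => ?_⟩⟩
  · have h : x ∈ {t | v (t - x) ≤ ρ} := by simpa using hρ.le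
    have e' : {t | v (t - x) ≤ ρ} = {t | v (t - y) ≤ ρ} := e
    rw [e'] at h
    exact h
  · obtain ⟨i, -, h⟩ := hv.finset_image_add_of_nonempty f univ_nonempty
    have h1 : v (y - x) ≤ ρ := by
      rw [e]
      exact h.trans (hf i)
    rw [mem_singleton]
    ext t
    refine ⟨fun k => ?_, fun k => ?_⟩
    · have := hv (t - y) (y - x)
      rw [sub_add_sub_cancel] at this
      exact this.trans (max_le k h1)
    · have := hv (t - x) (x - y)
      rw [sub_add_sub_cancel] at this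
      exact this.trans (max_le k (by rwa [v.map_sub]))

theorem dbl_fl {r a b : ℝ} (hr : 0 < r) (h : ⌊a / r⌋ = ⌊b / r⌋) : |a - b| ≤ r := by
  have h1 := (Int.abs_sub_lt_one_of_floor_eq_floor h).le
  rwa [← sub_div, abs_div, abs_of_pos hr, div_le_one hr] at h1

theorem dbl_nr {r a b : ℝ} (hr : 0 < r) (h : |a - b| ≤ 16 * r) :
    ⌊a / r⌋ ∈ Icc (⌊b / r⌋ - 16) (⌊b / r⌋ + 16) := by
  rw [abs_le] at h
  have h1 : a / r ≤ b / r + (16 : ℤ) := by
    rw [div_add' _ _ _ hr.ne']
    exact div_le_div_of_nonneg_right (by push_cast; linarith) hr.le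
  have h2 : b / r ≤ a / r + (16 : ℤ) := by
    rw [div_add' _ _ _ hr.ne']
    exact div_le_div_of_nonneg_right (by push_cast; linarith) hr.le
  have h3 := Int.floor_mono h1
  have h4 := Int.floor_mono h2
  rw [Int.floor_add_intCast] at h3 h4
  rw [mem_Icc]
  omega

theorem dbl_cx {v : AbsoluteValue O ℝ} {φ : O →+* ℂ} (hv : ∀ x, v x = ‖φ x‖) : Dbl v := by
  intro ρ hρ
  have hr : 0 < ρ / 2 := by positivity
  obtain ⟨k, hk⟩ : ∃ k : O → ℤ × ℤ, ∀ x, k x = (⌊(φ x).re / (ρ / 2)⌋, ⌊(φ x).im / (ρ / 2)⌋) :=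
    ⟨_, fun _ => rfl⟩
  refine ⟨fun x => {y | k y = k x}, fun x y e => ?_, fun x => ⟨(Icc ((k x).1 - 16) ((k x).1 + 16)
    ×ˢ Icc ((k x).2 - 16) ((k x).2 + 16)).image fun p => {y | k y = p}, ?_,
    fun y ⟨f, hf, e⟩ => ?_⟩⟩
  · have h : x ∈ {t | k t = k x} := rfl
    have e' : {t | k t = k x} = {t | k t = k y} := e
    rw [e', Set.mem_ofPred_eq, hk, hk, Prod.mk.injEq] at h
    have h1 := dbl_fl hr h.1
    have h2 := dbl_fl hr h.2
    have h3 := Complex.norm_le_abs_re_add_abs_im (φ (x - y))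
    rw [hv]
    rw [map_sub, Complex.sub_re, Complex.sub_im] at h3
    rw [map_sub]
    linarith
  · refine card_image_le.trans ?_
    rw [card_product, Int.card_Icc, Int.card_Icc]
    have h : ∀ a : ℤ, (a + 16 + 1 - (a - 16)).toNat = 33 := fun a => by omega
    rw [h, h]
    norm_num
  · have h1 : v (y - x) ≤ 16 * (ρ / 2) := by
      rw [e]
      refine (v.sum_le _ _).trans ((sum_le_sum fun i _ => hf i).trans (le_of_eq ?_))
      simp only [sum_const, card_univ, Fintype.card_fin, nsmul_eq_mul]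
      push_cast
      ring
    rw [hv, map_sub] at h1
    refine mem_image.2 ⟨k y, mem_product.2 ⟨?_, ?_⟩, rfl⟩
    · rw [hk, hk]
      exact dbl_nr hr ((Complex.abs_re_le_norm (φ y - φ x)).trans h1)
    · rw [hk, hk]
      exact dbl_nr hr ((Complex.abs_im_le_norm (φ y - φ x)).trans h1)

theorem dblS : DblS := fun _ _ _ h => h.elim dbl_na fun ⟨_, h⟩ => dbl_cx h

end Pool.Agent.Lib.MP_439fea_co.Pw
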