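import Pool.Agent.Lib.MP_439fea_co.Defs
import Pool.Agent.Lib.MP_439fea_co.Z.PArc
import Pool.Agent.Lib.MP_439fea_co.Z.PCons

/-! Definitions and exit statements for the power saving. -/

namespace Pool.Agent.Lib.MP_439fea_co.Pw
open Finset Pool.Agent.Lib.MP_439fea_co.Z
open scoped Classical
noncomputable section

variable {V : Type}

/-- Number of vertices as a real number. -/
abbrev NN (V : Type) [Fintype V] : ℝ := Fintype.card V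

/-- Relative incidence bounds at degree scale `d` with error `ω`. -/
structure Amb [Fintype V] (E : V → V → Prop) (C K ω d : ℝ) : Prop where
  symm : ∀ a b, E a b → E b a
  ωpos : 0 < ω
  ω1 : ω ≤ 1
  big : 1 ≤ ω * d
  cub : d ^ 3 ≤ C * NN V
  stA : ∀ (X Y : Finset V) (m : ℝ), 0 < m →
    (ed E X Y : ℝ) ≤ m * d * X.card + C / m ^ 2 * d * (Y.card : ℝ) ^ 2 / NN V + ω * NN V * d
  stB : ∀ (X Y : Finset V) (m : ℝ), ω ≤ m → m ≤ 1 →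
    (ed E X Y : ℝ) ≤ m * d * X.card + C / m ^ 2 * d * Y.card * (√(Y.card / NN V) + ω)
  hi : ∀ a, ((nb E univ a).card : ℝ) ≤ K * d
  st : ∀ (X Y : Finset V) (m : ℝ), ω ≤ m →
    (ed E X Y : ℝ) ≤ C * d * ((X.card : ℝ) ^ 2 / (NN V * m ^ 2) + m * Y.card + ω * X.card)

/-- Almost regular edge expander with about `d ^ 3` vertices. -/
structure Host [Fintype V] (E : V → V → Prop) (C κ K ω d : ℝ) : Prop where
  amb : Amb E C K ω d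
  pl : PL E
  lo : ∀ a, κ * d ≤ (nb E univ a).card
  ex : ∀ T : Finset V, 2 * T.card ≤ Fintype.card V → κ * d * T.card ≤ ed E T Tᶜ
  few : NN V ≤ d ^ (3 + ω)

/-- Realisation by unit distances in the coordinates `z`, `w`. -/
structure Re {O : Type} [Field O] (E : V → V → Prop) (z w : V → O) : Prop where
  zinj : Function.Injective z
  winj : Function.Injective w
  adj : ∀ a b, E a b → (z a - z b) * (w a - w b) = 1

section Abs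
variable {O : Type} [Field O]

/-- The values of `v` are dense. -/
def Den (v : AbsoluteValue O ℝ) : Prop :=
  ∀ r t : ℝ, 0 < r → 1 < t → ∃ x, r ≤ v x ∧ v x ≤ t * r

/-- `y - x` is a sum of eight terms of size at most `ρ`. -/
def Near (v : AbsoluteValue O ℝ) (ρ : ℝ) (x y : O) : Prop :=
  ∃ f : Fin 8 → O, (∀ i, v (f i) ≤ ρ) ∧ y - x = ∑ i, f i

/-- Cells of diameter `ρ` with bounded overlap. -/
def Dbl (v : AbsoluteValue O ℝ) : Prop :=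
  ∀ ρ : ℝ, 0 < ρ → ∃ lab : O → Set O, (∀ x y, lab x = lab y → v (x - y) ≤ ρ) ∧
    ∀ x, ∃ T : Finset (Set O), T.card ≤ 2000 ∧ ∀ y, Near v ρ x y → lab y ∈ T

/-- Absolute values that are tame up to `J`. -/
structure Ab (v : AbsoluteValue O ℝ) (J : ℕ) : Prop where
  nat : ∀ n : ℕ, 1 ≤ n → n ≤ J → 1 ≤ n * v n
  den : Den v
  dbl : Dbl v

/-- All but `t` vertices lie in one box of area `B ^ 2`. -/
def Box [Fintype V] (v : AbsoluteValue O ℝ) (z w : V → O) (B t : ℝ) : Prop :=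
  ∃ (p : V) (R : ℝ), 0 < R ∧
    ((univ.filter fun a => ¬ (v (z a - z p) ≤ B * R ∧ v (w a - w p) ≤ B / R)).card : ℝ) ≤ t

end Abs

/-- The places of a number field inside `O`. -/
structure Places (O : Type) [Field O] where
  L : Subfield O
  I : Type
  v : I → AbsoluteValue O ℝ
  wt : I → ℝ
  pos : ∀ i, 0 < wt i
  fin : ∀ x ∈ L, x ≠ 0 → {i | v i x ≠ 1}.Finite
  prod : ∀ x ∈ L, x ≠ 0 → ∀ S : Finset I, (∀ i, v i x ≠ 1 → i ∈ S) →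
    ∑ i ∈ S, wt i * Real.log (v i x) = 0
  ar : Finset I
  arw : ∑ i ∈ ar, wt i = 1
  arc : ∀ i ∈ ar, ∃ φ : O →+* ℂ, ∀ x, v i x = ‖φ x‖
  na : ∀ i, i ∉ ar → IsNonarchimedean (v i)
  den : ∀ i, Den (v i)
  nat : ∀ i (n : ℕ), 1 ≤ n → 1 ≤ n * v i n
  sm : ∀ J : ℕ, ∃ S : Finset I, ∑ i ∈ S, wt i ≤ J + 1 ∧
    ∀ i, i ∉ S → i ∉ ar ∧ ∀ n : ℕ, 1 ≤ n → n ≤ J → v i n = 1

/-- A height function on a subfield, with bounded errors. -/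
structure Ht (O : Type) [Field O] where
  dom : Subfield O
  h : O → ℝ
  nonneg : ∀ x, 0 ≤ h x
  zero : h 0 = 0
  one : h 1 = 0
  neg : ∀ x ∈ dom, h (-x) = h x
  inv : ∀ x ∈ dom, h x⁻¹ = h x
  add : ∀ x ∈ dom, ∀ y ∈ dom, h (x + y) ≤ h x + h y + 1
  mul : ∀ x ∈ dom, ∀ y ∈ dom, h (x * y) ≤ h x + h y
  root : ∀ (n : ℕ) (c : ℕ → O) (x : O), x ∈ dom → (∀ i < n, c i ∈ dom) →
    x ^ n + ∑ i ∈ range n, c i * x ^ i = 0 → h x ≤ ∑ i ∈ range n, h (c i) + n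

/-- `H` is the height attached to the places `P`. -/
def IsHt {O : Type} [Field O] (P : Places O) (H : Ht O) : Prop :=
  H.dom = P.L ∧ ∀ x ∈ P.L, ∀ S : Finset P.I, (x ≠ 0 → ∀ i, P.v i x ≠ 1 → i ∈ S) →
    H.h x = ∑ i ∈ S, P.wt i * Real.posLog (P.v i x)

/-- The finite pattern with its heights. -/
structure Stage (O : Type) [Field O] (ε : ℝ) (D : ℕ) where
  H : Ht O
  s : ℝ
  spos : 0 < s
  sbig : 1 ≤ ε * s
  bz : Fin 3 → O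
  bw : Fin 3 → O
  bzinj : Function.Injective bz
  bwinj : Function.Injective bw
  u : Fin 3 → Fin 3 → O
  une : ∀ i k, u i k ≠ 0
  uinj : ∀ i, Function.Injective (u i)
  bigm : u 0 1 / (u 0 0 - u 0 1) ∈ H.dom
  big : s / 8 ≤ H.h (u 0 1 / (u 0 0 - u 0 1))
  gen : ∀ c : ℕ → ℕ → O, (∃ i ≤ D, ∃ k ≤ D, c i k ≠ 0) → ∃ (x y : O) (a a' : Fin 3 → O),
    (∀ i, a i ≠ 0 ∧ a' i ≠ 0 ∧ x = bz i + a i - a' i ∧ y = bw i + (a i)⁻¹ - (a' i)⁻¹ ∧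
      x ≠ bz i ∧ a i ≠ u i 2 ∧ cr (u i) (a i) ∈ H.dom ∧ H.h (cr (u i) (a i)) ≤ ε * s) ∧
    bev D c x y ≠ 0

/-- A good centre `b`: base neighbours `n`, and `g` neighbours with a small cross ratio. -/
structure Gd {O : Type} [Fintype V] [Field O] (E : V → V → Prop) (z : V → O) (H : Ht O)
    (s ε g : ℝ) (b : V) (n : Fin 3 → V) : Prop where
  inj : Function.Injective n
  adj : ∀ k, E b (n k)
  bigm : (z (n 1) - z b) / (z (n 0) - z (n 1)) ∈ H.dom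
  big : s / 8 ≤ H.h ((z (n 1) - z b) / (z (n 0) - z (n 1)))
  many : g ≤ ((nb E univ b).filter fun a => a ≠ n 2 ∧
    cr (fun k => z (n k) - z b) (z a - z b) ∈ H.dom ∧
    H.h (cr (fun k => z (n k) - z b) (z a - z b)) ≤ ε * s).card

/-- Bounded and separated complex pictures of most vertices. -/
structure Tame [Fintype V] (E : V → V → Prop) (θ Λ : ℝ) where
  I : Type
  S : Finset I
  wt : I → ℝ
  pos : ∀ i ∈ S, 0 ≤ wt i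
  one : ∑ i ∈ S, wt i = 1
  Z : I → V → ℂ
  W : I → V → ℂ
  re : ∀ i ∈ S, Re E (Z i) (W i)
  G : Finset V
  most : ((Gᶜ).card : ℝ) ≤ θ * NN V
  bd : ∀ a ∈ G, ∑ i ∈ S, wt i * (Real.posLog ‖Z i a‖ + Real.posLog ‖W i a‖) ≤ Λ
  sep : ∀ a ∈ G, ∀ b ∈ G, a ≠ b →
    ∑ i ∈ S, wt i * (Real.posLog ‖Z i a - Z i b‖⁻¹ + Real.posLog ‖W i a - W i b‖⁻¹) ≤ Λ

/-- Points in the unit box with nearly horizontal and nearly vertical curves. -/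
structure Mx (V O : Type) [Field O] where
  v : AbsoluteValue O ℝ
  μ : O
  E : V → V → Prop
  Z : V → O
  W : V → O
  X : Finset V
  Y : Finset V
  Y' : Finset V
  d : ℝ

namespace Mx
variable {O : Type} [Field O] (D : Mx V O)

/-- Horizontals with a neighbour in `S`. -/
def H (S : Finset V) : Finset V := D.Y.filter fun b => ∃ a ∈ S, D.E a b
/-- Verticals with a neighbour in `S`. -/
def U (S : Finset V) : Finset V := D.Y'.filter fun b => ∃ a ∈ S, D.E a b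
def ds (a a' : V) : ℝ := max (D.v (D.Z a - D.Z a')) (D.v (D.W a - D.W a'))

structure Ok [Fintype V] (C K ω k δ G : ℝ) : Prop where
  amb : Amb D.E C K ω D.d
  zinj : Function.Injective D.Z
  adj : ∀ a b, D.E a b → (D.Z a - D.Z b) * (D.W a - D.W b) = D.μ
  μbig : G ≤ D.v D.μ
  hX : ∀ a ∈ D.X, D.v (D.Z a) ≤ 1 ∧ D.v (D.W a) ≤ 1
  hY : ∀ b ∈ D.Y, D.v D.μ ≤ 4 * D.v (D.Z b)
  hY' : ∀ b ∈ D.Y', D.v D.μ ≤ 4 * D.v (D.W b)
  loH : ∀ a ∈ D.X, k * D.d ≤ (nb D.E D.Y a).card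
  loU : ∀ a ∈ D.X, k * D.d ≤ (nb D.E D.Y' a).card
  cX : δ * NN V ≤ D.X.card

/-- Few small pieces, each far inside a light ball. -/
structure Pieces [Fintype V] (M : ℕ) (g A δ : ℝ) where
  X : Finset V
  sub : X ⊆ D.X
  card : δ * NN V ≤ X.card
  cl : V → Fin M
  p : Fin M → V
  hp : ∀ c, p c ∈ D.X
  ρ : Fin M → ℝ
  ρpos : ∀ c, 0 < ρ c
  near : ∀ a ∈ X, D.ds a (p (cl a)) ≤ ρ (cl a)
  light : ∀ a ∈ X, ∀ S ⊆ D.X, (∀ x ∈ S, D.ds x (p (cl a)) ≤ A * ρ (cl a)) →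
    ((D.H S).card : ℝ) * (D.U S).card ≤ g ^ 2 * NN V ^ 2

end Mx

/-- Clusters of points and curves that pass close to their centres in a valued field. -/
structure TD (V F Γ ι : Type) [Field F] [LinearOrderedCommGroupWithZero Γ] where
  u : Valuation F Γ
  μ : F
  E : V → V → Prop
  X : Finset V
  Y : Finset V
  Y' : Finset V
  cl : V → ι
  pz : ι → F
  pw : ι → F
  hz : V → F
  hw : V → F
  vz : V → F
  vw : V → F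
  d : ℝ

namespace TD
variable {F Γ ι : Type} [Field F] [LinearOrderedCommGroupWithZero Γ] (D : TD V F Γ ι)

def ds (c c' : ι) : Γ := max (D.u (D.pz c - D.pz c')) (D.u (D.pw c - D.pw c'))
def gh (b : V) (x : F) : F := D.hw b + D.μ / (x - D.hz b)
def gv (b : V) (x : F) : F := D.vz b + D.μ / (x - D.vw b)
/-- Points in the clusters of `S`. -/
def pt (S : Finset ι) : Finset V := D.X.filter fun a => D.cl a ∈ S
/-- Horizontals with a neighbour in the clusters of `S`. -/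
def H (S : Finset ι) : Finset V := D.Y.filter fun b => ∃ a ∈ D.X, D.cl a ∈ S ∧ D.E a b
/-- Verticals with a neighbour in the clusters of `S`. -/
def U (S : Finset ι) : Finset V := D.Y'.filter fun b => ∃ a ∈ D.X, D.cl a ∈ S ∧ D.E a b

structure Ok [Fintype V] [Fintype ι] (C K ω k g : ℝ) (M : ℕ) : Prop where
  amb : Amb D.E C K ω D.d
  cι : Fintype.card ι ≤ M
  nat : ∀ n : ℕ, n ≠ 0 → D.u n = 1
  μbig : 1 < D.u D.μ
  hP : ∀ c, D.u (D.pz c) ≤ 1 ∧ D.u (D.pw c) ≤ 1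
  hY : ∀ b ∈ D.Y, D.u D.μ ≤ D.u (D.hz b)
  hY' : ∀ b ∈ D.Y', D.u D.μ ≤ D.u (D.vw b)
  mH : ∀ a ∈ D.X, ∀ b ∈ D.Y, D.E a b → ∀ c, c ≠ D.cl a →
    D.u (D.gh b (D.pz (D.cl a)) - D.pw (D.cl a)) < D.ds (D.cl a) c
  mU : ∀ a ∈ D.X, ∀ b ∈ D.Y', D.E a b → ∀ c, c ≠ D.cl a →
    D.u (D.gv b (D.pw (D.cl a)) - D.pz (D.cl a)) < D.ds (D.cl a) c
  sep : ∀ c c', c ≠ c' → D.ds c c' ≠ 0
  loH : ∀ a ∈ D.X, k * D.d ≤ (nb D.E D.Y a).card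
  loU : ∀ a ∈ D.X, k * D.d ≤ (nb D.E D.Y' a).card
  few : (D.Y.image fun b => (D.hz b, D.hw b)).card ≤ M
  light : ∀ c, ((D.H {c}).card : ℝ) * (D.U {c}).card ≤ g ^ 2 * NN V ^ 2

end TD

/-! ### Exit statements -/

/-- Section 1: the extremal set with relative incidence bounds. -/
def RelS : Prop := ∃ C : ℝ, 1 ≤ C ∧ ∀ ω : ℝ, 0 < ω → ω ≤ 1 →
  ∃ η : ℝ, 0 < η ∧ ∃ n0 : ℝ, ∀ (V : Type) (E : V → V → Prop), PL E → ∀ (U : Finset V) (n : ℝ),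
    n0 ≤ n → (U.card : ℝ) ≤ n → n ^ (4 / 3 - η) ≤ ed E U U →
    ∃ S ⊆ U, ∃ d : ℝ, 1 ≤ ω * d ∧ d * S.card = ed E S S ∧ d ^ 3 ≤ C * S.card ∧
      (S.card : ℝ) ≤ d ^ (3 + ω) ∧
      (∀ T ⊆ S, (ed E T T : ℝ) ^ 10 * (S.card : ℝ) ^ 3 ≤ d ^ 10 * (T.card : ℝ) ^ 13) ∧
      (∀ X ⊆ S, ∀ Y ⊆ S, ∀ m : ℝ, 0 < m → (ed E X Y : ℝ) ≤
        m * d * X.card + C / m ^ 2 * d * (Y.card : ℝ) ^ 2 / S.card + ω * S.card * d) ∧
      (∀ X ⊆ S, ∀ Y ⊆ S, ∀ m : ℝ, ω ≤ m → m ≤ 1 → (ed E X Y : ℝ) ≤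
        m * d * X.card + C / m ^ 2 * d * Y.card * (√(Y.card / S.card) + ω)) ∧
      ∀ X ⊆ S, ∀ Y ⊆ S, ∀ m : ℝ, ω ≤ m → (ed E X Y : ℝ) ≤
        C * d * ((X.card : ℝ) ^ 2 / (S.card * m ^ 2) + m * Y.card + ω * X.card)

/-- Section 1: the host graph. -/
def HostS : Prop := ∃ C κ K : ℝ, 1 ≤ C ∧ 0 < κ ∧ κ ≤ 1 ∧ 1 ≤ K ∧ ∀ ω : ℝ, 0 < ω → ω ≤ 1 →
  ∃ η : ℝ, 0 < η ∧ ∃ n0 : ℝ, ∀ (V : Type) (E : V → V → Prop), PL E → ∀ (U : Finset V) (n : ℝ),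
    n0 ≤ n → (U.card : ℝ) ≤ n → n ^ (4 / 3 - η) ≤ ed E U U →
    ∃ S ⊆ U, ∃ d : ℝ, Host (fun a b : S => E a.1 b.1) C κ K ω d

/-- Sections 1 and 2: specialisation and places. -/
def SpecS : Prop := ∀ (V : Type) [Fintype V] (E : V → V → Prop) (z w : V → ℂ), Re E z w →
  ∃ (z' w' : V → AlgebraicClosure ℚ) (P : Places (AlgebraicClosure ℚ)),
    Re E z' w' ∧ ∀ a, z' a ∈ P.L ∧ w' a ∈ P.L

/-- Section 2: heights. -/
def HtS : Prop := ∀ (O : Type) [Field O] (P : Places O), ∃ H : Ht O, IsHt P H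

/-- Section 2: cells. -/
def DblS : Prop := ∀ (O : Type) [Field O] (v : AbsoluteValue O ℝ),
  (IsNonarchimedean v ∨ ∃ φ : O →+* ℂ, ∀ x, v x = ‖φ x‖) → Dbl v

/-- Section 3a. -/
def ClusterS : Prop := ∀ C K k δ g : ℝ, 1 ≤ C → 1 ≤ K → 0 < k → k ≤ 1 → 0 < δ → 0 < g →
  ∃ (M : ℕ) (ω0 : ℝ), 0 < ω0 ∧ ∀ A : ℝ, 1 ≤ A → ∃ G : ℝ,
    ∀ (V O : Type) [Fintype V] [Field O] (D : Mx V O) (ω : ℝ), ω ≤ ω0 → Dbl D.v →
      D.Ok C K ω k δ G → Nonempty (D.Pieces M g A (δ / 2))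

/-- Section 3c. -/
def TreeS : Prop := ∀ C K k δ : ℝ, 1 ≤ C → 1 ≤ K → 0 < k → k ≤ 1 → 0 < δ →
  ∃ g : ℝ, 0 < g ∧ ∀ M : ℕ, ∃ ω0 : ℝ, 0 < ω0 ∧
    ∀ (V F Γ ι : Type) [Fintype V] [Field F] [CharZero F] [LinearOrderedCommGroupWithZero Γ]
      [Fintype ι] (D : TD V F Γ ι) (ω : ℝ), ω ≤ ω0 → D.Ok C K ω k g M →
      δ * NN V ≤ D.X.card → False

/-- Section 3. -/
def MixS : Prop := ∀ (O : Type) [Field O] [CharZero O] (C K k δ : ℝ), 1 ≤ C → 1 ≤ K → 0 < k →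
  k ≤ 1 → 0 < δ → ∃ (J : ℕ) (G ω0 : ℝ), 0 < ω0 ∧
    ∀ (V : Type) [Fintype V] (D : Mx V O) (ω : ℝ), ω ≤ ω0 → Ab D.v J →
      D.Ok C K ω k δ G → False

/-- Section 4. -/
def BoxS : Prop := ∀ (O : Type) [Field O] [CharZero O] (C κ K ε : ℝ), 1 ≤ C → 0 < κ → κ ≤ 1 →
  1 ≤ K → 0 < ε → ∃ (J : ℕ) (B ω0 : ℝ), 1 ≤ B ∧ 0 < ω0 ∧
    ∀ (V : Type) [Fintype V] (E : V → V → Prop) (z w : V → O) (v : AbsoluteValue O ℝ) (ω d : ℝ),
      ω ≤ ω0 → Host E C κ K ω d → Re E z w → Ab v J → Box v z w B (ε * NN V)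

/-- Section 4: boxes at all places. -/
def BoxAllS : Prop := ∀ (O : Type) [Field O] [CharZero O] (C κ K ε : ℝ), 1 ≤ C → 0 < κ → κ ≤ 1 →
  1 ≤ K → 0 < ε → ∃ E0 ω0 : ℝ, 1 ≤ E0 ∧ 0 < ω0 ∧
    ∀ (V : Type) [Fintype V] (E : V → V → Prop) (z w : V → O) (P : Places O) (ω d : ℝ),
      ω ≤ ω0 → Host E C κ K ω d → Re E z w →
      ∃ B : P.I → ℝ, (∀ i, 1 ≤ B i) ∧ (∀ S : Finset P.I, ∑ i ∈ S, P.wt i * Real.log (B i) ≤ E0) ∧
        ∀ i, Box (P.v i) z w (B i) (ε * NN V)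

/-- Section 5: the dichotomy. -/
def AccS : Prop := ∀ C κ K θ : ℝ, 1 ≤ C → 0 < κ → κ ≤ 1 → 1 ≤ K → 0 < θ → ∃ c : ℝ, 0 < c ∧
  ∀ ε : ℝ, 0 < ε → ∃ η : ℝ, 0 < η ∧ ∀ E0 : ℝ, 1 ≤ E0 → ∃ Λ ω0 : ℝ, 0 < ω0 ∧
    ∀ (V O : Type) [Fintype V] [Field O] (E : V → V → Prop) (z w : V → O) (P : Places O)
      (H : Ht O) (B : P.I → ℝ) (ω d : ℝ), ω ≤ ω0 → Host E C κ K ω d → Re E z w → IsHt P H →
      (∀ a, z a ∈ P.L ∧ w a ∈ P.L) → (∀ i, 1 ≤ B i) →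
      (∀ S : Finset P.I, ∑ i ∈ S, P.wt i * Real.log (B i) ≤ E0) →
      (∀ i, Box (P.v i) z w (B i) (η * NN V)) →
      Nonempty (Tame E θ Λ) ∨ ∃ (s : ℝ) (G : Finset V), 1 ≤ ε * s ∧ c * NN V ≤ G.card ∧
        ∀ b ∈ G, ∃ n, Gd E z H s ε (c * d) b n

/-- Section 5: the pattern. -/
def PatS : Prop := ∀ (C κ K c : ℝ) (D : ℕ), 1 ≤ C → 0 < κ → κ ≤ 1 → 1 ≤ K → 0 < c →
  ∃ ω0 : ℝ, 0 < ω0 ∧
    ∀ (V O : Type) [Fintype V] [Field O] [CharZero O] (E : V → V → Prop) (z w : V → O)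
      (ω d ε s : ℝ) (H : Ht O) (G : Finset V), ω ≤ ω0 → Host E C κ K ω d → Re E z w → 0 < ε →
      1 ≤ ε * s → c * NN V ≤ G.card → (∀ b ∈ G, ∃ n, Gd E z H s ε (c * d) b n) →
      Nonempty (Stage O ε D)

/-- Section 5: the limit. -/
def LimS : Prop := ∀ (O : Type) [Field O] [CharZero O],
  (∀ j : ℕ, Stage O (1 / ((j : ℝ) + 1)) j) → False

/-- Section 6. -/
def LlnS : Prop := ∀ C κ K : ℝ, 1 ≤ C → 0 < κ → κ ≤ 1 → 1 ≤ K → ∃ θ : ℝ, 0 < θ ∧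
  ∀ Λ : ℝ, ∃ ω0 : ℝ, 0 < ω0 ∧ ∀ (V : Type) [Fintype V] (E : V → V → Prop) (ω d : ℝ),
    ω ≤ ω0 → Host E C κ K ω d → Tame E θ Λ → False

/-- No host has a complex realisation. -/
def NoHostS : Prop := ∀ C κ K : ℝ, 1 ≤ C → 0 < κ → κ ≤ 1 → 1 ≤ K → ∃ ω : ℝ, 0 < ω ∧ ω ≤ 1 ∧
  ∀ (V : Type) [Fintype V] (E : V → V → Prop) (z w : V → ℂ) (d : ℝ),
    Host E C κ K ω d → Re E z w → False

/-- The bound for graphs with cuttings and a complex realisation. -/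
def GraphS : Prop := ∃ η : ℝ, 0 < η ∧ ∃ n0 : ℝ, ∀ (V : Type) (E : V → V → Prop) (z w : V → ℂ),
  PL E → Re E z w → ∀ (U : Finset V) (n : ℝ), n0 ≤ n → (U.card : ℝ) ≤ n →
    (ed E U U : ℝ) < n ^ (4 / 3 - η)

/-- The theorem. -/
def MainS : Prop := ∃ c : ℝ, 0 < c ∧ ∃ n₀ : ℕ,
  ∀ (A : Finset (EuclideanSpace ℝ (Fin 2))) (d : ℝ), n₀ ≤ A.card →
    (pairs A d : ℝ) ≤ (A.card : ℝ) ^ (4 / 3 - c)

end
end Pool.Agent.Lib.MP_439fea_co.Pw
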