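import Pool.Agent.Lib.MP_439fea_co.Pw.Defs

/-! The host graph inside the extremal set. -/

namespace Pool.Agent.Lib.MP_439fea_co.Pw
open Finset Pool.Agent.Lib.MP_439fea_co.Z
open scoped Classical
noncomputable section

variable {V : Type} {E : V → V → Prop}

/-- A subset maximising `b S ^ 4 / |S| ^ 5` loses a share of `b` along every cut. -/
theorem hs_exists_expanding (b : Finset V → ℝ) (hb : ∀ S, 0 ≤ b S) (h0 : b ∅ = 0) (U : Finset V)
    (hU : U.Nonempty) : ∃ S ⊆ U, S.Nonempty ∧ b U ^ 4 * (S.card : ℝ) ^ 5 ≤ b S ^ 4 * (U.card : ℝ) ^ 5 ∧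
      ∀ T ⊆ S, 2 * T.card ≤ S.card →
        8 * S.card * (b T + b (S \ T)) ≤ (8 * S.card - T.card) * b S := by
  obtain ⟨S, hS, hmax⟩ := exists_max_image (U.powerset.filter fun S => S.Nonempty)
    (fun S => b S ^ 4 / (S.card : ℝ) ^ 5) ⟨U, by simp [hU]⟩
  obtain ⟨hSU, hSne⟩ := mem_filter.1 hS
  rw [mem_powerset] at hSU
  have hS0 : (0 : ℝ) < S.card := by exact_mod_cast hSne.card_pos
  have key : ∀ T ⊆ U, b T ^ 4 * (S.card : ℝ) ^ 5 ≤ b S ^ 4 * (T.card : ℝ) ^ 5 := by
    intro T hT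
    rcases T.eq_empty_or_nonempty with rfl | hne
    · simp [h0]
    · have hT0 : (0 : ℝ) < T.card := by exact_mod_cast hne.card_pos
      have := hmax T (mem_filter.2 ⟨mem_powerset.2 hT, hne⟩)
      rwa [div_le_div_iff₀ (by positivity) (by positivity)] at this
  refine ⟨S, hSU, hSne, key U Subset.rfl, fun T hT h2 => ?_⟩
  have h2R : 2 * (T.card : ℝ) ≤ S.card := by exact_mod_cast h2
  have hT0 : (0 : ℝ) ≤ T.card := Nat.cast_nonneg _
  have hc : ((S \ T).card : ℝ) = S.card - T.card := by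
    rw [card_sdiff_of_subset hT, Nat.cast_sub (card_le_card hT)]
  have k1 := key T (hT.trans hSU)
  have k2 := key (S \ T) (sdiff_subset.trans hSU)
  rw [hc] at k2
  have hbS := hb S
  have a1 : 8 * S.card * b T ≤ 7 * T.card * b S := by
    refine le_of_pow_le_pow_left₀ (n := 4) (by norm_num) (by positivity) ?_
    refine le_of_mul_le_mul_right ?_ hS0
    have h3 : (0 : ℝ) ≤ b S ^ 4 * (T.card : ℝ) ^ 4 := by positivity
    calc (8 * S.card * b T) ^ 4 * S.card = 4096 * (b T ^ 4 * (S.card : ℝ) ^ 5) := by ring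
      _ ≤ 4096 * (b S ^ 4 * (T.card : ℝ) ^ 5) := by linarith
      _ = 2048 * (b S ^ 4 * (T.card : ℝ) ^ 4 * (2 * T.card)) := by ring
      _ ≤ 2048 * (b S ^ 4 * (T.card : ℝ) ^ 4 * S.card) := by gcongr
      _ ≤ 2401 * (b S ^ 4 * (T.card : ℝ) ^ 4 * S.card) := by
          have := mul_nonneg h3 hS0.le
          linarith
      _ = _ := by ring
  have a2 : S.card * b (S \ T) ≤ (S.card - T.card) * b S := by
    have hd : (0 : ℝ) ≤ S.card - T.card := by linarith
    refine le_of_pow_le_pow_left₀ (n := 4) (by norm_num) (by positivity) ?_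
    refine le_of_mul_le_mul_right ?_ hS0
    calc (S.card * b (S \ T)) ^ 4 * S.card = b (S \ T) ^ 4 * (S.card : ℝ) ^ 5 := by ring
      _ ≤ b S ^ 4 * ((S.card : ℝ) - T.card) ^ 5 := k2
      _ = b S ^ 4 * ((S.card : ℝ) - T.card) ^ 4 * (S.card - T.card) := by ring
      _ ≤ b S ^ 4 * ((S.card : ℝ) - T.card) ^ 4 * S.card := by
          gcongr
          linarith
      _ = _ := by ring
  nlinarith

theorem hs_ed_union_left {X X' : Finset V} (h : Disjoint X X') (Y : Finset V) :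
    ed E (X ∪ X') Y = ed E X Y + ed E X' Y := by
  simp only [ed]
  rw [sum_union h]

theorem hs_ed_union_right (X : Finset V) {Y Y' : Finset V} (h : Disjoint Y Y') :
    ed E X (Y ∪ Y') = ed E X Y + ed E X Y' := by
  simp only [ed, nb]
  rw [← sum_add_distrib]
  refine sum_congr rfl fun a _ => ?_
  rw [filter_union, card_union_of_disjoint (disjoint_filter_filter h)]

theorem hs_ed_split (hs : ∀ a b, E a b → E b a) {S T : Finset V} (h : T ⊆ S) :
    ed E S S = ed E T T + ed E (S \ T) (S \ T) + 2 * ed E T (S \ T) := by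
  have hd : Disjoint T (S \ T) := disjoint_sdiff
  conv_lhs => rw [← union_sdiff_of_subset h]
  rw [hs_ed_union_left hd, hs_ed_union_right _ hd, hs_ed_union_right _ hd, ed_comm hs (S \ T) T]
  ring

theorem hs_nb_map {W : Type} (f : W ↪ V) (Y : Finset W) (a : W) :
    nb E (Y.map f) (f a) = (nb (fun x y => E (f x) (f y)) Y a).map f := by
  ext b
  simp only [mem_nb, mem_map]
  constructor
  · rintro ⟨⟨y, hy, rfl⟩, h⟩
    exact ⟨y, ⟨hy, h⟩, rfl⟩
  · rintro ⟨y, ⟨hy, h⟩, rfl⟩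
    exact ⟨⟨y, hy, rfl⟩, h⟩

theorem hs_ed_map {W : Type} (f : W ↪ V) (X Y : Finset W) :
    ed E (X.map f) (Y.map f) = ed (fun x y => E (f x) (f y)) X Y := by
  simp only [ed]
  rw [sum_map]
  refine sum_congr rfl fun a _ => ?_
  rw [hs_nb_map, card_map]

/-- Removing the vertices of large degree keeps half of the edges. -/
theorem hs_drop (hs : ∀ a b, E a b → E b a) {S : Finset V} {C ω d : ℝ} (hC : 1 ≤ C) (hd : 0 < d)
    (hω : C * ω ≤ 1 / 64) (he : d * S.card = ed E S S)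
    (hst : ∀ Y ⊆ S, (ed E S Y : ℝ) ≤
      C * d * ((S.card : ℝ) ^ 2 / (S.card * (8 * C) ^ 2) + 8 * C * Y.card + ω * S.card)) :
    ∃ S' ⊆ S, (∀ a ∈ S', ((nb E S a).card : ℝ) ≤ 16 * C ^ 2 * d) ∧
      d * S.card ≤ 2 * ed E S' S' := by
  set R := S.filter fun a => 16 * C ^ 2 * d ≤ (nb E S a).card with hR
  have hRS : R ⊆ S := filter_subset _ _
  have hC0 : 0 < C := by linarith
  have hN : (0 : ℝ) ≤ S.card := Nat.cast_nonneg _
  have h1 := card_mul_le_ed R S fun y hy => (mem_filter.1 hy).2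
  have h2 := hst R hRS
  rw [ed_comm hs] at h2
  have h3 : C * ((S.card : ℝ) ^ 2 / (S.card * (8 * C) ^ 2)) ≤ S.card / 64 := by
    rcases hN.eq_or_lt with h | h
    · rw [← h]; simp
    · have e : C * ((S.card : ℝ) ^ 2 / (S.card * (8 * C) ^ 2)) = S.card / 64 / C := by
        field_simp
        norm_num
      rw [e]
      exact div_le_self (by positivity) hC
  have h4 : C * ω * S.card ≤ 1 / 64 * S.card := mul_le_mul_of_nonneg_right hω hN
  have h5 : (ed E R S : ℝ) ≤ d * S.card / 16 := by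
    have h6 := mul_le_mul_of_nonneg_left h3 hd.le
    have h7 := mul_le_mul_of_nonneg_left h4 hd.le
    nlinarith
  have hsp : (ed E S S : ℝ) ≤ ed E (S \ R) (S \ R) + 2 * ed E R S := by
    have h1 := hs_ed_split hs hRS
    have h2 : ed E R S = ed E R R + ed E R (S \ R) := by
      conv_lhs => rw [← union_sdiff_of_subset hRS]
      exact hs_ed_union_right _ disjoint_sdiff
    have : ed E S S ≤ ed E (S \ R) (S \ R) + 2 * ed E R S := by omega
    exact_mod_cast this
  refine ⟨S \ R, sdiff_subset, fun a ha => ?_, by nlinarith [mul_nonneg hd.le hN]⟩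
  have h1 := mem_sdiff.1 ha
  exact (not_le.1 fun h => h1.2 (mem_filter.2 ⟨h1.1, h⟩)).le

/-- Size and density of the maximiser. -/
theorem hs_size {d b N N1 : ℝ} (hd : 0 < d) (hb : 0 ≤ b) (hN : 0 < N) (hN1 : 0 < N1)
    (h1 : d ^ 4 * N ^ 5 ≤ 16 * b ^ 4 * N1) (h2 : b ^ 10 * N1 ^ 3 ≤ d ^ 10 * N ^ 13) :
    N1 ≤ 2 ^ 20 * N ∧ d * N ≤ 64 * b := by
  have h3 : N1 ≤ 2 ^ 20 * N := by
    refine le_of_mul_le_mul_left ?_ (by positivity : 0 < d ^ 20 * N ^ 25)
    calc d ^ 20 * N ^ 25 * N1 = (d ^ 4 * N ^ 5) ^ 5 * N1 := by ring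
      _ ≤ (16 * b ^ 4 * N1) ^ 5 * N1 := by gcongr
      _ = 2 ^ 20 * (b ^ 10 * N1 ^ 3) ^ 2 := by ring
      _ ≤ 2 ^ 20 * (d ^ 10 * N ^ 13) ^ 2 := by gcongr
      _ = _ := by ring
  refine ⟨h3, le_of_pow_le_pow_left₀ (n := 4) (by norm_num) (by positivity) ?_⟩
  refine le_of_mul_le_mul_right ?_ hN
  calc (d * N) ^ 4 * N = d ^ 4 * N ^ 5 := by ring
    _ ≤ 16 * b ^ 4 * N1 := h1
    _ ≤ 16 * b ^ 4 * (2 ^ 20 * N) := by gcongr
    _ = _ := by ring

/-- Expanding almost regular subset of positive proportion. -/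
theorem hs_set (hs : ∀ a b, E a b → E b a) {S : Finset V} {C ω d : ℝ} (hC : 1 ≤ C) (hd : 128 ≤ d)
    (hω : C * ω ≤ 1 / 64) (hne : 0 < (S.card : ℝ)) (he : d * S.card = ed E S S)
    (hp : ∀ T ⊆ S, (ed E T T : ℝ) ^ 10 * (S.card : ℝ) ^ 3 ≤ d ^ 10 * (T.card : ℝ) ^ 13)
    (hst : ∀ Y ⊆ S, (ed E S Y : ℝ) ≤
      C * d * ((S.card : ℝ) ^ 2 / (S.card * (8 * C) ^ 2) + 8 * C * Y.card + ω * S.card)) :
    ∃ S' ⊆ S, 0 < (S'.card : ℝ) ∧ (S.card : ℝ) ≤ 2 ^ 20 * S'.card ∧
      (∀ a ∈ S', 1 / 1024 * d ≤ (nb E S' a).card) ∧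
      (∀ a ∈ S', ((nb E S' a).card : ℝ) ≤ 16 * C ^ 2 * d) ∧
      ∀ T ⊆ S', 2 * T.card ≤ S'.card → 1 / 1024 * d * T.card ≤ ed E T (S' \ T) := by
  have hd0 : 0 < d := by linarith
  obtain ⟨U, hU, hhi, hU'⟩ := hs_drop hs hC hd0 hω he hst
  have hUne : U.Nonempty := by
    rw [nonempty_iff_ne_empty]
    rintro rfl
    simp only [ed, sum_empty, Nat.cast_zero] at hU'
    nlinarith [mul_pos hd0 hne]
  obtain ⟨S', hS, hSne, hmax, hcut⟩ := hs_exists_expanding (fun S => (ed E S S : ℝ))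
    (fun _ => Nat.cast_nonneg _) (by simp [ed]) U hUne
  have hSS : S' ⊆ S := hS.trans hU
  have hS0 : (0 : ℝ) < S'.card := by exact_mod_cast hSne.card_pos
  have hUc : (U.card : ℝ) ≤ S.card := by exact_mod_cast card_le_card hU
  have hm : d ^ 4 * (S'.card : ℝ) ^ 5 ≤ 16 * (ed E S' S' : ℝ) ^ 4 * S.card := by
    refine le_of_mul_le_mul_right ?_ (pow_pos hne 4)
    calc d ^ 4 * (S'.card : ℝ) ^ 5 * (S.card : ℝ) ^ 4 = (d * S.card) ^ 4 * (S'.card : ℝ) ^ 5 := by
          ring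
      _ ≤ (2 * ed E U U) ^ 4 * (S'.card : ℝ) ^ 5 := by gcongr
      _ = 16 * ((ed E U U : ℝ) ^ 4 * (S'.card : ℝ) ^ 5) := by ring
      _ ≤ 16 * ((ed E S' S' : ℝ) ^ 4 * (U.card : ℝ) ^ 5) := by gcongr
      _ ≤ 16 * ((ed E S' S' : ℝ) ^ 4 * (S.card : ℝ) ^ 5) := by gcongr
      _ = _ := by ring
  obtain ⟨hsz, hlow⟩ := hs_size hd0 (Nat.cast_nonneg _) hS0 hne hm (hp S' hSS)
  have hex : ∀ T ⊆ S', 2 * T.card ≤ S'.card → 1 / 1024 * d * T.card ≤ ed E T (S' \ T) := by
    intro T hT h2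
    have h1 := hcut T hT h2
    have h3 : (ed E S' S' : ℝ) = ed E T T + ed E (S' \ T) (S' \ T) + 2 * ed E T (S' \ T) := by
      exact_mod_cast hs_ed_split hs hT
    have hT0 : (0 : ℝ) ≤ T.card := Nat.cast_nonneg _
    have h4 : (T.card : ℝ) * ed E S' S' ≤ 16 * S'.card * ed E T (S' \ T) := by
      nlinarith
    refine le_of_mul_le_mul_right ?_ hS0
    have h6 := mul_le_mul_of_nonneg_left hlow hT0
    nlinarith
  refine ⟨S', hSS, hS0, hsz, fun a ha => ?_, fun a ha => le_trans ?_ (hhi a (hS ha)), hex⟩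
  · have h2 : (ed E S' S' : ℝ) ≤ S'.card * S'.card := ed_le_card_mul S' S' fun y _ => by
      exact_mod_cast card_filter_le _ _
    have h3 : 2 * ({a} : Finset V).card ≤ S'.card := by
      have : (2 : ℝ) ≤ S'.card := by
        refine le_of_mul_le_mul_right ?_ hS0
        nlinarith
      rw [card_singleton]
      exact_mod_cast this
    have h4 := hex {a} (singleton_subset_iff.2 ha) h3
    simp only [card_singleton, Nat.cast_one, mul_one, ed, sum_singleton] at h4
    exact h4.trans (by exact_mod_cast card_le_card (nb_mono sdiff_subset a))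
  · exact_mod_cast card_le_card (nb_mono hSS a)

theorem hostS (hR : RelS) : HostS := by
  obtain ⟨C, hC, hR⟩ := hR
  have hC0 : 0 < C := by linarith
  refine ⟨2 ^ 20 * C, 1 / 1024, 16 * C ^ 2, by nlinarith, by norm_num, by norm_num, by nlinarith,
    fun ω hω hω1 => ?_⟩
  set ω' := ω / (2 ^ 20 * C) with hω'
  have hω0 : 0 < ω' := by positivity
  have e1 : 2 ^ 20 * C * ω' = ω := by rw [hω']; field_simp
  have e2 : 2 ^ 20 * ω' ≤ ω := by nlinarith
  have e3 : ω' ≤ ω := by linarith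
  obtain ⟨η, hη, n0, hR⟩ := hR ω' hω0 (e3.trans hω1)
  refine ⟨η, hη, n0, fun V E hP U n hn hU he => ?_⟩
  obtain ⟨S, hSU, d, hbig, hed, hcub, hfew, hp, hA, hB, hst⟩ := hR V E hP U n hn hU he
  have hd0 : 0 < d := by
    by_contra h
    nlinarith [not_lt.1 h]
  have hd : 128 ≤ d := by nlinarith
  have hne : 0 < (S.card : ℝ) := by
    by_contra h
    nlinarith [not_lt.1 h, pow_pos hd0 3]
  obtain ⟨S', hS, hN, hsz, hlo, hhi, hex⟩ := hs_set (ω := ω') hP.symm hC hd (by linarith) hne hed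
    hp fun Y hY => hst S Subset.rfl Y hY _ (by linarith)
  have hle : (S'.card : ℝ) ≤ S.card := by exact_mod_cast card_le_card hS
  have hCC : C ≤ 2 ^ 20 * C := by linarith
  let f : S' ↪ V := Function.Embedding.subtype _
  have hf : (univ : Finset S').map f = S' := by
    ext x
    simp [f]
  have hsub : ∀ T : Finset S', T.map f ⊆ S' := fun T => by
    conv_rhs => rw [← hf]
    exact map_subset_map.2 (subset_univ _)
  have hnb : ∀ a : S', (nb (fun a b : S' => E a b) univ a).card = (nb E S' a).card := by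
    intro a
    have := hs_nb_map (E := E) f univ a
    rw [hf] at this
    have h7 : (nb E S' (f a)).card = _ := congrArg card this
    rw [card_map] at h7
    exact h7.symm
  have hNN : NN S' = S'.card := by rw [NN, Fintype.card_coe]
  have hem : ∀ X Y : Finset S', ed (fun a b : S' => E a.1 b.1) X Y = ed E (X.map f) (Y.map f) :=
    fun X Y => (hs_ed_map f X Y).symm
  refine ⟨S', hS.trans hSU, d, ⟨fun a b => hP.symm _ _, hω, hω1, by nlinarith, ?_,
    fun X Y m hm => ?_, fun X Y m hm hm1 => ?_, fun a => ?_, fun X Y m hm => ?_⟩,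
    hP.comap Subtype.val_injective, fun a => ?_, fun T hT => ?_, ?_⟩
  · rw [hNN]
    nlinarith
  · have h := hA _ ((hsub X).trans hS) _ ((hsub Y).trans hS) m hm
    rw [card_map, card_map] at h
    rw [hem, hNN]
    refine h.trans (add_le_add (add_le_add le_rfl (by gcongr)) ?_)
    refine mul_le_mul_of_nonneg_right ?_ hd0.le
    nlinarith
  · have h := hB _ ((hsub X).trans hS) _ ((hsub Y).trans hS) m (e3.trans hm) hm1
    rw [card_map, card_map] at h
    rw [hem, hNN]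
    refine h.trans ?_
    gcongr
  · rw [hnb]
    exact hhi a a.2
  · have h := hst _ ((hsub X).trans hS) _ ((hsub Y).trans hS) m (e3.trans hm)
    have hm0 : 0 < m := hω.trans_le hm
    rw [card_map, card_map] at h
    rw [hem, hNN]
    refine h.trans ?_
    gcongr
  · rw [hnb]
    exact hlo a a.2
  · have h7 := hex (T.map f) (hsub T) (by rw [card_map]; rwa [Fintype.card_coe] at hT)
    have h8 : S' \ T.map f = Tᶜ.map f := by
      rw [compl_eq_univ_sdiff, Finset.map_sdiff, hf]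
    rw [card_map, h8, hs_ed_map] at h7
    convert h7 using 3
    · rfl
    · congr
      exact Subsingleton.elim _ _
  · rw [hNN]
    exact hle.trans (hfew.trans (Real.rpow_le_rpow_of_exponent_le (by linarith) (by linarith)))

end
end Pool.Agent.Lib.MP_439fea_co.Pw
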