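import Pool.Agent.Lib.MP_439fea_co.Pw.Defs

/-! From the bound for graphs to the count in the plane. -/

namespace Pool.Agent.Lib.MP_439fea_co.Pw
open Finset Pool.Agent.Lib.MP_439fea_co.Z
open scoped Classical

/-- The number of unit distances between two finite sets of complex numbers. -/
noncomputable def uc (A B : Finset ℂ) : ℕ := ((A ×ˢ B).filter fun x => ‖x.1 - x.2‖ = 1).card

/-- The bound for a cluster near `0` and a cluster near `-I`. -/
def Clu (e : ℝ) (n0 : ℕ) : Prop := ∀ A B : Finset ℂ, (∀ p ∈ A, ‖p‖ ≤ 1 / 10) →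
  (∀ q ∈ B, ‖q + Complex.I‖ ≤ 1 / 10) → n0 ≤ A.card + B.card →
    (uc A B : ℝ) ≤ (A.card + B.card : ℝ) ^ (e + 1)

theorem uc_image {f : ℂ → ℂ} (hf : ∀ p q, ‖f p - f q‖ = ‖p - q‖) (A B : Finset ℂ) :
    uc A B ≤ uc (A.image f) (B.image f) := by
  have hi : Function.Injective f := fun p q e => by
    have := hf p q
    rwa [e, sub_self, norm_zero, eq_comm, norm_eq_zero, sub_eq_zero] at this
  refine card_le_card_of_injOn (Prod.map f f) (fun x hx => ?_) (hi.prodMap hi).injOn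
  simp only [coe_filter, mem_product, Set.mem_ofPred_eq] at hx ⊢
  exact ⟨⟨mem_image_of_mem f hx.1.1, mem_image_of_mem f hx.1.2⟩, (hf _ _).trans hx.2⟩

theorem grid_cell {c : ℝ} {n0 : ℕ} (hc : 0 ≤ c) (H : Clu c n0)
    {A B : Finset ℂ} {n : ℝ} (hA : ∀ p ∈ A, ∀ p' ∈ A, ‖p - p'‖ ≤ 1 / 10)
    (hB : ∀ p ∈ B, ∀ p' ∈ B, ‖p - p'‖ ≤ 1 / 10) (hn : (A.card + B.card : ℝ) ≤ n) :
    (uc A B : ℝ) ≤ (n ^ c + n0) * (A.card + B.card) := by
  have h0 : (0 : ℝ) ≤ A.card + B.card := by positivity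
  have hn0 : 0 ≤ n := by linarith
  have h1 : 0 ≤ n ^ c := by positivity
  rcases Nat.eq_zero_or_pos (uc A B) with e | e
  · rw [e, Nat.cast_zero]
    positivity
  rcases lt_or_ge (A.card + B.card) n0 with l | l
  · have h2 : uc A B ≤ n0 * (A.card + B.card) := (card_filter_le _ _).trans
      ((card_product A B).trans_le (Nat.mul_le_mul (by omega) (by omega)))
    have h3 : (uc A B : ℝ) ≤ n0 * (A.card + B.card) := by exact_mod_cast h2
    nlinarith [mul_nonneg h1 h0]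
  obtain ⟨⟨p0, q0⟩, hx⟩ := card_pos.1 e
  simp only [mem_filter, mem_product] at hx
  obtain ⟨⟨hp, hq⟩, hu⟩ := hx
  have h2 : p0 - q0 ≠ 0 := fun e => by simp [e] at hu
  let f : ℂ → ℂ := fun z => (z - p0) * (Complex.I / (p0 - q0))
  have hw : ‖Complex.I / (p0 - q0)‖ = 1 := by rw [norm_div, hu, Complex.norm_I, div_one]
  have hf : ∀ p q, ‖f p - f q‖ = ‖p - q‖ := fun p q => by
    simp only [f]
    rw [← sub_mul, sub_sub_sub_cancel_right, norm_mul, hw, mul_one]
  have hi : Function.Injective f := fun p q e => by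
    have := hf p q
    rwa [e, sub_self, norm_zero, eq_comm, norm_eq_zero, sub_eq_zero] at this
  have h3 := H (A.image f) (B.image f) (forall_mem_image.2 fun p h => by
      simpa [f, hw] using (hf p p0).trans_le (hA p h p0 hp))
    (forall_mem_image.2 fun q h => by
      have e1 : f q + Complex.I = f q - f q0 := by
        simp only [f]
        field_simp
        ring
      exact e1 ▸ (hf q q0).trans_le (hB q h q0 hq))
    (by rwa [card_image_of_injective _ hi, card_image_of_injective _ hi])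
  rw [card_image_of_injective _ hi, card_image_of_injective _ hi,
    Real.rpow_add_one' h0 (by positivity)] at h3
  have h4 : (A.card + B.card : ℝ) ^ c ≤ n ^ c := Real.rpow_le_rpow h0 hn hc
  have h5 : (uc A B : ℝ) ≤ uc (A.image f) (B.image f) := Nat.cast_le.2 (uc_image hf A B)
  nlinarith [mul_le_mul_of_nonneg_right h4 h0, mul_nonneg (Nat.cast_nonneg (α := ℝ) n0) h0]

/-- The square of the grid that contains a point. -/
noncomputable def cell (p : ℂ) : ℤ × ℤ := (⌊20 * p.re⌋, ⌊20 * p.im⌋)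

theorem cell_near {p q : ℂ} (h : cell p = cell q) : ‖p - q‖ ≤ 1 / 10 := by
  have h1 := Int.abs_sub_lt_one_of_floor_eq_floor (congrArg Prod.fst h)
  have h2 := Int.abs_sub_lt_one_of_floor_eq_floor (congrArg Prod.snd h)
  have h3 := Complex.norm_le_abs_re_add_abs_im (p - q)
  rw [← mul_sub, abs_mul, abs_of_pos (by norm_num : (0 : ℝ) < 20)] at h1 h2
  rw [Complex.sub_re, Complex.sub_im] at h3
  linarith

theorem cell_off {p q : ℂ} (h : ‖p - q‖ = 1) :
    cell q - cell p ∈ Icc (-21 : ℤ) 21 ×ˢ Icc (-21 : ℤ) 21 := by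
  have k : ∀ x y : ℝ, |x - y| ≤ 1 → ⌊20 * y⌋ - ⌊20 * x⌋ ∈ Icc (-21 : ℤ) 21 := fun x y e => by
    obtain ⟨e1, e2⟩ := abs_le.1 e
    have a1 := Int.floor_le (20 * x)
    have a2 := Int.lt_floor_add_one (20 * x)
    have a3 := Int.floor_le (20 * y)
    have a4 := Int.lt_floor_add_one (20 * y)
    refine mem_Icc.2 ⟨?_, ?_⟩
    · have : ((-21 : ℤ) : ℝ) ≤ (⌊20 * y⌋ - ⌊20 * x⌋ : ℤ) := by push_cast; linarith
      exact_mod_cast this
    · have : ((⌊20 * y⌋ - ⌊20 * x⌋ : ℤ) : ℝ) ≤ (21 : ℤ) := by push_cast; linarith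
      exact_mod_cast this
  exact mem_product.2 ⟨k _ _ (h ▸ Complex.abs_re_le_norm (p - q)),
    k _ _ (h ▸ Complex.abs_im_le_norm (p - q))⟩

theorem grid_sum {L : ℝ} (hL : 0 ≤ L) (P : Finset ℂ) (H : ∀ A ⊆ P, ∀ B ⊆ P,
      (∀ p ∈ A, ∀ p' ∈ A, ‖p - p'‖ ≤ 1 / 10) → (∀ p ∈ B, ∀ p' ∈ B, ‖p - p'‖ ≤ 1 / 10) →
        (uc A B : ℝ) ≤ L * (A.card + B.card)) : (uc P P : ℝ) ≤ 3698 * L * P.card := by
  let D := Icc (-21 : ℤ) 21 ×ˢ Icc (-21 : ℤ) 21
  let F := fun (δ i : ℤ × ℤ) => P.filter fun p => cell p - δ = i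
  have hF : ∀ δ i, ∀ p ∈ F δ i, ∀ p' ∈ F δ i, ‖p - p'‖ ≤ 1 / 10 := fun δ i p h p' h' =>
    cell_near (sub_left_injective ((mem_filter.1 h).2.trans (mem_filter.1 h').2.symm))
  have hS : ∀ δ, (∑ i ∈ P.image cell, ((F δ i).card : ℝ)) ≤ P.card := fun δ => by
    rw [← Nat.cast_sum, Nat.cast_le, sum_card_fiberwise_eq_card_filter]
    exact card_filter_le _ _
  have h1 : uc P P ≤ ∑ δ ∈ D, ∑ i ∈ P.image cell, uc (F 0 i) (F δ i) := by
    refine (card_le_card (t := D.biUnion fun δ => (P.image cell).biUnion fun i =>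
      (F 0 i ×ˢ F δ i).filter fun x => ‖x.1 - x.2‖ = 1) fun x hx => ?_).trans
      (card_biUnion_le.trans (sum_le_sum fun δ _ => card_biUnion_le))
    simp only [mem_filter, mem_product] at hx
    exact mem_biUnion.2 ⟨_, cell_off hx.2, mem_biUnion.2 ⟨_, mem_image_of_mem cell hx.1.1,
      mem_filter.2 ⟨mem_product.2 ⟨mem_filter.2 ⟨hx.1.1, sub_zero _⟩,
        mem_filter.2 ⟨hx.1.2, sub_sub_cancel _ _⟩⟩, hx.2⟩⟩⟩
  refine (Nat.cast_le.2 h1).trans ?_
  rw [Nat.cast_sum]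
  refine (sum_le_card_nsmul D _ (L * (2 * P.card)) fun δ _ => ?_).trans_eq ?_
  · rw [Nat.cast_sum]
    refine (sum_le_sum fun i _ => H _ (filter_subset _ _) _ (filter_subset _ _) (hF 0 i)
      (hF δ i)).trans ?_
    rw [← mul_sum, sum_add_distrib]
    exact mul_le_mul_of_nonneg_left (by linarith [hS 0, hS δ]) hL
  · rw [show D.card = 1849 by simp [D], nsmul_eq_mul]
    push_cast
    ring

theorem grid_uc {c ε : ℝ} {n0 : ℕ} (hc : 0 ≤ c) (hc1 : c ≤ 1) (H : Clu c n0) (hε : 0 < ε) :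
    ∃ n₀ : ℕ, ∀ P : Finset ℂ, n₀ ≤ P.card → (uc P P : ℝ) ≤ (P.card : ℝ) ^ (c + 1 + ε) := by
  refine ⟨⌈(3698 * (2 + n0 : ℝ)) ^ ε⁻¹⌉₊ + 1, fun P hP => ?_⟩
  have h1' : (1 : ℝ) ≤ P.card := by exact_mod_cast (Nat.le_add_left 1 _).trans hP
  have h0 : (0 : ℝ) < P.card := by linarith
  have h1 := grid_sum (L := (2 * (P.card : ℝ)) ^ c + n0) (by positivity) P
    fun A hA B hB h1 h2 => grid_cell hc H h1 h2 (by
      have a1 : (A.card : ℝ) ≤ P.card := Nat.cast_le.2 (card_le_card hA)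
      have a2 : (B.card : ℝ) ≤ P.card := Nat.cast_le.2 (card_le_card hB)
      linarith)
  have h2 : 3698 * (2 + n0 : ℝ) ≤ (P.card : ℝ) ^ ε := by
    refine le_trans (le_of_eq ?_) (Real.rpow_le_rpow (by positivity)
      (Nat.ceil_le.1 ((Nat.le_succ _).trans hP)) hε.le)
    rw [Real.rpow_inv_rpow (by positivity) hε.ne']
  have h3 : 1 ≤ (P.card : ℝ) ^ c := Real.one_le_rpow h1' hc
  have h4 : (2 * (P.card : ℝ)) ^ c ≤ 2 * (P.card : ℝ) ^ c := by
    rw [Real.mul_rpow (by norm_num) h0.le]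
    refine mul_le_mul_of_nonneg_right ?_ (by positivity)
    simpa using Real.rpow_le_rpow_of_exponent_le (x := 2) (by norm_num) hc1
  have h5 : (2 * (P.card : ℝ)) ^ c + n0 ≤ (2 + n0) * (P.card : ℝ) ^ c := by
    nlinarith [mul_le_mul_of_nonneg_left h3 (Nat.cast_nonneg (α := ℝ) n0)]
  rw [Real.rpow_add h0, Real.rpow_add_one h0.ne']
  have h6 := mul_le_mul_of_nonneg_right h5 h0.le
  have h7 := mul_le_mul_of_nonneg_left h2 (by positivity : 0 ≤ (P.card : ℝ) ^ c * P.card)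
  nlinarith

theorem grid_main {c ε : ℝ} {n0 : ℕ} (hc : 0 ≤ c) (hc1 : c ≤ 1) (H : Clu c n0) (hε : 0 < ε) :
    ∃ n₀ : ℕ, ∀ (A : Finset (EuclideanSpace ℝ (Fin 2))) (d : ℝ), n₀ ≤ A.card →
      (pairs A d : ℝ) ≤ (A.card : ℝ) ^ (c + 1 + ε) := by
  obtain ⟨n₀, h⟩ := grid_uc hc hc1 H hε
  refine ⟨n₀, fun A d hA => ?_⟩
  rcases le_or_gt d 0 with hd | hd
  · rw [pairs, filter_false_of_mem, card_empty, Nat.cast_zero]
    · positivity
    · rintro s - ⟨x, -, y, -, h1, h2⟩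
      exact (dist_pos.2 h1).not_ge (h2 ▸ hd)
  let e := Complex.orthonormalBasisOneI.repr.symm
  let f : EuclideanSpace ℝ (Fin 2) → ℂ := fun x => e x / d
  have hf : ∀ x y, ‖f x - f y‖ = dist x y / d := fun x y => by
    simp only [f]
    rw [← sub_div, norm_div, ← dist_eq_norm, e.dist_map, Complex.norm_real, Real.norm_of_nonneg hd.le]
  have hi : Function.Injective f := fun x y k => by
    have := hf x y
    rwa [k, sub_self, norm_zero, eq_comm, div_eq_zero_iff, or_iff_left hd.ne', dist_eq_zero] at this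
  have h1 := h (A.image f) (by rwa [card_image_of_injective _ hi])
  rw [card_image_of_injective _ hi] at h1
  refine le_trans (Nat.cast_le.2 ?_) h1
  refine (card_le_card_of_surjOn (s := (A ×ˢ A).filter fun x => dist x.1 x.2 = d)
    (fun x => {x.1, x.2}) fun s hs => ?_).trans
    (card_le_card_of_injOn (Prod.map f f) (fun x hx => ?_) (hi.prodMap hi).injOn)
  · obtain ⟨h2, x, hx, y, hy, h3, h4⟩ := mem_filter.1 hs
    obtain ⟨h5, h6⟩ := mem_powersetCard.1 h2
    exact ⟨(x, y), mem_filter.2 ⟨mem_product.2 ⟨h5 hx, h5 hy⟩, h4⟩, eq_of_subset_of_card_le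
      (insert_subset hx (singleton_subset_iff.2 hy)) (h6.trans (card_pair h3).symm).le⟩
  · simp only [coe_filter, mem_product, Set.mem_ofPred_eq] at hx ⊢
    exact ⟨⟨mem_image_of_mem f hx.1.1, mem_image_of_mem f hx.1.2⟩,
      (hf _ _).trans (by rw [hx.2, div_self hd.ne'])⟩

/-- Points near `0` or near `-I`. -/
abbrev Pt : Type := {p : ℂ // ‖p‖ ≤ 1 / 10 ∨ ‖p + Complex.I‖ ≤ 1 / 10}

theorem fin_sq (p q : ℂ) : (p.re - q.re) ^ 2 + (p.im - q.im) ^ 2 = ‖p - q‖ ^ 2 := by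
  rw [Complex.sq_norm, Complex.normSq_apply, Complex.sub_re, Complex.sub_im]
  ring

theorem fin_pl : PL (fun a b : Pt => ‖a.1 - b.1‖ = 1) := by
  have hre : ∀ a : Pt, |a.1.re| ≤ 1 / 10 := fun a => a.2.elim
    (fun h => (Complex.abs_re_le_norm _).trans h)
    fun h => by simpa using (Complex.abs_re_le_norm _).trans h
  refine Arc.pl (Arc.of_sep (x := fun a => a.1.re) (y := fun a => a.1.im)
    (up := fun a => ‖a.1‖ ≤ 1 / 10) (fun a b h1 h2 => Subtype.ext (Complex.ext h1 h2))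
    (fun a b => ?_) (fun a b h => ?_) (fun a b ha hb => ?_) fun a b => ?_)
  · have h1 := abs_le.1 (hre a)
    have h2 := abs_le.1 (hre b)
    exact abs_lt.2 ⟨by linarith [h1.1, h2.2], by linarith [h1.2, h2.1]⟩
  · have h1 : ‖a.1 - b.1‖ ≤ 1 / 5 := by
      by_cases ha : ‖a.1‖ ≤ 1 / 10
      · linarith [norm_sub_le a.1 b.1, h.1 ha]
      · have := norm_sub_le (a.1 + Complex.I) (b.1 + Complex.I)
        rw [add_sub_add_right_eq_sub] at this
        linarith [a.2.resolve_left ha, b.2.resolve_left fun hb => ha (h.2 hb)]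
    rw [fin_sq]
    nlinarith [norm_nonneg (a.1 - b.1)]
  · have h1 := abs_le.1 ((Complex.abs_im_le_norm _).trans ha)
    have h2 := abs_le.1 ((Complex.abs_im_le_norm _).trans (b.2.resolve_left hb))
    simp only [Complex.add_im, Complex.I_im] at h2
    linarith [h1.1, h2.2]
  · rw [fin_sq, pow_eq_one_iff_of_nonneg (norm_nonneg _) two_ne_zero]

theorem fin_re : Re (fun a b : Pt => ‖a.1 - b.1‖ = 1) (fun a => a.1)
    fun a => (starRingEnd ℂ) a.1 :=
  ⟨Subtype.val_injective, fun _ _ e => Subtype.ext ((starRingEnd ℂ).injective e), fun a b e => by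
    rw [← map_sub, Complex.mul_conj, Complex.normSq_eq_norm_sq, e]
    simp⟩

theorem mainS (H : GraphS) : MainS := by
  obtain ⟨η, hη, n0, h⟩ := H
  have h1 : 0 < min η (1 / 3) := by positivity
  have h2 := min_le_left η (1 / 3)
  have h3 := min_le_right η (1 / 3)
  have hC : Clu (1 / 3 - min η (1 / 3)) (⌈n0⌉₊ + 1) := by
    intro A B hA hB hn
    have h0 : (1 : ℝ) ≤ A.card + B.card := by exact_mod_cast (Nat.le_add_left 1 _).trans hn
    let S : Finset Pt := (A ∪ B).subtype _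
    have hS : S.card ≤ A.card + B.card :=
      ((card_subtype _ _).trans_le (card_filter_le _ _)).trans (card_union_le _ _)
    have hE : uc A B ≤ ed (fun a b : Pt => ‖a.1 - b.1‖ = 1) S S := by
      have e : ed (fun a b : Pt => ‖a.1 - b.1‖ = 1) S S =
          ((S ×ˢ S).filter fun z => ‖z.1.1 - z.2.1‖ = 1).card := by
        simp only [ed, nb, card_filter, sum_product]
      rw [e]
      refine card_le_card_of_surjOn (Prod.map Subtype.val Subtype.val) fun z hz => ?_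
      simp only [coe_filter, mem_product, Set.mem_ofPred_eq] at hz
      refine ⟨(⟨z.1, .inl (hA _ hz.1.1)⟩, ⟨z.2, .inr (hB _ hz.1.2)⟩), ?_, rfl⟩
      simp only [coe_filter, mem_product, Set.mem_ofPred_eq, S, mem_subtype, mem_union]
      exact ⟨⟨.inl hz.1.1, .inr hz.1.2⟩, hz.2⟩
    have := h _ _ _ _ fin_pl fin_re S (A.card + B.card)
      (by exact_mod_cast Nat.ceil_le.1 ((Nat.le_succ _).trans hn)) (by exact_mod_cast hS)
    refine le_trans (by exact_mod_cast hE) (this.le.trans ?_)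
    exact Real.rpow_le_rpow_of_exponent_le h0 (by linarith)
  obtain ⟨n₀, h4⟩ := grid_main (by linarith) (by linarith) hC (half_pos h1)
  refine ⟨min η (1 / 3) / 2, half_pos h1, n₀, fun A d hA => (h4 A d hA).trans_eq ?_⟩
  congr 1
  ring

end Pool.Agent.Lib.MP_439fea_co.Pw
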