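import Pool.Agent.Lib.MP_439fea_co.Pw.Defs

/-! The height attached to a family of places. -/

namespace Pool.Agent.Lib.MP_439fea_co.Pw
open Finset Real
open scoped Classical
noncomputable section

variable {O : Type} [Field O]

theorem ht_add_le (v : AbsoluteValue O ℝ) (x y : O) :
    posLog (v (x + y)) ≤ posLog (v x) + posLog (v y) + 1 := by
  have h1 := posLog_le_posLog (v.nonneg _) (v.add_le x y)
  have h2 := posLog_add (x := v x) (y := v y)
  have h3 := log_two_lt_d9
  linarith

theorem ht_add_na {v : AbsoluteValue O ℝ} (h : IsNonarchimedean v) (x y : O) :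
    posLog (v (x + y)) ≤ posLog (v x) + posLog (v y) := by
  have a := posLog_nonneg (x := v x)
  have b := posLog_nonneg (x := v y)
  rcases le_max_iff.1 (h x y) with k | k
  · linarith [posLog_le_posLog (v.nonneg _) k]
  · linarith [posLog_le_posLog (v.nonneg _) k]

theorem ht_step {t c : ℝ} (ht : 1 < t) (hc : 0 ≤ c) {i n : ℕ} (hi : i < n) :
    t * (c * t ^ i) ≤ c * t ^ n := by
  have : t ^ (i + 1) ≤ t ^ n := pow_le_pow_right₀ ht.le hi
  rw [pow_succ] at this
  nlinarith

theorem ht_root_le (v : AbsoluteValue O ℝ) (n : ℕ) (c : ℕ → O) (x : O)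
    (h : x ^ n + ∑ i ∈ range n, c i * x ^ i = 0) :
    posLog (v x) ≤ ∑ i ∈ range n, posLog (v (c i)) + n := by
  have h0 : 0 ≤ ∑ i ∈ range n, posLog (v (c i)) := sum_nonneg fun i _ => posLog_nonneg
  have hn : (0 : ℝ) ≤ n := n.cast_nonneg
  rcases le_or_gt (v x) 1 with hx | hx
  · rw [(posLog_eq_zero_iff _).2 (by rwa [abs_of_nonneg (v.nonneg _)])]
    linarith
  have hs : ∑ i ∈ range n, c i * x ^ i = -x ^ n := eq_neg_of_add_eq_zero_right h
  have h1 := v.sum_le (range n) fun i => c i * x ^ i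
  rw [hs, v.map_neg, map_pow] at h1
  have hp : 0 < v x ^ n := by positivity
  have h2 : v x * v x ^ n ≤ (∑ i ∈ range n, v (c i)) * v x ^ n := by
    refine (mul_le_mul_of_nonneg_left h1 (v.nonneg _)).trans ?_
    rw [mul_sum, sum_mul]
    refine sum_le_sum fun i hi => ?_
    rw [map_mul, map_pow]
    exact ht_step hx (v.nonneg _) (mem_range.1 hi)
  have h3 := posLog_le_posLog (v.nonneg _) (le_of_mul_le_mul_right h2 hp)
  have h4 := posLog_sum (range n) fun i => v (c i)
  rw [card_range] at h4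
  have h5 := log_le_self hn
  linarith

theorem ht_root_na {v : AbsoluteValue O ℝ} (hv : IsNonarchimedean v) (n : ℕ) (c : ℕ → O) (x : O)
    (h : x ^ n + ∑ i ∈ range n, c i * x ^ i = 0) :
    posLog (v x) ≤ ∑ i ∈ range n, posLog (v (c i)) := by
  have h0 : 0 ≤ ∑ i ∈ range n, posLog (v (c i)) := sum_nonneg fun i _ => posLog_nonneg
  rcases le_or_gt (v x) 1 with hx | hx
  · rw [(posLog_eq_zero_iff _).2 (by rwa [abs_of_nonneg (v.nonneg _)])]
    exact h0
  have hn : n ≠ 0 := by
    rintro rfl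
    simp at h
  have hs : ∑ i ∈ range n, c i * x ^ i = -x ^ n := eq_neg_of_add_eq_zero_right h
  obtain ⟨i, hi, h1⟩ := hv.finset_image_add_of_nonempty (fun i => c i * x ^ i)
    (nonempty_range_iff.2 hn)
  rw [hs, v.map_neg, map_pow, map_mul, map_pow] at h1
  have hp : 0 < v x ^ n := by positivity
  have h2 : v x * v x ^ n ≤ v (c i) * v x ^ n :=
    (mul_le_mul_of_nonneg_left h1 (v.nonneg _)).trans (ht_step hx (v.nonneg _) (mem_range.1 hi))
  exact (posLog_le_posLog (v.nonneg _) (le_of_mul_le_mul_right h2 hp)).trans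
    (single_le_sum (f := fun i => posLog (v (c i))) (fun i _ => posLog_nonneg) hi)

namespace Places
variable (P : Places O)

/-- The places at which `x` is not a unit. -/
def supp (x : O) : Finset P.I :=
  if hx : x ∈ P.L ∧ x ≠ 0 then (P.fin x hx.1 hx.2).toFinset else ∅

theorem mem_supp {x : O} (hx : x ∈ P.L) {i : P.I} : i ∈ P.supp x ↔ x ≠ 0 ∧ P.v i x ≠ 1 := by
  unfold supp
  split_ifs with h
  · simp [h.2]
  · simp only [notMem_empty, false_iff]
    exact fun k => h ⟨hx, k.1⟩

/-- The height. -/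
def ht (x : O) : ℝ := ∑ i ∈ P.supp x, P.wt i * posLog (P.v i x)

theorem ht_eq {x : O} (hx : x ∈ P.L) {S : Finset P.I} (hS : P.supp x ⊆ S) :
    P.ht x = ∑ i ∈ S, P.wt i * posLog (P.v i x) := by
  refine sum_subset hS fun i _ hi => ?_
  by_cases h0 : x = 0
  · simp [h0]
  · have : P.v i x = 1 := by
      by_contra h
      exact hi ((P.mem_supp hx).2 ⟨h0, h⟩)
    simp [this]

theorem le_ht {x : O} (hx : x ∈ P.L) (S : Finset P.I) :
    ∑ i ∈ S, P.wt i * posLog (P.v i x) ≤ P.ht x := by
  rw [P.ht_eq hx (S := S ∪ P.supp x) subset_union_right]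
  exact sum_le_sum_of_subset_of_nonneg subset_union_left
    fun i _ _ => mul_nonneg (P.pos i).le posLog_nonneg

theorem ht_le {x : O} {g : P.I → ℝ} {e : ℝ} (he : 0 ≤ e)
    (h1 : ∀ i, posLog (P.v i x) ≤ g i + e) (h2 : ∀ i, i ∉ P.ar → posLog (P.v i x) ≤ g i) :
    P.ht x ≤ ∑ i ∈ P.supp x, P.wt i * g i + e := by
  have h3 : ∑ i ∈ P.supp x, (if i ∈ P.ar then P.wt i else 0) ≤ 1 := by
    rw [← sum_filter, ← P.arw]
    exact sum_le_sum_of_subset_of_nonneg (fun i hi => (mem_filter.1 hi).2)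
      fun i _ _ => (P.pos i).le
  have h4 : P.ht x ≤ ∑ i ∈ P.supp x, (P.wt i * g i + (if i ∈ P.ar then P.wt i else 0) * e) := by
    refine sum_le_sum fun i _ => ?_
    split_ifs with hi
    · rw [← mul_add]
      exact mul_le_mul_of_nonneg_left (h1 i) (P.pos i).le
    · rw [zero_mul, add_zero]
      exact mul_le_mul_of_nonneg_left (h2 i hi) (P.pos i).le
  rw [sum_add_distrib, ← sum_mul] at h4
  nlinarith

theorem ht_inv {x : O} (hx : x ∈ P.L) : P.ht x⁻¹ = P.ht x := by
  by_cases h0 : x = 0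
  · rw [h0, inv_zero]
  have h := P.prod x hx h0 (P.supp x) fun i h => (P.mem_supp hx).2 ⟨h0, h⟩
  rw [P.ht_eq (inv_mem hx) (S := P.supp x) fun i hi => (P.mem_supp hx).2 ⟨h0, fun e =>
    ((P.mem_supp (inv_mem hx)).1 hi).2 (by rw [map_inv₀, e, inv_one])⟩, ht, eq_comm,
    ← sub_eq_zero, ← sum_sub_distrib, ← h]
  refine sum_congr rfl fun i _ => ?_
  rw [← mul_sub, map_inv₀, posLog_sub_posLog_inv]

/-- The height function of the places. -/
def toHt : Ht O where
  dom := P.L
  h := P.ht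
  nonneg x := sum_nonneg fun i _ => mul_nonneg (P.pos i).le posLog_nonneg
  zero := by simp [ht]
  one := by simp [ht]
  neg x hx := by
    rw [P.ht_eq (neg_mem hx) (S := P.supp (-x) ∪ P.supp x) subset_union_left,
      P.ht_eq hx (S := P.supp (-x) ∪ P.supp x) subset_union_right]
    simp only [AbsoluteValue.map_neg]
  inv x hx := P.ht_inv hx
  add x hx y hy := by
    refine (P.ht_le zero_le_one (fun i => ht_add_le (P.v i) x y)
      fun i hi => ht_add_na (P.na i hi) x y).trans ?_
    simp only [mul_add, sum_add_distrib]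
    linarith [P.le_ht hx (P.supp (x + y)), P.le_ht hy (P.supp (x + y))]
  mul x hx y hy := by
    have k : ∀ i, posLog (P.v i (x * y)) ≤ posLog (P.v i x) + posLog (P.v i y) := fun i => by
      rw [map_mul]
      exact posLog_mul
    refine (P.ht_le le_rfl (fun i => (k i).trans (add_zero _).ge) fun i _ => k i).trans ?_
    simp only [mul_add, sum_add_distrib]
    linarith [P.le_ht hx (P.supp (x * y)), P.le_ht hy (P.supp (x * y))]
  root n c x _ hc h := by
    refine (P.ht_le n.cast_nonneg (fun i => ht_root_le (P.v i) n c x h)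
      fun i hi => ht_root_na (P.na i hi) n c x h).trans ?_
    simp only [mul_sum]
    rw [sum_comm]
    exact add_le_add (sum_le_sum fun i hi => P.le_ht (hc i (mem_range.1 hi)) _) le_rfl

end Places

theorem htS : HtS := fun _ _ P => ⟨P.toHt, rfl, fun _ hx _ hS =>
  P.ht_eq hx fun i hi => hS ((P.mem_supp hx).1 hi).1 i ((P.mem_supp hx).1 hi).2⟩

end
end Pool.Agent.Lib.MP_439fea_co.Pw
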