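import Pool.Agent.Lib.MP_439fea_co.Pw.Defs

/-! One cutting step with pieces of bounded size. -/

namespace Pool.Agent.Lib.MP_439fea_co.Pw
open Finset Pool.Agent.Lib.MP_439fea_co.Z
open scoped Classical

variable {V : Type} {E : V → V → Prop}

theorem rel_sum_le_pieces (w : V → ℝ) {N : ℕ} (hN : 1 ≤ N) {W : ℝ} (hW : 0 ≤ W) (n : ℕ) :
    ∀ F : Finset V, F.card = n → (∀ T ⊆ F, T.card ≤ N → ∑ a ∈ T, w a ≤ W) →
      ∑ a ∈ F, w a ≤ ((F.card : ℝ) / N + 1) * W := by
  have hN0 : (0 : ℝ) < N := by exact_mod_cast hN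
  induction n using Nat.strong_induction_on with
  | _ n ih =>
    intro F hF h
    by_cases hle : F.card ≤ N
    · have h1 := h F subset_rfl hle
      have h2 : (0 : ℝ) ≤ (F.card : ℝ) / N * W := by positivity
      linarith
    · obtain ⟨T, hT, hc⟩ := exists_subset_card_eq (not_le.1 hle).le
      have h1 := h T hT hc.le
      have hcs : (F \ T).card + N = F.card := by rw [← hc]; exact card_sdiff_add_card_eq_card hT
      have h2 := ih (F \ T).card (by omega) (F \ T) rfl fun T' hT' => h T' (hT'.trans sdiff_subset)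
      have h3 : ((F \ T).card : ℝ) / N + 1 = (F.card : ℝ) / N := by
        rw [← hcs]
        push_cast
        field_simp
      rw [← sum_sdiff hT]
      rw [h3] at h2
      linarith

theorem rel_sum_le_labels (w : V → ℝ) (X : Finset V) (lab : V → ℕ) {N : ℕ} (hN : 1 ≤ N) {W : ℝ}
    (hW : 0 ≤ W) (h : ∀ i, ∀ T ⊆ X, (∀ a ∈ T, lab a = i) → T.card ≤ N → ∑ a ∈ T, w a ≤ W) :
    ∑ a ∈ X, w a ≤ (((X.image lab).card : ℝ) + (X.card : ℝ) / N) * W := by
  have hm : ∀ a ∈ X, lab a ∈ X.image lab := fun a ha => mem_image_of_mem _ ha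
  rw [← sum_fiberwise_of_maps_to hm]
  have h1 : ∀ i ∈ X.image lab, ∑ a ∈ X with lab a = i, w a ≤
      (((X.filter fun a => lab a = i).card : ℝ) / N + 1) * W := fun i _ =>
    rel_sum_le_pieces w hN hW _ _ rfl fun T hT hc => h i T (hT.trans (filter_subset _ _))
      (fun a ha => (mem_filter.1 (hT ha)).2) hc
  refine (sum_le_sum h1).trans (le_of_eq ?_)
  rw [← sum_mul, sum_add_distrib, ← sum_div, card_eq_sum_card_fiberwise hm]
  simp [add_comm]

theorem rel_ed_high (hk : ∀ a a' b b', a ≠ a' → E a b → E a' b → E a b' → E a' b' → b = b')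
    (X Y : Finset V) {q : ℕ} (hq : 1 ≤ q) (hX : ∀ a ∈ X, q < (nb E Y a).card) :
    (ed E X Y : ℝ) ≤ (Y.card : ℝ) ^ 2 / q := by
  have hq0 : (0 : ℝ) < q := by exact_mod_cast hq
  rw [le_div_iff₀ hq0]
  refine le_trans ?_ (cherry_le hk X Y)
  simp only [ed]
  push_cast
  rw [sum_mul]
  refine sum_le_sum fun a ha => mul_le_mul_of_nonneg_left ?_ (Nat.cast_nonneg _)
  have h1 : ((q + 1 : ℕ) : ℝ) ≤ (nb E Y a).card := by exact_mod_cast hX a ha
  push_cast at h1
  linarith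

/-- One cutting step. -/
theorem rel_ed_le_cut (hk : ∀ a a' b b', a ≠ a' → E a b → E a' b → E a b' → E a' b' → b = b')
    (X Y : Finset V) {q N : ℕ} (hq : 1 ≤ q) (hN : 1 ≤ N) (lab : V → ℕ) {W : ℝ} (hW : 0 ≤ W)
    (hc : ∀ i, (Y.filter fun b => ∃ a ∈ X, lab a = i ∧ (nb E Y a).card ≤ q ∧ E a b).card ≤ 4 * q)
    (h : ∀ T ⊆ X, ∀ Y' ⊆ Y, T.card ≤ N → Y'.card ≤ 4 * q → (∀ a ∈ T, ∀ a' ∈ T, lab a = lab a') →
      (ed E T Y' : ℝ) ≤ W) :
    (ed E X Y : ℝ) ≤ (Y.card : ℝ) ^ 2 / q + (((X.image lab).card : ℝ) + (X.card : ℝ) / N) * W := by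
  set lo := X.filter fun a => (nb E Y a).card ≤ q with hlo
  set hi := X.filter fun a => ¬ (nb E Y a).card ≤ q with hhi
  have hsplit : ed E X Y = ed E lo Y + ed E hi Y := by
    simp only [ed, hlo, hhi]
    rw [sum_filter_add_sum_filter_not]
  have h1 := rel_ed_high hk hi Y hq fun a ha => not_le.1 (mem_filter.1 ha).2
  have h2 : (ed E lo Y : ℝ) ≤ (((lo.image lab).card : ℝ) + (lo.card : ℝ) / N) * W := by
    simp only [ed]
    push_cast
    refine rel_sum_le_labels _ lo lab hN hW fun i T hT hi hcT => ?_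
    have h3 := h T (hT.trans (filter_subset _ _)) _ (filter_subset _ _) hcT (hc i)
      fun a ha a' ha' => (hi a ha).trans (hi a' ha').symm
    refine le_trans ?_ h3
    simp only [ed]
    push_cast
    refine sum_le_sum fun a ha => ?_
    have h4 := mem_filter.1 (hT ha)
    refine Nat.cast_le.2 (card_le_card fun b hb => ?_)
    obtain ⟨hb1, hb2⟩ := mem_nb.1 hb
    exact mem_nb.2 ⟨mem_filter.2 ⟨hb1, a, h4.1, hi a ha, h4.2, hb2⟩, hb2⟩
  have h3 : ((lo.image lab).card : ℝ) ≤ (X.image lab).card :=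
    Nat.cast_le.2 (card_le_card (image_subset_image (filter_subset _ _)))
  have h4 : (lo.card : ℝ) / N ≤ (X.card : ℝ) / N :=
    div_le_div_of_nonneg_right (Nat.cast_le.2 (card_le_card (filter_subset _ _)))
      (Nat.cast_nonneg _)
  have h5 := mul_le_mul_of_nonneg_right (add_le_add h3 h4) hW
  rw [hsplit]
  push_cast
  linarith

/-- The cutting bound inside a set all of whose small subsets span at most `W q` edges. -/
theorem rel_cut (h : PL E) (S X Y : Finset V) (hX : X ⊆ S) (hY : Y ⊆ S) (hxy : X.card ≤ Y.card)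
    (h0 : 0 < X.card) (hq : Y.card ≤ X.card ^ 2) {W : ℝ} (hW : 0 ≤ W)
    (hS : ∀ T ⊆ S, (T.card : ℝ) ≤ 5 * ((X.card : ℝ) ^ 2 / Y.card) → (ed E T T : ℝ) ≤ W) :
    (ed E Y X : ℝ) ≤ 2 * Y.card + 578 * ((Y.card : ℝ) / X.card) ^ 2 * W := by
  have hy0 : 0 < Y.card := h0.trans_le hxy
  set q := X.card ^ 2 / Y.card with hqd
  have hq1 : 1 ≤ q := (Nat.le_div_iff_mul_le hy0).2 (by omega)
  have x0 : (0 : ℝ) < X.card := by exact_mod_cast h0
  have y0 : (0 : ℝ) < Y.card := by exact_mod_cast hy0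
  have xy : (X.card : ℝ) ≤ Y.card := by exact_mod_cast hxy
  have q1 : (1 : ℝ) ≤ q := by exact_mod_cast hq1
  have a1 : (q : ℝ) * Y.card ≤ (X.card : ℝ) ^ 2 := by
    exact_mod_cast Nat.div_mul_le_self (X.card ^ 2) Y.card
  have a2 : (X.card : ℝ) ^ 2 ≤ 2 * q * Y.card := by
    have h1 : X.card ^ 2 < Y.card * (q + 1) := Nat.lt_mul_div_succ _ hy0
    have h2 : (X.card : ℝ) ^ 2 < Y.card * (q + 1) := by exact_mod_cast h1
    nlinarith
  obtain ⟨lab, hl, hc⟩ := h.cut Y X q hq1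
  have h1 := rel_ed_le_cut h.k22 Y X hq1 hq1 lab hW hc fun T hT Y' hY' c1 c2 _ => by
    refine le_trans (Nat.cast_le.2 (ed_mono subset_union_left subset_union_right))
      (hS (T ∪ Y') (union_subset (hT.trans hY) (hY'.trans hX)) ?_)
    have h2 : (T ∪ Y').card ≤ 5 * q := by
      have := card_union_le T Y'
      omega
    have h3 : ((T ∪ Y').card : ℝ) ≤ 5 * q := by exact_mod_cast h2
    have h4 : (q : ℝ) ≤ (X.card : ℝ) ^ 2 / Y.card := by rwa [le_div_iff₀ y0]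
    linarith
  have b1 : (X.card : ℝ) ^ 2 / q ≤ 2 * Y.card := by
    rw [div_le_iff₀ (by linarith)]
    linarith
  have r1 : 1 ≤ (Y.card : ℝ) / X.card := by rwa [one_le_div x0]
  have b2 : (X.card : ℝ) / q ≤ 2 * ((Y.card : ℝ) / X.card) := by
    rw [← mul_div_assoc, div_le_div_iff₀ (by linarith) x0]
    nlinarith
  have b3 : (Y.card : ℝ) / q ≤ 2 * ((Y.card : ℝ) / X.card) ^ 2 := by
    rw [div_pow, ← mul_div_assoc, div_le_div_iff₀ (by linarith) (by positivity)]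
    nlinarith
  have b4 : ((Y.image lab).card : ℝ) ≤ 256 * ((Y.card : ℝ) / X.card) ^ 2 := by
    have h1 : ((Y.image lab).card : ℝ) ≤ ((16 * (X.card / q + 2) ^ 2 : ℕ) : ℝ) := by
      exact_mod_cast hl
    push_cast at h1
    have h2 : ((X.card / q : ℕ) : ℝ) ≤ (X.card : ℝ) / q := Nat.cast_div_le
    have h3 : (0 : ℝ) ≤ ((X.card / q : ℕ) : ℝ) := Nat.cast_nonneg _
    have h4 : ((X.card / q : ℕ) : ℝ) + 2 ≤ 4 * ((Y.card : ℝ) / X.card) := by linarith
    have h5 := pow_le_pow_left₀ (by linarith) h4 2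
    nlinarith
  have b5 : ((Y.image lab).card : ℝ) + (Y.card : ℝ) / q ≤ 578 * ((Y.card : ℝ) / X.card) ^ 2 := by
    nlinarith [sq_nonneg ((Y.card : ℝ) / X.card)]
  have b6 := mul_le_mul_of_nonneg_right b5 hW
  linarith

end Pool.Agent.Lib.MP_439fea_co.Pw
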