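import Pool.Agent.Lib.MP_439fea_co.Pw.LDefs4
import Pool.Agent.Lib.MP_439fea_co.Pw.RelA

/-! A cell with many blocks. -/

namespace Pool.Agent.Lib.MP_439fea_co.Pw
open Finset Pool.Agent.Lib.MP_439fea_co.Z
open scoped Classical

variable {V : Type} {E : V → V → Prop}

theorem cell_blocks (h : PL E) {G T Y : Finset V} (hT : T ⊆ G) (hY : Y ⊆ G) {k k' : ℕ}
    (hk' : 1 ≤ k') {W : ℝ} (hW : 0 < W) (h1 : W ≤ ed E T Y) (h2 : (k : ℝ) * Y.card ≤ W / 2)
    (h3 : (T.card : ℝ) ^ 2 / k' ≤ W / 4) :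
    ∃ D : Blk E G k, D.X = T ∧ W / 4 ≤ k' * D.F.card := by
  set F := Y.filter fun y => k ≤ (nb E T y).card ∧ (nb E T y).card ≤ k' with hF
  set lo := Y.filter fun y => (nb E T y).card < k with hlo
  set hi := Y.filter fun y => k' < (nb E T y).card with hhi
  have hs : ed E Y T ≤ ed E F T + ed E lo T + ed E hi T := by
    simp only [ed, hF, hlo, hhi, sum_filter]
    rw [← sum_add_distrib, ← sum_add_distrib]
    refine sum_le_sum fun y _ => ?_
    split_ifs <;> omega
  have a1 : (ed E F T : ℝ) ≤ k' * F.card :=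
    ed_le_card_mul F T fun y hy => by exact_mod_cast (mem_filter.1 hy).2.2
  have a2 : (ed E lo T : ℝ) ≤ k * lo.card :=
    ed_le_card_mul lo T fun y hy => by exact_mod_cast (mem_filter.1 hy).2.le
  have a3 := rel_ed_high h.k22 hi T hk' fun y hy => (mem_filter.1 hy).2
  have a4 : (k : ℝ) * lo.card ≤ k * Y.card :=
    mul_le_mul_of_nonneg_left (Nat.cast_le.2 (card_le_card (filter_subset _ _))) (Nat.cast_nonneg _)
  have a5 : (ed E Y T : ℝ) ≤ ed E F T + ed E lo T + ed E hi T := by exact_mod_cast hs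
  rw [ed_comm h.symm] at h1
  have hfin : W / 4 ≤ k' * F.card := by linarith
  have hne : F.Nonempty := by
    rw [← card_pos]
    by_contra h0
    have : F.card = 0 := by omega
    rw [this] at hfin
    simp only [Nat.cast_zero, mul_zero] at hfin
    linarith
  have hB : ∀ y, ∃ B : Finset V, y ∈ F → B ⊆ nb E T y ∧ B.card = k := fun y => by
    by_cases hy : y ∈ F
    · obtain ⟨B, b1, b2⟩ := exists_subset_card_eq (mem_filter.1 hy).2.1
      exact ⟨B, fun _ => ⟨b1, b2⟩⟩
    · exact ⟨∅, fun h => absurd h hy⟩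
  choose B hB using hB
  exact ⟨⟨T, F, B, hT, (filter_subset _ _).trans hY, hne,
    fun y hy x hx => (mem_nb.1 ((hB y hy).1 hx)).1, fun y hy => (hB y hy).2,
    fun y hy x hx => h.symm _ _ (mem_nb.1 ((hB y hy).1 hx)).2⟩, rfl, hfin⟩

theorem cell_core (h : PL E) (G : Finset V) {q M k k' : ℕ} (hq : 1 ≤ q) (hM : 1 ≤ M)
    (hk' : 1 ≤ k') {W : ℝ} (hW : 0 < W)
    (h1 : (G.card : ℝ) ^ 2 / q + (16 * ((G.card : ℝ) / q + 2) ^ 2 + G.card / M) * W < ed E G G)
    (h2 : (k : ℝ) * (4 * q) ≤ W / 2) (h3 : (M : ℝ) ^ 2 / k' ≤ W / 4) :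
    ∃ D : Blk E G k, D.X.card ≤ M ∧ W / 4 ≤ k' * D.F.card := by
  obtain ⟨lab, hl, hc⟩ := h.cut G G q hq
  by_contra hno
  have b1 := rel_ed_le_cut h.k22 G G hq hM lab hW.le hc fun T hT Y hY c1 c2 _ => by
    by_contra hlt
    have c3 : (T.card : ℝ) ≤ M := by exact_mod_cast c1
    have c4 : (Y.card : ℝ) ≤ 4 * q := by exact_mod_cast c2
    obtain ⟨D, d1, d2⟩ := cell_blocks h hT hY (k := k) hk' hW (not_le.1 hlt).le
      ((mul_le_mul_of_nonneg_left c4 (Nat.cast_nonneg _)).trans h2)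
      ((div_le_div_of_nonneg_right (pow_le_pow_left₀ (Nat.cast_nonneg _) c3 2)
        (Nat.cast_nonneg _)).trans h3)
    exact hno ⟨D, d1 ▸ c1, d2⟩
  have b4 : ((G.image lab).card : ℝ) ≤ 16 * ((G.card : ℝ) / q + 2) ^ 2 := by
    have h1 : ((G.image lab).card : ℝ) ≤ ((16 * (G.card / q + 2) ^ 2 : ℕ) : ℝ) := by
      exact_mod_cast hl
    push_cast at h1
    have h2 : ((G.card / q : ℕ) : ℝ) ≤ (G.card : ℝ) / q := Nat.cast_div_le
    have h3 : (0 : ℝ) ≤ ((G.card / q : ℕ) : ℝ) := Nat.cast_nonneg _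
    have h5 := pow_le_pow_left₀ (by linarith) (add_le_add_left h2 2) 2
    linarith
  have b5 := mul_le_mul_of_nonneg_right (add_le_add_left b4 ((G.card : ℝ) / M)) hW.le
  linarith

theorem cell_good [Fintype V] {C κ K ω d : ℝ} (hκ : 0 < κ) (hκ1 : κ ≤ 1) (hK : 1 ≤ K)
    (H : Host E C κ K ω d) (G : Finset V) (hG : ((Gᶜ).card : ℝ) ≤ κ / (4 * K) * NN V) :
    κ * NN V * d / 2 ≤ ed E G G := by
  have hd := H.amb.dpos
  have hN := H.amb.Npos
  have a1 : κ * d * G.card ≤ ed E G univ := card_mul_le_ed G univ fun y _ => H.lo y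
  have a2 : ed E G univ = ed E G G + ed E G Gᶜ := by
    simp only [ed]
    rw [← sum_add_distrib]
    refine sum_congr rfl fun a _ => ?_
    rw [← card_filter_add_card_filter_not (s := nb E univ a) (· ∈ G)]
    congr 2 <;> ext b <;> simp [mem_nb, and_comm]
  have a3 : (ed E Gᶜ G : ℝ) ≤ K * d * (Gᶜ).card :=
    ed_le_card_mul _ _ fun y _ =>
      (Nat.cast_le.2 (card_le_card (nb_mono (subset_univ _) y))).trans (H.amb.hi y)
  rw [ed_comm H.amb.symm] at a3
  have a4 : (G.card : ℝ) + (Gᶜ).card = NN V := by exact_mod_cast card_add_card_compl G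
  have a5 : K * (Gᶜ).card ≤ κ * NN V / 4 := by
    have := mul_le_mul_of_nonneg_left hG (by linarith : 0 ≤ K)
    refine this.trans (le_of_eq ?_)
    field_simp
  have a6 : ((Gᶜ).card : ℝ) ≤ NN V / 4 := by
    have : (0 : ℝ) ≤ (Gᶜ).card := Nat.cast_nonneg _
    nlinarith
  rw [a2] at a1
  push_cast at a1
  have a7 : κ * d * (3 * NN V / 4) ≤ κ * d * G.card :=
    mul_le_mul_of_nonneg_left (by linarith) (by positivity)
  have a8 := mul_le_mul_of_nonneg_left a5 hd.le
  nlinarith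

theorem cellS : CellS := by
  intro C κ K k hC hκ hκ1 hK hk
  have hk2 : (2 : ℝ) ≤ k := by exact_mod_cast hk
  set c : ℝ := κ / (9600 * k) with hc
  have c0 : 0 < c := by positivity
  have ck : c * (9600 * k) = κ := by
    rw [hc]
    field_simp
  have c1 : 4 * c ≤ κ := by nlinarith
  set a : ℝ := 9600 / (κ * c ^ 2) with ha
  have a0 : 0 < a := by positivity
  have ak : a * (κ * c ^ 2) = 9600 := by
    rw [ha]
    field_simp
  refine ⟨4 * (a + 1) ^ 2, 1 / c + C, by nlinarith, fun V _ E ω d G hd H hG => ?_⟩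
  have d0 := H.amb.dpos
  have d1 := H.amb.one_le
  have N0 := H.amb.Npos
  have hcub := H.amb.cub
  set N := NN V with hN
  set D := d ^ ω with hD
  have D1 : 1 ≤ D := Real.one_le_rpow d1 H.amb.ωpos.le
  have hfew : N ≤ d ^ 3 * D := by
    have := H.few
    rwa [Real.rpow_add d0, Real.rpow_ofNat] at this
  set r := c * d with hr
  have r1 : 1 ≤ r := by
    have : 1 / c ≤ d := by linarith
    rwa [div_le_iff₀ c0, mul_comm] at this
  have r0 : 0 < r := by linarith
  have dN : d ^ 2 ≤ N := by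
    have h1 : C ≤ d := by
      have : 0 < 1 / c := by positivity
      linarith
    have h2 : d * d ^ 2 ≤ d * N := by nlinarith
    exact le_of_mul_le_mul_left h2 d0
  have rd : r ≤ d := by nlinarith
  have rN : r ^ 2 ≤ N := (pow_le_pow_left₀ r0.le rd 2).trans dN
  have q1 : 1 ≤ N / r := by
    rw [one_le_div r0]
    nlinarith
  have m1 : 1 ≤ N / r ^ 2 := by rwa [one_le_div (by positivity)]
  set q := ⌈N / r⌉₊ with hq
  set M := ⌈N / r ^ 2⌉₊ with hM
  have q2 : N / r ≤ q := Nat.le_ceil _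
  have q3 : (q : ℝ) ≤ 2 * (N / r) := by
    have := Nat.ceil_lt_add_one (by linarith : 0 ≤ N / r)
    linarith
  have m2 : N / r ^ 2 ≤ M := Nat.le_ceil _
  have m3 : (M : ℝ) ≤ 2 * (N / r ^ 2) := by
    have := Nat.ceil_lt_add_one (by linarith : 0 ≤ N / r ^ 2)
    linarith
  have q0 : (0 : ℝ) < q := by linarith
  have m0 : (0 : ℝ) < M := by linarith
  set W := κ * d / 600 * (N / r ^ 2) with hW
  have W0 : 0 < W := by positivity
  set k' := ⌈4 * (M : ℝ) ^ 2 / W⌉₊ with hk'
  have k2 : 4 * (M : ℝ) ^ 2 / W ≤ k' := Nat.le_ceil _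
  have k4 : 0 < 4 * (M : ℝ) ^ 2 / W := by positivity
  have k3 : (k' : ℝ) ≤ 4 * (M : ℝ) ^ 2 / W + 1 := (Nat.ceil_lt_add_one k4.le).le
  have k0 : (0 : ℝ) < k' := by linarith
  have GN : (G.card : ℝ) ≤ N := Nat.cast_le.2 (card_le_univ G)
  have G0 : (0 : ℝ) ≤ G.card := Nat.cast_nonneg _
  obtain ⟨B, b1, b2⟩ := cell_core H.pl G (q := q) (M := M) (k := k) (k' := k')
    (by exact_mod_cast q0) (by exact_mod_cast m0) (by exact_mod_cast k0) W0
    (by
      refine lt_of_lt_of_le ?_ (cell_good hκ hκ1 hK H G hG)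
      have e1 : (G.card : ℝ) / q ≤ r := by
        rw [div_le_iff₀ r0] at q2
        rw [div_le_iff₀ q0]
        linarith
      have e2 : (G.card : ℝ) / M ≤ r ^ 2 := by
        rw [div_le_iff₀ (by positivity)] at m2
        rw [div_le_iff₀ m0]
        linarith
      have e3 : (G.card : ℝ) ^ 2 / q ≤ N * r := by
        rw [sq, mul_div_assoc]
        exact mul_le_mul GN e1 (by positivity) N0.le
      have e4 : ((G.card : ℝ) / q + 2) ^ 2 ≤ (3 * r) ^ 2 :=
        pow_le_pow_left₀ (by positivity) (by linarith) 2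
      have e5 : (16 * ((G.card : ℝ) / q + 2) ^ 2 + G.card / M) * W ≤ 145 * r ^ 2 * W :=
        mul_le_mul_of_nonneg_right (by linarith) W0.le
      have e6 : r ^ 2 * W = κ * N * d / 600 := by
        rw [hW]
        field_simp
      have e7 : N * r ≤ κ * N * d / 4 := by
        have := mul_le_mul_of_nonneg_left c1 (mul_pos N0 d0).le
        rw [hr]
        linarith
      have e8 : 0 < κ * N * d := by positivity
      rw [← hN]
      linarith)
    (by
      have e1 : W / 2 = k * (8 * (N / r)) := by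
        rw [hW, ← ck, hr]
        field_simp
        norm_num
      rw [e1]
      exact mul_le_mul_of_nonneg_left (by linarith) (by linarith))
    (by
      rw [div_le_iff₀ W0] at k2
      rw [div_le_iff₀ k0]
      linarith)
  have x1 : (B.X.card : ℝ) ≤ M := by exact_mod_cast b1
  have x0 : (0 : ℝ) ≤ B.X.card := Nat.cast_nonneg _
  have f0 : (0 : ℝ) ≤ B.F.card := Nat.cast_nonneg _
  have s1 : N / r ^ 2 ≤ d * D / c ^ 2 := by
    rw [hr, div_le_div_iff₀ (by positivity) (by positivity)]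
    have := mul_le_mul_of_nonneg_right hfew (sq_nonneg c)
    nlinarith
  have s2 : d * D / c ^ 2 = a * D * (κ * d / 600) / 16 := by
    rw [ha]
    field_simp
    norm_num
  have s3 : 4 * (M : ℝ) ^ 2 ≤ a * D * W := by
    have e1 : (M : ℝ) ^ 2 ≤ (2 * (N / r ^ 2)) ^ 2 := pow_le_pow_left₀ m0.le m3 2
    have e2 := mul_le_mul_of_nonneg_right (s1.trans s2.le) (by linarith : 0 ≤ N / r ^ 2)
    rw [hW]
    nlinarith
  have s4 : (k' : ℝ) ≤ (a + 1) * D := by
    have : 4 * (M : ℝ) ^ 2 / W ≤ a * D := by rwa [div_le_iff₀ W0]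
    linarith
  have s5 : W ≤ 4 * ((a + 1) * D) * B.F.card := by
    have := mul_le_mul_of_nonneg_right s4 f0
    linarith
  have s6 : (M : ℝ) * d ≤ (a + 1) * W := by
    have e1 : 1200 ≤ a * κ := by
      have : c ^ 2 ≤ 1 := by nlinarith
      have h2 : 0 < a * κ := by positivity
      nlinarith
    have e2 := mul_le_mul_of_nonneg_right e1 (by positivity : 0 ≤ d / 600 * (N / r ^ 2))
    have e3 := mul_le_mul_of_nonneg_right m3 d0.le
    have e4 : a * W = a * κ * (d / 600 * (N / r ^ 2)) := by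
      rw [hW]
      ring
    nlinarith
  refine ⟨B, ?_, ?_⟩
  · have e1 : (B.X.card : ℝ) ^ 2 ≤ (M : ℝ) ^ 2 := pow_le_pow_left₀ x0 x1 2
    have e2 := mul_le_mul_of_nonneg_left s5 (by positivity : 0 ≤ (a + 1) * D)
    have e3 : 0 ≤ D * W := by positivity
    have e4 : 0 ≤ a * D * W := by positivity
    nlinarith
  · have e1 := mul_le_mul_of_nonneg_right x1 d0.le
    have e2 := mul_le_mul_of_nonneg_left s5 (by positivity : 0 ≤ a + 1)
    nlinarith

end Pool.Agent.Lib.MP_439fea_co.Pw
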