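import Pool.Agent.Lib.MP_439fea_co.Pw.LDefs

/-! The finite core of the law of large numbers step. -/

namespace Pool.Agent.Lib.MP_439fea_co.Pw
open Finset Pool.Agent.Lib.MP_439fea_co.Z
open scoped Classical

theorem Blk.co_dg {V : Type} {E : V → V → Prop} {G : Finset V} {k : ℕ} (D : Blk E G k)
    (hk : 2 ≤ k) (hL : D.Lin) (x : V) : D.dg x ≤ D.X.card := by
  have h1 : ∑ y ∈ D.F.filter (fun y => x ∈ D.B y), ((D.B y).erase x).card ≤ D.X.card := by
    rw [← card_biUnion]
    · refine card_le_card fun a ha => ?_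
      obtain ⟨y, hy, h⟩ := mem_biUnion.1 ha
      exact D.sub y (mem_filter.1 hy).1 (mem_of_mem_erase h)
    · intro y hy y' hy' hne
      have a1 := mem_filter.1 (mem_coe.1 hy)
      have a2 := mem_filter.1 (mem_coe.1 hy')
      exact disjoint_left.2 fun a ha ha' => (mem_erase.1 ha).1
        (hL y a1.1 y' a2.1 hne x a1.2 a (mem_of_mem_erase ha) a2.2 (mem_of_mem_erase ha')).symm
  have h2 := card_nsmul_le_sum (D.F.filter fun y => x ∈ D.B y)
    (fun y => ((D.B y).erase x).card) 1 fun y hy => by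
      rw [card_erase_of_mem (mem_filter.1 hy).2, D.card y (mem_filter.1 hy).1]
      omega
  rw [smul_eq_mul, mul_one] at h2
  unfold Blk.dg
  exact_mod_cast h2.trans h1

theorem coreS (hM : MartS) (hI : MissS) (hS : StepS) : CoreS := by
  intro Q
  have Q0 : (0 : ℝ) ≤ Q := Nat.cast_nonneg _
  refine ⟨80 * (Q + 1), 6 + (16 * (40 * (Q + 1)) ^ 2 + 1) * (Q + 2), by omega, by positivity,
    fun V E G D R d hL ⟨π⟩ hR hd h1 h2 => ?_⟩
  have lR : 0 ≤ Real.log R := Real.log_nonneg hR
  have l100 : Real.log (100 * R) ≤ 5 + Real.log R := by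
    rw [Real.log_mul (by norm_num) (by linarith)]
    have : Real.log 100 ≤ Real.log (2 ^ 7) := Real.log_le_log (by norm_num) (by norm_num)
    rw [Real.log_pow] at this
    push_cast at this
    linarith [Real.log_two_lt_d9]
  have p0 : (0 : ℝ) ≤ (16 * (40 * (Q + 1)) ^ 2 + 1) * (Q + 2) := by positivity
  rcases le_total d (100 * R) with hc | hc
  · have := Real.log_le_log (by linarith) hc
    nlinarith
  have R0 : 0 < 100 * R := by linarith
  obtain ⟨T, t1, t2⟩ := exists_nat_pow_near ((one_le_div R0).2 hc) (y := (Q : ℝ) + 2) (by linarith)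
  have F0 : (0 : ℝ) < D.F.card := by exact_mod_cast D.ne.card_pos
  have kc : ((80 * (Q + 1) : ℕ) : ℝ) = 80 * (Q + 1) := by push_cast; ring
  have hX : (D.X.card : ℝ) ≤ R / d * D.F.card := by
    rw [div_mul_eq_mul_div, le_div_iff₀ (by linarith)]
    exact h2
  have hFk : (D.F.card : ℝ) ≤ D.F.card * ((80 * (Q + 1) : ℕ) : ℝ) := by
    rw [kc]
    nlinarith
  have hRd : R / d ≤ 1 / 100 := by
    rw [div_le_div_iff₀ (by linarith) (by norm_num)]
    linarith
  have Q1 : 1 ≤ Q := by
    obtain ⟨i, -⟩ := nonempty_of_sum_ne_zero (π.one.trans_ne one_ne_zero)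
    obtain ⟨y, -⟩ := D.ne
    exact (π.c i y).pos
  have h3 := hM V E G _ Q T D (1 / (40 * (Q + 1))) (by omega) Q1 hL (by positivity)
    (by rw [div_le_one (by positivity)]; linarith) fun Λ P hP => by
      have a1 : ((D.X.image P).card : ℝ) ≤ d / (100 * R) := by
        refine le_trans ?_ ((pow_le_pow_left₀ Q0 (by linarith) T).trans t1)
        exact_mod_cast hP
      obtain ⟨i, -, hi⟩ := hS V Λ E G _ Q D P _ π (by omega) (fun x _ => by
        have a2 : D.pr x ≤ R / d := by
          unfold Blk.pr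
          rw [div_le_iff₀ (F0.trans_le hFk)]
          exact ((D.co_dg (by omega) hL x).trans hX).trans
            (mul_le_mul_of_nonneg_left hFk (by positivity))
        have a3 : 0 ≤ D.pr x := by
          unfold Blk.pr Blk.dg
          positivity
        refine (mul_le_mul a1 a2 a3 (by positivity)).trans (le_of_eq ?_)
        field_simp) (hX.trans (mul_le_mul hRd hFk F0.le (by norm_num)))
      refine ⟨π.c i, le_of_not_ge fun hcor => ?_⟩
      have a4 := hI V Λ E G _ Q D P (π.c i) _ (by omega) (by positivity) hcor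
      have a5 : (Q : ℝ) * (2 / ((80 * (Q + 1) : ℕ) : ℝ) + 1 / (40 * (Q + 1))) ≤ 1 / 20 := by
        have e : (Q : ℝ) * (2 / (80 * (Q + 1)) + 1 / (40 * (Q + 1))) = Q / (20 * (Q + 1)) := by
          field_simp
          ring
        rw [kc, e, div_le_div_iff₀ (by positivity) (by norm_num)]
        linarith
      nlinarith
  have h4 : Real.log ((D.X.card : ℝ) ^ 2 / (D.F.card * ((80 * (Q + 1) : ℕ) : ℝ) *
      (((80 * (Q + 1) : ℕ) : ℝ) - 1))) ≤ Real.log R := by
    have b1 : (1 : ℝ) ≤ ((80 * (Q + 1) : ℕ) : ℝ) - 1 := by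
      rw [kc]
      linarith
    have b2 : (D.F.card : ℝ) ≤ D.F.card * ((80 * (Q + 1) : ℕ) : ℝ) *
        (((80 * (Q + 1) : ℕ) : ℝ) - 1) := hFk.trans (le_mul_of_one_le_right (by linarith) b1)
    obtain ⟨y, hy⟩ := D.ne
    have b3 : 0 < D.X.card := lt_of_lt_of_le (by rw [D.card y hy]; omega)
      (card_le_card (D.sub y hy))
    have b4 : (0 : ℝ) < D.X.card := by exact_mod_cast b3
    refine Real.log_le_log (div_pos (by positivity) (F0.trans_le b2)) ?_
    rw [div_le_iff₀ (F0.trans_le b2)]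
    exact h1.trans (mul_le_mul_of_nonneg_left b2 (by linarith))
  have h5 : (T : ℝ) ≤ 16 * (40 * (Q + 1)) ^ 2 * Real.log R := by
    have b1 := h3.trans h4
    rw [div_pow, one_pow, mul_one_div, div_div, div_le_iff₀ (by positivity)] at b1
    linarith
  have h6 := Real.log_le_log (by positivity) t2.le
  rw [Real.log_div (by linarith) R0.ne', Real.log_pow] at h6
  have h7 : Real.log ((Q : ℝ) + 2) ≤ Q + 2 := by
    linarith [Real.log_le_sub_one_of_pos (by linarith : (0 : ℝ) < Q + 2)]
  have h8 : ((T + 1 : ℕ) : ℝ) * Real.log ((Q : ℝ) + 2) ≤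
      (16 * (40 * (Q + 1)) ^ 2 * Real.log R + 1) * (Q + 2) := by
    refine mul_le_mul ?_ h7 (Real.log_nonneg (by linarith)) (by positivity)
    push_cast
    linarith
  have h9 : 0 ≤ Real.log R * (Q + 2) := by positivity
  have h10 : (0 : ℝ) ≤ 16 * (40 * (Q + 1)) ^ 2 * (Q + 2) := by positivity
  nlinarith

end Pool.Agent.Lib.MP_439fea_co.Pw
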