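import Pool.Agent.Lib.MP_439fea_co.Pw.LDefs4

/-! The law of a point of a random block, and the statements of the finite steps. -/

namespace Pool.Agent.Lib.MP_439fea_co.Pw
open Finset Pool.Agent.Lib.MP_439fea_co.Z
open scoped Classical
noncomputable section

namespace Blk
variable {V Λ : Type} {E : V → V → Prop} {G : Finset V} {k Q : ℕ} (D : Blk E G k)

/-- Two blocks share at most one point. -/
def Lin : Prop := ∀ y ∈ D.F, ∀ y' ∈ D.F, y ≠ y' → ∀ x ∈ D.B y, ∀ x' ∈ D.B y,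
  x ∈ D.B y' → x' ∈ D.B y' → x = x'
/-- Number of blocks through `x`. -/
def dg (x : V) : ℝ := (D.F.filter fun y => x ∈ D.B y).card
/-- Law of a point. -/
def pr (x : V) : ℝ := D.dg x / (D.F.card * k)
/-- Mass of a set of points. -/
def ms (p : V → Prop) : ℝ := ∑ x ∈ D.X.filter p, D.pr x
/-- Conditional mass of `p` in the class of `x`. -/
def cm (P : V → Λ) (x : V) (p : V → Prop) : ℝ :=
  D.ms (fun x' => P x' = P x ∧ p x') / D.ms fun x' => P x' = P x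
/-- Centred indicator of the label `l`. -/
def gc (P : V → Λ) (c : V → Fin Q) (x : V) (l : Fin Q) : ℝ :=
  (if c x = l then 1 else 0) - D.cm P x fun x' => c x' = l
/-- Correlation of two points of a block. -/
def corr (P : V → Λ) (c : V → Fin Q) : ℝ :=
  (∑ y ∈ D.F, ∑ x ∈ D.B y, ∑ x' ∈ (D.B y).erase x, ∑ l, D.gc P c x l * D.gc P c x' l) /
    (D.F.card * k * (k - 1))
/-- Mass of the labels that the block does not take. -/
def miss (P : V → Λ) (c : V → Fin Q) : ℝ :=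
  (∑ y ∈ D.F, ∑ x ∈ D.B y, D.cm P x fun x' => c x' ∉ (D.B y).image c) / (D.F.card * k)

/-- Pictures of the points at finitely many places. -/
structure Pic (Q : ℕ) (a : ℝ) where
  I : Type
  S : Finset I
  wt : I → ℝ
  c : I → V → Fin Q
  inn : I → V → Prop
  near : I → V → V → Prop
  adm : I → V → V → Prop
  pos : ∀ i ∈ S, 0 ≤ wt i
  one : ∑ i ∈ S, wt i = 1
  hin : ∀ x ∈ D.X, ∑ i ∈ S.filter (fun i => ¬ inn i x), wt i ≤ a
  hne : ∀ x ∈ D.X, ∀ x' ∈ D.X, x ≠ x' → ∑ i ∈ S.filter (fun i => near i x x'), wt i ≤ a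
  had : ∀ y ∈ D.F, ∀ y' ∈ D.F, y ≠ y' → ∑ i ∈ S.filter (fun i => ¬ adm i y y'), wt i ≤ a
  two : ∀ i ∈ S, ∀ y ∈ D.F, ∀ y' ∈ D.F, adm i y y' → ∃ φ : V → Prop, ∀ x ∈ D.X, ∀ x' ∈ D.X,
    (inn i x ∧ c i x ∈ (D.B y).image (c i) ∧ c i x ∈ (D.B y').image (c i)) →
    (inn i x' ∧ c i x' ∈ (D.B y).image (c i) ∧ c i x' ∈ (D.B y').image (c i)) →
    (φ x ↔ φ x') → x = x' ∨ near i x x'
end Blk

/-- The product martingale bounds the number of correlated refinements. -/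
def MartS : Prop := ∀ (V : Type) (E : V → V → Prop) (G : Finset V) (k Q T : ℕ) (D : Blk E G k)
  (e : ℝ), 2 ≤ k → 1 ≤ Q → D.Lin → 0 < e → e ≤ 1 →
  (∀ (Λ : Type) (P : V → Λ), (D.X.image P).card ≤ Q ^ T → ∃ c : V → Fin Q, e ≤ D.corr P c) →
  T * e ^ 2 / 16 ≤ Real.log ((D.X.card : ℝ) ^ 2 / (D.F.card * k * (k - 1)))

/-- Small correlation: blocks take most labels. -/
def MissS : Prop := ∀ (V Λ : Type) (E : V → V → Prop) (G : Finset V) (k Q : ℕ) (D : Blk E G k)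
  (P : V → Λ) (c : V → Fin Q) (e : ℝ), 2 ≤ k → 0 ≤ e → D.corr P c ≤ e →
  D.miss P c ^ 2 ≤ Q * (2 / k + e)

/-- At some place the blocks miss a fixed share of the labels. -/
def StepS : Prop := ∀ (V Λ : Type) (E : V → V → Prop) (G : Finset V) (k Q : ℕ) (D : Blk E G k)
  (P : V → Λ) (a : ℝ) (π : D.Pic Q a), 1 ≤ k →
  (∀ x ∈ D.X, ((D.X.image P).card : ℝ) * D.pr x ≤ a) → (D.X.card : ℝ) ≤ a * (D.F.card * k) →
  ∃ i ∈ π.S, 1 / 4 - 2 * a ≤ D.miss P (π.c i)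

/-- The finite core. -/
def CoreS : Prop := ∀ Q : ℕ, ∃ (k : ℕ) (ρ : ℝ), 2 ≤ k ∧ 0 < ρ ∧
  ∀ (V : Type) (E : V → V → Prop) (G : Finset V) (D : Blk E G k) (R d : ℝ), D.Lin →
    Nonempty (D.Pic Q (1 / 100)) → 1 ≤ R → 1 ≤ d → (D.X.card : ℝ) ^ 2 ≤ R * D.F.card →
    (D.X.card : ℝ) * d ≤ R * D.F.card → Real.log d ≤ ρ * (Real.log R + 1)

end
end Pool.Agent.Lib.MP_439fea_co.Pw
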