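import Pool.Agent.Lib.MP_439fea_co.Pw.Asm

/-! Blocks of points on curves, and the statements of the cell and geometry steps. -/

namespace Pool.Agent.Lib.MP_439fea_co.Pw
open Finset Pool.Agent.Lib.MP_439fea_co.Z
open scoped Classical

variable {V : Type}

/-- Curves `F`, each with a block of exactly `k` adjacent points of the cell `X`. -/
structure Blk (E : V → V → Prop) (G : Finset V) (k : ℕ) where
  X : Finset V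
  F : Finset V
  B : V → Finset V
  XG : X ⊆ G
  FG : F ⊆ G
  ne : F.Nonempty
  sub : ∀ y ∈ F, B y ⊆ X
  card : ∀ y ∈ F, (B y).card = k
  adj : ∀ y ∈ F, ∀ x ∈ B y, E x y

/-- A cell with many blocks. -/
def CellS : Prop := ∀ (C κ K : ℝ) (k : ℕ), 1 ≤ C → 0 < κ → κ ≤ 1 → 1 ≤ K → 2 ≤ k →
  ∃ A d0 : ℝ, 1 ≤ A ∧ ∀ (V : Type) [Fintype V] (E : V → V → Prop) (ω d : ℝ) (G : Finset V),
    d0 ≤ d → Host E C κ K ω d → ((Gᶜ).card : ℝ) ≤ κ / (4 * K) * NN V →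
    ∃ D : Blk E G k, (D.X.card : ℝ) ^ 2 ≤ A * (d ^ ω) ^ 2 * D.F.card ∧
      (D.X.card : ℝ) * d ≤ A * d ^ ω * D.F.card

/-- Three points close to two separated curves are not pairwise separated. -/
def GeoS : Prop := ∀ R ε δ' : ℝ, 1 ≤ R → 0 < ε → 0 < δ' → ∃ δ : ℝ, 0 < δ ∧
  ∀ (a b a' b' : ℂ) (z w p q p' q' : Fin 3 → ℂ), ‖a‖ ≤ R → ‖b‖ ≤ R → ‖a'‖ ≤ R → ‖b'‖ ≤ R →
    ε ≤ ‖b - b'‖ → (∀ i, ‖z i‖ ≤ R ∧ ‖w i‖ ≤ R ∧ (p i - a) * (q i - b) = 1 ∧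
      (p' i - a') * (q' i - b') = 1 ∧ ‖z i - p i‖ ≤ δ ∧ ‖w i - q i‖ ≤ δ ∧ ‖z i - p' i‖ ≤ δ ∧
      ‖w i - q' i‖ ≤ δ) → ‖z 0 - z 1‖ < δ' ∨ ‖z 0 - z 2‖ < δ' ∨ ‖z 1 - z 2‖ < δ'

/-- Finitely many labels; a point of the box is close to every point with the same label. -/
def LabS : Prop := ∀ R δ : ℝ, 0 < δ → ∃ (Q : ℕ) (lab : ℂ → ℂ → Fin Q), ∀ z w z' w' : ℂ,
  ‖z‖ ≤ R → ‖w‖ ≤ R → lab z w = lab z' w' → ‖z - z'‖ ≤ δ ∧ ‖w - w'‖ ≤ δ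

end Pool.Agent.Lib.MP_439fea_co.Pw
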