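import Pool.Agent.Lib.MP_439fea_co.Pw.LDefs4

/-! Three points close to two separated curves. -/

namespace Pool.Agent.Lib.MP_439fea_co.Pw

theorem geo_sub {x y : ℂ} {R : ℝ} (hx : ‖x‖ ≤ R) (hy : ‖y‖ ≤ R) : ‖x - y‖ ≤ 2 * R := by
  linarith [norm_sub_le x y]

theorem geo_mul {x y : ℂ} {s t : ℝ} (hx : ‖x‖ ≤ s) (hy : ‖y‖ ≤ t) : ‖x * y‖ ≤ s * t := by
  rw [norm_mul]
  exact mul_le_mul hx hy (norm_nonneg _) ((norm_nonneg _).trans hx)

theorem geo_err {a b z w p q : ℂ} {R δ : ℝ} (hδ : δ ≤ R) (ha : ‖a‖ ≤ R) (hb : ‖b‖ ≤ R)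
    (hz : ‖z‖ ≤ R) (hw : ‖w‖ ≤ R) (h : (p - a) * (q - b) = 1) (h1 : ‖z - p‖ ≤ δ)
    (h2 : ‖w - q‖ ≤ δ) : ‖(z - a) * (w - b) - 1‖ ≤ 5 * R * δ := by
  have e : (z - a) * (w - b) - 1 = (z - p) * (w - b) + ((z - a) - (z - p)) * (w - q) := by
    rw [← h]
    ring
  have h3 : ‖(z - a) - (z - p)‖ ≤ 3 * R := by
    linarith [norm_sub_le (z - a) (z - p), geo_sub hz ha]
  rw [e]
  linarith [norm_add_le ((z - p) * (w - b)) (((z - a) - (z - p)) * (w - q)),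
    geo_mul h1 (geo_sub hw hb), geo_mul h3 h2]

theorem geoS : GeoS := by
  intro R ε δ' hR hε hδ'
  have hR0 : 0 < R := by linarith
  refine ⟨min 1 (ε * δ' ^ 3 / (240 * R ^ 3)), lt_min one_pos (by positivity),
    fun a b a' b' z w p q p' q' ha hb ha' hb' hε' h => ?_⟩
  have d1 := (min_le_left 1 (ε * δ' ^ 3 / (240 * R ^ 3))).trans hR
  have d2 := min_le_right 1 (ε * δ' ^ 3 / (240 * R ^ 3))
  generalize min 1 (ε * δ' ^ 3 / (240 * R ^ 3)) = δ at *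
  rw [le_div_iff₀ (by positivity)] at d2
  have hQ : ∀ i, ‖(b' - b) * (z i - a) * (z i - a') - (a - a')‖ ≤ 20 * R ^ 2 * δ := fun i => by
    obtain ⟨h1, h2, h3, h4, h5, h6, h7, h8⟩ := h i
    have e : (b' - b) * (z i - a) * (z i - a') - (a - a') =
        (z i - a') * ((z i - a) * (w i - b) - 1) - (z i - a) * ((z i - a') * (w i - b') - 1) := by
      ring
    rw [e]
    linarith [norm_sub_le ((z i - a') * ((z i - a) * (w i - b) - 1))
      ((z i - a) * ((z i - a') * (w i - b') - 1)),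
      geo_mul (geo_sub h1 ha') (geo_err d1 ha hb h1 h2 h3 h5 h6),
      geo_mul (geo_sub h1 ha) (geo_err d1 ha' hb' h1 h2 h4 h7 h8)]
  by_contra hn
  simp only [not_or, not_lt] at hn
  obtain ⟨n1, n2, n3⟩ := hn
  have e : (b' - b) * (z 0 - z 1) * (z 0 - z 2) * (z 1 - z 2) =
      ((b' - b) * (z 0 - a) * (z 0 - a') - (a - a')) * (z 1 - z 2) -
      ((b' - b) * (z 1 - a) * (z 1 - a') - (a - a')) * (z 0 - z 2) +
      ((b' - b) * (z 2 - a) * (z 2 - a') - (a - a')) * (z 0 - z 1) := by ring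
  have lo : ε * δ' * δ' * δ' ≤ ‖(b' - b) * (z 0 - z 1) * (z 0 - z 2) * (z 1 - z 2)‖ := by
    rw [norm_mul, norm_mul, norm_mul, norm_sub_rev b' b]
    gcongr
  rw [e] at lo
  have u0 := geo_mul (hQ 0) (geo_sub (h 1).1 (h 2).1)
  have u1 := geo_mul (hQ 1) (geo_sub (h 0).1 (h 2).1)
  have u2 := geo_mul (hQ 2) (geo_sub (h 0).1 (h 1).1)
  have u3 := lo.trans ((norm_add_le _ _).trans (add_le_add (norm_sub_le _ _) le_rfl))
  have u4 : 0 < ε * δ' ^ 3 := by positivity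
  nlinarith

end Pool.Agent.Lib.MP_439fea_co.Pw
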