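import Pool.Agent.Lib.MP_439fea_co.Pw.LDefs4

/-! Finitely many labels for a bounded box. -/

namespace Pool.Agent.Lib.MP_439fea_co.Pw
open scoped Classical

theorem labS : LabS := by
  intro R δ hδ
  obtain ⟨t, ht, hc⟩ := Metric.totallyBounded_iff.1
    (isCompact_closedBall (0 : ℂ × ℂ) R).totallyBounded (δ / 2) (by linarith)
  have := ht.fintype
  let g : ℂ × ℂ → Option t := fun p =>
    if h : ∃ c : t, dist p c < δ / 2 then some h.choose else none
  have hg : ∀ p (c : t), g p = some c → dist p c < δ / 2 := fun p c e => by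
    simp only [g] at e
    split_ifs at e with h
    exact Option.some.inj e ▸ h.choose_spec
  refine ⟨_, fun z w => Fintype.equivFin (Option t) (g (z, w)), fun z w z' w' hz hw e => ?_⟩
  have e1 : g (z, w) = g (z', w') := (Fintype.equivFin _).injective e
  obtain ⟨c, hc1, hc2⟩ := Set.mem_iUnion₂.1 (hc (a := (z, w)) (by
    rw [mem_closedBall_zero_iff, Prod.norm_mk]
    exact max_le hz hw))
  have h : ∃ c : t, dist (z, w) c < δ / 2 := ⟨⟨c, hc1⟩, hc2⟩
  have e2 : g (z, w) = some h.choose := dif_pos h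
  have h1 := dist_triangle_right (z, w) (z', w') (h.choose : ℂ × ℂ)
  have h2 : dist (z, w) (z', w') ≤ δ := by linarith [hg _ _ e2, hg _ _ (e1 ▸ e2)]
  rw [Prod.dist_eq, max_le_iff, dist_eq_norm, dist_eq_norm] at h2
  exact h2

end Pool.Agent.Lib.MP_439fea_co.Pw
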