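import Pool.Agent.Lib.MP_439fea_co.Pw.LDefs

/-! The product martingale. -/

namespace Pool.Agent.Lib.MP_439fea_co.Pw
open Finset Pool.Agent.Lib.MP_439fea_co.Z
open scoped Classical
noncomputable section

theorem mart_log {a : ℝ} (h : |a| ≤ 1 / 4) : a - a ^ 2 ≤ Real.log (1 + a) := by
  have h1 := Real.abs_log_sub_add_sum_range_le (x := -a) (by rw [abs_neg]; linarith) 2
  rw [abs_neg, sub_neg_eq_add] at h1
  simp only [sum_range_succ, sum_range_zero] at h1
  have h2 := (abs_le.1 h1).1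
  have h3 : |a| ^ (2 + 1) / (1 - |a|) ≤ a ^ 2 / 2 := by
    rw [div_le_div_iff₀ (by linarith) two_pos, ← sq_abs a, pow_succ]
    nlinarith [mul_nonneg (sq_nonneg |a|) (by linarith : 0 ≤ 1 - 3 * |a|)]
  norm_num at h2 h3
  linarith

namespace Blk
variable {V Λ : Type} {E : V → V → Prop} {G : Finset V} {k Q : ℕ} (D : Blk E G k)

/-- Sum over ordered pairs of points of one block. -/
def mE (g : V → V → ℝ) : ℝ := ∑ y ∈ D.F, ∑ x ∈ D.B y, ∑ x' ∈ (D.B y).erase x, g x x'

theorem m_dg (g : V → ℝ) : ∑ y ∈ D.F, ∑ x ∈ D.B y, g x = ∑ x ∈ D.X, D.dg x * g x := by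
  have e : ∀ y ∈ D.F, ∑ x ∈ D.B y, g x = ∑ x ∈ D.X, if x ∈ D.B y then g x else 0 := fun y hy => by
    rw [← sum_filter, filter_mem_eq_inter, inter_eq_right.2 (D.sub y hy)]
  rw [sum_congr rfl e, sum_comm]
  refine sum_congr rfl fun x _ => ?_
  rw [← sum_filter, sum_const, nsmul_eq_mul, dg]

theorem m_Fpos : (0 : ℝ) < D.F.card := Nat.cast_pos.2 D.ne.card_pos

theorem m_pr0 (x : V) : 0 ≤ D.pr x := by unfold pr dg; positivity

theorem m_one (hk : 2 ≤ k) : ∑ x ∈ D.X, D.pr x = 1 := by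
  have h := D.m_dg fun _ => 1
  have hk0 : (0 : ℝ) < k := by exact_mod_cast (by omega : 0 < k)
  have hF := D.m_Fpos
  simp only [sum_const, nsmul_eq_mul, mul_one] at h
  rw [sum_congr rfl fun y hy => by rw [D.card y hy], sum_const, nsmul_eq_mul] at h
  simp only [pr]
  rw [← sum_div, ← h, div_self (by positivity)]

theorem m_marg (hk : 2 ≤ k) (g : V → ℝ) :
    D.mE (fun x _ => g x) = D.F.card * k * (k - 1) * ∑ x ∈ D.X, D.pr x * g x := by
  have hk0 : (0 : ℝ) < k := by exact_mod_cast (by omega : 0 < k)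
  have hF := D.m_Fpos
  have e : D.mE (fun x _ => g x) = ∑ y ∈ D.F, ∑ x ∈ D.B y, (k - 1 : ℝ) * g x :=
    sum_congr rfl fun y hy => sum_congr rfl fun x hx => by
      rw [sum_const, card_erase_of_mem hx, D.card y hy, nsmul_eq_mul, Nat.cast_sub (by omega),
        Nat.cast_one]
  rw [e, D.m_dg, mul_sum]
  refine sum_congr rfl fun x _ => ?_
  unfold pr
  field_simp

theorem m_mono {g g' : V → V → ℝ}
    (h : ∀ y ∈ D.F, ∀ x ∈ D.B y, ∀ x', g x x' ≤ g' x x') : D.mE g ≤ D.mE g' :=
  sum_le_sum fun y hy => sum_le_sum fun x hx => sum_le_sum fun x' _ => h y hy x hx x'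

theorem m_add (g g' : V → V → ℝ) : D.mE (fun x x' => g x x' + g' x x') = D.mE g + D.mE g' := by
  simp only [mE, sum_add_distrib]

theorem m_mul (a : ℝ) (g : V → V → ℝ) : D.mE (fun x x' => a * g x x') = a * D.mE g := by
  simp only [mE, mul_sum]

theorem m_const (hk : 2 ≤ k) (a : ℝ) : D.mE (fun _ _ => a) = D.F.card * k * (k - 1) * a := by
  rw [D.m_marg hk fun _ => a, ← sum_mul, D.m_one hk, one_mul]

theorem m_lin (hL : D.Lin) {g : V → V → ℝ} (hg : ∀ x x', 0 ≤ g x x') :
    D.mE g ≤ ∑ x' ∈ D.X, ∑ x ∈ D.X, g x x' := by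
  have e : D.mE g = ∑ y ∈ D.F, ∑ z ∈ (D.B y).offDiag, g z.1 z.2 := by
    refine sum_congr rfl fun y _ => ?_
    rw [sum_sigma']
    refine sum_bij' (fun z _ => (z.1, z.2)) (fun z _ => ⟨z.1, z.2⟩) ?_ ?_ ?_ ?_ ?_
    · intro z hz
      simp only [mem_sigma, mem_erase] at hz
      exact mem_offDiag.2 ⟨hz.1, hz.2.2, hz.2.1.symm⟩
    · intro z hz
      rw [mem_offDiag] at hz
      exact mem_sigma.2 ⟨hz.1, mem_erase.2 ⟨hz.2.2.symm, hz.2.1⟩⟩
    all_goals intros; rfl
  rw [e, ← sum_biUnion, sum_comm, ← sum_product']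
  · refine sum_le_sum_of_subset_of_nonneg (fun z hz => ?_) fun z _ _ => hg _ _
    obtain ⟨y, hy, hz⟩ := mem_biUnion.1 hz
    rw [mem_offDiag] at hz
    exact mem_product.2 ⟨D.sub y hy hz.1, D.sub y hy hz.2.1⟩
  · intro y hy y' hy' hne
    refine disjoint_left.2 fun z h1 h2 => ?_
    rw [mem_offDiag] at h1 h2
    exact h1.2.2 (hL y hy y' hy' hne _ h1.1 _ h1.2.1 h2.1 h2.2.1)

theorem m_ms0 (p : V → Prop) : 0 ≤ D.ms p := sum_nonneg fun x _ => D.m_pr0 x

theorem m_ms_sum (p : V → Prop) (c : V → Fin Q) :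
    ∑ l, D.ms (fun x => p x ∧ c x = l) = D.ms p := by
  unfold ms
  rw [← sum_fiberwise (D.X.filter p) c]
  refine sum_congr rfl fun l _ => ?_
  rw [filter_filter]
  congr

theorem m_cm0 (P : V → Λ) (x : V) (p : V → Prop) : 0 ≤ D.cm P x p :=
  div_nonneg (D.m_ms0 _) (D.m_ms0 _)

theorem m_cm_sum (P : V → Λ) (c : V → Fin Q) (x : V) :
    ∑ l, D.cm P x (fun x' => c x' = l) ≤ 1 := by
  unfold cm
  rw [← sum_div, D.m_ms_sum]
  exact div_self_le_one _

theorem m_f (P : V → Λ) (c : V → Fin Q) (x x' : V) :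
    |∑ l, D.gc P c x l * D.gc P c x' l| ≤ 2 := by
  have h1 : ∀ l, |D.gc P c x' l| ≤ 1 := fun l => by
    have a := D.m_cm0 P x' fun x' => c x' = l
    have b := (single_le_sum (fun l _ => D.m_cm0 P x' fun x' => c x' = l) (mem_univ l)).trans
      (D.m_cm_sum P c x')
    unfold gc
    split_ifs <;> exact abs_le.2 ⟨by linarith, by linarith⟩
  have h2 : ∀ l, |D.gc P c x l * D.gc P c x' l| ≤
      (if c x = l then 1 else 0) + D.cm P x fun x' => c x' = l := fun l => by
    rw [abs_mul]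
    refine (mul_le_of_le_one_right (abs_nonneg _) (h1 l)).trans ?_
    have a := D.m_cm0 P x fun x' => c x' = l
    unfold gc
    split_ifs <;> exact abs_le.2 ⟨by linarith, by linarith⟩
  refine (abs_sum_le_sum_abs _ _).trans ((sum_le_sum fun l _ => h2 l).trans ?_)
  rw [sum_add_distrib, sum_ite_eq, if_pos (mem_univ _)]
  linarith [D.m_cm_sum P c x]

theorem m_orth (P : V → Λ) (c : V → Fin Q) {h : V → ℝ} (hh : ∀ x x', P x = P x' → h x = h x')
    (l : Fin Q) : ∑ x ∈ D.X, D.pr x * h x * D.gc P c x l = 0 := by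
  rw [← sum_fiberwise_of_maps_to (g := P) (t := D.X.image P) fun x hx => mem_image_of_mem P hx]
  refine sum_eq_zero fun j hj => ?_
  obtain ⟨a, -, rfl⟩ := mem_image.1 hj
  have e : ∀ x ∈ D.X.filter fun x => P x = P a, D.pr x * h x * D.gc P c x l =
      h a * ((if c x = l then D.pr x else 0) - D.pr x * D.cm P a fun x' => c x' = l) := by
    intro x hx
    have e1 := (mem_filter.1 hx).2
    have e2 : D.cm P x (fun x' => c x' = l) = D.cm P a fun x' => c x' = l := by
      unfold cm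
      rw [e1]
    rw [hh x a e1, gc, e2]
    split_ifs <;> ring
  have e3 : ∑ x ∈ D.X.filter fun x => P x = P a, (if c x = l then D.pr x else 0) =
      D.ms fun x => P x = P a ∧ c x = l := by
    rw [← sum_filter, filter_filter, ms]
    congr
  have e4 : ∑ x ∈ D.X.filter fun x => P x = P a, D.pr x = D.ms fun x => P x = P a := by
    rw [ms]
  rw [sum_congr rfl e, ← mul_sum, sum_sub_distrib, ← sum_mul, e3, e4, cm]
  refine mul_eq_zero_of_right _ ?_
  by_cases h0 : D.ms (fun x => P x = P a) = 0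
  · have := (single_le_sum (fun l _ => D.m_ms0 fun x => P x = P a ∧ c x = l) (mem_univ l)).trans
      (D.m_ms_sum (fun x => P x = P a) c).le
    rw [h0] at this ⊢
    linarith [D.m_ms0 fun x => P x = P a ∧ c x = l]
  · rw [mul_div_cancel₀ _ h0, sub_self]

theorem m_end (hk : 2 ≤ k) (hL : D.Lin) {w : V → V → ℝ} (hw : ∀ x x', 0 < w x x')
    (h1 : ∀ x', ∑ x ∈ D.X, D.pr x * w x x' = 1) :
    D.mE (fun x x' => Real.log (w x x')) ≤ D.F.card * k * (k - 1) *
      Real.log ((D.X.card : ℝ) ^ 2 / (D.F.card * k * (k - 1))) := by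
  have hk1 : (1 : ℝ) < k := by exact_mod_cast (by omega : 1 < k)
  have hF := D.m_Fpos
  have hn : (0 : ℝ) < D.F.card * k * (k - 1) := mul_pos (by positivity) (by linarith)
  have hX : (0 : ℝ) < D.X.card := by
    refine Nat.cast_pos.2 (card_pos.2 (nonempty_iff_ne_empty.2 fun e => ?_))
    have := D.m_one hk
    rw [e, sum_empty] at this
    exact zero_ne_one this
  have key : ∀ y ∈ D.F, ∀ x ∈ D.B y, ∀ x', Real.log (w x x') ≤
      (D.F.card * k * (k - 1) / D.X.card * (D.pr x * w x x') + (D.pr x * D.X.card)⁻¹) +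
        (Real.log ((D.X.card : ℝ) ^ 2 / (D.F.card * k * (k - 1))) - 2) := by
    intro y hy x hx x'
    have hp : 0 < D.pr x := div_pos (Nat.cast_pos.2 (card_pos.2 ⟨y, mem_filter.2 ⟨hy, hx⟩⟩))
      (by positivity)
    have := hw x x'
    generalize (D.F.card : ℝ) * k * (k - 1) = n at hn ⊢
    generalize D.pr x = r at hp ⊢
    have p1 : 0 < n / D.X.card * (r * w x x') := by positivity
    have p2 : 0 < (r * D.X.card)⁻¹ := by positivity
    have p3 : 0 < (D.X.card : ℝ) ^ 2 / n := by positivity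
    have a1 := Real.log_le_sub_one_of_pos p1
    have a2 := Real.log_le_sub_one_of_pos p2
    have a3 : w x x' = n / D.X.card * (r * w x x') * (r * D.X.card)⁻¹ *
        ((D.X.card : ℝ) ^ 2 / n) := by field_simp
    have a4 := congrArg Real.log a3
    rw [Real.log_mul (mul_pos p1 p2).ne' p3.ne', Real.log_mul p1.ne' p2.ne'] at a4
    linarith
  refine (D.m_mono key).trans ?_
  rw [D.m_add, D.m_add, D.m_mul, D.m_const hk, D.m_marg hk fun x => (D.pr x * D.X.card)⁻¹]
  have b1 := D.m_lin hL (g := fun x x' => D.pr x * w x x') fun x x' =>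
    mul_nonneg (D.m_pr0 x) (hw x x').le
  simp only [h1, sum_const, nsmul_eq_mul, mul_one] at b1
  have b2 : ∑ x ∈ D.X, D.pr x * (D.pr x * D.X.card)⁻¹ ≤ 1 := by
    refine (sum_le_card_nsmul _ _ ((D.X.card : ℝ)⁻¹) fun x _ => ?_).trans ?_
    · rw [mul_inv, ← mul_assoc]
      exact mul_le_of_le_one_left (by positivity) (mul_inv_le_one)
    · rw [nsmul_eq_mul, mul_inv_cancel₀ hX.ne']
  generalize (D.F.card : ℝ) * k * (k - 1) = n at hn ⊢
  have b3 := mul_le_mul_of_nonneg_left b1 (by positivity : 0 ≤ n / D.X.card)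
  rw [div_mul_cancel₀ _ hX.ne'] at b3
  nlinarith

end Blk

theorem martS : MartS := by
  intro V E G k Q T D e hk hQ hL he he1 hc
  have hk1 : (1 : ℝ) < k := by exact_mod_cast (by omega : 1 < k)
  have hF := D.m_Fpos
  have hn : (0 : ℝ) < D.F.card * k * (k - 1) := mul_pos (by positivity) (by linarith)
  have main : ∀ t ≤ T, ∃ (Λ : Type) (P : V → Λ) (w : V → V → ℝ), (D.X.image P).card ≤ Q ^ t ∧
      (∀ x x', 0 < w x x') ∧ (∀ x' x1 x2, P x1 = P x2 → w x1 x' = w x2 x') ∧
      (∀ x', ∑ x ∈ D.X, D.pr x * w x x' = 1) ∧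
      D.F.card * k * (k - 1) * (t * e ^ 2 / 16) ≤ D.mE fun x x' => Real.log (w x x') := by
    intro t
    induction t with
    | zero =>
      refine fun _ => ⟨Unit, fun _ => (), fun _ _ => 1, ?_, fun _ _ => one_pos,
        fun _ _ _ _ => rfl, fun _ => by simp [D.m_one hk], by simp [Blk.mE]⟩
      exact (card_le_univ _).trans (by simp)
    | succ t ih =>
      intro ht
      obtain ⟨Λ, P, w, h1, h2, h3, h4, h5⟩ := ih (by omega)
      obtain ⟨c, hc⟩ := hc Λ P (h1.trans (Nat.pow_le_pow_right hQ (by omega)))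
      let f : V → V → ℝ := fun x x' => ∑ l, D.gc P c x l * D.gc P c x' l
      have hf : ∀ x x', |e / 8 * f x x'| ≤ e / 4 := fun x x' => by
        rw [abs_mul, abs_of_pos (by positivity : 0 < e / 8)]
        nlinarith [D.m_f P c x x']
      have hf1 : ∀ x x', 0 < 1 + e / 8 * f x x' := fun x x' => by
        linarith [(abs_le.1 (hf x x')).1]
      refine ⟨Λ × Fin Q, fun x => (P x, c x), fun x x' => w x x' * (1 + e / 8 * f x x'), ?_,
        fun x x' => mul_pos (h2 x x') (hf1 x x'), fun x' x1 x2 h => ?_, fun x' => ?_, ?_⟩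
      · have : (D.X.image fun x => (P x, c x)) ⊆ D.X.image P ×ˢ univ := fun z hz => by
          obtain ⟨x, hx, rfl⟩ := mem_image.1 hz
          exact mem_product.2 ⟨mem_image_of_mem _ hx, mem_univ _⟩
        refine le_trans ?_ ((card_le_card this).trans ?_)
        · exact le_of_eq (by congr; exact Subsingleton.elim _ _)
        · rw [card_product, card_univ, Fintype.card_fin, pow_succ]
          exact Nat.mul_le_mul_right _ h1
      · have e1 : P x1 = P x2 := congrArg Prod.fst h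
        have e2 : c x1 = c x2 := congrArg Prod.snd h
        simp only [f, Blk.gc, Blk.cm, e1, e2, h3 x' x1 x2 e1]
      · have e1 : ∀ x ∈ D.X, D.pr x * (w x x' * (1 + e / 8 * f x x')) = D.pr x * w x x' +
            ∑ l, e / 8 * D.gc P c x' l * (D.pr x * w x x' * D.gc P c x l) := fun x _ => by
          simp only [f, mul_add, mul_sum, mul_one]
          exact congrArg _ (sum_congr rfl fun l _ => by ring)
        rw [sum_congr rfl e1, sum_add_distrib, h4, sum_comm, add_eq_left]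
        refine sum_eq_zero fun l _ => ?_
        rw [← mul_sum, D.m_orth P c (h3 x') l, mul_zero]
      · have key : ∀ y ∈ D.F, ∀ x ∈ D.B y, ∀ x', (Real.log (w x x') + e / 8 * f x x') +
            -(e ^ 2 / 16) ≤ Real.log (w x x' * (1 + e / 8 * f x x')) := by
          intro _ _ x _ x'
          rw [Real.log_mul (h2 x x').ne' (hf1 x x').ne']
          have a1 := mart_log ((hf x x').trans (by linarith : e / 4 ≤ 1 / 4))
          have a2 := pow_le_pow_left₀ (abs_nonneg _) (hf x x') 2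
          rw [sq_abs] at a2
          linarith
        refine le_trans ?_ (D.m_mono key)
        rw [D.m_add, D.m_add, D.m_mul, D.m_const hk]
        have a3 : e * (D.F.card * k * (k - 1)) ≤ D.mE f := (le_div_iff₀ hn).1 hc
        have a4 := mul_le_mul_of_nonneg_left a3 (by positivity : 0 ≤ e / 8)
        push_cast
        linarith
  obtain ⟨Λ, P, w, -, h2, -, h4, h5⟩ := main T le_rfl
  exact le_of_mul_le_mul_left (h5.trans (D.m_end hk hL h2 h4)) hn

end
end Pool.Agent.Lib.MP_439fea_co.Pw
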