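import Pool.Agent.Lib.MP_439fea_co.Pw.LDefs

/-! Small correlation forces blocks to take most labels. -/

namespace Pool.Agent.Lib.MP_439fea_co.Pw
open Finset Pool.Agent.Lib.MP_439fea_co.Z
open scoped Classical

namespace Blk
variable {V Λ : Type} {E : V → V → Prop} {G : Finset V} {k Q : ℕ} (D : Blk E G k)

theorem mi_pr (x : V) : 0 ≤ D.pr x := by
  unfold pr dg
  positivity

theorem mi_ms (p : V → Prop) : 0 ≤ D.ms p := sum_nonneg fun x _ => D.mi_pr x

theorem mi_cm (P : V → Λ) (x : V) (p : V → Prop) : 0 ≤ D.cm P x p :=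
  div_nonneg (D.mi_ms _) (D.mi_ms _)

theorem mi_cm_le (P : V → Λ) (x : V) (p : V → Prop) : D.cm P x p ≤ 1 := by
  refine div_le_one_of_le₀ ?_ (D.mi_ms _)
  refine sum_le_sum_of_subset_of_nonneg (fun a ha => ?_) fun a _ _ => D.mi_pr a
  simp only [mem_filter] at ha ⊢
  exact ⟨ha.1, ha.2.1⟩

theorem mi_sum (P : V → Λ) (c : V → Fin Q) (x : V) (T : Finset (Fin Q)) (p : V → Prop)
    (hp : ∀ a, p a ↔ c a ∈ T) : ∑ l ∈ T, D.cm P x (fun a => c a = l) = D.cm P x p := by
  unfold cm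
  rw [← sum_div]
  congr 1
  simp only [ms, sum_filter]
  rw [sum_comm]
  refine sum_congr rfl fun a _ => ?_
  by_cases h : P a = P x
  · simp [h, hp]
  · simp [h]

theorem mi_sq (P : V → Λ) (c : V → Fin Q) (x : V) : ∑ l, D.gc P c x l * D.gc P c x l ≤ 2 := by
  have h1 := (D.mi_sum P c x univ (fun _ => True) (by simp)).trans_le (D.mi_cm_le _ _ _)
  have h2 : ∑ l, (if c x = l then (1 : ℝ) else 0) = 1 := by simp
  have h3 : ∑ l, D.gc P c x l * D.gc P c x l ≤
      ∑ l, ((if c x = l then (1 : ℝ) else 0) + D.cm P x fun a => c a = l) := by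
    refine sum_le_sum fun l _ => ?_
    have a1 := D.mi_cm P x fun a => c a = l
    have a2 := D.mi_cm_le P x fun a => c a = l
    unfold gc
    split_ifs <;> nlinarith
  rw [sum_add_distrib] at h3
  linarith

theorem mi_blk (P : V → Λ) (c : V → Fin Q) {y : V} (hy : y ∈ D.F) :
    (∑ x ∈ D.B y, D.cm P x fun a => c a ∉ (D.B y).image c) ^ 2 ≤ Q * (2 * k +
      ∑ x ∈ D.B y, ∑ x' ∈ (D.B y).erase x, ∑ l, D.gc P c x l * D.gc P c x' l) := by
  set T := ((D.B y).image c)ᶜ with hT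
  have h1 : (∑ x ∈ D.B y, D.cm P x fun a => c a ∉ (D.B y).image c) =
      -∑ l ∈ T, ∑ x ∈ D.B y, D.gc P c x l := by
    rw [sum_comm, ← sum_neg_distrib]
    refine sum_congr rfl fun x hx => ?_
    rw [← D.mi_sum P c x T _ fun a => by rw [hT, mem_compl], ← sum_neg_distrib]
    refine sum_congr rfl fun l hl => ?_
    have : c x ≠ l := fun e => mem_compl.1 hl (e ▸ mem_image_of_mem c hx)
    simp [gc, this]
  have h2 : (∑ l ∈ T, ∑ x ∈ D.B y, D.gc P c x l) ^ 2 ≤
      T.card * ∑ l ∈ T, (∑ x ∈ D.B y, D.gc P c x l) ^ 2 := sq_sum_le_card_mul_sum_sq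
  have h3 : (T.card : ℝ) ≤ Q := by
    have := card_le_univ T
    rw [Fintype.card_fin] at this
    exact_mod_cast this
  have h4 : ∑ l ∈ T, (∑ x ∈ D.B y, D.gc P c x l) ^ 2 ≤ ∑ l, (∑ x ∈ D.B y, D.gc P c x l) ^ 2 :=
    sum_le_sum_of_subset_of_nonneg (subset_univ _) fun _ _ _ => sq_nonneg _
  have h5 : ∑ l, (∑ x ∈ D.B y, D.gc P c x l) ^ 2 =
      ∑ x ∈ D.B y, (∑ l, D.gc P c x l * D.gc P c x l +
        ∑ x' ∈ (D.B y).erase x, ∑ l, D.gc P c x l * D.gc P c x' l) := by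
    simp only [sq, sum_mul_sum]
    rw [sum_comm]
    refine sum_congr rfl fun x hx => ?_
    rw [sum_comm, add_sum_erase _ (fun x' => ∑ l, D.gc P c x l * D.gc P c x' l) hx]
  have h6 : ∑ x ∈ D.B y, ∑ l, D.gc P c x l * D.gc P c x l ≤ 2 * k := by
    refine (sum_le_card_nsmul _ _ 2 fun x _ => D.mi_sq P c x).trans (le_of_eq ?_)
    rw [D.card y hy, nsmul_eq_mul, mul_comm]
  rw [sum_add_distrib] at h5
  rw [h1, neg_sq]
  refine h2.trans (mul_le_mul h3 (by linarith) (sum_nonneg fun _ _ => sq_nonneg _) ?_)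
  positivity

end Blk

theorem missS : MissS := by
  intro V Λ E G k Q D P c e hk he hc
  have k2 : (2 : ℝ) ≤ k := by exact_mod_cast hk
  have F0 : (0 : ℝ) < D.F.card := by exact_mod_cast D.ne.card_pos
  have k1 : (0 : ℝ) < k - 1 := by linarith
  unfold Blk.corr at hc
  rw [div_le_iff₀ (by positivity)] at hc
  unfold Blk.miss
  rw [div_pow, div_le_iff₀ (by positivity)]
  refine sq_sum_le_card_mul_sum_sq.trans ?_
  have h1 := sum_le_sum fun y hy => D.mi_blk P c (y := y) hy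
  rw [← mul_sum, sum_add_distrib, sum_const, nsmul_eq_mul] at h1
  refine (mul_le_mul_of_nonneg_left h1 F0.le).trans ?_
  have h2 : e * (D.F.card * k * (k - 1)) ≤ e * (D.F.card * k * k) :=
    mul_le_mul_of_nonneg_left (mul_le_mul_of_nonneg_left (by linarith) (by positivity)) he
  have h3 := mul_le_mul_of_nonneg_left (add_le_add (le_refl (D.F.card * (2 * k : ℝ)))
    (hc.trans h2)) (by positivity : (0 : ℝ) ≤ D.F.card * Q)
  refine le_trans (le_of_eq (by ring)) (h3.trans (le_of_eq ?_))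
  field_simp

end Pool.Agent.Lib.MP_439fea_co.Pw
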