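import Pool.Agent.Lib.MP_439fea_co.Pw.LDefs

/-! At some place the blocks miss a fixed share of the labels. -/

namespace Pool.Agent.Lib.MP_439fea_co.Pw
open Finset Pool.Agent.Lib.MP_439fea_co.Z
open scoped Classical
noncomputable section

variable {V Λ : Type}

/-- Indicator of a proposition. -/
def ind (p : Prop) : ℝ := if p then 1 else 0

theorem ind_pos {p : Prop} (h : p) : ind p = 1 := if_pos h
theorem ind_neg {p : Prop} (h : ¬ p) : ind p = 0 := if_neg h
theorem ind_nonneg (p : Prop) : 0 ≤ ind p := by unfold ind; split_ifs <;> norm_num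

theorem sum_ind {I : Type} (S : Finset I) (f : I → ℝ) (p : I → Prop) [DecidablePred p] :
    ∑ i ∈ S.filter p, f i = ∑ i ∈ S, f i * ind (p i) := by
  rw [sum_filter]
  exact sum_congr rfl fun i _ => by by_cases h : p i <;> simp [h, ind]

/-- Mass of the related pairs. -/
def coll (X : Finset V) (μ : V → ℝ) (R : V → V → Prop) : ℝ :=
  ∑ x ∈ X, ∑ x' ∈ X, μ x * μ x' * ind (R x x')

theorem coll_nonneg {X : Finset V} {μ : V → ℝ} (h : ∀ x ∈ X, 0 ≤ μ x) (R : V → V → Prop) :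
    0 ≤ coll X μ R :=
  sum_nonneg fun x hx => sum_nonneg fun x' hx' =>
    mul_nonneg (mul_nonneg (h x hx) (h x' hx')) (ind_nonneg _)

theorem coll_lower {X : Finset V} {μ : V → ℝ} (h : ∀ x ∈ X, 0 ≤ μ x) (h1 : ∑ x ∈ X, μ x = 1)
    (p q r φ : V → Prop) (R : V → V → Prop)
    (hR : ∀ x ∈ X, ∀ x' ∈ X, (p x ∧ q x ∧ r x) → (p x' ∧ q x' ∧ r x') → (φ x ↔ φ x') → R x x') :
    1 / 2 - ∑ x ∈ X, μ x * ind (¬ p x) - ∑ x ∈ X, μ x * ind (¬ q x) -
      ∑ x ∈ X, μ x * ind (¬ r x) ≤ coll X μ R := by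
  obtain ⟨g, hg⟩ : ∃ g : V → Prop, ∀ x, g x ↔ p x ∧ q x ∧ r x := ⟨_, fun _ => Iff.rfl⟩
  simp only [← hg] at hR
  have e1 : (∑ x ∈ X, μ x * ind (g x ∧ φ x)) * (∑ x ∈ X, μ x * ind (g x ∧ φ x)) +
      (∑ x ∈ X, μ x * ind (g x ∧ ¬ φ x)) * (∑ x ∈ X, μ x * ind (g x ∧ ¬ φ x)) ≤ coll X μ R := by
    rw [sum_mul_sum, sum_mul_sum, ← sum_add_distrib]
    refine sum_le_sum fun x hx => ?_
    rw [← sum_add_distrib]
    refine sum_le_sum fun x' hx' => ?_
    have := mul_nonneg (h x hx) (h x' hx')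
    have k := hR x hx x' hx'
    clear hR hg h1 h
    by_cases j : g x <;> by_cases j' : g x' <;> by_cases f : φ x <;>
      by_cases f' : φ x' <;> by_cases t : R x x' <;> simp_all [ind]
  have e2 : ∑ x ∈ X, μ x ≤ ∑ x ∈ X, (μ x * ind (g x ∧ φ x) + μ x * ind (g x ∧ ¬ φ x) +
      μ x * ind (¬ p x) + μ x * ind (¬ q x) + μ x * ind (¬ r x)) := sum_le_sum fun x hx => by
    have := h x hx
    by_cases g1 : p x <;> by_cases g2 : q x <;> by_cases g3 : r x <;> by_cases f : φ x <;>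
      simp [ind, hg, g1, g2, g3, f] <;> linarith
  simp only [sum_add_distrib] at e2
  nlinarith [sq_nonneg (∑ x ∈ X, μ x * ind (g x ∧ φ x) - 1 / 2),
    sq_nonneg (∑ x ∈ X, μ x * ind (g x ∧ ¬ φ x) - 1 / 2)]

theorem coll_upper {I : Type} {S : Finset I} {wt : I → ℝ}
    (one : ∑ i ∈ S, wt i = 1) {X : Finset V} {μ : V → ℝ} (h : ∀ x ∈ X, 0 ≤ μ x)
    (h1 : ∑ x ∈ X, μ x = 1) (nr : I → V → V → Prop) {a b : ℝ} (ha : 0 ≤ a)
    (hb : ∀ x ∈ X, μ x ≤ b)
    (hn : ∀ x ∈ X, ∀ x' ∈ X, x ≠ x' → ∑ i ∈ S.filter (fun i => nr i x x'), wt i ≤ a) :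
    ∑ i ∈ S, wt i * coll X μ (fun x x' => x = x' ∨ nr i x x') ≤ b + a := by
  simp only [coll, mul_sum]
  rw [sum_comm]
  have e : ∑ x ∈ X, μ x * (b + a) = b + a := by rw [← sum_mul, h1, one_mul]
  rw [← e]
  refine sum_le_sum fun x hx => ?_
  rw [sum_comm]
  have e2 : ∑ x' ∈ X, μ x * ((if x = x' then μ x' else 0) + μ x' * a) ≤ μ x * (b + a) := by
    rw [← mul_sum, sum_add_distrib, ← sum_mul, h1, sum_ite_eq, if_pos hx, one_mul]
    exact mul_le_mul_of_nonneg_left (by linarith [hb x hx]) (h x hx)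
  refine le_trans (sum_le_sum fun x' hx' => ?_) e2
  have m := mul_nonneg (h x hx) (h x' hx')
  by_cases q : x = x'
  · simp only [q, true_or, if_true, ind_pos trivial, mul_one]
    rw [← sum_mul, one]
    nlinarith [mul_nonneg (mul_self_nonneg (μ x')) ha]
  · have k := hn x hx x' hx' q
    rw [sum_ind] at k
    rw [if_neg q]
    simp only [q, false_or, mul_left_comm (wt _)]
    rw [← mul_sum]
    nlinarith [mul_le_mul_of_nonneg_left k m]

namespace Blk
variable {E : V → V → Prop} {G : Finset V} {k Q : ℕ} (D : Blk E G k)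

theorem st_swap (g : V → V → ℝ) : ∑ y ∈ D.F, ∑ x ∈ D.B y, g x y =
    ∑ x ∈ D.X, ∑ y ∈ D.F.filter (fun y => x ∈ D.B y), g x y :=
  sum_comm' fun y x => by
    simp only [mem_filter]
    exact ⟨fun h => ⟨⟨h.1, h.2⟩, D.sub y h.1 h.2⟩, fun h => h.1⟩

theorem st_pr (x : V) : 0 ≤ D.pr x := by unfold pr dg; positivity

theorem st_one (hk : 1 ≤ k) : ∑ x ∈ D.X, D.pr x = 1 := by
  have h := D.st_swap fun _ _ => 1
  simp only [sum_const, nsmul_eq_mul, mul_one] at h
  rw [sum_congr rfl fun y hy => by rw [D.card y hy], sum_const, nsmul_eq_mul] at h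
  have : (0 : ℝ) < D.F.card * k := by have := D.ne.card_pos; positivity
  unfold pr dg
  rw [← sum_div, ← h, div_self this.ne']

/-- Law of a point in the class of `x`. -/
def mu (P : V → Λ) (x x' : V) : ℝ :=
  (if P x' = P x then D.pr x' else 0) / D.ms fun x' => P x' = P x

theorem st_ms (p : V → Prop) : 0 ≤ D.ms p := sum_nonneg fun x _ => D.st_pr x

theorem st_mu (P : V → Λ) (x x' : V) : 0 ≤ D.mu P x x' :=
  div_nonneg (by split_ifs; exacts [D.st_pr _, le_rfl]) (D.st_ms _)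

theorem st_cm (P : V → Λ) (x : V) (p : V → Prop) :
    D.cm P x p = ∑ x' ∈ D.X, D.mu P x x' * ind (p x') := by
  unfold cm mu
  rw [ms, sum_filter, sum_div]
  refine sum_congr rfl fun x' _ => ?_
  by_cases h1 : P x' = P x <;> by_cases h2 : p x' <;> simp [h1, h2, ind]

theorem st_cls (P : V → Λ) :
    ∑ x ∈ D.X, D.pr x / D.ms (fun x' => P x' = P x) ≤ (D.X.image P).card := by
  rw [← sum_fiberwise_of_maps_to fun x hx => mem_image_of_mem P hx, card_eq_sum_ones, Nat.cast_sum]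
  refine sum_le_sum fun l _ => ?_
  rw [sum_congr rfl fun x hx => by rw [(mem_filter.1 hx).2], ← sum_div, Nat.cast_one]
  exact div_self_le_one _

theorem st_pt (P : V → Λ) {a : ℝ} (π : D.Pic Q a) (hk : 1 ≤ k) (ha : 0 ≤ a) {b : ℝ} (hb0 : 0 ≤ b)
    (hb : ∀ x ∈ D.X, D.pr x ≤ b) {x : V} (hx : x ∈ D.X) :
    D.pr x * (1 / 2 - 5 / 2 * a) ≤ b * (D.pr x / D.ms fun x' => P x' = P x) +
      1 / (2 * (D.F.card * k)) + 2 * ∑ i ∈ π.S, π.wt i * ((∑ y ∈ D.F.filter (fun y => x ∈ D.B y),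
        D.cm P x fun x' => π.c i x' ∉ (D.B y).image (π.c i)) / (D.F.card * k)) := by
  have n0 : (0 : ℝ) < D.F.card * k := by have := D.ne.card_pos; positivity
  set Fx := D.F.filter fun y => x ∈ D.B y with hFx
  set m := fun i y => D.cm P x fun x' => π.c i x' ∉ (D.B y).image (π.c i) with hm
  have m0 : ∀ i y, 0 ≤ m i y := fun i y => div_nonneg (D.st_ms _) (D.st_ms _)
  have ep : D.pr x = Fx.card / (D.F.card * k) := rfl
  rcases Nat.eq_zero_or_pos Fx.card with g | g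
  · rw [ep, card_eq_zero.1 g]
    simp only [card_empty, Nat.cast_zero, zero_div, zero_mul, mul_zero, sum_empty, sum_const_zero]
    positivity
  have g0 : (0 : ℝ) < Fx.card := by exact_mod_cast g
  have s0 : 0 < D.ms fun x' => P x' = P x :=
    lt_of_lt_of_le (by rw [ep]; positivity) (single_le_sum (f := D.pr) (fun x _ => D.st_pr x)
      (mem_filter.2 ⟨hx, rfl⟩))
  have u0 : ∀ x' ∈ D.X, 0 ≤ D.mu P x x' := fun x' _ => D.st_mu P x x'
  have u1 : ∑ x' ∈ D.X, D.mu P x x' = 1 := by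
    unfold mu
    rw [← sum_div, ← sum_filter]
    exact div_self s0.ne'
  have h1 := coll_upper π.one u0 u1 π.near ha (b := b / D.ms fun x' => P x' = P x)
    (fun x' hx' => div_le_div_of_nonneg_right (by split_ifs; exacts [hb x' hx', hb0]) s0.le) π.hne
  set cl := fun i => coll D.X (D.mu P x) fun x x' => x = x' ∨ π.near i x x' with hcl
  set out := fun i => ∑ x' ∈ D.X, D.mu P x x' * ind (¬ π.inn i x') with hout
  have o0 : ∀ i, 0 ≤ out i := fun i => sum_nonneg fun x' hx' =>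
    mul_nonneg (u0 x' hx') (ind_nonneg _)
  have h2 : ∑ i ∈ π.S, π.wt i * out i ≤ a := by
    simp only [hout, mul_sum]
    rw [sum_comm]
    refine le_trans (sum_le_sum fun x' hx' => le_trans (le_of_eq ?_)
      (mul_le_mul_of_nonneg_left (π.hin x' hx') (u0 x' hx'))) (by rw [← sum_mul, u1, one_mul])
    rw [sum_ind, mul_sum]
    exact sum_congr rfl fun i _ => by ring
  have h3 : ∀ i ∈ π.S, ∀ y ∈ Fx, ∀ y' ∈ Fx, 1 / 2 - out i - m i y - m i y' -
      ind (¬ π.adm i y y') / 2 ≤ cl i := fun i hi y hy y' hy' => by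
    by_cases q : π.adm i y y'
    · obtain ⟨φ, hφ⟩ := π.two i hi y (mem_filter.1 hy).1 y' (mem_filter.1 hy').1 q
      have := coll_lower u0 u1 _ _ _ φ _ hφ
      rw [ind_neg (not_not.2 q), zero_div, sub_zero]
      simp only [hm, D.st_cm]
      exact this
    · rw [ind_pos q]
      linarith [o0 i, m0 i y, m0 i y', coll_nonneg u0 fun x x' => x = x' ∨ π.near i x x']
  have h4 : ∀ y ∈ Fx, ∀ y' ∈ Fx, 1 / 2 - 5 / 2 * a - ∑ i ∈ π.S, π.wt i * m i y -
      ∑ i ∈ π.S, π.wt i * m i y' - (if y = y' then 1 / 2 else 0) ≤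
        b / D.ms fun x' => P x' = P x := fun y hy y' hy' => by
    have k1 := sum_le_sum fun i hi => mul_le_mul_of_nonneg_left (h3 i hi y hy y' hy') (π.pos i hi)
    simp only [mul_sub, sum_sub_distrib] at k1
    rw [← sum_mul, π.one] at k1
    have k2 : ∑ i ∈ π.S, π.wt i * (ind (¬ π.adm i y y') / 2) =
        (∑ i ∈ π.S.filter (fun i => ¬ π.adm i y y'), π.wt i) / 2 := by
      rw [sum_ind, sum_div]
      exact sum_congr rfl fun i _ => by ring
    by_cases q : y = y'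
    · have := sum_le_sum_of_subset_of_nonneg (filter_subset (fun i => ¬ π.adm i y y') π.S)
        fun i hi _ => π.pos i hi
      rw [if_pos q]
      linarith [π.one]
    · rw [if_neg q]
      linarith [π.had y (mem_filter.1 hy).1 y' (mem_filter.1 hy').1 q]
  have h5 := sum_le_sum fun y hy => sum_le_sum fun y' hy' => h4 y hy y' hy'
  simp only [sum_sub_distrib, sum_const, nsmul_eq_mul, sum_ite_eq] at h5
  rw [sum_congr rfl fun y (hy : y ∈ Fx) => if_pos hy, sum_const, nsmul_eq_mul, ← mul_sum] at h5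
  have e1 : ∑ i ∈ π.S, π.wt i * ((∑ y ∈ Fx, m i y) / (D.F.card * k)) =
      (∑ y ∈ Fx, ∑ i ∈ π.S, π.wt i * m i y) / (D.F.card * k) := by
    rw [sum_comm, sum_div]
    exact sum_congr rfl fun i _ => by rw [← mul_sum, mul_div_assoc]
  rw [e1, ep]
  generalize ∑ y ∈ Fx, ∑ i ∈ π.S, π.wt i * m i y = M at h5 ⊢
  have h6 : (Fx.card : ℝ) * (1 / 2 - 5 / 2 * a) ≤
      Fx.card * (b / D.ms fun x' => P x' = P x) + 1 / 2 + 2 * M :=
    le_of_mul_le_mul_left (by linarith) g0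
  refine le_of_mul_le_mul_left ?_ n0
  generalize (D.F.card : ℝ) * k = n at n0 ⊢
  refine le_trans (le_of_eq ?_) (h6.trans (le_of_eq ?_)) <;> field_simp

end Blk

theorem stepS : StepS := by
  intro V Λ E G k Q D P a π hk h1 h2
  have n0 : (0 : ℝ) < D.F.card * k := by have := D.ne.card_pos; positivity
  have ha : 0 ≤ a := nonneg_of_mul_nonneg_left ((Nat.cast_nonneg _).trans h2) n0
  have one := D.st_one hk
  have c0 : (0 : ℝ) < (D.X.image P).card := by
    rw [Nat.cast_pos, card_pos, image_nonempty, nonempty_iff_ne_empty]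
    intro h
    simp [h] at one
  have h3 := sum_le_sum fun x hx => D.st_pt P π hk ha (b := a / (D.X.image P).card) (by positivity)
    (fun x hx => (le_div_iff₀' c0).2 (h1 x hx)) hx
  rw [← sum_mul, one, sum_add_distrib, sum_add_distrib, ← mul_sum, ← mul_sum, sum_comm, sum_const,
    nsmul_eq_mul] at h3
  have h4 := mul_le_mul_of_nonneg_left (D.st_cls P) (show 0 ≤ a / (D.X.image P).card by positivity)
  rw [div_mul_cancel₀ _ c0.ne'] at h4
  have h5 : (D.X.card : ℝ) * (1 / (2 * (D.F.card * k))) ≤ a / 2 := by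
    rw [mul_one_div, div_le_iff₀ (by positivity)]
    linarith
  have h6 : ∀ i ∈ π.S, ∑ x ∈ D.X, π.wt i * ((∑ y ∈ D.F.filter (fun y => x ∈ D.B y),
      D.cm P x fun x' => π.c i x' ∉ (D.B y).image (π.c i)) / (D.F.card * k)) =
      π.wt i * D.miss P (π.c i) := fun i _ => by
    rw [← mul_sum, ← sum_div, Blk.miss, D.st_swap]
  rw [sum_congr rfl h6] at h3
  by_contra! hn
  obtain ⟨i, hi, hm⟩ := exists_max_image π.S (fun i => D.miss P (π.c i))
    (nonempty_of_sum_ne_zero (π.one ▸ one_ne_zero))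
  have h7 := sum_le_sum fun j hj => mul_le_mul_of_nonneg_left (hm j hj) (π.pos j hj)
  rw [← sum_mul, π.one] at h7
  linarith [hn i hi]

end
end Pool.Agent.Lib.MP_439fea_co.Pw
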