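import Mathlib

/-! Elimination of three independent square roots. -/

namespace Pool.Agent.Lib.MP_439fea_co.Pw

open QuadraticAlgebra

/-- The form `x ^ 2 - t * y ^ 2` is anisotropic. -/
def NS {R : Type} [CommRing R] (t : R) : Prop := ∀ x y : R, x ^ 2 = t * y ^ 2 → x = 0 ∧ y = 0

variable {R O : Type} [CommRing R] [CommRing O] {t d : R}

theorem NS.nrm (h : NS d) {X : QuadraticAlgebra R d 0} (e : norm X = 0) : X = 0 := by
  obtain ⟨a, b⟩ := h X.re X.im (by rw [norm_def] at e; linear_combination e)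
  exact QuadraticAlgebra.ext a b

theorem NS.dom [IsDomain R] (h : NS d) : IsDomain (QuadraticAlgebra R d 0) :=
  have : NoZeroDivisors (QuadraticAlgebra R d 0) := ⟨fun {X Y} e =>
    (mul_eq_zero.1 (by rw [← map_mul, e, QuadraticAlgebra.norm_zero] : norm X * norm Y = 0)).imp h.nrm h.nrm⟩
  NoZeroDivisors.to_isDomain _

theorem NS.up [IsDomain R] [CharZero R] (h : NS d) (h1 : NS t) (h2 : NS (t * d)) :
    NS (algebraMap R (QuadraticAlgebra R d 0) t) := fun X Y e => by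
  have := h.dom
  have k : (X * star Y) ^ 2 = algebraMap R _ (t * norm Y ^ 2) := by
    rw [mul_pow, e, map_mul, map_pow, algebraMap_norm_eq_mul_star]; ring
  generalize X * star Y = Z at k
  have a := congrArg QuadraticAlgebra.re k
  have b := congrArg QuadraticAlgebra.im k
  simp only [sq, re_mul, im_mul, algebraMap_re, algebraMap_im] at a b
  have n : norm Y = 0 := by
    rcases mul_eq_zero.1 (mul_left_cancel₀ (two_ne_zero' R)
      (by linear_combination b : 2 * (Z.re * Z.im) = 2 * 0)) with c | c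
    · exact (h2 (d * Z.im) (norm Y) (by rw [c] at a; linear_combination d * a)).2
    · exact (h1 Z.re (norm Y) (by rw [c] at a; linear_combination a)).2
  obtain rfl := h.nrm n
  exact ⟨by simpa using e, rfl⟩

/-- Extension of a homomorphism by a square root. -/
def qext (φ : R →+* O) (r : O) (h : r ^ 2 = φ d) : QuadraticAlgebra R d 0 →+* O where
  toFun X := φ X.re + φ X.im * r
  map_one' := by simp
  map_zero' := by simp
  map_add' X Y := by simp; ring
  map_mul' X Y := by simp; linear_combination -(φ X.im * φ Y.im) * h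

theorem qext_nrm (φ : R →+* O) (r : O) (h : r ^ 2 = φ d) {X : QuadraticAlgebra R d 0}
    (e : qext φ r h X = 0) : φ (norm X) = 0 := by
  have := congrArg (qext φ r h) (algebraMap_norm_eq_mul_star X)
  rw [map_mul, e, zero_mul] at this
  simpa [qext] using this

theorem elim3 [IsDomain R] [CharZero R] {d0 d1 d2 : R} (n2 : NS d2) (n1 : NS d1)
    (n12 : NS (d1 * d2)) (n0 : NS d0) (n02 : NS (d0 * d2)) (n01 : NS (d0 * d1))
    (n012 : NS (d0 * d1 * d2)) (e e0 e1 e2 e01 e02 e12 : R)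
    (hne : ¬ (e0 = 0 ∧ e1 = 0 ∧ e2 = 0 ∧ e01 = 0 ∧ e02 = 0 ∧ e12 = 0)) :
    ∃ F : R, F ≠ 0 ∧ ∀ (φ : R →+* O) (r0 r1 r2 : O), r0 ^ 2 = φ d0 → r1 ^ 2 = φ d1 →
      r2 ^ 2 = φ d2 → φ e + φ e0 * r0 + φ e1 * r1 + φ e2 * r2 + φ e01 * (r0 * r1) +
        φ e02 * (r0 * r2) + φ e12 * (r1 * r2) = 0 → φ F = 0 := by
  have := n2.dom
  have m1 := n2.up n1 n12
  have m0 := m1.up (n2.up n0 n02) (map_mul (algebraMap R (QuadraticAlgebra R d2 0)) d0 d1 ▸
    n2.up n01 n012)
  obtain ⟨α, hα⟩ : ∃ α : QuadraticAlgebra _ (algebraMap R (QuadraticAlgebra R d2 0) d1) 0,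
    α = ⟨⟨e, e2⟩, ⟨e1, e12⟩⟩ := ⟨_, rfl⟩
  obtain ⟨β, hβ⟩ : ∃ β : QuadraticAlgebra _ (algebraMap R (QuadraticAlgebra R d2 0) d1) 0,
    β = ⟨⟨e0, e02⟩, ⟨e01, 0⟩⟩ := ⟨_, rfl⟩
  obtain ⟨γ, hγ⟩ : ∃ γ, γ = α ^ 2 -
    algebraMap _ _ (algebraMap R (QuadraticAlgebra R d2 0) d0) * β ^ 2 := ⟨_, rfl⟩
  refine ⟨QuadraticAlgebra.norm (QuadraticAlgebra.norm γ),
    fun c => hne ?_, fun φ r0 r1 r2 a0 a1 a2 h => ?_⟩
  · obtain ⟨a, b⟩ := m0 α β (sub_eq_zero.1 (hγ.symm.trans (m1.nrm (n2.nrm c))))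
    simp only [hα, hβ, QuadraticAlgebra.ext_iff, re_zero, im_zero] at a b
    tauto
  · have a1' : r1 ^ 2 = qext φ r2 a2 (algebraMap R _ d1) := by simpa [qext] using a1
    refine qext_nrm φ r2 a2 (qext_nrm _ r1 a1' ?_)
    rw [hγ, map_sub, map_mul, map_pow, map_pow]
    simp only [qext, hα, hβ, RingHom.coe_mk, MonoidHom.coe_mk, OneHom.coe_mk, algebraMap_re,
      algebraMap_im, re_zero, im_zero, map_zero]
    linear_combination (φ e0 + φ e02 * r2 + φ e01 * r1) ^ 2 * a0 +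
      (φ e + φ e2 * r2 + (φ e1 + φ e12 * r2) * r1 - (φ e0 + φ e02 * r2 + φ e01 * r1) * r0) * h

open Polynomial in
theorem ns_root [IsDomain R] {c : R} {U : R[X]} (h : U.eval c ≠ 0) : NS ((X - C c) * U) :=
  fun x y e => by
    have u : U ≠ 0 := fun a => h (by simp [a])
    have k : y = 0 := by
      by_contra hy
      have n : (X - C c) * U * y ^ 2 ≠ 0 :=
        mul_ne_zero (mul_ne_zero (X_sub_C_ne_zero c) u) (pow_ne_zero _ hy)
      have := congrArg (rootMultiplicity c) e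
      rw [sq, rootMultiplicity_mul (by rwa [← sq, e]), rootMultiplicity_mul n,
        rootMultiplicity_mul (left_ne_zero_of_mul n), sq, rootMultiplicity_mul (mul_ne_zero hy hy),
        rootMultiplicity_X_sub_C_self, rootMultiplicity_eq_zero h] at this
      omega
    exact ⟨by simpa [k] using e, k⟩

end Pool.Agent.Lib.MP_439fea_co.Pw
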