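import Pool.Agent.Lib.MP_439fea_co.Z.Defs
import Pool.Agent.Lib.MP_439fea_co.Pw.RigQ

/-! Rigidity: a derivation that kills the cross ratios at three centres. -/

namespace Pool.Agent.Lib.MP_439fea_co.Pw
open Pool.Agent.Lib.MP_439fea_co.Z

open Polynomial

theorem rig_det {R O : Type} [CommRing R] [CommRing O] [IsDomain R] [CharZero R]
    (P Q Z W T d : Fin 3 → R) (n2 : NS (d 2)) (n1 : NS (d 1)) (n12 : NS (d 1 * d 2)) (n0 : NS (d 0))
    (n02 : NS (d 0 * d 2)) (n01 : NS (d 0 * d 1)) (n012 : NS (d 0 * d 1 * d 2))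
    (hne : ¬ (Q 2 * (P 0 * W 1 - P 1 * W 0) = 0 ∧ P 2 * (Q 1 * Z 0 - Q 0 * Z 1) = 0)) :
    ∃ F : R, F ≠ 0 ∧ ∀ (φ : R →+* O) (s : Fin 3 → O) (A B : O),
      (∀ i, (φ (T i) - s i) ^ 2 = φ (d i) ∧
        φ (Z i) + s i * φ (W i) = φ (Q i) * A + φ (P i) * s i * B) → φ F = 0 := by
  obtain ⟨c01, h01⟩ : ∃ c, c = Q 2 * (P 0 * W 1 - P 1 * W 0) := ⟨_, rfl⟩
  obtain ⟨c02, h02⟩ : ∃ c, c = Q 1 * (P 2 * W 0 - P 0 * W 2) := ⟨_, rfl⟩
  obtain ⟨c12, h12⟩ : ∃ c, c = Q 0 * (P 1 * W 2 - P 2 * W 1) := ⟨_, rfl⟩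
  obtain ⟨c0, h0⟩ : ∃ c, c = P 0 * (Q 2 * Z 1 - Q 1 * Z 2) := ⟨_, rfl⟩
  obtain ⟨c1, h1⟩ : ∃ c, c = P 1 * (Q 0 * Z 2 - Q 2 * Z 0) := ⟨_, rfl⟩
  obtain ⟨c2, h2⟩ : ∃ c, c = P 2 * (Q 1 * Z 0 - Q 0 * Z 1) := ⟨_, rfl⟩
  obtain ⟨F, h, k⟩ := elim3 (O := O) n2 n1 n12 n0 n02 n01 n012
    (c0 * T 0 + c1 * T 1 + c2 * T 2 + c01 * T 0 * T 1 + c02 * T 0 * T 2 + c12 * T 1 * T 2)
    (-c0 - c01 * T 1 - c02 * T 2) (-c1 - c01 * T 0 - c12 * T 2) (-c2 - c02 * T 0 - c12 * T 1)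
    c01 c02 c12 fun ⟨_, _, a, b, c, e⟩ => hne ⟨h01 ▸ b, h2 ▸ by simpa [c, e] using a⟩
  refine ⟨F, h, fun φ s A B a => k φ _ _ _ (a 0).1 (a 1).1 (a 2).1 ?_⟩
  simp only [h01, h02, h12, h0, h1, h2, map_add, map_sub, map_mul, map_neg]
  linear_combination (φ (Q 1) * φ (P 2) * s 2 - φ (Q 2) * φ (P 1) * s 1) * (a 0).2 +
    (φ (Q 2) * φ (P 0) * s 0 - φ (Q 0) * φ (P 2) * s 2) * (a 1).2 +
    (φ (Q 0) * φ (P 1) * s 1 - φ (Q 1) * φ (P 0) * s 0) * (a 2).2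

variable {O : Type} [Field O]

/-- Value of a polynomial in two variables. -/
noncomputable def ev2 (x y : O) : O[X][X] →+* O := (evalRingHom y).comp (evalRingHom (C x))

theorem ev2_bev {F : O[X][X]} (h : F ≠ 0) : ∃ (D : ℕ) (c : ℕ → ℕ → O),
    (∃ i ≤ D, ∃ k ≤ D, c i k ≠ 0) ∧ ∀ x y, bev D c x y = ev2 x y F := by
  obtain ⟨D, h1, h2⟩ : ∃ D, F.natDegree ≤ D ∧ ∀ i ≤ D, (F.coeff i).natDegree ≤ D :=
    ⟨max F.natDegree (F.support.sup fun i => (F.coeff i).natDegree), le_max_left _ _, fun i _ => by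
      by_cases e : i ∈ F.support
      · exact le_max_of_le_right (Finset.le_sup (f := fun i => (F.coeff i).natDegree) e)
      · simp [notMem_support_iff.1 e]⟩
  refine ⟨D, fun i k => (F.coeff i).coeff k, ⟨_, h1, _, h2 _ h1,
    leadingCoeff_ne_zero.2 (leadingCoeff_ne_zero.2 h)⟩, fun x y => ?_⟩
  simp only [bev, ev2, RingHom.comp_apply, coe_evalRingHom]
  rw [eval_eq_sum_range' (Nat.lt_succ_of_le h1), eval_finsetSum]
  refine Finset.sum_congr rfl fun i hi => ?_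
  rw [eval_mul, eval_pow, eval_C, eval_eq_sum_range'
    (Nat.lt_succ_of_le (h2 i (Nat.le_of_lt_succ (Finset.mem_range.1 hi)))), Finset.sum_mul]
  exact Finset.sum_congr rfl fun k _ => mul_right_comm _ _ _

/-- The first coordinate relative to a centre. -/
noncomputable def rP (z : O) : O[X][X] := X - C (C z)

/-- The second coordinate relative to a centre. -/
noncomputable def rQ (w : O) : O[X][X] := C (X - C w)

theorem ev2_P (x y z : O) : ev2 x y (rP z) = x - z := by simp [ev2, rP]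

theorem ev2_Q (x y w : O) : ev2 x y (rQ w) = y - w := by simp [ev2, rQ]

theorem ev2_C (x y t : O) : ev2 x y (C (C t)) = t := by simp [ev2]

variable [CharZero O]

theorem rig_u (z w c : O) : (rQ w * (rP z * rQ w - 4)).eval (C c) ≠ 0 := by
  rw [eval_mul]
  refine mul_ne_zero (by simpa [rQ] using X_sub_C_ne_zero w) fun e => ?_
  simpa [rP, rQ] using congrArg (eval w) e

theorem rig_v {z c : O} (w : O) (h : c ≠ z) :
    (rP z * (rQ w * (rP z * rQ w - 4))).eval (C c) ≠ 0 := by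
  rw [eval_mul]
  exact mul_ne_zero (by simpa [rP, sub_eq_zero] using h) (rig_u z w c)

theorem rig_ns (z w : O) {U : O[X][X]} (h : U.eval (C z) ≠ 0) :
    NS (rP z * (rQ w * (rP z * rQ w - 4)) * U) := by
  rw [mul_assoc]
  exact ns_root (c := C z) (by rw [eval_mul]; exact mul_ne_zero (rig_u z w z) h)

theorem rig_core (bz bw dz dw al be ga : Fin 3 → O) (hz : Function.Injective bz)
    (hw : Function.Injective bw) (h : ¬ (al 0 = 0 ∧ ga 0 = 0)) :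
    ∃ F : O[X][X], F ≠ 0 ∧ ∀ (x y A B : O) (a a' : Fin 3 → O),
      (∀ i, a i ≠ 0 ∧ a' i ≠ 0 ∧ x = bz i + a i - a' i ∧ y = bw i + (a i)⁻¹ - (a' i)⁻¹ ∧
        dz i + (al i + be i * a i + ga i * a i ^ 2) - A +
          a' i ^ 2 * (dw i - (al i + be i * a i + ga i * a i ^ 2) / a i ^ 2 - B) = 0) →
      ev2 x y F = 0 := by
  have v := fun i j (e : j ≠ i) => rig_v (bw i) (hz.ne e)
  have n := fun i => ns_root (c := C (bz i)) (rig_u (bz i) (bw i) (bz i))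
  obtain ⟨F, h1, h2⟩ := rig_det (O := O) (fun i => rP (bz i)) (fun i => 2 * rQ (bw i))
    (fun i => 2 * rQ (bw i) * (C (C (dz i)) + 2 * C (C (al i)) + C (C (ga i)) * rP (bz i) ^ 2 +
      C (C (be i)) * rP (bz i)) - 4 * C (C (ga i)) * rP (bz i))
    (fun i => rP (bz i) * (C (C (dw i)) - 2 * C (C (ga i)) - C (C (al i)) * rQ (bw i) ^ 2 -
      C (C (be i)) * rQ (bw i)) + 2 * C (C (al i)) * rQ (bw i))
    (fun i => rP (bz i) * rQ (bw i) - 2)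
    (fun i => rP (bz i) * (rQ (bw i) * (rP (bz i) * rQ (bw i) - 4)))
    (n 2) (n 1) (rig_ns _ _ (v 2 1 (by decide))) (n 0) (rig_ns _ _ (v 2 0 (by decide)))
    (rig_ns _ _ (v 1 0 (by decide))) (by
      rw [mul_assoc]
      exact rig_ns _ _ (by
        rw [eval_mul]; exact mul_ne_zero (v 1 0 (by decide)) (v 2 0 (by decide))))
    fun ⟨a, b⟩ => by
      have a := congrArg (ev2 (bz 0) (bw 1)) a
      have b := congrArg (ev2 (bz 1) (bw 0)) b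
      simp only [map_add, map_sub, map_mul, map_pow, map_ofNat, map_zero, ev2_P, ev2_Q,
        ev2_C] at a b
      exact h ⟨by simpa [sub_eq_zero, hz.eq_iff, hw.eq_iff] using a,
        by simpa [sub_eq_zero, hz.eq_iff, hw.eq_iff] using b⟩
  refine ⟨F, h1, fun x y A B a a' k => h2 _ (fun i => -2 * a' i / a i) A B fun i => ?_⟩
  obtain ⟨k1, k2, k3, k4, k5⟩ := k i
  have p : x - bz i = a i - a' i := by rw [k3]; ring
  have q : y - bw i = (a i)⁻¹ - (a' i)⁻¹ := by rw [k4]; ring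
  simp only [map_add, map_sub, map_mul, map_pow, map_ofNat, ev2_P, ev2_Q, ev2_C, p, q]
  refine ⟨by field_simp; ring, ?_⟩
  rw [← sub_eq_zero, ← mul_zero (2 * ((a i)⁻¹ - (a' i)⁻¹)), ← k5]
  field_simp
  ring

omit [CharZero O] in
theorem rig_sl2 (δ : Derivation ℤ O O) {u : Fin 3 → O} (hu : Function.Injective u) :
    ∃ al be ga : O, (∀ k, δ (u k) = al + be * u k + ga * u k ^ 2) ∧
      ∀ a, a ≠ u 2 → δ (cr u a) = 0 → δ a = al + be * a + ga * a ^ 2 := by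
  have h1 : u 0 - u 1 ≠ 0 := sub_ne_zero.2 (hu.ne (by decide))
  have h2 : u 0 - u 2 ≠ 0 := sub_ne_zero.2 (hu.ne (by decide))
  have h3 : u 1 - u 2 ≠ 0 := sub_ne_zero.2 (hu.ne (by decide))
  have h4 : u 1 - u 0 ≠ 0 := sub_ne_zero.2 (hu.ne (by decide))
  obtain ⟨al, be, ga, e0, e1, e2⟩ : ∃ al be ga : O, δ (u 0) = al + be * u 0 + ga * u 0 ^ 2 ∧
      δ (u 1) = al + be * u 1 + ga * u 1 ^ 2 ∧ δ (u 2) = al + be * u 2 + ga * u 2 ^ 2 := by
    obtain ⟨g, hg⟩ : ∃ g, g = ((δ (u 0) - δ (u 1)) / (u 0 - u 1) -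
      (δ (u 1) - δ (u 2)) / (u 1 - u 2)) / (u 0 - u 2) := ⟨_, rfl⟩
    obtain ⟨b, hb⟩ : ∃ b, b = (δ (u 0) - δ (u 1)) / (u 0 - u 1) - g * (u 0 + u 1) := ⟨_, rfl⟩
    refine ⟨δ (u 0) - b * u 0 - g * u 0 ^ 2, b, g, by ring, ?_, ?_⟩
    · rw [hb]; field_simp; ring
    · rw [hb, hg]; field_simp; ring
  refine ⟨al, be, ga, fun k => by fin_cases k <;> assumption, fun a ha e => ?_⟩
  have h5 := sub_ne_zero.2 ha
  have k := congrArg δ (div_mul_cancel₀ ((a - u 0) * (u 1 - u 2)) (mul_ne_zero h5 h4))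
  rw [Derivation.leibniz, ← cr, e, cr] at k
  simp only [Derivation.leibniz, map_sub, smul_eq_mul, e0, e1, e2, mul_zero, add_zero] at k
  field_simp at k
  refine mul_left_cancel₀ (mul_ne_zero (mul_ne_zero h2 h3) h4) ?_
  linear_combination -k

theorem rig (δ : Derivation ℤ O O) (bz bw : Fin 3 → O) (hz : Function.Injective bz)
    (hw : Function.Injective bw) (u : Fin 3 → Fin 3 → O) (hu : ∀ i, Function.Injective (u i))
    (h : δ (u 0 1 / (u 0 0 - u 0 1)) ≠ 0) :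
    ∃ (D : ℕ) (c : ℕ → ℕ → O), (∃ i ≤ D, ∃ k ≤ D, c i k ≠ 0) ∧ ∀ (x y : O) (a a' : Fin 3 → O),
      (∀ i, a i ≠ 0 ∧ a' i ≠ 0 ∧ x = bz i + a i - a' i ∧ y = bw i + (a i)⁻¹ - (a' i)⁻¹ ∧
        a i ≠ u i 2 ∧ δ (cr (u i) (a i)) = 0) → bev D c x y = 0 := by
  choose al be ga h1 h2 using fun i => rig_sl2 δ (hu i)
  obtain ⟨F, h3, h4⟩ := rig_core bz bw (fun i => δ (bz i)) (fun i => δ (bw i)) al be ga hz hw
    fun ⟨a, b⟩ => h (by
      simp only [Derivation.leibniz_div, map_sub, h1, a, b, smul_eq_mul]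
      ring)
  obtain ⟨D, c, h5, h6⟩ := ev2_bev h3
  refine ⟨D, c, h5, fun x y a a' k => (h6 x y).trans (h4 x y (δ x) (δ y) a a' fun i => ?_)⟩
  obtain ⟨k1, k2, k3, k4, k5, k6⟩ := k i
  refine ⟨k1, k2, k3, k4, ?_⟩
  rw [← h2 i _ k5 k6, k3, k4]
  simp only [map_add, map_sub, Derivation.leibniz_inv, smul_eq_mul]
  field_simp
  ring

end Pool.Agent.Lib.MP_439fea_co.Pw
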