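import Pool.Agent.Lib.MP_439fea_co.Pw.Defs
import Pool.Agent.Lib.MP_439fea_co.Pw.Rig

/-! The limit of the finite patterns. -/

namespace Pool.Agent.Lib.MP_439fea_co.Pw
open Filter Topology Pool.Agent.Lib.MP_439fea_co.Z

open scoped IntermediateField.algebraAdjoinAdjoin in
theorem lim_der_basis {L K ι : Type} [Field L] [Field K] [Algebra L K] [CharZero L] {v : ι → K}
    (hv : IsTranscendenceBasis L v) (w : ι → K) :
    ∃ D : Derivation L K K, ∀ i, D (v i) = w i := by
  let : Algebra (MvPolynomial ι L) K :=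
    (MvPolynomial.aeval v : MvPolynomial ι L →ₐ[L] K).toRingHom.toAlgebra
  have : IsScalarTower L (MvPolynomial ι L) K :=
    .of_algebraMap_eq fun r => ((MvPolynomial.aeval v : MvPolynomial ι L →ₐ[L] K).commutes r).symm
  have hE : Algebra.FormallyEtale (MvPolynomial ι L) K := by
    let : Algebra (MvPolynomial ι L) (Algebra.adjoin L (Set.range v)) :=
      hv.1.aevalEquiv.toAlgHom.toRingHom.toAlgebra
    have : IsScalarTower (MvPolynomial ι L) (Algebra.adjoin L (Set.range v)) K :=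
      .of_algebraMap_eq fun r => (hv.1.algebraMap_aevalEquiv r).symm
    have h1 : Algebra.FormallyEtale (MvPolynomial ι L) (Algebra.adjoin L (Set.range v)) :=
      .of_equiv (AlgEquiv.ofBijective (Algebra.ofId _ (Algebra.adjoin L (Set.range v)))
        hv.1.aevalEquiv.bijective)
    have h2 : Algebra.FormallyEtale (Algebra.adjoin L (Set.range v))
        (IntermediateField.adjoin L (Set.range v)) := .of_isLocalization (nonZeroDivisors _)
    have h3 : Algebra.IsAlgebraic (IntermediateField.adjoin L (Set.range v)) K :=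
      hv.isAlgebraic_field
    have h4 : Algebra.FormallyEtale (IntermediateField.adjoin L (Set.range v)) K :=
      .of_isSeparable _ K
    have h5 : Algebra.FormallyEtale (Algebra.adjoin L (Set.range v)) K :=
      .comp _ (IntermediateField.adjoin L (Set.range v)) K
    exact .comp _ (Algebra.adjoin L (Set.range v)) K
  let d0 : Derivation L (MvPolynomial ι L) K := MvPolynomial.mkDerivation L w
  let e := KaehlerDifferential.tensorKaehlerEquivOfFormallyEtale L (MvPolynomial ι L) K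
  refine ⟨((d0.liftKaehlerDifferential.liftBaseChange K).comp e.symm.toLinearMap).compDer
    (KaehlerDifferential.D L K), fun i => ?_⟩
  have hi : v i = algebraMap (MvPolynomial ι L) K (MvPolynomial.X i) :=
    (MvPolynomial.aeval_X v i).symm
  change (d0.liftKaehlerDifferential.liftBaseChange K)
    (e.symm (KaehlerDifferential.D L K (v i))) = w i
  rw [hi, KaehlerDifferential.tensorKaehlerEquivOfFormallyEtale_symm_D_algebraMap,
    LinearMap.liftBaseChange_tmul, one_smul, Derivation.liftKaehlerDifferential_comp_D]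
  exact MvPolynomial.mkDerivation_X L w i

/-- A transcendental element is moved by a derivation. -/
theorem lim_der {L K : Type} [Field L] [Field K] [Algebra L K] [CharZero L] {y : K}
    (hy : Transcendental L y) : ∃ D : Derivation L K K, D y = 1 := by
  have hv : AlgebraicIndependent L (fun _ : Unit => y) := algebraicIndependent_unique_type_iff.2 hy
  obtain ⟨t, ht, hb⟩ := exists_isTranscendenceBasis_superset (s := Set.range fun _ : Unit => y)
    hv.to_subtype_range
  obtain ⟨D, hD⟩ := lim_der_basis hb fun _ => 1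
  exact ⟨D, hD ⟨y, ht ⟨(), rfl⟩⟩⟩

section
variable {O K : Type} [Field O] [Field K] {U : Ultrafilter ℕ} {g : (ℕ → O) →+* K}

theorem lim_eq (hg : ∀ f, g f = 0 ↔ ∀ᶠ j in U, f j = 0) (f f' : ℕ → O) :
    g f = g f' ↔ ∀ᶠ j in U, f j = f' j := by
  rw [← sub_eq_zero, ← map_sub, hg]
  simp only [Pi.sub_apply, sub_eq_zero]

theorem lim_ne (hg : ∀ f, g f = 0 ↔ ∀ᶠ j in U, f j = 0) {f f' : ℕ → O}
    (h : ∀ᶠ j in U, f j ≠ f' j) : g f ≠ g f' := fun e => by
  obtain ⟨j, h1, h2⟩ := (h.and ((lim_eq hg f f').1 e)).exists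
  exact h1 h2

theorem lim_ne' (hg : ∀ f, g f = 0 ↔ ∀ᶠ j in U, f j = 0) {f : ℕ → O} (h : g f ≠ 0) :
    ∀ᶠ j in U, f j ≠ 0 :=
  Ultrafilter.eventually_not.2 fun e => h ((hg f).2 e)

theorem lim_inv (hg : ∀ f, g f = 0 ↔ ∀ᶠ j in U, f j = 0) (f : ℕ → O) : g f⁻¹ = (g f)⁻¹ := by
  by_cases h : g f = 0
  · rw [h, inv_zero, hg]
    exact ((hg f).1 h).mono fun j hj => by simp [hj]
  · apply eq_inv_of_mul_eq_one_left
    rw [← map_mul, ← map_one g, lim_eq hg]
    exact (lim_ne' hg h).mono fun j hj => by simp [hj]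

theorem lim_div (hg : ∀ f, g f = 0 ↔ ∀ᶠ j in U, f j = 0) (f f' : ℕ → O) :
    g (f / f') = g f / g f' := by
  rw [div_eq_mul_inv, map_mul, lim_inv hg, div_eq_mul_inv]

/-- Sequences of negligible height. -/
def Sm (U : Ultrafilter ℕ) (H : ℕ → Ht O) (s : ℕ → ℝ) (f : ℕ → O) : Prop :=
  (∀ᶠ j in U, f j ∈ (H j).dom) ∧ Tendsto (fun j => (H j).h (f j) / s j) U (𝓝 0)

theorem Sm.two {H : ℕ → Ht O} {s : ℕ → ℝ} (hs : ∀ j, 0 < s j)
    (hi : Tendsto (fun j => 1 / s j) U (𝓝 0)) {f f' k : ℕ → O}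
    (h : Sm U H s f) (h' : Sm U H s f')
    (hk : ∀ j, f j ∈ (H j).dom → f' j ∈ (H j).dom →
      k j ∈ (H j).dom ∧ (H j).h (k j) ≤ (H j).h (f j) + (H j).h (f' j) + 1) : Sm U H s k := by
  refine ⟨(h.1.and h'.1).mono fun j hj => (hk j hj.1 hj.2).1, ?_⟩
  have h3 := (h.2.add h'.2).add hi
  rw [add_zero, add_zero] at h3
  refine squeeze_zero' (Eventually.of_forall fun j => div_nonneg ((H j).nonneg _) (hs j).le)
    ((h.1.and h'.1).mono fun j hj => ?_) h3
  rw [← add_div, ← add_div]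
  exact div_le_div_of_nonneg_right (hk j hj.1 hj.2).2 (hs j).le

/-- The subfield of elements of negligible height. -/
def smallField (hg : ∀ f, g f = 0 ↔ ∀ᶠ j in U, f j = 0) (H : ℕ → Ht O) (s : ℕ → ℝ)
    (hs : ∀ j, 0 < s j) (hi : Tendsto (fun j => 1 / s j) U (𝓝 0)) : Subfield K where
  carrier := {x | ∃ f, Sm U H s f ∧ g f = x}
  zero_mem' := ⟨0, ⟨Eventually.of_forall fun j => zero_mem _, by
    simp only [Pi.zero_apply, Ht.zero, zero_div]; exact tendsto_const_nhds⟩, map_zero g⟩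
  one_mem' := ⟨1, ⟨Eventually.of_forall fun j => one_mem _, by
    simp only [Pi.one_apply, Ht.one, zero_div]; exact tendsto_const_nhds⟩, map_one g⟩
  add_mem' := by
    rintro _ _ ⟨f, hf, rfl⟩ ⟨f', hf', rfl⟩
    exact ⟨f + f', hf.two hs hi hf' fun j h1 h2 => ⟨add_mem h1 h2, (H j).add _ h1 _ h2⟩,
      map_add g f f'⟩
  mul_mem' := by
    rintro _ _ ⟨f, hf, rfl⟩ ⟨f', hf', rfl⟩
    exact ⟨f * f', hf.two hs hi hf' fun j h1 h2 => ⟨mul_mem h1 h2,
      ((H j).mul _ h1 _ h2).trans (le_add_of_nonneg_right zero_le_one)⟩, map_mul g f f'⟩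
  neg_mem' := by
    rintro _ ⟨f, hf, rfl⟩
    exact ⟨-f, hf.two hs hi hf fun j h1 _ => ⟨neg_mem h1, by
      rw [Pi.neg_apply, (H j).neg _ h1]; linarith [(H j).nonneg (f j)]⟩, map_neg g f⟩
  inv_mem' := by
    rintro _ ⟨f, hf, rfl⟩
    exact ⟨f⁻¹, hf.two hs hi hf fun j h1 _ => ⟨inv_mem h1, by
      rw [Pi.inv_apply, (H j).inv _ h1]; linarith [(H j).nonneg (f j)]⟩, lim_inv hg f⟩

theorem lim_trans (hg : ∀ f, g f = 0 ↔ ∀ᶠ j in U, f j = 0) (H : ℕ → Ht O) (s : ℕ → ℝ)
    (hs : ∀ j, 0 < s j) (hi : Tendsto (fun j => 1 / s j) U (𝓝 0)) (r : ℕ → O)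
    (hr : ∀ j, r j ∈ (H j).dom) (hb : ∀ j, s j / 8 ≤ (H j).h (r j)) :
    Transcendental (smallField hg H s hs hi) (g r) := by
  intro ha
  obtain ⟨p, hm, hp⟩ := ha.isIntegral
  choose c hc hc' using fun i => (p.coeff i).2
  have e : g (r ^ p.natDegree + ∑ i ∈ Finset.range p.natDegree, c i * r ^ i) = 0 := by
    rw [hm.as_sum] at hp
    simp only [Polynomial.eval₂_add, Polynomial.eval₂_pow, Polynomial.eval₂_X,
      Polynomial.eval₂_finsetSum, Polynomial.eval₂_mul, Polynomial.eval₂_C] at hp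
    simp only [map_add, map_pow, map_sum, map_mul, hc']
    exact hp
  have h1 : ∀ᶠ j in U, ∀ i ∈ Finset.range p.natDegree, c i j ∈ (H j).dom :=
    (eventually_all_finset _).2 fun i _ => (hc i).1
  have h2 : Tendsto (fun j => ∑ i ∈ Finset.range p.natDegree, (H j).h (c i j) / s j +
      (p.natDegree : ℝ) * (1 / s j)) U (𝓝 0) := by
    have := (tendsto_finsetSum (Finset.range p.natDegree) fun i _ => (hc i).2).add
      (hi.const_mul (p.natDegree : ℝ))
    simpa using this
  have h3 := h2.eventually (gt_mem_nhds (show (0 : ℝ) < 1 / 8 by norm_num))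
  obtain ⟨j, ⟨k1, k2⟩, k3⟩ := ((h1.and ((hg _).1 e)).and h3).exists
  simp only [Pi.add_apply, Pi.pow_apply, Finset.sum_apply, Pi.mul_apply] at k2
  have k4 := (H j).root p.natDegree (fun i => c i j) (r j) (hr j)
    (fun i hi => k1 i (Finset.mem_range.2 hi)) k2
  rw [← Finset.sum_div, mul_one_div, ← add_div, div_lt_iff₀ (hs j)] at k3
  have := hb j
  linarith

theorem bev_mono {D j : ℕ} (h : D ≤ j) (c : ℕ → ℕ → O) (x y : O) :
    bev j (fun i k => if i ≤ D ∧ k ≤ D then c i k else 0) x y = bev D c x y := by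
  simp only [bev]
  have hs : Finset.range (D + 1) ⊆ Finset.range (j + 1) :=
    Finset.range_subset_range.2 (by omega)
  symm
  refine (Finset.sum_congr rfl fun i hi => ?_).trans (Finset.sum_subset hs fun i _ hi => ?_)
  · refine (Finset.sum_congr rfl fun k hk => ?_).trans (Finset.sum_subset hs fun k _ hk => ?_)
    · rw [Finset.mem_range] at hi hk
      rw [if_pos ⟨by omega, by omega⟩]
    · rw [Finset.mem_range] at hk
      rw [if_neg (by omega), zero_mul, zero_mul]
  · rw [Finset.mem_range] at hi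
    exact Finset.sum_eq_zero fun k _ => by rw [if_neg (by omega), zero_mul, zero_mul]

theorem lim_core [CharZero K] (hU : (U : Filter ℕ) ≤ atTop)
    (hg : ∀ f, g f = 0 ↔ ∀ᶠ j in U, f j = 0) (hsur : Function.Surjective g)
    (st : ∀ j : ℕ, Stage O (1 / ((j : ℝ) + 1)) j) : False := by
  classical
  have hi : Tendsto (fun j => 1 / (st j).s) U (𝓝 0) := by
    refine squeeze_zero (fun j => (one_div_pos.2 (st j).spos).le) (fun j => ?_)
      (tendsto_one_div_add_atTop_nhds_zero_nat.mono_left hU)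
    rw [div_le_iff₀ (st j).spos]
    exact (st j).sbig
  set k := smallField hg (fun j => (st j).H) (fun j => (st j).s) (fun j => (st j).spos) hi with hk
  obtain ⟨D, hD⟩ := lim_der (lim_trans hg (fun j => (st j).H) (fun j => (st j).s)
    (fun j => (st j).spos) hi _ (fun j => (st j).bigm) fun j => (st j).big)
  have hinj : ∀ {n : ℕ} (t : ℕ → Fin n → O), (∀ j, Function.Injective (t j)) →
      Function.Injective fun i => g fun j => t j i := by
    intro n t ht i i' e
    by_contra hne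
    exact lim_ne hg (Eventually.of_forall fun j h => hne (ht j h)) e
  obtain ⟨d, c, ⟨i0, hi0, k0, hk0, hc0⟩, hc⟩ := rig (D.restrictScalars ℤ)
    (fun i => g fun j => (st j).bz i) (fun i => g fun j => (st j).bw i)
    (hinj _ fun j => (st j).bzinj) (hinj _ fun j => (st j).bwinj)
    (fun i k => g fun j => (st j).u i k) (fun i => hinj _ fun j => (st j).uinj i) (by
      rw [← map_sub, ← lim_div hg]
      exact (hD.trans_ne one_ne_zero))
  choose c' hc' using fun i k => hsur (c i k)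
  have h0 : ∀ᶠ j in U, c' i0 k0 j ≠ 0 := lim_ne' hg (by rw [hc']; exact hc0)
  have hd : ∀ᶠ j in U, d ≤ j := hU (eventually_ge_atTop d)
  have key : ∀ j : ℕ, ∃ (x y : O) (a a' : Fin 3 → O), (c' i0 k0 j ≠ 0 ∧ d ≤ j) →
      (∀ i, a i ≠ 0 ∧ a' i ≠ 0 ∧ x = (st j).bz i + a i - a' i ∧
        y = (st j).bw i + (a i)⁻¹ - (a' i)⁻¹ ∧ x ≠ (st j).bz i ∧ a i ≠ (st j).u i 2 ∧
        cr ((st j).u i) (a i) ∈ (st j).H.dom ∧
        (st j).H.h (cr ((st j).u i) (a i)) ≤ 1 / ((j : ℝ) + 1) * (st j).s) ∧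
      bev d (fun i k => c' i k j) x y ≠ 0 := by
    intro j
    by_cases hj : c' i0 k0 j ≠ 0 ∧ d ≤ j
    · obtain ⟨x, y, a, a', h1, h2⟩ := (st j).gen
        (fun i k => if i ≤ d ∧ k ≤ d then c' i k j else 0)
        ⟨i0, hi0.trans hj.2, k0, hk0.trans hj.2, by rw [if_pos ⟨hi0, hk0⟩]; exact hj.1⟩
      rw [bev_mono hj.2] at h2
      exact ⟨x, y, a, a', fun _ => ⟨h1, h2⟩⟩
    · exact ⟨0, 0, 0, 0, fun h => (hj h).elim⟩
  choose x y a a' hk' using key
  have hev := (h0.and hd).mono hk'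
  have hz := hc (g x) (g y) (fun i => g fun j => a j i) (fun i => g fun j => a' j i) fun i => by
    have hi := hev.mono fun j hj => hj.1 i
    refine ⟨?_, ?_, ?_, ?_, ?_, ?_⟩
    · rw [← map_zero g]
      exact lim_ne hg (hi.mono fun j hj => hj.1)
    · rw [← map_zero g]
      exact lim_ne hg (hi.mono fun j hj => hj.2.1)
    · rw [← map_add, ← map_sub, lim_eq hg]
      exact hi.mono fun j hj => hj.2.2.1
    · rw [← lim_inv hg, ← lim_inv hg, ← map_add, ← map_sub, lim_eq hg]
      exact hi.mono fun j hj => hj.2.2.2.1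
    · exact lim_ne hg (hi.mono fun j hj => hj.2.2.2.2.2.1)
    · have hm : cr (fun k => g fun j => (st j).u i k) (g fun j => a j i) ∈ k := by
        refine ⟨fun j => cr ((st j).u i) (a j i), ⟨hi.mono fun j hj => hj.2.2.2.2.2.2.1, ?_⟩, ?_⟩
        · refine squeeze_zero' (Eventually.of_forall fun j =>
            div_nonneg ((st j).H.nonneg _) (st j).spos.le) (hi.mono fun j hj => ?_)
            (tendsto_one_div_add_atTop_nhds_zero_nat.mono_left hU)
          rw [div_le_iff₀ (st j).spos]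
          exact hj.2.2.2.2.2.2.2
        · unfold cr
          rw [← map_sub, ← map_sub, ← map_sub, ← map_sub, ← map_mul, ← map_mul, ← lim_div hg]
          rfl
      exact D.map_algebraMap ⟨_, hm⟩
  have hb : g (fun j => bev d (fun i k => c' i k j) (x j) (y j)) = bev d c (g x) (g y) := by
    have : (fun j => bev d (fun i k => c' i k j) (x j) (y j)) = ∑ i ∈ Finset.range (d + 1),
        ∑ k ∈ Finset.range (d + 1), c' i k * x ^ i * y ^ k := by
      funext j
      simp only [bev, Finset.sum_apply, Pi.mul_apply, Pi.pow_apply]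
    rw [this]
    simp only [bev, map_sum, map_mul, map_pow, hc']
  rw [← hb, hg] at hz
  obtain ⟨j, h1, h2⟩ := (hev.and hz).exists
  exact h1.2 h2

end

/-- The patterns cannot exist at all levels. -/
theorem limS : LimS := by
  intro O _ _ st
  have hg : ∀ f : ℕ → O, Germ.coeRingHom (hyperfilter ℕ : Filter ℕ) f = 0 ↔
      ∀ᶠ j in hyperfilter ℕ, f j = 0 := fun f => Germ.coe_eq (f := f) (g := 0)
  have : CharZero (Germ (hyperfilter ℕ : Filter ℕ) O) := ⟨fun a b e => by
    rw [← map_natCast (Germ.coeRingHom (hyperfilter ℕ : Filter ℕ)),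
      ← map_natCast (Germ.coeRingHom (hyperfilter ℕ : Filter ℕ)), lim_eq hg] at e
    obtain ⟨j, hj⟩ := e.exists
    simpa using hj⟩
  exact lim_core (U := hyperfilter ℕ) (Nat.cofinite_eq_atTop ▸ hyperfilter_le_cofinite) hg
    (fun x => Germ.inductionOn x fun f => ⟨f, rfl⟩) st

end Pool.Agent.Lib.MP_439fea_co.Pw
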