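import Pool.Agent.Lib.MP_439fea_co.Pw.LDefs

/-! Bounded heights are impossible. -/

namespace Pool.Agent.Lib.MP_439fea_co.Pw
open Finset Pool.Agent.Lib.MP_439fea_co.Z
open scoped Classical

theorem lln_mk {I : Type} (S : Finset I) (wt f : I → ℝ) (p : I → Prop) {_ : DecidablePred p}
    {Λ L : ℝ} (hL : 0 < L)
    (hw : ∀ i ∈ S, 0 ≤ wt i) (hf : ∀ i ∈ S, 0 ≤ f i) (hp : ∀ i ∈ S, p i → L ≤ f i)
    (h : ∑ i ∈ S, wt i * f i ≤ Λ) (hΛ : 100 * Λ ≤ L) : ∑ i ∈ S.filter p, wt i ≤ 1 / 100 := by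
  have h1 : (∑ i ∈ S.filter p, wt i) * L ≤ Λ := by
    rw [sum_mul]
    refine le_trans (sum_le_sum fun i hi => mul_le_mul_of_nonneg_left
      (hp i (mem_filter.1 hi).1 (mem_filter.1 hi).2) (hw i (mem_filter.1 hi).1)) (le_trans
      (sum_le_sum_of_subset_of_nonneg (filter_subset _ _) fun i hi _ =>
        mul_nonneg (hw i hi) (hf i hi)) h)
  refine le_of_mul_le_mul_right ?_ hL
  linarith

theorem lln_big {x L : ℝ} (h : ¬ x ≤ Real.exp L) : L ≤ Real.posLog x :=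
  le_trans ((Real.le_log_iff_exp_le ((Real.exp_pos L).trans (not_le.1 h))).2 (not_le.1 h).le)
    (le_max_right _ _)

theorem lln_small {x : ℂ} {L : ℝ} (h0 : x ≠ 0) (h : ‖x‖ < Real.exp (-L)) :
    L ≤ Real.posLog ‖x‖⁻¹ := by
  refine lln_big (not_le.2 ?_)
  rw [lt_inv_comm₀ (Real.exp_pos L) (norm_pos_iff.2 h0), ← Real.exp_neg]
  exact h

theorem lln_box {z w : ℂ} {L : ℝ} (h : ¬ (‖z‖ ≤ Real.exp L ∧ ‖w‖ ≤ Real.exp L)) :
    L ≤ Real.posLog ‖z‖ + Real.posLog ‖w‖ := by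
  rcases not_and_or.1 h with h | h
  · linarith [lln_big h, Real.posLog_nonneg (x := ‖w‖)]
  · linarith [lln_big h, Real.posLog_nonneg (x := ‖z‖)]

theorem lln_pic (hG : GeoS) (hL : LabS) (Λ : ℝ) : ∃ Q : ℕ, ∀ (V : Type) [Fintype V]
    (E : V → V → Prop) (θ : ℝ) (T : Tame E θ Λ) (k : ℕ) (D : Blk E T.G k),
    Nonempty (D.Pic Q (1 / 100)) := by
  obtain ⟨L, hL0, hLΛ⟩ : ∃ L : ℝ, 0 < L ∧ 300 * |Λ| ≤ L := ⟨300 * |Λ| + 1, by positivity, by linarith⟩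
  have hΛ := le_abs_self Λ
  have hΛ0 := abs_nonneg Λ
  obtain ⟨δ, hδ, hG⟩ := hG (Real.exp L) (Real.exp (-L)) (Real.exp (-L) / 2)
    (Real.one_le_exp hL0.le) (Real.exp_pos _) (by positivity)
  obtain ⟨Q, lab, hlab⟩ := hL (Real.exp L) δ hδ
  refine ⟨Q, fun V _ E θ T k D => ⟨⟨T.I, T.S, T.wt, fun i x => lab (T.Z i x) (T.W i x),
    fun i x => ‖T.Z i x‖ ≤ Real.exp L ∧ ‖T.W i x‖ ≤ Real.exp L,
    fun i x x' => ‖T.Z i x - T.Z i x'‖ < Real.exp (-L),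
    fun i y y' => (‖T.Z i y‖ ≤ Real.exp L ∧ ‖T.W i y‖ ≤ Real.exp L) ∧
      (‖T.Z i y'‖ ≤ Real.exp L ∧ ‖T.W i y'‖ ≤ Real.exp L) ∧ Real.exp (-L) ≤ ‖T.W i y - T.W i y'‖,
    T.pos, T.one, fun x hx => ?_, fun x hx x' hx' hne => ?_, fun y hy y' hy' hne => ?_,
    fun i hi y hy y' hy' ha => ?_⟩⟩⟩
  · exact lln_mk _ _ _ _ hL0 T.pos (fun _ _ => add_nonneg Real.posLog_nonneg Real.posLog_nonneg)
      (fun _ _ h => lln_box h) (T.bd x (D.XG hx)) (by linarith)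
  · exact lln_mk _ _ _ _ hL0 T.pos (fun _ _ => add_nonneg Real.posLog_nonneg Real.posLog_nonneg)
      (fun i hi h => le_add_of_le_of_nonneg
        (lln_small (sub_ne_zero.2 ((T.re i hi).zinj.ne hne)) h) Real.posLog_nonneg)
      (T.sep x (D.XG hx) x' (D.XG hx') hne) (by linarith)
  · have h1 := T.bd y (D.FG hy)
    have h2 := T.bd y' (D.FG hy')
    have h3 := T.sep y (D.FG hy) y' (D.FG hy') hne
    refine lln_mk _ _ (fun i => (Real.posLog ‖T.Z i y‖ + Real.posLog ‖T.W i y‖) +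
      (Real.posLog ‖T.Z i y'‖ + Real.posLog ‖T.W i y'‖) +
      (Real.posLog ‖T.Z i y - T.Z i y'‖⁻¹ + Real.posLog ‖T.W i y - T.W i y'‖⁻¹)) _ hL0 T.pos
      (fun _ _ => add_nonneg (add_nonneg (add_nonneg Real.posLog_nonneg Real.posLog_nonneg)
        (add_nonneg Real.posLog_nonneg Real.posLog_nonneg))
        (add_nonneg Real.posLog_nonneg Real.posLog_nonneg)) (fun i hi h => ?_) (Λ := 3 * Λ)
      (by simp only [mul_add, sum_add_distrib] at h1 h2 h3 ⊢; linarith) (by linarith)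
    have p1 := Real.posLog_nonneg (x := ‖T.Z i y‖)
    have p2 := Real.posLog_nonneg (x := ‖T.W i y‖)
    have p3 := Real.posLog_nonneg (x := ‖T.Z i y'‖)
    have p4 := Real.posLog_nonneg (x := ‖T.W i y'‖)
    have p5 := Real.posLog_nonneg (x := ‖T.Z i y - T.Z i y'‖⁻¹)
    have p6 := Real.posLog_nonneg (x := ‖T.W i y - T.W i y'‖⁻¹)
    rcases not_and_or.1 h with h | h
    · linarith [lln_box h]
    rcases not_and_or.1 h with h | h
    · linarith [lln_box h]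
    · linarith [lln_small (sub_ne_zero.2 ((T.re i hi).winj.ne hne)) (not_le.1 h)]
  · have key : ∀ x : Fin 3 → V, (∀ j, (‖T.Z i (x j)‖ ≤ Real.exp L ∧ ‖T.W i (x j)‖ ≤ Real.exp L) ∧
        lab (T.Z i (x j)) (T.W i (x j)) ∈ (D.B y).image (fun x => lab (T.Z i x) (T.W i x)) ∧
        lab (T.Z i (x j)) (T.W i (x j)) ∈ (D.B y').image (fun x => lab (T.Z i x) (T.W i x))) →
        ‖T.Z i (x 0) - T.Z i (x 1)‖ < Real.exp (-L) / 2 ∨
        ‖T.Z i (x 0) - T.Z i (x 2)‖ < Real.exp (-L) / 2 ∨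
        ‖T.Z i (x 1) - T.Z i (x 2)‖ < Real.exp (-L) / 2 := by
      intro x hx
      choose p hp hp' using fun j => mem_image.1 (hx j).2.1
      choose q hq hq' using fun j => mem_image.1 (hx j).2.2
      refine hG _ _ _ _ (fun j => T.Z i (x j)) (fun j => T.W i (x j)) (fun j => T.Z i (p j))
        (fun j => T.W i (p j)) (fun j => T.Z i (q j)) (fun j => T.W i (q j)) ha.1.1 ha.1.2
        ha.2.1.1 ha.2.1.2 ha.2.2 fun j => ?_
      have a1 := hlab _ _ _ _ (hx j).1.1 (hx j).1.2 (hp' j).symm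
      have a2 := hlab _ _ _ _ (hx j).1.1 (hx j).1.2 (hq' j).symm
      exact ⟨(hx j).1.1, (hx j).1.2, (T.re i hi).adj _ _ (D.adj y hy _ (hp j)),
        (T.re i hi).adj _ _ (D.adj y' hy' _ (hq j)), a1.1, a1.2, a2.1, a2.2⟩
    by_cases h0 : ∃ x0, (‖T.Z i x0‖ ≤ Real.exp L ∧ ‖T.W i x0‖ ≤ Real.exp L) ∧
        lab (T.Z i x0) (T.W i x0) ∈ (D.B y).image (fun x => lab (T.Z i x) (T.W i x)) ∧
        lab (T.Z i x0) (T.W i x0) ∈ (D.B y').image (fun x => lab (T.Z i x) (T.W i x))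
    swap
    · exact ⟨fun _ => True, fun x _ _ _ h1 _ _ => (h0 ⟨x, h1⟩).elim⟩
    obtain ⟨x0, h0⟩ := h0
    refine ⟨fun x => ‖T.Z i x0 - T.Z i x‖ < Real.exp (-L) / 2, fun x _ x' _ h1 h2 h3 => Or.inr ?_⟩
    by_cases h4 : ‖T.Z i x0 - T.Z i x‖ < Real.exp (-L) / 2
    · have h5 := h3.1 h4
      have h6 := norm_sub_le_norm_sub_add_norm_sub (T.Z i x) (T.Z i x0) (T.Z i x')
      rw [norm_sub_rev (T.Z i x) (T.Z i x0)] at h6
      linarith
    · rcases key ![x0, x, x'] (fun j => by fin_cases j; exacts [h0, h1, h2]) with h | h | h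
      · exact (h4 h).elim
      · exact (h4 (h3.2 h)).elim
      · exact lt_trans h (half_lt_self (Real.exp_pos _))

theorem llnS_of (hC : CellS) (hG : GeoS) (hL : LabS) (hK : CoreS) : LlnS := by
  intro C κ K c1 c2 c3 c4
  refine ⟨κ / (4 * K), by positivity, fun Λ => ?_⟩
  obtain ⟨Q, hQ⟩ := lln_pic hG hL Λ
  obtain ⟨k, ρ, hk, hρ, hK⟩ := hK Q
  obtain ⟨A, d0, hA, hC⟩ := hC C κ K k c1 c2 c3 c4 hk
  obtain ⟨M, hM, hM0, hM1⟩ : ∃ M : ℝ, 0 < M ∧ d0 ≤ M ∧ Real.exp (2 * ρ * (Real.log A + 1)) < M :=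
    ⟨|d0| + 1 + Real.exp (2 * ρ * (Real.log A + 1)), by positivity,
      by linarith [le_abs_self d0, Real.exp_pos (2 * ρ * (Real.log A + 1))],
      by linarith [abs_nonneg d0]⟩
  refine ⟨min (1 / (4 * ρ)) (1 / M), by positivity, fun V _ E ω d hω hH T => ?_⟩
  have hd := hH.amb.dpos
  have hd1 := hH.amb.one_le
  have hω0 := hH.amb.ωpos
  have h1 : ω * (4 * ρ) ≤ 1 := (le_div_iff₀ (by positivity)).1 (hω.trans (min_le_left _ _))
  have h2 : ω * M ≤ 1 := (le_div_iff₀ hM).1 (hω.trans (min_le_right _ _))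
  have h3 : M ≤ d := le_of_mul_le_mul_left (h2.trans hH.amb.big) hω0
  obtain ⟨D, hD1, hD2⟩ := hC V E ω d T.G (hM0.trans h3) hH T.most
  have h4 : 1 ≤ d ^ ω := Real.one_le_rpow hd1 hω0.le
  have h5 := hK V E T.G D (A * (d ^ ω) ^ 2) d
    (fun y hy y' hy' hne x hx x' hx' g1 g2 => hH.pl.k22 y y' x x' hne
      (hH.pl.symm _ _ (D.adj y hy x hx)) (hH.pl.symm _ _ (D.adj y' hy' x g1))
      (hH.pl.symm _ _ (D.adj y hy x' hx')) (hH.pl.symm _ _ (D.adj y' hy' x' g2)))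
    (hQ V E _ T k D) (one_le_mul_of_one_le_of_one_le hA (one_le_pow₀ h4)) hd1 hD1
    (hD2.trans (mul_le_mul_of_nonneg_right (mul_le_mul_of_nonneg_left (by nlinarith)
      (by linarith)) (Nat.cast_nonneg _)))
  rw [Real.log_mul (by linarith) (by positivity), Real.log_pow, Real.log_rpow hd] at h5
  have h6 : 0 ≤ Real.log d := Real.log_nonneg hd1
  have h7 := (Real.lt_log_iff_exp_lt hd).2 (hM1.trans_le h3)
  have h8 := mul_le_mul_of_nonneg_right h1 h6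
  push_cast at h5
  nlinarith

end Pool.Agent.Lib.MP_439fea_co.Pw
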