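import Pool.Agent.Lib.MP_439fea_co.Pw.MixA

/-! Section 3b: the limit of a sequence of clustered configurations. -/

namespace Pool.Agent.Lib.MP_439fea_co.Pw
open Finset Filter Pool.Agent.Lib.MP_439fea_co.Z
open scoped Classical
noncomputable section

variable {O : Type} [Field O]

/-- Pieces in which every index is used and the radii are values of field elements. -/
structure MixP {V : Type} [Fintype V] (D : Mx V O) (M : ℕ) (g A δ : ℝ) where
  X : Finset V
  sub : X ⊆ D.X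
  card : δ * NN V ≤ X.card
  cl : V → Fin M
  p : Fin M → V
  hp : ∀ c, p c ∈ D.X
  r : Fin M → O
  near : ∀ a ∈ X, D.ds a (p (cl a)) ≤ D.v (r (cl a))
  light : ∀ c, ∀ S ⊆ D.X, (∀ x ∈ S, D.ds x (p c) ≤ A * D.v (r c)) →
    ((D.H S).card : ℝ) * (D.U S).card ≤ g ^ 2 * NN V ^ 2

section Fin
variable {V : Type} [Fintype V] {D : Mx V O} {M : ℕ} {g A δ : ℝ}

theorem mixP_of (hden : Den D.v) (hA : 0 ≤ A) (hδ : 0 < δ * NN V) (P : D.Pieces M g (2 * A) δ) :
    Nonempty (MixP D M g A δ) := by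
  have hne : P.X.Nonempty := by
    have : (0 : ℝ) < P.X.card := hδ.trans_le P.card
    exact card_pos.1 (by exact_mod_cast this)
  obtain ⟨a0, ha0⟩ := hne
  have hf : ∀ c, ∃ a ∈ P.X, ∀ x ∈ P.X, P.cl x = c → P.cl a = c := by
    intro c
    by_cases h : ∃ x ∈ P.X, P.cl x = c
    · obtain ⟨x, hx, e⟩ := h
      exact ⟨x, hx, fun _ _ _ => e⟩
    · exact ⟨a0, ha0, fun x hx e => absurd ⟨x, hx, e⟩ h⟩
  choose f hf1 hf2 using hf
  choose r hr1 hr2 using fun c => hden (P.ρ c) 2 (P.ρpos c) one_lt_two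
  refine ⟨⟨P.X, P.sub, P.card, P.cl, fun c => P.p (P.cl (f c)), fun c => P.hp _,
    fun c => r (P.cl (f c)), fun a ha => ?_, fun c S hS h => ?_⟩⟩
  · rw [hf2 _ a ha rfl]
    exact (P.near a ha).trans (hr1 _)
  · refine P.light (f c) (hf1 c) S hS fun x hx => (h x hx).trans ?_
    have := mul_le_mul_of_nonneg_left (hr2 (P.cl (f c))) hA
    linarith

/-- The set of pieces met by a curve. -/
def MixP.ty (P : MixP D M g A δ) (b : V) : Finset (Fin M) :=
  univ.filter fun c => ∃ a ∈ P.X, P.cl a = c ∧ D.E a b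

theorem MixP.rep (P : MixP D M g A δ) [Nonempty V] (Y : Finset V) :
    ∃ (rp : Finset (Fin M) → V) (wt : Finset (Fin M) → Fin M → V), ∀ t ∈ Y.image P.ty,
      rp t ∈ Y ∧ ∀ c ∈ t, wt t c ∈ P.X ∧ P.cl (wt t c) = c ∧ D.E (wt t c) (rp t) := by
  have h1 : ∀ t, ∃ b, t ∈ Y.image P.ty → b ∈ Y ∧ P.ty b = t := by
    intro t
    by_cases h : t ∈ Y.image P.ty
    · obtain ⟨b, hb, e⟩ := mem_image.1 h
      exact ⟨b, fun _ => ⟨hb, e⟩⟩
    · exact ⟨Classical.arbitrary V, fun h' => absurd h' h⟩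
  choose rp hrp using h1
  have h2 : ∀ t c, ∃ a, c ∈ P.ty (rp t) → a ∈ P.X ∧ P.cl a = c ∧ D.E a (rp t) := by
    intro t c
    by_cases h : c ∈ P.ty (rp t)
    · obtain ⟨a, ha⟩ := (mem_filter.1 h).2
      exact ⟨a, fun _ => ha⟩
    · exact ⟨Classical.arbitrary V, fun h' => absurd h' h⟩
  choose wt hwt using h2
  exact ⟨rp, wt, fun t ht => ⟨(hrp t ht).1, fun c hc => hwt t c ((hrp t ht).2.symm ▸ hc)⟩⟩

omit [Fintype V] in
theorem Mx.ds_tri (D : Mx V O) (a b c : V) : D.ds a c ≤ D.ds a b + D.ds b c := by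
  refine max_le ?_ ?_
  · exact (D.v.sub_le _ (D.Z b) _).trans (add_le_add (le_max_left _ _) (le_max_left _ _))
  · exact (D.v.sub_le _ (D.W b) _).trans (add_le_add (le_max_right _ _) (le_max_right _ _))

theorem Mx.Ok.mono {C K ω k G G' : ℝ} (h : D.Ok C K ω k δ G) (hG : G' ≤ G) :
    D.Ok C K ω k δ G' :=
  { h with μbig := hG.trans h.μbig }

end Fin

theorem mix_lim [CharZero O] {C K k δ δ' g : ℝ} {M : ℕ} (V : ℕ → Type) [∀ j, Fintype (V j)]
    (D : ∀ j, Mx (V j) O) (ω : ℕ → ℝ) (hOk : ∀ j, (D j).Ok C K (ω j) k δ j)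
    (hnat : ∀ j n : ℕ, 1 ≤ n → n ≤ j → 1 ≤ n * (D j).v n) (P : ∀ j, MixP (D j) M g j δ')
    (hT : ∀ (j : ℕ) (F Γ ι : Type) [Field F] [CharZero F] [LinearOrderedCommGroupWithZero Γ]
      [Fintype ι] (T : TD (V j) F Γ ι), T.Ok C K (ω j) k g (2 ^ M + M) →
      δ' * NN (V j) ≤ T.X.card → False) : False := by
  have hne : ∀ j, Nonempty (V j) := fun j => by
    have := (hOk j).amb.Npos
    exact Fintype.card_pos_iff.1 (by exact_mod_cast this)
  set Φ := hyperfilter ℕ
  have big : ∀ B : ℝ, ∀ᶠ j : ℕ in (Φ : Filter ℕ), B ≤ j := fun B =>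
    (Nat.hyperfilter_le_atTop) (tendsto_natCast_atTop_atTop.eventually_ge_atTop B)
  obtain ⟨F, Γ, _, _, _, u, φ, hφ, hu⟩ := mix_exists_val (fun j => (D j).v) Φ
  choose rp wt hrp using fun j => (P j).rep (D j).Y
  choose rp' wt' hrp' using fun j => (P j).rep (D j).Y'
  obtain ⟨TT, hTT⟩ := mix_const Φ fun j => (D j).Y.image (P j).ty
  obtain ⟨TT', hTT'⟩ := mix_const Φ fun j => (D j).Y'.image (P j).ty
  have le1 : ∀ x : ℕ → O, (∀ᶠ j in (Φ : Filter ℕ), (D j).v (x j) ≤ 1) → u (φ x) ≤ 1 := by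
    intro x hx
    have := (hu x 1).2 ⟨1, hx.mono fun j h => by simpa using h⟩
    simpa using this
  set μ := φ fun j => (D j).μ with hμd
  have hμ : 1 < u μ := by
    by_contra h
    obtain ⟨B, hB⟩ := (hu (fun j => (D j).μ) 1).1 (by simpa using not_lt.1 h)
    obtain ⟨j, h1, h2⟩ := (hB.and (big (B + 1))).exists
    have := (hOk j).μbig
    simp only [Pi.one_apply, map_one, mul_one] at h1
    linarith
  set pz : Fin M → F := fun c => φ fun j => (D j).Z ((P j).p c) with hpz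
  set pw : Fin M → F := fun c => φ fun j => (D j).W ((P j).p c) with hpw
  set s : Fin M → Γ := fun c => u (φ fun j => (P j).r c) with hs
  have pz1 : ∀ c, u (pz c) ≤ 1 := fun c =>
    le1 _ (Eventually.of_forall fun j => ((hOk j).hX _ ((P j).hp c)).1)
  have pw1 : ∀ c, u (pw c) ≤ 1 := fun c =>
    le1 _ (Eventually.of_forall fun j => ((hOk j).hX _ ((P j).hp c)).2)
  have tri : ∀ x y z : F, u (x - z) ≤ max (u (x - y)) (u (y - z)) := fun x y z => by
    have := u.map_add (x - y) (y - z)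
    rwa [sub_add_sub_cancel] at this
  obtain ⟨ld, hl1, hl2⟩ := mix_leader
    (fun c c' => max (u (pz c - pz c')) (u (pw c - pw c'))) s (fun c => by simp)
    (fun c c' => by rw [u.map_sub_swap (pz c), u.map_sub_swap (pw c)])
    (fun a b c => max_le
      ((tri _ (pz b) _).trans (max_le_max (le_max_left _ _) (le_max_left _ _)))
      ((tri _ (pw b) _).trans (max_le_max (le_max_right _ _) (le_max_right _ _))))
  -- a sequence of points of piece `c` is close to the leader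
  have cls : ∀ (c : Fin M) (a : ∀ j, V j),
      (∀ᶠ j in (Φ : Filter ℕ), a j ∈ (P j).X ∧ (P j).cl (a j) = c) →
      u (φ fun j => (D j).Z (a j)) ≤ 1 ∧ u (φ fun j => (D j).W (a j)) ≤ 1 ∧
      u (φ (fun j => (D j).Z (a j)) - pz (ld c)) ≤ s (ld c) ∧
      u (φ (fun j => (D j).W (a j)) - pw (ld c)) ≤ s (ld c) := by
    intro c a ha
    have hd : ∀ᶠ j in (Φ : Filter ℕ), (D j).ds (a j) ((P j).p c) ≤ (D j).v ((P j).r c) :=
      ha.mono fun j h => by simpa [h.2] using (P j).near _ h.1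
    refine ⟨le1 _ (ha.mono fun j h => ((hOk j).hX _ ((P j).sub h.1)).1),
      le1 _ (ha.mono fun j h => ((hOk j).hX _ ((P j).sub h.1)).2), ?_, ?_⟩
    · refine (tri _ (pz c) _).trans (max_le (le_trans ?_ (hl1 c).2)
        ((le_max_left _ _).trans (hl1 c).1))
      rw [hpz, hs, ← map_sub]
      exact (hu _ _).2 ⟨1, hd.mono fun j h => by simpa using (le_max_left _ _).trans h⟩
    · refine (tri _ (pw c) _).trans (max_le (le_trans ?_ (hl1 c).2)
        ((le_max_right _ _).trans (hl1 c).1))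
      rw [hpw, hs, ← map_sub]
      exact (hu _ _).2 ⟨1, hd.mono fun j h => by simpa using (le_max_right _ _).trans h⟩
  -- at almost all levels the merged pieces lie in the light ball of the leader
  have mer : ∀ c, ∀ᶠ j in (Φ : Filter ℕ), (D j).v ((P j).r c) +
      (D j).ds ((P j).p c) ((P j).p (ld c)) ≤ j * (D j).v ((P j).r (ld c)) := by
    intro c
    obtain ⟨B1, h1⟩ := (hu _ _).1 (hl1 c).2
    have e2 := (le_max_left _ _).trans (hl1 c).1
    have e3 := (le_max_right _ _).trans (hl1 c).1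
    rw [hpz, hs, ← map_sub] at e2
    rw [hpw, hs, ← map_sub] at e3
    obtain ⟨B2, h2⟩ := (hu _ _).1 e2
    obtain ⟨B3, h3⟩ := (hu _ _).1 e3
    filter_upwards [h1, h2, h3, big (B1 + max B2 B3)] with j k1 k2 k3 k4
    have n := (D j).v.nonneg ((P j).r (ld c))
    have k5 : (D j).ds ((P j).p c) ((P j).p (ld c)) ≤ max B2 B3 * (D j).v ((P j).r (ld c)) :=
      max_le (le_trans k2 (mul_le_mul_of_nonneg_right (le_max_left _ _) n))
        (le_trans k3 (mul_le_mul_of_nonneg_right (le_max_right _ _) n))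
    have k6 := mul_le_mul_of_nonneg_right k4 n
    linarith
  obtain ⟨j, hj1, hj2, hj3⟩ := (hTT.and (hTT'.and (eventually_all.2 mer))).exists
  let T : TD (V j) F Γ (Set.range ld) :=
    { u := u, μ := μ, E := (D j).E, X := (P j).X, Y := (D j).Y, Y' := (D j).Y'
      cl := fun a => ⟨ld ((P j).cl a), _, rfl⟩
      pz := fun l => pz l.1, pw := fun l => pw l.1
      hz := fun b => φ fun i => (D i).Z (rp i ((P j).ty b))
      hw := fun b => φ fun i => (D i).W (rp i ((P j).ty b))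
      vz := fun b => φ fun i => (D i).Z (rp' i ((P j).ty b))
      vw := fun b => φ fun i => (D i).W (rp' i ((P j).ty b))
      d := (D j).d }
  have tY : ∀ b ∈ (D j).Y, ∀ᶠ i in (Φ : Filter ℕ), (P j).ty b ∈ (D i).Y.image (P i).ty :=
    fun b hb => hTT.mono fun i h => by rw [h, ← hj1]; exact mem_image_of_mem _ hb
  have tY' : ∀ b ∈ (D j).Y', ∀ᶠ i in (Φ : Filter ℕ), (P j).ty b ∈ (D i).Y'.image (P i).ty :=
    fun b hb => hTT'.mono fun i h => by rw [h, ← hj2]; exact mem_image_of_mem _ hb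
  have hY : ∀ b ∈ (D j).Y, u μ ≤ u (T.hz b) := fun b hb =>
    (hu _ _).2 ⟨4, (tY b hb).mono fun i h => (hOk i).hY _ (hrp i _ h).1⟩
  have hY' : ∀ b ∈ (D j).Y', u μ ≤ u (T.vw b) := fun b hb =>
    (hu _ _).2 ⟨4, (tY' b hb).mono fun i h => (hOk i).hY' _ (hrp' i _ h).1⟩
  have far : ∀ l l' : Set.range ld, l' ≠ l → s l.1 < T.ds l l' := by
    rintro ⟨_, c, rfl⟩ ⟨_, c', rfl⟩ h
    exact hl2 c c' fun e => h (Subtype.ext e.symm)
  have mty : ∀ a ∈ (P j).X, ∀ b, (D j).E a b → (P j).cl a ∈ (P j).ty b := fun a ha b e =>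
    mem_filter.2 ⟨mem_univ _, a, ha, rfl, e⟩
  refine hT j F Γ (Set.range ld) T
    { amb := (hOk j).amb, cι := ?_, nat := ?_, μbig := hμ, hP := fun c => ⟨pz1 _, pw1 _⟩
      hY := hY, hY' := hY', mH := ?_, mU := ?_
      sep := fun c c' h => (zero_le.trans_lt (far c c' h.symm)).ne'
      loH := fun a ha => (hOk j).loH a ((P j).sub ha)
      loU := fun a ha => (hOk j).loU a ((P j).sub ha), few := ?_, light := ?_ } (P j).card
  · have := Fintype.card_range_le ld
    rw [Fintype.card_fin] at this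
    exact this.trans (Nat.le_add_left _ _)
  · intro n hn
    have e : (n : F) = φ n := (map_natCast φ n).symm
    refine le_antisymm ?_ ?_
    · have := (hu n 1).2 ⟨n, Eventually.of_forall fun i => by
        simpa using (D i).v.apply_nat_le_self n⟩
      rw [map_one, map_one, ← e] at this
      exact this
    · have := (hu 1 n).2 ⟨n, (big n).mono fun i h => by
        simpa using hnat i n (Nat.pos_of_ne_zero hn) (by exact_mod_cast h)⟩
      rw [map_one, map_one, ← e] at this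
      exact this
  · intro a ha b hb e c hc
    have hw := (tY b hb).mono fun i h => (hrp i _ h).2 _ (mty a ha b e)
    obtain ⟨k1, -, k3, k4⟩ := cls _ _ (hw.mono fun i h => ⟨h.1, h.2.1⟩)
    refine lt_of_le_of_lt (mix_lip u hμ (hY b hb) ?_ k1 (pz1 _) k3 k4) (far _ c hc)
    rw [← map_sub, ← map_sub, ← map_mul]
    exact hφ _ _ (hw.mono fun i h => (hOk i).adj _ _ h.2.2)
  · intro a ha b hb e c hc
    have hw := (tY' b hb).mono fun i h => (hrp' i _ h).2 _ (mty a ha b e)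
    obtain ⟨-, k2, k3, k4⟩ := cls _ _ (hw.mono fun i h => ⟨h.1, h.2.1⟩)
    refine lt_of_le_of_lt (mix_lip u hμ (hY' b hb) ?_ k2 (pw1 _) k4 k3) (far _ c hc)
    rw [mul_comm, ← map_sub, ← map_sub, ← map_mul]
    exact hφ _ _ (hw.mono fun i h => (hOk i).adj _ _ h.2.2)
  · have e : (T.Y.image fun b => (T.hz b, T.hw b)) = (T.Y.image (P j).ty).image fun t =>
        ((φ fun i => (D i).Z (rp i t)), φ fun i => (D i).W (rp i t)) := by
      rw [image_image]
      rfl
    rw [e]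
    refine card_image_le.trans ((card_le_univ _).trans ?_)
    simp
  · intro l
    have hS : ((P j).X.filter fun a => ld ((P j).cl a) = l.1) ⊆ (D j).X :=
      (filter_subset _ _).trans (P j).sub
    have := (P j).light l.1 _ hS fun x hx => by
      obtain ⟨h1, h2⟩ := mem_filter.1 hx
      have k1 := (D j).ds_tri x ((P j).p ((P j).cl x)) ((P j).p (ld ((P j).cl x)))
      have k2 := (P j).near x h1
      have k3 := hj3 ((P j).cl x)
      rw [← h2]
      linarith
    have e1 : T.H {l} = (D j).H ((P j).X.filter fun a => ld ((P j).cl a) = l.1) := by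
      ext b
      simp [TD.H, Mx.H, T, Subtype.ext_iff, and_assoc]
    have e2 : T.U {l} = (D j).U ((P j).X.filter fun a => ld ((P j).cl a) = l.1) := by
      ext b
      simp [TD.U, Mx.U, T, Subtype.ext_iff, and_assoc]
    rw [e1, e2]
    exact this

theorem mixS (hC : ClusterS) (hT : TreeS) : MixS := by
  intro O _ _ C K k δ hC1 hK hk hk1 hδ
  obtain ⟨g, hg, hT⟩ := hT C K k (δ / 2) hC1 hK hk hk1 (half_pos hδ)
  obtain ⟨M, ω1, hω1, hC⟩ := hC C K k δ g hC1 hK hk hk1 hδ hg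
  obtain ⟨ω2, hω2, hT⟩ := hT (2 ^ M + M)
  have hA : ∀ j : ℕ, (1 : ℝ) ≤ 2 * ((j : ℝ) + 1) := fun j => by
    have : (0 : ℝ) ≤ j := Nat.cast_nonneg j
    linarith
  choose G hG using fun j : ℕ => hC _ (hA j)
  by_contra hno
  have hex : ∀ j : ℕ, ∃ (V : Type) (_ : Fintype V) (D : Mx V O) (ω : ℝ), ω ≤ min ω1 ω2 ∧
      Ab D.v j ∧ D.Ok C K ω k δ (max (G j) j) := by
    intro j
    by_contra h
    exact hno ⟨j, max (G j) j, min ω1 ω2, lt_min hω1 hω2, fun V _ D ω h1 h2 h3 =>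
      h ⟨V, _, D, ω, h1, h2, h3⟩⟩
  choose V iV D ω hω hAb hOk using hex
  have hP : ∀ j : ℕ, Nonempty (MixP (D j) M g j (δ / 2)) := fun j => by
    obtain ⟨P⟩ := hG j (V j) O (D j) (ω j) ((hω j).trans (min_le_left _ _)) (hAb j).dbl
      ((hOk j).mono (le_max_left _ _))
    obtain ⟨Q⟩ := mixP_of (hAb j).den (by positivity)
      (mul_pos (half_pos hδ) (hOk j).amb.Npos) P
    refine ⟨{ Q with light := fun c S hS h => Q.light c S hS fun x hx => (h x hx).trans ?_ }⟩
    exact mul_le_mul_of_nonneg_right (by linarith) ((D j).v.nonneg _)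
  exact mix_lim V D ω (fun j => (hOk j).mono (le_max_right _ _)) (fun j => (hAb j).nat)
    (fun j => Classical.choice (hP j))
    fun j F Γ ι _ _ _ _ T h1 h2 => hT (V j) F Γ ι T (ω j) ((hω j).trans (min_le_right _ _)) h1 h2

end
end Pool.Agent.Lib.MP_439fea_co.Pw
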