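import Pool.Agent.Lib.MP_439fea_co.Z.Defs

/-! Conics inside a curve of bounded bidegree, and tuples in general position. -/

namespace Pool.Agent.Lib.MP_439fea_co.Pw
open Finset Polynomial Pool.Agent.Lib.MP_439fea_co.Z
open scoped Classical

variable {V O : Type} [Field O]

theorem pat_conic {D : ℕ} {c : ℕ → ℕ → O} {z w : O} (S : Finset O) (hS : 2 * D < S.card)
    (h : ∀ t ∈ S, t ≠ z ∧ bev D c t (w + (t - z)⁻¹) = 0) (t : O) (ht : t ≠ z) :
    bev D c t (w + (t - z)⁻¹) = 0 := by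
  obtain ⟨p, hp⟩ : ∃ p : O[X], p = ∑ i ∈ range (D + 1), ∑ k ∈ range (D + 1),
      C (c i k) * X ^ i * ((C w * (X - C z) + 1) ^ k * (X - C z) ^ (D - k)) := ⟨_, rfl⟩
  have e : ∀ t, t ≠ z → p.eval t = bev D c t (w + (t - z)⁻¹) * (t - z) ^ D := fun t ht => by
    have h0 := sub_ne_zero.2 ht
    simp only [hp, bev, eval_finsetSum, sum_mul, eval_mul, eval_C, eval_pow, eval_X, eval_add,
      eval_sub, eval_one]
    refine sum_congr rfl fun i _ => sum_congr rfl fun k hk => ?_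
    have e1 : w * (t - z) + 1 = (w + (t - z)⁻¹) * (t - z) := by field_simp
    rw [e1, mul_pow, mul_assoc _ ((t - z) ^ k), pow_mul_pow_sub _ (Nat.lt_succ_iff.1 (mem_range.1 hk))]
    ring
  have hd : p.natDegree ≤ 2 * D := by
    rw [hp]
    refine natDegree_sum_le_of_forall_le _ _ fun i hi => natDegree_sum_le_of_forall_le _ _
      fun k hk => ?_
    have h1 : (C w * (X - C z) + 1 : O[X]).natDegree ≤ 1 := by compute_degree
    have h2 : (X - C z : O[X]).natDegree ≤ 1 := by compute_degree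
    have h3 := natDegree_pow_le_of_le k h1
    have h4 := natDegree_pow_le_of_le (D - k) h2
    have h5 := natDegree_C_mul_X_pow_le (c i k) i
    have := mem_range.1 hi
    have := mem_range.1 hk
    exact (natDegree_mul_le_of_le h5 (natDegree_mul_le_of_le h3 h4)).trans (by omega)
  have h0 : p = 0 := eq_zero_of_natDegree_lt_card_of_eval_eq_zero' p S
    (fun t ht => by rw [e t (h t ht).1, (h t ht).2, zero_mul]) (hd.trans_lt hS)
  have := e t ht
  rw [h0, eval_zero] at this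
  exact (mul_eq_zero.1 this.symm).resolve_right (pow_ne_zero _ (sub_ne_zero.2 ht))

theorem pat_coeff (D : ℕ) (f : ℕ → O) {k : ℕ} (hk : k ≤ D) (h : f k ≠ 0) :
    ∑ i ∈ range (D + 1), C (f i) * X ^ i ≠ 0 := fun e => by
  have := congrArg (fun p => coeff p k) e
  simp [coeff_C_mul, coeff_X_pow, hk, h] at this

theorem pat_bad [CharZero O] {D : ℕ} {c : ℕ → ℕ → O} (hc : ∃ i ≤ D, ∃ k ≤ D, c i k ≠ 0)
    {z : V → O} (w : V → O) (hz : Function.Injective z) (A : Finset V)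
    (h : ∀ a ∈ A, ∀ t, t ≠ z a → bev D c t (w a + (t - z a)⁻¹) = 0) : A.card ≤ D := by
  obtain ⟨i0, hi, k0, hk, hc⟩ := hc
  obtain ⟨Q, hQ⟩ : ∃ Q : V × V → O[X], Q = fun p => if p.1 = p.2 then X - C (z p.1) else
    C (w p.1 - w p.2) * (X - C (z p.1)) * (X - C (z p.2)) + C (z p.1 - z p.2) := ⟨_, rfl⟩
  have q0 : ∀ p, Q p ≠ 0 := fun p => by
    simp only [hQ]
    split_ifs with e
    · exact X_sub_C_ne_zero _
    · intro e1
      have := congrArg (eval (z p.1)) e1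
      simp [sub_eq_zero, hz.eq_iff, e] at this
  obtain ⟨t, ht⟩ : ∃ t, eval t ((∑ i ∈ range (D + 1), C (c i k0) * X ^ i) *
      ∏ p ∈ A ×ˢ A, Q p) ≠ 0 := by
    by_contra! e
    exact mul_ne_zero (pat_coeff D (fun i => c i k0) hi hc) (prod_ne_zero_iff.2 fun p _ => q0 p)
      (zero_of_eval_zero _ e)
  rw [eval_mul, eval_prod, mul_ne_zero_iff, prod_ne_zero_iff] at ht
  have t1 : ∀ a ∈ A, t ≠ z a := fun a ha => by
    simpa [hQ, sub_eq_zero] using ht.2 (a, a) (mk_mem_product ha ha)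
  have inj : Set.InjOn (fun a => w a + (t - z a)⁻¹) A := fun a ha b hb e => by
    by_contra n
    refine ht.2 (a, b) (mk_mem_product ha hb) ?_
    have h1 := sub_ne_zero.2 (t1 a ha)
    have h2 := sub_ne_zero.2 (t1 b hb)
    simp only [hQ, if_neg n, eval_add, eval_mul, eval_C, eval_sub, eval_X]
    field_simp at e
    linear_combination e
  by_contra! hA
  refine pat_coeff D (fun k => ∑ i ∈ range (D + 1), c i k * t ^ i) hk
    (by simpa [eval_finsetSum] using ht.1) (eq_zero_of_natDegree_lt_card_of_eval_eq_zero' _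
      (A.image fun a => w a + (t - z a)⁻¹) (fun y hy => ?_) ?_)
  · obtain ⟨a, ha, rfl⟩ := mem_image.1 hy
    rw [← h a ha t (t1 a ha), bev, sum_comm]
    simp only [eval_finsetSum, eval_mul, eval_C, eval_pow, eval_X, sum_mul]
  · rw [card_image_of_injOn inj]
    exact (natDegree_sum_le_of_forall_le _ _ fun k hk => (natDegree_C_mul_X_pow_le _ _).trans
      (Nat.lt_succ_iff.1 (mem_range.1 hk))).trans_lt hA

theorem pat_tup {U : Type} [AddCommGroup U] [Module O U] [FiniteDimensional O U]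
    (ev : V → U →ₗ[O] O) (S : Finset V) {m : ℝ} (hm : 0 ≤ m)
    (h : ∀ c, c ≠ 0 → m ≤ (S.filter fun x => ev x c ≠ 0).card) (j : ℕ)
    (hj : j ≤ Module.finrank O U) :
    ∃ T : Finset (Fin j → V), m ^ j ≤ T.card ∧ ∀ x ∈ T, (∀ i, x i ∈ S) ∧ ∃ K : Submodule O U,
      Module.finrank O K + j ≤ Module.finrank O U ∧ ∀ c, (∀ i, ev (x i) c = 0) → c ∈ K := by
  induction j with
  | zero => exact ⟨univ, by simp, fun x _ => ⟨fun i => i.elim0, ⊤, by simp, fun _ _ => trivial⟩⟩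
  | succ j ih =>
    obtain ⟨T, h1, h2⟩ := ih (by omega)
    have : Nontrivial U := Module.nontrivial_of_finrank_pos (R := O) (by omega)
    have k : ∀ x : Fin j → V, ∃ c, c ≠ 0 ∧ (x ∈ T → ∀ y, ev y c ≠ 0 → ∃ K : Submodule O U,
        Module.finrank O K + (j + 1) ≤ Module.finrank O U ∧
          ∀ c, ev y c = 0 → (∀ i, ev (x i) c = 0) → c ∈ K) := fun x => by
      by_cases hx : x ∈ T
      · obtain ⟨K, k1, k2⟩ := (h2 x hx).2
        by_cases hK : K = ⊥
        · obtain ⟨c, hc⟩ := exists_ne (0 : U)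
          exact ⟨c, hc, fun _ _ _ => ⟨⊥, by simpa using hj, fun c _ e => hK ▸ k2 c e⟩⟩
        · obtain ⟨c, c1, c2⟩ := (Submodule.ne_bot_iff K).1 hK
          refine ⟨c, c2, fun _ y hy => ⟨K ⊓ LinearMap.ker (ev y), ?_, fun c e1 e2 => ⟨k2 c e2, e1⟩⟩⟩
          have := Submodule.finrank_lt_finrank_of_lt (s := K ⊓ LinearMap.ker (ev y)) (t := K)
            (inf_lt_left.2 fun e => hy (e c1))
          omega
      · obtain ⟨c, hc⟩ := exists_ne (0 : U)
        exact ⟨c, hc, fun e => absurd e hx⟩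
    choose c c1 c2 using k
    refine ⟨(T.sigma fun x => S.filter fun y => ev y (c x) ≠ 0).image
      fun p => Fin.cons p.2 p.1, ?_, fun x hx => ?_⟩
    · rw [card_image_of_injective _ fun p q e => by
        obtain ⟨e1, e2⟩ := Fin.cons_injective2.eq_iff.1 e
        exact Sigma.ext e2 (heq_of_eq e1), card_sigma, pow_succ]
      push_cast
      refine (mul_le_mul_of_nonneg_right h1 hm).trans ?_
      rw [← nsmul_eq_mul]
      exact card_nsmul_le_sum _ _ _ fun x _ => h _ (c1 x)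
    · obtain ⟨⟨x, y⟩, hp, rfl⟩ := mem_image.1 hx
      simp only [mem_sigma, mem_filter] at hp
      obtain ⟨K, k1, k2⟩ := c2 x hp.1 y hp.2.2
      exact ⟨Fin.cases hp.2.1 (h2 x hp.1).1, K, k1, fun c e => k2 c (e 0) fun i => e i.succ⟩

/-- Evaluation at a point as a linear form in the coefficients. -/
noncomputable def patEv (D : ℕ) (x y : O) : (Fin (D + 1) × Fin (D + 1) → O) →ₗ[O] O where
  toFun c := bev D (fun i k => c (Fin.ofNat _ i, Fin.ofNat _ k)) x y
  map_add' c c' := by simp only [bev, Pi.add_apply, add_mul, sum_add_distrib]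
  map_smul' a c := by simp only [bev, Pi.smul_apply, smul_eq_mul, RingHom.id_apply, mul_sum, mul_assoc]

theorem pat_gen (D : ℕ) (z w : V → O) (S : Finset V) {m : ℝ} (hm : 0 ≤ m)
    (h : ∀ c : ℕ → ℕ → O, (∃ i ≤ D, ∃ k ≤ D, c i k ≠ 0) →
      m ≤ (S.filter fun x => bev D c (z x) (w x) ≠ 0).card) :
    ∃ T : Finset (Fin ((D + 1) * (D + 1)) → V), m ^ ((D + 1) * (D + 1)) ≤ T.card ∧ ∀ x ∈ T,
      (∀ i, x i ∈ S) ∧ ∀ c : ℕ → ℕ → O, (∃ i ≤ D, ∃ k ≤ D, c i k ≠ 0) →
        ∃ i, bev D c (z (x i)) (w (x i)) ≠ 0 := by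
  obtain ⟨T, h1, h2⟩ := pat_tup (fun x => patEv D (z x) (w x)) S hm (fun c hc => h _ (by
    obtain ⟨⟨i, k⟩, e⟩ := Function.ne_iff.1 hc
    exact ⟨i, i.is_le, k, k.is_le, by simpa using e⟩)) ((D + 1) * (D + 1)) (by simp)
  refine ⟨T, h1, fun x hx => ⟨(h2 x hx).1, fun c ⟨i, hi, k, hk, hc⟩ => ?_⟩⟩
  obtain ⟨K, k1, k2⟩ := (h2 x hx).2
  by_contra! e
  have hK : K = ⊥ := Submodule.finrank_eq_zero.1 (by simpa using k1)
  have := k2 (fun p => c p.1 p.2) fun j => by
    rw [← e j]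
    simp only [patEv, bev, LinearMap.coe_mk, AddHom.coe_mk]
    refine sum_congr rfl fun i hi => sum_congr rfl fun k hk => ?_
    simp [Nat.mod_eq_of_lt (mem_range.1 hi), Nat.mod_eq_of_lt (mem_range.1 hk)]
  rw [hK, Submodule.mem_bot] at this
  exact hc (congrFun this (⟨i, Nat.lt_succ_of_le hi⟩, ⟨k, Nat.lt_succ_of_le hk⟩))

end Pool.Agent.Lib.MP_439fea_co.Pw
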