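import Pool.Agent.Lib.MP_439fea_co.Pw.Asm
import Pool.Agent.Lib.MP_439fea_co.Pw.Pat1

/-! Three good centres whose common joined set lies on no curve of bounded bidegree. -/

namespace Pool.Agent.Lib.MP_439fea_co.Pw
open Finset Filter Pool.Agent.Lib.MP_439fea_co.Z
open scoped Classical

variable {V O : Type} [Field O] [CharZero O] {E : V → V → Prop} {z w : V → O}

omit [CharZero O] in
theorem pat_w (hr : Re E z w) {a x : V} (h : E x a) :
    z x ≠ z a ∧ w x = w a + (z x - z a)⁻¹ := by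
  have e := hr.adj x a h
  refine ⟨sub_ne_zero.1 (left_ne_zero_of_mul_eq_one e), ?_⟩
  rw [← eq_inv_of_mul_eq_one_right e]
  ring

theorem pat_many (hp : PL E) (hr : Re E z w) {D : ℕ} (X G : Finset V) {b : V}
    (hG : ∀ a ∈ G, E b a ∧ 2 * D + 1 < (nb E X a).card) (c : ℕ → ℕ → O)
    (hc : ∃ i ≤ D, ∃ k ≤ D, c i k ≠ 0) :
    G.card ≤ D + ((X.filter fun x => x ≠ b ∧ ∃ a ∈ G, E a x).filter
      fun x => bev D c (z x) (w x) ≠ 0).card := by
  rw [← card_filter_add_card_filter_not (s := G)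
    fun a => ∀ t, t ≠ z a → bev D c t (w a + (t - z a)⁻¹) = 0]
  refine add_le_add (pat_bad hc w hr.zinj _ fun a ha => (mem_filter.1 ha).2)
    (card_le_card_of_forall_subsingleton E (fun a ha => ?_) fun x hx a ha a' ha' => ?_)
  · obtain ⟨h1, h2⟩ := mem_filter.1 ha
    by_contra! n
    refine h2 (pat_conic (((nb E X a).erase b).image z) ?_ fun t ht => ?_)
    · rw [card_image_of_injective _ hr.zinj]
      have := (hG a h1).2
      have := pred_card_le_card_erase (s := nb E X a) (a := b)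
      omega
    · obtain ⟨x, hx, rfl⟩ := mem_image.1 ht
      obtain ⟨x1, x2⟩ := mem_erase.1 hx
      obtain ⟨x2, x3⟩ := mem_filter.1 x2
      obtain ⟨e1, e2⟩ := pat_w hr (hp.symm _ _ x3)
      refine ⟨e1, e2 ▸ ?_⟩
      by_contra e
      exact n x (mem_filter.2 ⟨mem_filter.2 ⟨x2, x1, a, h1, x3⟩, e⟩) x3
  · exact hp.k22 b x a a' (mem_filter.1 (mem_filter.1 hx).1).2.1.symm
      (hG a (mem_filter.1 ha.1).1).1 (hp.symm _ _ ha.2) (hG a' (mem_filter.1 ha'.1).1).1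
      (hp.symm _ _ ha'.2)

theorem pat_core (hp : PL E) (hr : Re E z w) (D : ℕ) (X A : Finset V) (G : V → Finset V) {g : ℝ}
    (hG : ∀ b ∈ X, G b ⊆ A ∧ (∀ a ∈ G b, E b a) ∧ g ≤ (G b).card) (g0 : 0 < g)
    (hg : 4 * (D : ℝ) ≤ g) (hA : 4 * (2 * D + 1) * (A.card : ℝ) ≤ g * X.card)
    (hk : 4 * (X.card : ℝ) ^ ((D + 1) * (D + 1)) < X.card * (g / 4) ^ ((D + 1) * (D + 1))) :
    ∃ b : Fin 3 → V, Function.Injective b ∧ (∀ i, b i ∈ X) ∧ ∀ c : ℕ → ℕ → O,
      (∃ i ≤ D, ∃ k ≤ D, c i k ≠ 0) → ∃ x, (∀ i, x ≠ b i ∧ ∃ a ∈ G (b i), E a x) ∧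
        bev D c (z x) (w x) ≠ 0 := by
  obtain ⟨L, hL⟩ : ∃ L, L = A.filter fun a => (nb E X a).card ≤ 2 * D + 1 := ⟨_, rfl⟩
  obtain ⟨B, hB⟩ : ∃ B, B = X.filter fun b => ¬ g / 2 ≤ (nb E L b).card := ⟨_, rfl⟩
  have b1 : (X.card : ℝ) ≤ 2 * B.card := by
    have h1 := card_mul_le_ed (E := E) (X.filter fun b => g / 2 ≤ (nb E L b).card) L
      fun b hb => (mem_filter.1 hb).2
    have h2 : (ed E (X.filter fun b => g / 2 ≤ (nb E L b).card) L : ℝ) ≤ ed E L X := by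
      rw [ed_comm hp.symm L]
      exact_mod_cast ed_mono (filter_subset _ _) Subset.rfl
    have h3 := ed_le_card_mul (E := E) L X (j := 2 * D + 1) fun a ha => by
      exact_mod_cast (mem_filter.1 (hL ▸ ha)).2
    have h4 : (L.card : ℝ) ≤ A.card := by exact_mod_cast card_le_card (hL ▸ filter_subset _ _)
    have h5 : (((X.filter fun b => g / 2 ≤ (nb E L b).card).card : ℝ)) + B.card = X.card := by
      rw [hB]
      exact_mod_cast card_filter_add_card_filter_not _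
    have h6 := mul_le_mul_of_nonneg_left h4 (by positivity : (0 : ℝ) ≤ 2 * D + 1)
    refine le_of_mul_le_mul_left ?_ g0
    nlinarith
  have k : ∀ b : V, ∃ T : Finset (Fin ((D + 1) * (D + 1)) → V), b ∈ B →
      (g / 4) ^ ((D + 1) * (D + 1)) ≤ T.card ∧ ∀ x ∈ T,
      (∀ i, x i ∈ X.filter fun x => x ≠ b ∧ ∃ a ∈ G b \ L, E a x) ∧ ∀ c : ℕ → ℕ → O,
        (∃ i ≤ D, ∃ k ≤ D, c i k ≠ 0) → ∃ i, bev D c (z (x i)) (w (x i)) ≠ 0 := fun b => by
    by_cases hb : b ∈ B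
    · obtain ⟨h1, h2⟩ := mem_filter.1 (hB ▸ hb)
      obtain ⟨g1, g2, g3⟩ := hG b h1
      refine (pat_gen D z w _ (by positivity) fun c hc => ?_).imp fun T h _ => h
      have h3 := pat_many hp hr X (G b \ L) (fun a ha => by
        obtain ⟨a1, a2⟩ := mem_sdiff.1 ha
        exact ⟨g2 a a1, not_le.1 fun e => a2 (hL ▸ mem_filter.2 ⟨g1 a1, e⟩)⟩) c hc
      have h4 : (G b).card ≤ (G b \ L).card + (nb E L b).card :=
        (card_le_card fun a ha => by
          by_cases e : a ∈ L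
          exacts [mem_union_right _ (mem_filter.2 ⟨e, g2 a ha⟩),
            mem_union_left _ (mem_sdiff.2 ⟨ha, e⟩)]).trans (card_union_le _ _)
      have h5 := (Nat.cast_le (α := ℝ)).2 (h4.trans (add_le_add h3 le_rfl))
      push_cast at h5
      linarith [not_le.1 h2]
    · exact ⟨∅, fun e => absurd e hb⟩
  choose T hT using k
  obtain ⟨x, hx⟩ : ∃ x, 2 < (B.filter fun b => x ∈ T b).card := by
    by_contra! n
    have := card_nsmul_le_card_nsmul (R := ℝ) (fun b x => x ∈ T b) (s := B)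
      (t := Fintype.piFinset fun _ => X) (m := (g / 4) ^ ((D + 1) * (D + 1))) (n := 2)
      (fun b hb => (hT b hb).1.trans (Nat.cast_le.2 (card_le_card fun x hx => mem_filter.2
        ⟨Fintype.mem_piFinset.2 fun i => (mem_filter.1 (((hT b hb).2 x hx).1 i)).1, hx⟩)))
      fun x _ => by exact_mod_cast n x
    simp only [Fintype.card_piFinset, prod_const, card_univ, Fintype.card_fin, nsmul_eq_mul] at this
    push_cast at this
    nlinarith [mul_le_mul_of_nonneg_right b1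
      (by positivity : (0 : ℝ) ≤ (g / 4) ^ ((D + 1) * (D + 1)))]
  obtain ⟨b, b2, b3⟩ : ∃ b : Fin 3 → V, Function.Injective b ∧ ∀ i, b i ∈ B ∧ x ∈ T (b i) := by
    obtain ⟨f, hf⟩ := Function.Embedding.exists_of_card_le_finset (α := Fin 3)
      (s := B.filter fun b => x ∈ T b) (by rw [Fintype.card_fin]; exact hx)
    exact ⟨f, f.injective, fun i => mem_filter.1 (hf ⟨i, rfl⟩)⟩
  refine ⟨b, b2, fun i => (mem_filter.1 (hB ▸ (b3 i).1)).1, fun c hc => ?_⟩
  obtain ⟨j, hj⟩ := ((hT _ (b3 0).1).2 x (b3 0).2).2 c hc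
  refine ⟨x j, fun i => ?_, hj⟩
  obtain ⟨-, e, a, a1, a2⟩ := mem_filter.1 (((hT _ (b3 i).1).2 x (b3 i).2).1 j)
  exact ⟨e, a, (mem_sdiff.1 a1).1, a2⟩

theorem pat_cell {V : Type} [Fintype V] {E : V → V → Prop} {C κ K ω d β L R σ : ℝ}
    (h : Host E C κ K ω d) (hσ : NN V = σ * d ^ 3) (B : Finset V) (hB : β * NN V ≤ B.card)
    (L0 : 0 < L) (h1 : 2 * L ≤ d) (h2 : K ≤ L * σ * d) (h3 : 1 ≤ L * σ * d ^ 2)
    (h4 : 1 ≤ R * σ * d) (h5 : 128 * R ≤ β * L ^ 2) : ∃ X A : Finset V, X ⊆ B ∧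
      R * σ * d ≤ X.card ∧ (X.card : ℝ) ≤ 2 * R * σ * d ∧ (A.card : ℝ) ≤ 8 * L * σ * d ^ 2 ∧
      ∀ b ∈ X, ∀ a, E b a → a ∈ A := by
  have d0 := h.amb.dpos
  have hN := h.amb.Npos
  have σ0 : 0 < σ := (mul_pos_iff_of_pos_right (pow_pos d0 3)).1 (hσ ▸ hN)
  have q1 := Nat.le_ceil (L * σ * d ^ 2)
  have q2 := (Nat.ceil_lt_add_one (by positivity : 0 ≤ L * σ * d ^ 2)).le
  have k1 := Nat.le_ceil (R * σ * d)
  have k2 := (Nat.ceil_lt_add_one (by linarith : 0 ≤ R * σ * d)).le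
  generalize ⌈L * σ * d ^ 2⌉₊ = q at q1 q2
  generalize ⌈R * σ * d⌉₊ = k at k1 k2
  obtain ⟨lab, l1, l2⟩ := h.pl.cut B univ q (by exact_mod_cast h3.trans q1)
  have l3 : ((B.image lab).card : ℝ) ≤ 16 * (2 * d / L) ^ 2 := by
    have e1 : (((univ : Finset V).card / q : ℕ) : ℝ) ≤ d / L := by
      refine Nat.cast_div_le.trans ?_
      rw [card_univ, div_le_div_iff₀ (by linarith) L0]
      change NN V * L ≤ _
      rw [hσ]
      nlinarith
    have e2 : 2 ≤ d / L := (le_div_iff₀ L0).2 h1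
    refine ((Nat.cast_le (α := ℝ)).2 l1).trans ?_
    push_cast
    gcongr
    rw [mul_div_assoc]
    linarith
  have l4 : ((B.image lab).card : ℝ) * k ≤ B.card := by
    refine (mul_le_mul l3 (k2.trans (by linarith : _ ≤ 2 * R * σ * d)) (Nat.cast_nonneg _)
      (by positivity)).trans (le_trans ?_ hB)
    rw [div_pow, ← mul_div_assoc, div_mul_eq_mul_div, div_le_iff₀ (by positivity), hσ]
    nlinarith [mul_le_mul_of_nonneg_right h5 (by positivity : 0 ≤ σ * d ^ 3)]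
  have hR : 0 < R := (mul_pos_iff_of_pos_right (mul_pos σ0 d0)).1 (by linarith)
  have hβ : 0 < β := (mul_pos_iff_of_pos_right (pow_pos L0 2)).1 (by linarith)
  obtain ⟨i, -, hi⟩ := exists_le_card_fiber_of_mul_le_card_of_maps_to (n := k)
    (fun a ha => mem_image_of_mem lab ha) (image_nonempty.2 (card_pos.1
      (by exact_mod_cast (mul_pos hβ hN).trans_le hB))) (by exact_mod_cast l4)
  obtain ⟨X, x1, x2⟩ := exists_subset_card_eq hi
  refine ⟨X, _, x1.trans (filter_subset _ _), x2 ▸ k1, by rw [x2]; linarith,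
    ((Nat.cast_le (α := ℝ)).2 (l2 i)).trans (by push_cast; linarith), fun b hb a e => ?_⟩
  obtain ⟨b1, b2⟩ := mem_filter.1 (x1 hb)
  refine mem_filter.2 ⟨mem_univ _, b, b1, b2, ?_, e⟩
  exact_mod_cast (h.amb.hi b).trans (le_trans (by nlinarith) q1)

theorem pat_sig {V : Type} [Fintype V] {E : V → V → Prop} {C κ K ω d : ℝ} (h : Host E C κ K ω d)
    {t : ℕ} (ht : ω * t ≤ 1 / 2) :
    ∃ σ : ℝ, NN V = σ * d ^ 3 ∧ 1 ≤ C * σ ∧ 0 < σ ∧ σ ^ t ≤ √d := by
  have d0 := h.amb.dpos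
  have d3 := pow_pos d0 3
  refine ⟨NN V / d ^ 3, by field_simp, ?_, div_pos h.amb.Npos d3, ?_⟩
  · rw [← mul_div_assoc, le_div_iff₀ d3, one_mul]
    exact h.amb.cub
  · have h1 : NN V / d ^ 3 ≤ d ^ ω := by
      have := h.few
      rw [Real.rpow_add d0, Real.rpow_ofNat] at this
      rwa [div_le_iff₀' d3]
    refine (pow_le_pow_left₀ (div_pos h.amb.Npos d3).le h1 t).trans ?_
    rw [← Real.rpow_natCast, ← Real.rpow_mul d0.le, Real.sqrt_eq_rpow]
    exact Real.rpow_le_rpow_of_exponent_le h.amb.one_le ht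

theorem patS : PatS := by
  intro C κ K γ D hC _ _ hK hγ
  obtain ⟨L, hL⟩ : ∃ L : ℝ, L = 4096 * (2 * D + 1) / (γ * γ) := ⟨_, rfl⟩
  obtain ⟨R, hR⟩ : ∃ R : ℝ, R = 32 * (2 * D + 1) * L / γ := ⟨_, rfl⟩
  obtain ⟨Q, hQ⟩ : ∃ Q : ℝ, Q = (8 * R / γ) ^ ((D + 1) * (D + 1)) := ⟨_, rfl⟩
  have L0 : 0 < L := by rw [hL]; positivity
  have R0 : 0 < R := by rw [hR]; positivity
  have Q0 : 0 < Q := by rw [hQ]; positivity
  have C0 : 0 < C := by linarith
  obtain ⟨d1, h0⟩ := eventually_atTop.1 ((eventually_ge_atTop (2 * L)).and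
    ((eventually_ge_atTop (C * K / L)).and ((eventually_ge_atTop (C / R)).and
    ((eventually_ge_atTop (4 * D / γ)).and (eventually_gt_atTop ((4 * Q * C / R) ^ 2))))))
  have t0 : (0 : ℝ) < ((D + 1) * (D + 1) : ℕ) := by positivity
  refine ⟨min (1 / max d1 1) (1 / 2 / ((D + 1) * (D + 1) : ℕ)), by positivity,
    fun V O _ _ _ E z w ω d ε s H B hω h hr hε hs hB hG => ?_⟩
  obtain ⟨hω1, hω2⟩ := le_min_iff.1 hω
  have d0 := h.amb.dpos
  have a7 := h.amb.one_le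
  have hd : d1 ≤ d := by
    have h1 := h.amb.big.trans (mul_le_mul_of_nonneg_right hω1 d0.le)
    rw [one_div, inv_mul_eq_div, le_div_iff₀ (by positivity), one_mul] at h1
    exact (le_max_left _ _).trans h1
  obtain ⟨σ, s1, s2, σ0, s3⟩ := pat_sig h ((le_div_iff₀ t0).1 hω2)
  obtain ⟨a1, a2, a4, a5, a6⟩ := h0 d hd
  rw [div_le_iff₀' L0] at a2
  rw [div_le_iff₀' R0] at a4
  rw [div_le_iff₀' hγ] at a5
  have b2 : K ≤ L * σ * d := le_of_mul_le_mul_left
    (by nlinarith [mul_le_mul_of_nonneg_left s2 (mul_pos L0 d0).le]) C0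
  have b4 : 1 ≤ R * σ * d := le_of_mul_le_mul_left
    (by nlinarith [mul_le_mul_of_nonneg_left s2 (mul_pos R0 d0).le]) C0
  have b6 : 4 * Q * σ ^ ((D + 1) * (D + 1)) < R * σ * d := by
    have e1 := Real.lt_sqrt_of_sq_lt a6
    have e2 := Real.mul_self_sqrt d0.le
    have e3 := Real.sqrt_pos.2 d0
    rw [div_lt_iff₀ R0] at e1
    refine lt_of_mul_lt_mul_left (a := C) ?_ C0.le
    have e4 := mul_lt_mul_of_pos_right e1 e3
    have e5 := mul_le_mul_of_nonneg_left s3 (by positivity : 0 ≤ 4 * Q * C)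
    have e6 := mul_le_mul_of_nonneg_left s2 (mul_pos R0 d0).le
    have e7 : √d * R * √d = R * d := by rw [mul_right_comm, e2, mul_comm]
    linarith
  have D0 : (0 : ℝ) ≤ D := Nat.cast_nonneg _
  obtain ⟨X, A, x1, x2, x3, x4, x5⟩ := pat_cell h s1 B hB L0 a1 b2
    (by nlinarith [mul_pos (mul_pos L0 σ0) d0]) b4
    (by rw [hR, sq]; nth_rw 2 [hL]; exact le_of_eq (by field_simp; ring))
  have : Nonempty V := Fintype.card_pos_iff.1 (by exact_mod_cast h.amb.Npos)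
  choose! n hn using hG
  obtain ⟨b, b1, b2, b3⟩ := pat_core h.pl hr D X A (fun b => (nb E univ b).filter fun a =>
      a ≠ n b 2 ∧ cr (fun k => z (n b k) - z b) (z a - z b) ∈ H.dom ∧
        H.h (cr (fun k => z (n b k) - z b) (z a - z b)) ≤ ε * s) (g := γ * d)
    (fun b hb => ⟨fun a ha => x5 b hb a (mem_filter.1 (mem_filter.1 ha).1).2,
      fun a ha => (mem_filter.1 (mem_filter.1 ha).1).2, (hn b (x1 hb)).many⟩)
    (by positivity) a5
    (by
      refine (mul_le_mul_of_nonneg_left x4 (by positivity)).trans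
        (le_trans (le_of_eq ?_) (mul_le_mul_of_nonneg_left x2 (by positivity)))
      rw [hR]
      field_simp
      ring)
    (by
      have e : (X.card : ℝ) ^ ((D + 1) * (D + 1)) ≤
          Q * σ ^ ((D + 1) * (D + 1)) * (γ * d / 4) ^ ((D + 1) * (D + 1)) := by
        rw [hQ, ← mul_pow, ← mul_pow]
        exact pow_le_pow_left₀ (Nat.cast_nonneg _) (x3.trans (le_of_eq (by field_simp; ring))) _
      linarith [mul_lt_mul_of_pos_right (b6.trans_le x2)
        (by positivity : 0 < (γ * d / 4) ^ ((D + 1) * (D + 1)))])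
  have g := fun i => hn (b i) (x1 (b2 i))
  refine ⟨⟨H, s, (mul_pos_iff_of_pos_left hε).1 (by linarith), hs, fun i => z (b i),
    fun i => w (b i), hr.zinj.comp b1, hr.winj.comp b1, fun i k => z (n (b i) k) - z (b i),
    fun i k => sub_ne_zero.2 (pat_w hr (h.pl.symm _ _ ((g i).adj k))).1,
    fun i k l e => (g i).inj (hr.zinj (sub_left_injective e)),
    by simpa using (g 0).bigm, by simpa using (g 0).big, fun c hc => ?_⟩⟩
  obtain ⟨x, hx, hc⟩ := b3 c hc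
  choose e a m1 m2 using hx
  refine ⟨z x, w x, fun i => z (a i) - z (b i), fun i => z (a i) - z x, fun i => ?_, hc⟩
  obtain ⟨m4, m3, m5⟩ := mem_filter.1 (m1 i)
  obtain ⟨p1, p2⟩ := pat_w hr (h.pl.symm _ _ (mem_filter.1 m4).2)
  obtain ⟨p3, p4⟩ := pat_w hr (m2 i)
  exact ⟨sub_ne_zero.2 p1, sub_ne_zero.2 p3, by ring, by linear_combination p2 - p4,
    hr.zinj.ne (e i), fun e => m3 (hr.zinj (sub_left_injective e)), m5⟩

end Pool.Agent.Lib.MP_439fea_co.Pw
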