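import Pool.Agent.Lib.MP_439fea_co.Pw.Defs

/-! Specialisation to algebraic numbers and the places of a number field. -/

namespace Pool.Agent.Lib.MP_439fea_co.Pw
open Finset Pool.Agent.Lib.MP_439fea_co.Z
open scoped Classical
noncomputable section

/-- `v` lies over the prime `p`. -/
structure PAbs {O : Type} [Field O] (p : ℕ) (v : AbsoluteValue O ℝ) : Prop where
  na : IsNonarchimedean v
  vp : v p = (p : ℝ)⁻¹
  co : ∀ n : ℕ, ¬ p ∣ n → v n = 1

section General
variable {O : Type} [Field O]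

theorem PAbs.comp {p : ℕ} {v : AbsoluteValue O ℝ} (h : PAbs p v) (τ : O →+* O) :
    PAbs p (v.comp τ.injective) := by
  refine ⟨fun x y => ?_, ?_, fun n hn => ?_⟩
  · show v (τ (x + y)) ≤ max (v (τ x)) (v (τ y))
    rw [map_add]
    exact h.na _ _
  · show v (τ p) = _
    rw [map_natCast, h.vp]
  · show v (τ n) = _
    rw [map_natCast, h.co n hn]

theorem PAbs.nat {p : ℕ} (hp : p.Prime) {v : AbsoluteValue O ℝ} (h : PAbs p v) (n : ℕ)
    (hn : 1 ≤ n) : 1 ≤ n * v n := by
  obtain ⟨k, m, hm, rfl⟩ := Nat.exists_eq_pow_mul_and_not_dvd (by omega : n ≠ 0) p hp.ne_one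
  have h0 : (0 : ℝ) < p := by exact_mod_cast hp.pos
  have h1 : (1 : ℝ) ≤ m := by
    have : m ≠ 0 := fun e => hm (e ▸ dvd_zero p)
    exact_mod_cast Nat.one_le_iff_ne_zero.2 this
  have e : ((p ^ k * m : ℕ) : ℝ) * v ((p ^ k * m : ℕ) : O) = m := by
    push_cast
    rw [map_mul, map_pow, h.vp, h.co m hm, inv_pow]
    field_simp
  rw [e]
  exact h1

theorem spec_sum_lt {v : AbsoluteValue O ℝ} (h : IsNonarchimedean v) {B : ℝ} (hB : 0 < B)
    (s : Finset ℕ) (g : ℕ → O) (hg : ∀ i ∈ s, v (g i) < B) : v (∑ i ∈ s, g i) < B := by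
  induction s using Finset.induction_on with
  | empty => simpa using hB
  | insert a s ha ih =>
    rw [sum_insert ha]
    exact (h _ _).trans_lt (max_lt (hg a (mem_insert_self _ _))
      (ih fun i hi => hg i (mem_insert_of_mem hi)))

theorem spec_int_le {v : AbsoluteValue O ℝ} (h : IsNonarchimedean v) {x : O}
    (hx : IsIntegral ℤ x) : v x ≤ 1 := by
  obtain ⟨f, hf, e⟩ := hx
  by_contra hc
  have hc : 1 < v x := not_le.1 hc
  rw [hf.as_sum, Polynomial.eval₂_add, Polynomial.eval₂_X_pow, Polynomial.eval₂_finsetSum] at e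
  have e2 := eq_neg_of_add_eq_zero_left e
  have := spec_sum_lt h (pow_pos (zero_lt_one.trans hc) f.natDegree) (range f.natDegree)
    (fun i => Polynomial.eval₂ (algebraMap ℤ O) x (Polynomial.C (f.coeff i) * Polynomial.X ^ i))
    fun i hi => by
      rw [Polynomial.eval₂_mul, Polynomial.eval₂_C, Polynomial.eval₂_X_pow, map_mul, map_pow]
      have h1 : v (algebraMap ℤ O (f.coeff i)) ≤ 1 := by
        simpa using h.apply_intCast_le_one (n := f.coeff i)
      have h2 := pow_lt_pow_right₀ hc (mem_range.1 hi)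
      have h3 := pow_pos (zero_lt_one.trans hc) i
      nlinarith
  rw [← v.map_neg, ← e2, map_pow] at this
  exact lt_irrefl _ this

theorem spec_den [IsAlgClosed O] {v : AbsoluteValue O ℝ} {a : O} (ha : 1 < v a) : Den v := by
  intro r t hr ht
  obtain ⟨n, hn⟩ := pow_unbounded_of_one_lt (v a) ht
  obtain ⟨b, rfl⟩ := IsAlgClosed.exists_pow_nat_eq a (Nat.succ_pos n)
  rw [map_pow] at ha hn
  have h1 : 1 < v b := by
    by_contra h
    exact absurd (pow_le_one₀ (v.nonneg b) (not_lt.1 h)) (not_le.2 ha)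
  have h2 : v b ≤ t := by
    by_contra h
    have := pow_le_pow_left₀ (zero_lt_one.trans ht).le (not_le.1 h).le n.succ
    have := pow_le_pow_right₀ ht.le (Nat.le_succ n)
    linarith
  obtain ⟨k, k1, k2⟩ := exists_mem_Ioc_zpow hr h1
  refine ⟨b ^ (k + 1), by rwa [map_zpow₀], ?_⟩
  rw [map_zpow₀, zpow_add_one₀ (zero_lt_one.trans h1).ne', mul_comm]
  exact mul_le_mul h2 k1.le (zpow_pos (zero_lt_one.trans h1) _).le (zero_lt_one.trans ht).le

/-- The product formula for rational numbers. -/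
theorem spec_rat [CharZero O] (a : Option Nat.Primes → AbsoluteValue O ℝ)
    (h0 : ∀ n : ℕ, a none n = n) (h1 : ∀ p : Nat.Primes, PAbs p (a (some p))) (r : ℚ)
    (hr : r ≠ 0) (T : Finset (Option Nat.Primes)) (hT : ∀ q, a q r ≠ 1 → q ∈ T) :
    ∑ q ∈ T, Real.log (a q r) = 0 := by
  have hn : ∀ n : ℕ, n ≠ 0 → ∃ T0 : Finset (Option Nat.Primes), ∀ T, T0 ⊆ T →
      ∑ q ∈ T, Real.log (a q n) = 0 := by
    intro n
    induction n using induction_on_primes with
    | zero => exact fun h => absurd rfl h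
    | one => exact fun _ => ⟨∅, fun T _ => by simp⟩
    | prime_mul p m hp ih =>
      intro hm
      have hm0 : m ≠ 0 := fun e => hm (by rw [e, mul_zero])
      obtain ⟨T0, ih⟩ := ih hm0
      refine ⟨{none, some ⟨p, hp⟩} ∪ T0, fun T hT => ?_⟩
      have e1 : ∀ q, Real.log (a q ((p * m : ℕ) : O)) =
          Real.log (a q p) + Real.log (a q m) := fun q => by
        rw [Nat.cast_mul, map_mul, Real.log_mul]
        · exact (a q).ne_zero (Nat.cast_ne_zero.2 hp.ne_zero)
        · exact (a q).ne_zero (Nat.cast_ne_zero.2 hm0)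
      simp only [e1]
      rw [sum_add_distrib, ih T (subset_union_right.trans hT), add_zero,
        ← sum_subset (subset_union_left.trans hT), sum_pair (by simp), h0,
        (h1 ⟨p, hp⟩).vp, Real.log_inv, add_neg_cancel]
      intro q _ hq
      cases q with
      | none => simp at hq
      | some l =>
        rw [(h1 l).co p, Real.log_one]
        intro hd
        refine hq ?_
        have : l = ⟨p, hp⟩ := Subtype.ext ((Nat.prime_dvd_prime_iff_eq l.2 hp).1 hd)
        simp [this]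
  obtain ⟨T1, e1⟩ := hn r.num.natAbs (by simpa using hr)
  obtain ⟨T2, e2⟩ := hn r.den r.den_ne_zero
  have e3 : ∀ q, Real.log (a q r) =
      Real.log (a q (r.num.natAbs : ℕ)) - Real.log (a q r.den) := fun q => by
    have e4 : a q (r.num.natAbs : ℕ) = a q r.num := by
      rw [← Int.cast_natCast]
      rcases Int.natAbs_eq r.num with e | e
      · rw [← e]
      · conv_rhs => rw [e, Int.cast_neg, (a q).map_neg]
    rw [e4, ← Real.log_div, ← map_div₀, Rat.cast_def]
    · exact (a q).ne_zero (Int.cast_ne_zero.2 (by simpa using hr))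
    · exact (a q).ne_zero (Nat.cast_ne_zero.2 r.den_ne_zero)
  rw [sum_subset (subset_union_left (s₂ := T1 ∪ T2)) fun q _ hq => by
    rw [not_not.1 (mt (hT q) hq), Real.log_one]]
  simp only [e3]
  rw [sum_sub_distrib, e1 _ (subset_union_left.trans subset_union_right),
    e2 _ (subset_union_right.trans subset_union_right), sub_self]

end General

/-- The algebraic numbers. -/
abbrev Qb : Type := AlgebraicClosure ℚ

theorem spec_alg : Algebra.IsAlgebraic ℚ Qb := AlgebraicClosure.isAlgebraic ℚ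

theorem spec_pabs (p : Nat.Primes) : ∃ v : AbsoluteValue Qb ℝ, PAbs p v := by
  have := spec_alg
  have : Fact (p : ℕ).Prime := ⟨p.2⟩
  let φ : Qb →+* PadicAlgCl p := (IsAlgClosed.lift : Qb →ₐ[ℚ] PadicAlgCl p).toRingHom
  have e : ∀ n : ℕ, ‖φ n‖ = ‖(n : ℚ_[p])‖ := fun n => by
    rw [map_natCast, ← map_natCast (algebraMap ℚ_[p] (PadicAlgCl p))]
    exact PadicAlgCl.norm_extends _ _
  refine ⟨NumberField.place φ, fun x y => ?_, ?_, fun n hn => ?_⟩
  · simp only [NumberField.place_apply, map_add]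
    exact PadicAlgCl.isNonarchimedean _ _ _
  · rw [NumberField.place_apply, e, Padic.norm_p]
  · rw [NumberField.place_apply, e, Padic.norm_natCast_eq_one_iff]
    exact (Nat.Prime.coprime_iff_not_dvd p.2).2 hn

theorem spec_ext {K : Type} [Field K] [NumberField K] (j σ : K →ₐ[ℚ] Qb) :
    ∃ τ : Qb →+* Qb, ∀ x, τ (j x) = σ x := by
  have := spec_alg
  let : Algebra K Qb := j.toRingHom.toAlgebra
  have : IsScalarTower ℚ K Qb := IsScalarTower.of_algebraMap_eq fun x => (j.commutes x).symm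
  have : Algebra.IsAlgebraic K Qb := Algebra.IsAlgebraic.tower_top (K := ℚ) K
  obtain ⟨τ, h⟩ := IsAlgClosed.surjective_domRestrict_of_isAlgebraic (K := ℚ) (L := K) (M := Qb)
    (E := Qb) σ
  exact ⟨τ.toRingHom, fun x => by rw [← h]; rfl⟩

theorem spec_unit {K : Type} [Field K] [NumberField K] (y : K) (hy : y ≠ 0) :
    ∃ n : ℕ, n ≠ 0 ∧ ∀ (p : ℕ) (v : AbsoluteValue Qb ℝ) (σ : K →+* Qb), PAbs p v → ¬ p ∣ n →
      v (σ y) = 1 := by
  have h : ∀ y : K, ∃ n : ℕ, n ≠ 0 ∧ ∀ (p : ℕ) (v : AbsoluteValue Qb ℝ) (σ : K →+* Qb),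
      PAbs p v → ¬ p ∣ n → v (σ y) ≤ 1 := fun y => by
    have ha : IsAlgebraic ℤ y :=
      (IsFractionRing.isAlgebraic_iff ℤ ℚ K).2 (Algebra.IsAlgebraic.isAlgebraic y)
    obtain ⟨m, hm, hi⟩ := ha.exists_integral_multiple
    refine ⟨m.natAbs, by simpa using hm, fun p v σ hv hp => ?_⟩
    have h1 := spec_int_le hv.na (map_isIntegral_int σ hi)
    have h2 : v (m : Qb) = 1 := by
      rw [← hv.co _ hp, ← Int.cast_natCast]
      rcases Int.natAbs_eq m with e | e
      · rw [← e]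
      · conv_lhs => rw [e, Int.cast_neg, v.map_neg]
    rwa [zsmul_eq_mul, map_mul, map_intCast, map_mul, h2, one_mul] at h1
  obtain ⟨n, hn, h1⟩ := h y
  obtain ⟨m, hm, h2⟩ := h y⁻¹
  refine ⟨n * m, mul_ne_zero hn hm, fun p v σ hv hp => ?_⟩
  have e1 := h1 p v σ hv fun e => hp (e.mul_right m)
  have e2 := h2 p v σ hv fun e => hp (e.mul_left n)
  rw [map_inv₀, map_inv₀] at e2
  have e3 : 0 < v (σ y) := v.pos ((map_ne_zero σ).2 hy)
  exact le_antisymm e1 ((inv_le_one₀ e3).1 e2)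

/-- The places of a number field. -/
theorem spec_places {K : Type} [Field K] [NumberField K] (j : K →ₐ[ℚ] Qb) :
    ∃ P : Places Qb, ∀ x, j x ∈ P.L := by
  have := spec_alg
  choose b hb using spec_pabs
  choose τ hτ using spec_ext j
  let ι : Qb →+* ℂ := (IsAlgClosed.lift : Qb →ₐ[ℚ] ℂ).toRingHom
  let a : Option Nat.Primes → AbsoluteValue Qb ℝ := fun q => q.elim (NumberField.place ι) b
  have a0 : ∀ n : ℕ, a none n = n := fun n => by
    show ‖ι n‖ = n
    rw [map_natCast, Complex.norm_natCast]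
  let D : ℝ := Module.finrank ℚ K
  have hD : 0 < D := Nat.cast_pos.2 Module.finrank_pos
  have hc : (Fintype.card (K →ₐ[ℚ] Qb) : ℝ) = D := by rw [AlgHom.card]
  let v : Option Nat.Primes × (K →ₐ[ℚ] Qb) → AbsoluteValue Qb ℝ := fun i =>
    (a i.1).comp (τ i.2).injective
  have hv : ∀ i x, v i (j x) = a i.1 (i.2 x) := fun i x => by rw [← hτ i.2]; rfl
  have vp : ∀ (p : Nat.Primes) σ, PAbs p (v (some p, σ)) := fun p σ => (hb p).comp _
  have v0 : ∀ σ (n : ℕ), v (none, σ) n = n := fun σ n => by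
    show a none (τ σ n) = n
    rw [map_natCast, a0]
  have hw : ∀ T : Finset (Option Nat.Primes),
      ∑ _i ∈ T ×ˢ (univ : Finset (K →ₐ[ℚ] Qb)), D⁻¹ = T.card := fun T => by
    rw [sum_const, card_product, card_univ, nsmul_eq_mul, Nat.cast_mul, hc]
    field_simp
  let pr : ℕ → Finset (Option Nat.Primes) := fun J =>
    insert none (((Icc 1 J).subtype Nat.Prime).image some)
  have hpr : ∀ J (p : Nat.Primes), some p ∉ pr J → J < p := fun J p h => by
    by_contra hc
    exact h (mem_insert_of_mem (mem_image.2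
      ⟨p, mem_subtype.2 (mem_Icc.2 ⟨p.2.pos, not_lt.1 hc⟩), rfl⟩))
  refine ⟨⟨j.toRingHom.fieldRange, _, v, fun _ => D⁻¹, fun _ => inv_pos.2 hD, ?_, ?_,
    {none} ×ˢ univ, by rw [hw]; simp, ?_, ?_, ?_, ?_, fun J => ⟨pr J ×ˢ univ, ?_, ?_⟩⟩,
    fun x => ⟨x, rfl⟩⟩
  · rintro _ ⟨y, rfl⟩ hy
    obtain ⟨n, hn, h⟩ := spec_unit y fun e => hy (by rw [e, map_zero])
    refine (pr n ×ˢ univ).finite_toSet.subset ?_
    rintro ⟨q, σ⟩ hq
    refine mem_coe.2 (mem_product.2 ⟨?_, mem_univ _⟩)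
    cases q with
    | none => exact mem_insert_self _ _
    | some p =>
      by_contra hc
      exact hq ((hv _ y).trans (h p _ σ.toRingHom (hb p)
        (Nat.not_dvd_of_pos_of_lt (Nat.pos_of_ne_zero hn) (hpr n p hc))))
  · rintro _ ⟨y, rfl⟩ hy S hS
    have hy0 : y ≠ 0 := fun e => hy (by rw [e, map_zero])
    have hS' : ∀ i : Option Nat.Primes × (K →ₐ[ℚ] Qb), a i.1 (i.2 y) ≠ 1 → i ∈ S :=
      fun i h => hS i (by rwa [← hv] at h)
    have e1 : ∀ q, a q ((Algebra.norm ℚ y : ℚ) : Qb) = ∏ σ : K →ₐ[ℚ] Qb, a q (σ y) := fun q => by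
      rw [← map_prod, ← Algebra.norm_eq_prod_embeddings]
      rfl
    rw [← mul_sum]
    refine mul_eq_zero_of_right _ ?_
    have e2 : ∑ i ∈ S, Real.log (v i (j.toRingHom y)) =
        ∑ i ∈ S.image Prod.fst ×ˢ (univ : Finset (K →ₐ[ℚ] Qb)), Real.log (a i.1 (i.2 y)) := by
      rw [← sum_subset (s₁ := S) (fun i hi =>
        mem_product.2 ⟨mem_image_of_mem _ hi, mem_univ _⟩) fun i _ hi => by
          rw [not_not.1 (mt (hS' i) hi), Real.log_one]]
      exact sum_congr rfl fun i _ => congrArg Real.log (hv i y)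
    rw [e2, sum_product]
    refine Eq.trans (sum_congr rfl fun q _ => ?_) (spec_rat a a0 hb (Algebra.norm ℚ y)
      (Algebra.norm_ne_zero_iff.2 hy0) _ fun q hq => ?_)
    · rw [e1, Real.log_prod]
      exact fun σ _ => (a q).ne_zero ((map_ne_zero σ).2 hy0)
    · by_contra hc
      refine hq ((e1 q).trans (prod_eq_one fun σ _ => ?_))
      by_contra h
      exact hc (mem_image_of_mem Prod.fst (hS' (q, σ) h))
  · rintro ⟨q, σ⟩ hi
    obtain rfl : q = none := mem_singleton.1 (mem_product.1 hi).1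
    exact ⟨ι.comp (τ σ), fun x => rfl⟩
  · rintro ⟨q, σ⟩ hi
    cases q with
    | none => exact absurd (mem_product.2 ⟨mem_singleton_self _, mem_univ _⟩) hi
    | some p => exact (vp p σ).na
  · rintro ⟨q, σ⟩
    cases q with
    | none => exact spec_den (a := ((2 : ℕ) : Qb)) (by rw [v0]; norm_num)
    | some p =>
      refine spec_den (a := ((p : ℕ) : Qb)⁻¹) ?_
      rw [map_inv₀, (vp p σ).vp, inv_inv]
      exact_mod_cast p.2.one_lt
  · rintro ⟨q, σ⟩ n hn
    cases q with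
    | none =>
      rw [v0]
      exact_mod_cast Nat.mul_pos hn hn
    | some p => exact (vp p σ).nat p.2 n hn
  · rw [hw]
    have : (pr J).card ≤ J + 1 := (card_insert_le _ _).trans (Nat.succ_le_succ
      (card_image_le.trans ((card_subtype _ _).trans_le ((card_filter_le _ _).trans (by simp)))))
    exact_mod_cast this
  · rintro ⟨q, σ⟩ hi
    have hq : q ∉ pr J := fun h => hi (mem_product.2 ⟨h, mem_univ _⟩)
    cases q with
    | none => exact absurd (mem_insert_self _ _) hq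
    | some p =>
      exact ⟨by simp, fun n h1 h2 => (vp p σ).co n
        (Nat.not_dvd_of_pos_of_lt h1 (h2.trans_lt (hpr J p hq)))⟩

/-- Finitely many complex numbers specialise to a number field. -/
theorem spec_field (S : Finset ℂ) :
    ∃ (K : Type) (_ : Field K) (_ : NumberField K) (R : Subring ℂ) (_ : R →+* K),
      ∀ s ∈ S, s ∈ R := by
  let A : Subalgebra ℚ ℂ := Algebra.adjoin ℚ (S : Set ℂ)
  have hA : Algebra.FiniteType ℚ A :=
    (Subalgebra.fg_iff_finiteType A).1 (Subalgebra.fg_adjoin_finset S)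
  obtain ⟨m, hm⟩ := Ideal.exists_maximal A
  let : Field (A ⧸ m) := Ideal.Quotient.field m
  have h1 : Module.Finite ℚ (A ⧸ m) := finite_of_finite_type_of_isJacobsonRing ℚ (A ⧸ m)
  have h2 : NumberField (A ⧸ m) := NumberField.of_module_finite ℚ _
  exact ⟨A ⧸ m, inferInstance, h2, A.toSubring, Ideal.Quotient.mk m,
    fun s hs => Algebra.subset_adjoin hs⟩

theorem spec_inj {V K : Type} [Field K] {R : Subring ℂ} (θ : R →+* K) {z : V → ℂ}
    (hz : Function.Injective z) (h1 : ∀ a, z a ∈ R) (h2 : ∀ a b, (z a - z b)⁻¹ ∈ R) :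
    Function.Injective fun a => θ ⟨z a, h1 a⟩ := by
  intro a b e
  by_contra h
  have e1 : ((⟨z a, h1 a⟩ : R) - ⟨z b, h1 b⟩) * ⟨_, h2 a b⟩ = 1 :=
    Subtype.ext (mul_inv_cancel₀ (sub_ne_zero.2 fun e => h (hz e)))
  have e2 := congrArg θ e1
  rw [map_mul, map_sub, show θ ⟨z a, h1 a⟩ = θ ⟨z b, h1 b⟩ from e, sub_self, zero_mul,
    map_one] at e2
  exact zero_ne_one e2

theorem specS : SpecS := by
  intro V _ E z w hR
  obtain ⟨K, _, _, R, θ, h⟩ := spec_field ((univ.image z ∪ univ.image w) ∪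
    (univ.image (fun p : V × V => (z p.1 - z p.2)⁻¹) ∪
      univ.image fun p : V × V => (w p.1 - w p.2)⁻¹))
  have z1 : ∀ a, z a ∈ R := fun a => h _ (by simp)
  have w1 : ∀ a, w a ∈ R := fun a => h _ (by simp)
  have z2 : ∀ a b, (z a - z b)⁻¹ ∈ R := fun a b => h _ (mem_union_right _
    (mem_union_left _ (mem_image.2 ⟨(a, b), mem_univ _, rfl⟩)))
  have w2 : ∀ a b, (w a - w b)⁻¹ ∈ R := fun a b => h _ (mem_union_right _
    (mem_union_right _ (mem_image.2 ⟨(a, b), mem_univ _, rfl⟩)))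
  let j : K →ₐ[ℚ] Qb := IsAlgClosed.lift
  obtain ⟨P, hP⟩ := spec_places j
  refine ⟨fun a => j (θ ⟨z a, z1 a⟩), fun a => j (θ ⟨w a, w1 a⟩), P,
    ⟨j.toRingHom.injective.comp (spec_inj θ hR.zinj z1 z2),
      j.toRingHom.injective.comp (spec_inj θ hR.winj w1 w2), fun a b e => ?_⟩,
    fun a => ⟨hP _, hP _⟩⟩
  have e1 : ((⟨z a, z1 a⟩ : R) - ⟨z b, z1 b⟩) * (⟨w a, w1 a⟩ - ⟨w b, w1 b⟩) = 1 :=
    Subtype.ext (hR.adj a b e)
  rw [← map_sub j, ← map_sub j, ← map_mul j, ← map_sub θ, ← map_sub θ, ← map_mul θ, e1, map_one,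
    map_one]

end
end Pool.Agent.Lib.MP_439fea_co.Pw
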