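import Pool.Agent.Lib.MP_439fea_co.Pw.Shift

/-! Counting over the children of a state. -/

namespace Pool.Agent.Lib.MP_439fea_co.Pw
open Finset
open scoped Classical

/-- The count of a state is bounded through the counts of its children. -/
theorem step_count {A B O : Type} [AddCommGroup A] [DecidableEq B]
    (htf : ∀ (n : ℕ) (x : A), n ≠ 0 → n • x = 0 → x = 0) (S : Finset O)
    (r1 r2 r3 : O → A) (c1 c2 c3 : O → B) (p1 p2 p3 : A → ℝ) (q1 q2 q3 : B → ℝ)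
    (h1 : ∀ x, 0 ≤ p1 x) (h2 : ∀ x, 0 ≤ p2 x) (h3 : ∀ x, 0 ≤ p3 x)
    (k1 : ∀ x, 0 ≤ q1 x) (k2 : ∀ x, 0 ≤ q2 x) (k3 : ∀ x, 0 ≤ q3 x)
    (s1 : ∑ x ∈ S.image r1, p1 x ≤ 1) (s2 : ∑ x ∈ S.image r2, p2 x ≤ 1)
    (s3 : ∑ x ∈ S.image r3, p3 x ≤ 1) (t1 : ∑ x ∈ S.image c1, q1 x ≤ 1)
    (t2 : ∑ x ∈ S.image c2, q2 x ≤ 1) (t3 : ∑ x ∈ S.image c3, q3 x ≤ 1)
    {η k Λ : ℝ} (hη : 0 < η) (hΛ : 0 ≤ Λ) (φ : ℝ → ℝ)
    (hφ : ∀ x, η ≤ x → x ≤ 1 → 0 ≤ φ x ∧ φ x ≤ 1 ∧ φ x ≤ k * x) (hk : k * (1 - η ^ 3 / 32) ≤ 1)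
    (c0 : A) (hS : ∀ o ∈ S, r1 o + r2 o + r3 o = c0 ∧ η ≤ p1 (r1 o) ∧ η ≤ p3 (r3 o))
    (hch : ∀ o ∈ S, ((S.filter fun o' => r1 o' = r1 o ∧ r2 o' = r2 o ∧ r3 o' = r3 o ∧
      c1 o' = c1 o ∧ c2 o' = c2 o ∧ c3 o' = c3 o).card : ℝ) ≤
      Λ * (φ (p1 (r1 o)) * √(p2 (r2 o) * p3 (r3 o))) * (q1 (c1 o) * q2 (c2 o) * q3 (c3 o))) :
    (S.card : ℝ) ≤ Λ := by
  set lab : O → (A × A × A) × (B × B × B) := fun o => ((r1 o, r2 o, r3 o), (c1 o, c2 o, c3 o))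
    with hlab
  set T : Finset (A × A × A) := S.image fun o => (r1 o, r2 o, r3 o) with hT
  set U : Finset (B × B × B) := S.image c1 ×ˢ S.image c2 ×ˢ S.image c3 with hU
  set f : A × A × A → ℝ := fun t => φ (p1 t.1) * √(p2 t.2.1 * p3 t.2.2) with hf
  set g : B × B × B → ℝ := fun u => q1 u.1 * q2 u.2.1 * q3 u.2.2 with hg
  have hTm : ∀ t ∈ T, t.1 ∈ S.image r1 ∧ t.2.1 ∈ S.image r2 ∧ t.2.2 ∈ S.image r3 ∧
      t.1 + t.2.1 + t.2.2 = c0 ∧ η ≤ p1 t.1 ∧ η ≤ p3 t.2.2 := by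
    intro t ht
    obtain ⟨o, ho, rfl⟩ := mem_image.1 ht
    exact ⟨mem_image_of_mem _ ho, mem_image_of_mem _ ho, mem_image_of_mem _ ho, hS o ho⟩
  have hf1 : ∑ t ∈ T, f t ≤ 1 := gain htf p1 p2 p3 h2 h3 _ _ _ s1 s2 s3 h1 hη φ hφ hk c0 T hTm
  have hf0 : ∀ t ∈ T, 0 ≤ f t := by
    intro t ht
    obtain ⟨a1, -, -, -, a2, -⟩ := hTm t ht
    have : p1 t.1 ≤ 1 := (single_le_sum (f := p1) (fun x _ => h1 x) a1).trans s1
    exact mul_nonneg (hφ _ a2 this).1 (Real.sqrt_nonneg _)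
  have hg0 : ∀ u, 0 ≤ g u := fun u => mul_nonneg (mul_nonneg (k1 _) (k2 _)) (k3 _)
  have hg1 : ∑ u ∈ U, g u ≤ 1 := by
    have e : ∑ u ∈ U, g u = (∑ x ∈ S.image c1, q1 x) * ((∑ x ∈ S.image c2, q2 x) *
        ∑ x ∈ S.image c3, q3 x) := by
      rw [hU, sum_product, sum_mul]
      refine sum_congr rfl fun x _ => ?_
      rw [sum_product, sum_mul_sum, mul_sum]
      refine sum_congr rfl fun y _ => ?_
      rw [mul_sum]
      exact sum_congr rfl fun z _ => by simp only [hg]; ring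
    rw [e]
    exact mul_le_one₀ t1 (mul_nonneg (sum_nonneg fun x _ => k2 x) (sum_nonneg fun x _ => k3 x))
      (mul_le_one₀ t2 (sum_nonneg fun x _ => k3 x) t3)
  have hsub : S.image lab ⊆ T ×ˢ U := by
    intro l hl
    obtain ⟨o, ho, rfl⟩ := mem_image.1 hl
    exact mem_product.2 ⟨mem_image_of_mem (fun o => (r1 o, r2 o, r3 o)) ho,
      mem_product.2 ⟨mem_image_of_mem _ ho,
        mem_product.2 ⟨mem_image_of_mem _ ho, mem_image_of_mem _ ho⟩⟩⟩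
  have hc : (S.card : ℝ) = ∑ l ∈ S.image lab, ((S.filter fun o => lab o = l).card : ℝ) := by
    rw [card_eq_sum_card_image lab S]; push_cast; rfl
  calc (S.card : ℝ) = _ := hc
    _ ≤ ∑ l ∈ S.image lab, Λ * f l.1 * g l.2 := by
        refine sum_le_sum fun l hl => ?_
        obtain ⟨o, ho, rfl⟩ := mem_image.1 hl
        have e : (S.filter fun o' => lab o' = lab o) = S.filter fun o' => r1 o' = r1 o ∧
            r2 o' = r2 o ∧ r3 o' = r3 o ∧ c1 o' = c1 o ∧ c2 o' = c2 o ∧ c3 o' = c3 o := by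
          refine filter_congr fun o' _ => ?_
          simp only [hlab, Prod.mk.injEq, and_assoc]
        rw [e]
        exact hch o ho
    _ ≤ ∑ l ∈ T ×ˢ U, Λ * f l.1 * g l.2 :=
        sum_le_sum_of_subset_of_nonneg hsub fun l hl _ =>
          mul_nonneg (mul_nonneg hΛ (hf0 _ (mem_product.1 hl).1)) (hg0 _)
    _ = Λ * ((∑ t ∈ T, f t) * ∑ u ∈ U, g u) := by
        rw [sum_product, sum_mul_sum, mul_sum]
        refine sum_congr rfl fun t _ => ?_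
        rw [mul_sum]
        exact sum_congr rfl fun u _ => by ring
    _ ≤ Λ * 1 := mul_le_mul_of_nonneg_left
        (mul_le_one₀ hf1 (sum_nonneg fun u _ => hg0 u) hg1) hΛ
    _ = Λ := mul_one Λ

/-- Share of the members of `H` with label `x`. -/
noncomputable def shr {V A : Type} (H : Finset V) (f : V → A) (x : A) : ℝ :=
  ((H.filter fun b => f b = x).card : ℝ) / H.card

theorem shr_nonneg {V A : Type} (H : Finset V) (f : V → A) (x : A) : 0 ≤ shr H f x :=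
  div_nonneg (Nat.cast_nonneg _) (Nat.cast_nonneg _)

theorem shr_sum {V A : Type} (H : Finset V) (f : V → A) (R : Finset A) :
    ∑ x ∈ R, shr H f x ≤ 1 := by
  unfold shr
  rw [← sum_div]
  refine div_le_one_of_le₀ ?_ (Nat.cast_nonneg _)
  rw [← Nat.cast_sum]
  refine Nat.cast_le.2 ?_
  rw [← card_biUnion]
  · exact card_le_card (biUnion_subset.2 fun x _ => filter_subset _ _)
  · intro x _ y _ hxy
    exact disjoint_filter.2 fun b _ h1 h2 => hxy (h1.symm.trans h2)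

theorem shr_mul {V A : Type} (H : Finset V) (f : V → A) (x : A) :
    shr H f x * H.card = (H.filter fun b => f b = x).card := by
  unfold shr
  by_cases h : H = ∅
  · simp [h]
  · exact div_mul_cancel₀ _ (Nat.cast_ne_zero.2 (card_ne_zero.2 (nonempty_iff_ne_empty.2 h)))

/-- The share of a class against the shares of the three balls. -/
theorem term_real {l τ t2 θ b0 b1 b2 : ℝ} (hl : 0 ≤ l) (ht2 : 1 ≤ t2) (hθ : 0 < θ) (hθ1 : θ ≤ 1)
    (p0 : 0 ≤ b0) (p1 : 0 ≤ b1) (p2 : 0 ≤ b2) (hτ : l ≤ τ) (h0 : l ≤ t2 * b0 ^ 2)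
    (h1 : l ≤ t2 * b1 ^ 2) (h2 : l ≤ t2 * b2 ^ 2) :
    l ≤ t2 * τ ^ (θ / 2) * (b0 ^ (1 - θ) * √(b1 * b2)) := by
  have ht0 : 0 ≤ t2 := by linarith
  have a1 : l ≤ t2 * (b1 * b2) := by
    refine (abs_le_of_sq_le_sq' ?_ (by positivity)).2
    calc l ^ 2 = l * l := sq l
      _ ≤ (t2 * b1 ^ 2) * (t2 * b2 ^ 2) := mul_le_mul h1 h2 hl (by positivity)
      _ = _ := by ring
  have a2 : √l ≤ √t2 * √(b1 * b2) := by
    rw [← Real.sqrt_mul ht0]; exact Real.sqrt_le_sqrt a1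
  have a3 : √l = l ^ (θ / 2) * l ^ ((1 - θ) / 2) := by
    rw [Real.sqrt_eq_rpow, ← Real.rpow_add' hl (by linarith)]; congr 1; ring
  have a4 : l ^ (θ / 2) ≤ τ ^ (θ / 2) := Real.rpow_le_rpow hl hτ (by linarith)
  have a5 : l ^ ((1 - θ) / 2) ≤ √t2 * b0 ^ (1 - θ) := by
    refine (Real.rpow_le_rpow hl h0 (by linarith)).trans ?_
    rw [Real.mul_rpow ht0 (sq_nonneg _), ← Real.rpow_natCast, ← Real.rpow_mul p0,
      Real.sqrt_eq_rpow]
    have e : ((2 : ℕ) : ℝ) * ((1 - θ) / 2) = 1 - θ := by push_cast; ring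
    rw [e]
    exact mul_le_mul_of_nonneg_right (Real.rpow_le_rpow_of_exponent_le ht2 (by linarith))
      (Real.rpow_nonneg p0 _)
  have a6 : √l ≤ τ ^ (θ / 2) * (√t2 * b0 ^ (1 - θ)) := by
    rw [a3]
    exact mul_le_mul a4 a5 (Real.rpow_nonneg hl _) (Real.rpow_nonneg (hl.trans hτ) _)
  calc l = √l * √l := (Real.mul_self_sqrt hl).symm
    _ ≤ (τ ^ (θ / 2) * (√t2 * b0 ^ (1 - θ))) * (√t2 * √(b1 * b2)) :=
        mul_le_mul a6 a2 (Real.sqrt_nonneg _) ((Real.sqrt_nonneg _).trans a6)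
    _ = (√t2 * √t2) * τ ^ (θ / 2) * (b0 ^ (1 - θ) * √(b1 * b2)) := by ring
    _ = _ := by rw [Real.mul_self_sqrt ht0]

end Pool.Agent.Lib.MP_439fea_co.Pw
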