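import Pool.Agent.Lib.MP_439fea_co.Pw.TGood

/-! Most incidences are clean. -/

namespace Pool.Agent.Lib.MP_439fea_co.Pw
open Finset Pool.Agent.Lib.MP_439fea_co.Z
open scoped Classical
noncomputable section

namespace TD
variable {V F Γ ι : Type} [Field F] [LinearOrderedCommGroupWithZero Γ] {D : TD V F Γ ι}
  [Fintype ι] [Fintype V] {C K ω k g η t t1 : ℝ} {M : ℕ}

/-- The unclean incidences of one cluster. -/
theorem Par.dirty (hP : D.Par C K ω k g M η t) (ht1 : 0 < t1) (c : ι) :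
    (ed D.E (D.pt {c}) (D.Y.filter fun b =>
      t1 * D.bv {c} * D.d < (nb D.E (D.pt {c}) b).card) : ℝ) ≤
      (32 * C * cL C k ^ 2 / t1 ^ 2 * (D.be {c} * D.bv {c}) + (2 + 4 * K / k) * ω) * NN V * D.d := by
  have hA := hP.ok.amb
  have hd := hA.dpos
  have hN := hA.Npos
  have hω := hA.ωpos
  have hk := hP.kpos
  have hC : 0 < C := one_pos.trans_le hP.C1
  have hK : 0 < K := one_pos.trans_le hP.K1
  have hL := hP.cL_nn
  have p1 := be_nn (D := D) {c}
  have p2 := bv_nn (D := D) {c}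
  obtain ⟨-, a2, a3⟩ := hP.l1 {c}
  set R := D.Y.filter fun b => t1 * D.bv {c} * D.d < (nb D.E (D.pt {c}) b).card with hR
  have e0 : ((D.pt {c}).card : ℝ) = D.al {c} * NN V := by
    unfold al
    field_simp
  rcases le_or_gt (D.al {c}) (4 * ω / k) with h | h
  · have h1 := ed_le_card_mul (E := D.E) (D.pt {c}) R (j := K * D.d) fun a _ =>
      (Nat.cast_le.2 (card_le_card (nb_mono (subset_univ _) a))).trans (hA.hi a)
    rw [e0] at h1
    have h2 := mul_le_mul_of_nonneg_left (mul_le_mul_of_nonneg_right h hN.le)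
      (show 0 ≤ K * D.d by positivity)
    have h3 : 0 ≤ (32 * C * cL C k ^ 2 / t1 ^ 2 * (D.be {c} * D.bv {c}) + 2 * ω) * NN V * D.d := by
      positivity
    have e : K * D.d * (4 * ω / k * NN V) = 4 * K / k * ω * NN V * D.d := by ring
    linarith
  have e1 : 4 * ω / k = 2 * (2 * ω / k) := by ring
  have b2 : D.al {c} ≤ 2 * cL C k * D.bv {c} ^ 2 := by linarith
  have b3 : D.al {c} ≤ 2 * cL C k * (D.be {c} * D.bv {c}) := by linarith
  have h0 : 0 < D.al {c} := lt_trans (by positivity) h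
  have hu : 0 < D.bv {c} := p2.lt_of_ne fun e => by
    rw [← e] at b2
    linarith
  have h1 := hA.stA R (D.pt {c}) (t1 * D.bv {c} / 2) (by positivity)
  have h2 := card_mul_le_ed (E := D.E) R (D.pt {c}) fun b hb => (mem_filter.1 hb).2.le
  have h3 := mul_le_mul b2 b3 h0.le (by positivity)
  have h4 : C / (t1 * D.bv {c} / 2) ^ 2 * D.d * ((D.pt {c}).card : ℝ) ^ 2 / NN V ≤
      16 * C * cL C k ^ 2 / t1 ^ 2 * (D.be {c} * D.bv {c}) * NN V * D.d := by
    have e2 : C / (t1 * D.bv {c} / 2) ^ 2 * D.d * ((D.pt {c}).card : ℝ) ^ 2 / NN V =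
        4 * C * D.d * NN V / (t1 * D.bv {c}) ^ 2 * (D.al {c} * D.al {c}) := by
      rw [e0]
      field_simp
      ring
    have e3 : 16 * C * cL C k ^ 2 / t1 ^ 2 * (D.be {c} * D.bv {c}) * NN V * D.d =
        4 * C * D.d * NN V / (t1 * D.bv {c}) ^ 2 *
          (2 * cL C k * D.bv {c} ^ 2 * (2 * cL C k * (D.be {c} * D.bv {c}))) := by
      field_simp
      ring
    rw [e2, e3]
    exact mul_le_mul_of_nonneg_left h3 (by positivity)
  rw [ed_comm hA.symm]
  have h5 : 0 ≤ 4 * K / k * ω * NN V * D.d := by positivity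
  have e4 : 32 * C * cL C k ^ 2 / t1 ^ 2 = 2 * (16 * C * cL C k ^ 2 / t1 ^ 2) := by ring
  rw [e4]
  linarith

theorem Par.clean_count (hP : D.Par C K ω k g M η t) (ht1 : 0 < t1) :
    ∑ a ∈ D.X.filter (fun a => D.Good η t (D.cl a)),
      (((nb D.E D.Y a).filter fun b => ¬ D.Cl η t t1 a b).card : ℝ) ≤
      (32 * C * cL C k ^ 2 / t1 ^ 2 + M * (2 + 4 * K / k) * ω) * NN V * D.d := by
  have hA := hP.ok.amb
  have hd := hA.dpos
  have hN := hA.Npos
  have hω := hA.ωpos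
  have hk := hP.kpos
  have hC : 0 < C := one_pos.trans_le hP.C1
  have hK : 0 < K := one_pos.trans_le hP.K1
  set R : ι → Finset V := fun c => D.Y.filter fun b =>
    t1 * D.bv {c} * D.d < (nb D.E (D.pt {c}) b).card with hR
  have h1 : ∑ a ∈ D.X.filter (fun a => D.Good η t (D.cl a)),
      ((nb D.E D.Y a).filter fun b => ¬ D.Cl η t t1 a b).card ≤
      ∑ c, ed D.E (D.pt {c}) (R c) := by
    calc _ ≤ ∑ a ∈ D.X.filter (fun a => D.Good η t (D.cl a)), (nb D.E (R (D.cl a)) a).card :=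
          sum_le_sum fun a ha => card_le_card fun b hb => by
            obtain ⟨e1, e2⟩ := mem_filter.1 ha
            obtain ⟨e3, e4⟩ := mem_filter.1 hb
            obtain ⟨e5, e6⟩ := mem_nb.1 e3
            exact mem_nb.2 ⟨mem_filter.2 ⟨e5, not_le.1 fun e => e4 ⟨e1, e2, e5, e6, e⟩⟩, e6⟩
      _ ≤ ∑ a ∈ D.X, (nb D.E (R (D.cl a)) a).card := sum_le_sum_of_subset (filter_subset _ _)
      _ = _ := by
          rw [← sum_fiberwise_of_maps_to (g := D.cl) (t := univ) fun _ _ => mem_univ _]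
          refine sum_congr rfl fun c _ => sum_congr ?_ fun a ha => ?_
          · simp only [pt, mem_singleton]
          · rw [mem_singleton.1 (mem_filter.1 ha).2]
  have h2 := (Nat.cast_le (α := ℝ)).2 h1
  push_cast at h2
  refine h2.trans ((sum_le_sum fun c _ => hP.dirty ht1 c).trans ?_)
  rw [← sum_mul, ← sum_mul, sum_add_distrib, ← mul_sum, sum_const, card_univ, nsmul_eq_mul]
  have h3 := tg_prod univ (fun c => D.H {c}) (fun c => D.U {c}) fun x _ y _ b b' =>
    hP.ok.geo.single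
  have h4 := mul_le_mul_of_nonneg_left h3
    (show 0 ≤ 32 * C * cL C k ^ 2 / t1 ^ 2 by positivity)
  have h5 := mul_le_mul_of_nonneg_right ((Nat.cast_le (α := ℝ)).2 hP.ok.cι)
    (show 0 ≤ (2 + 4 * K / k) * ω by positivity)
  refine mul_le_mul_of_nonneg_right (mul_le_mul_of_nonneg_right ?_ hN.le) hd.le
  unfold be bv
  linarith

theorem Par.clean_ball (hP : D.Par C K ω k g M η t) (ht1 : 0 ≤ t1) (b : V) (S : Finset ι) :
    ((D.X.filter fun a => D.Cl η t t1 a b ∧ D.cl a ∈ S).card : ℝ) ≤ t1 * D.bv S * D.d := by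
  have hA := hP.ok.amb
  set A := D.X.filter fun a => D.Cl η t t1 a b ∧ D.cl a ∈ S with hAd
  have hJ : ∀ c ∈ A.image D.cl, c ∈ S ∧ b ∈ D.H {c} ∧
      ((nb D.E (D.pt {c}) b).card : ℝ) ≤ t1 * D.bv {c} * D.d := fun c hc => by
    obtain ⟨a, ha, rfl⟩ := mem_image.1 hc
    obtain ⟨e1, ⟨-, -, e2, e3, e4⟩, e5⟩ := mem_filter.1 ha
    exact ⟨e5, mem_filter.2 ⟨e2, a, e1, mem_singleton_self _, e3⟩, e4⟩
  have h1 : A.card ≤ ∑ c ∈ A.image D.cl, (nb D.E (D.pt {c}) b).card := by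
    refine le_trans (card_le_card fun a ha => ?_) card_biUnion_le
    obtain ⟨e1, e2, -⟩ := mem_filter.1 ha
    exact mem_biUnion.2 ⟨_, mem_image_of_mem _ ha,
      mem_nb.2 ⟨mem_filter.2 ⟨e1, mem_singleton_self _⟩, hA.symm _ _ e2.2.2.2.1⟩⟩
  have h2 : ∑ c ∈ A.image D.cl, (D.U {c}).card ≤ (D.U S).card := by
    rw [← card_biUnion]
    · exact card_le_card (biUnion_subset.2 fun c hc =>
        U_mono (singleton_subset_iff.2 (hJ c hc).1))
    · exact fun c hc c' hc' hne => disjoint_left.2 fun y e e' =>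
        hne (hP.ok.geo.single (hJ c hc).2.1 (hJ c' hc').2.1 e e')
  have h3 := (Nat.cast_le (α := ℝ)).2 h1
  push_cast at h3
  refine h3.trans ((sum_le_sum fun c hc => (hJ c hc).2.2).trans ?_)
  rw [← sum_mul, ← mul_sum]
  refine mul_le_mul_of_nonneg_right (mul_le_mul_of_nonneg_left ?_ ht1) hA.dpos.le
  unfold bv
  rw [← sum_div]
  exact div_le_div_of_nonneg_right (by exact_mod_cast h2) (Nat.cast_nonneg _)
end TD

end
end Pool.Agent.Lib.MP_439fea_co.Pw
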