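import Pool.Agent.Lib.MP_439fea_co.Pw.TCls
import Pool.Agent.Lib.MP_439fea_co.Pw.TClean
import Pool.Agent.Lib.MP_439fea_co.Pw.SCnt

/-! The potential argument on the tree of states. -/

namespace Pool.Agent.Lib.MP_439fea_co.Pw
open Finset Pool.Agent.Lib.MP_439fea_co.Z
open scoped Classical
noncomputable section

theorem ts_pack {V A O : Type} [DecidableEq A] (S : Finset O) (r : O → A) (f : A → Finset V) (P : Finset V)
    (hsub : ∀ o ∈ S, f (r o) ⊆ P)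
    (hdis : ∀ o ∈ S, ∀ o' ∈ S, r o ≠ r o' → Disjoint (f (r o)) (f (r o'))) :
    ∑ z ∈ S.image r, ((f z).card : ℝ) ≤ P.card := by
  rw [← Nat.cast_sum]
  refine Nat.cast_le.2 ?_
  rw [← card_biUnion]
  · refine card_le_card (biUnion_subset.2 fun z hz => ?_)
    obtain ⟨o, ho, rfl⟩ := mem_image.1 hz
    exact hsub o ho
  · intro z hz z' hz' hne
    obtain ⟨o, ho, rfl⟩ := mem_image.1 (mem_coe.1 hz)
    obtain ⟨o', ho', rfl⟩ := mem_image.1 (mem_coe.1 hz')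
    exact hdis o ho o' ho' hne

namespace TD
variable {V F Γ ι : Type} [Field F] [LinearOrderedCommGroupWithZero Γ] {D : TD V F Γ ι}

theorem ts_le {c c' c'' : ι} {s : Γ} (h : D.ds c c' ≤ s) (h' : D.ds c c'' ≤ s) :
    D.ds c' c'' ≤ s :=
  (ds_ultra c' c c'').trans (max_le (by rw [ds_comm]; exact h) h')

theorem ts_z (c c' : ι) : D.u (D.pz c - D.pz c') ≤ D.ds c c' := le_max_left _ _
theorem ts_w (c c' : ι) : D.u (D.pw c - D.pw c') ≤ D.ds c c' := le_max_right _ _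

theorem ts_tri (x y z : F) {s : Γ} (h : D.u (x - y) < s) (h' : D.u (y - z) < s) :
    D.u (x - z) < s := by
  have e : x - z = (x - y) + (y - z) := by ring
  rw [e]
  exact D.u.map_add_lt h h'

theorem ts_symm (x y : F) {s : Γ} (h : D.u (x - y) < s) : D.u (y - x) < s := by
  rw [D.u.map_sub_swap]; exact h

variable [Fintype ι]

theorem ts_ball {c c' : ι} {s : Γ} (h : D.ds c c' ≤ s) : D.ball c s = D.ball c' s := by
  ext e
  simp only [ball, mem_filter, mem_univ, true_and]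
  exact ⟨fun h' => ts_le h h', fun h' => (ds_ultra c c' e).trans (max_le h h')⟩

theorem ts_col {c c' : ι} {s : Γ} (h : D.ds c c' ≤ s) (hz : D.u (D.pz c - D.pz c') < s) :
    D.col c s = D.col c' s := by
  ext e
  simp only [col, mem_filter, mem_univ, true_and]
  exact ⟨fun h' => ⟨ts_le h h'.1, ts_tri _ _ _ (ts_symm _ _ hz) h'.2⟩,
    fun h' => ⟨(ds_ultra c c' e).trans (max_le h h'.1), ts_tri _ _ _ hz h'.2⟩⟩

variable [Fintype V]

omit [Fintype ι] in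
theorem ts_be0 (S : Finset ι) : 0 ≤ D.be S := div_nonneg (Nat.cast_nonneg _) (Nat.cast_nonneg _)
omit [Fintype ι] in
theorem ts_bv0 (S : Finset ι) : 0 ≤ D.bv S := div_nonneg (Nat.cast_nonneg _) (Nat.cast_nonneg _)

omit [Fintype ι] in
theorem ts_be1 (S : Finset ι) : D.be S ≤ 1 :=
  div_le_one_of_le₀ (Nat.cast_le.2 (card_le_univ _)) (Nat.cast_nonneg _)
omit [Fintype ι] in
theorem ts_bv1 (S : Finset ι) : D.bv S ≤ 1 :=
  div_le_one_of_le₀ (Nat.cast_le.2 (card_le_univ _)) (Nat.cast_nonneg _)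

omit [Fintype ι] in
theorem ts_bem {S S' : Finset ι} (h : S ⊆ S') : D.be S ≤ D.be S' :=
  div_le_div_of_nonneg_right (Nat.cast_le.2 (card_le_card (H_mono h))) (Nat.cast_nonneg _)
omit [Fintype ι] in
theorem ts_bvm {S S' : Finset ι} (h : S ⊆ S') : D.bv S ≤ D.bv S' :=
  div_le_div_of_nonneg_right (Nat.cast_le.2 (card_le_card (U_mono h))) (Nat.cast_nonneg _)

namespace Tri
variable {C K ω k g η t t1 t2 τ θ : ℝ} {M : ℕ} (T : D.Tri) {Ω : Finset (V × (Fin 3 → V))}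

theorem ts_alive (hΩ : T.Sur η t t1 t2 τ Ω) {x : V × (Fin 3 → V)} (hx : x ∈ Ω) {j : ℕ}
    (hj : j ≤ T.tm τ x.1) (i : Fin 3) : D.alive (D.cl (x.2 i)) (T.rad i j) :=
  (hΩ x hx i).2.2.1.mono (T.rad_anti i hj)

theorem ts_mh (h : D.Geo) (hΩ : T.Sur η t t1 t2 τ Ω) {x : V × (Fin 3 → V)} (hx : x ∈ Ω) {j : ℕ}
    (hj : j ≤ T.tm τ x.1) (i : Fin 3) : D.mh x.1 (D.cl (x.2 i)) (T.rad i j) :=
  h.mh_adj (hΩ x hx i).1.1 (hΩ x hx i).1.2.2.1 (hΩ x hx i).1.2.2.2.1 (T.ts_alive hΩ hx hj i)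

/-- All curves of a state lie in one class. -/
theorem ts_cls (h : D.Geo) (hc : D.Col) (hΩ : T.Sur η t t1 t2 τ Ω) {x y : V × (Fin 3 → V)}
    (hx : x ∈ Ω) {j : ℕ} (hj : j ≤ T.tm τ x.1) (hy : y ∈ T.sta τ Ω j fun i => D.cl (x.2 i)) :
    y.1 ∈ T.cls j x.1 := by
  obtain ⟨hyΩ, hjy, hbl⟩ := mem_filter.1 hy
  have hyY : y.1 ∈ D.Y := (hΩ y hyΩ 0).1.2.2.1
  have hm : ∀ i, D.mh y.1 (D.cl (x.2 i)) (T.rad i j) := fun i => by
    have h1 : D.ds (D.cl (y.2 i)) (D.cl (x.2 i)) < T.rad i j := by rw [ds_comm]; exact hbl i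
    exact h.mh_move hyY (T.ts_mh h hΩ hyΩ hjy i) ((ts_z _ _).trans h1.le)
      ((ts_w _ _).trans_lt h1)
  have e1 := (T.rad_one j).1
  have e2 := (T.rad_one j).2
  exact T.cls_of h hc (hΩ x hx 1).2.1 (hΩ x hx 2).2.1 (hΩ x hx 0).1.2.2.1 hyY
    (e1 ▸ T.ts_mh h hΩ hx hj 1) (e2 ▸ T.ts_mh h hΩ hx hj 2) (e1 ▸ hm 1) (e2 ▸ hm 2)

theorem sta_term (hP : D.Par C K ω k g M η t) (hc : D.Col) (hτ : 0 < τ) (ht1 : 0 ≤ t1)
    (ht2 : 1 ≤ t2) (hθ : 0 < θ) (hθ1 : θ ≤ 1) (hΩ : T.Sur η t t1 t2 τ Ω)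
    {x : V × (Fin 3 → V)} (hx : x ∈ Ω) :
    ((T.sta τ Ω (T.tm τ x.1) fun i => D.cl (x.2 i)).card : ℝ) ≤
      t1 ^ 3 * t2 * τ ^ (θ / 2) * NN V * D.d ^ 3 *
        T.Wt θ (T.tm τ x.1) fun i => D.cl (x.2 i) := by
  have hd := hP.ok.amb.dpos
  have hN := hP.ok.amb.Npos
  set j := T.tm τ x.1 with hj
  set Q : V → Fin 3 → Finset V := fun b i =>
    D.X.filter fun a => D.Cl η t t1 a b ∧ D.cl a ∈ D.kid (D.cl (x.2 i)) (T.rad i j) with hQ
  set u : Fin 3 → ℝ := fun i => D.bv (D.kid (D.cl (x.2 i)) (T.rad i j)) with hu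
  have hu0 : ∀ i, 0 ≤ u i := fun i => ts_bv0 _
  have hQle : ∀ b i, ((Q b i).card : ℝ) ≤ t1 * D.d * u i := fun b i =>
    (hP.clean_ball ht1 b _).trans (le_of_eq (by simp only [hu]; ring))
  have hsub : (T.sta τ Ω j fun i => D.cl (x.2 i)) ⊆
      (T.cls j x.1).biUnion fun b => {b} ×ˢ Fintype.piFinset (Q b) := by
    intro y hy
    have h1 := T.ts_cls hP.ok.geo hc hΩ hx le_rfl hy
    obtain ⟨hyΩ, -, hbl⟩ := mem_filter.1 hy
    refine mem_biUnion.2 ⟨y.1, h1, mem_product.2 ⟨mem_singleton_self _,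
      Fintype.mem_piFinset.2 fun i => ?_⟩⟩
    exact mem_filter.2 ⟨(hΩ y hyΩ i).1.1, (hΩ y hyΩ i).1, mem_filter.2 ⟨mem_univ _, hbl i⟩⟩
  have h1 : ((T.sta τ Ω j fun i => D.cl (x.2 i)).card : ℝ) ≤
      (T.cls j x.1).card * ((t1 * D.d) ^ 3 * ∏ i, u i) := by
    have h2 := (card_le_card hsub).trans card_biUnion_le
    have h3 : ((T.sta τ Ω j fun i => D.cl (x.2 i)).card : ℝ) ≤
        ∑ b ∈ T.cls j x.1, ((({b} : Finset V) ×ˢ Fintype.piFinset (Q b)).card : ℝ) := by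
      exact_mod_cast h2
    refine h3.trans ?_
    rw [← nsmul_eq_mul]
    refine sum_le_card_nsmul _ _ _ fun b _ => ?_
    rw [card_product, card_singleton, one_mul, Fintype.card_piFinset, Nat.cast_prod]
    refine (prod_le_prod (fun i _ => Nat.cast_nonneg _) fun i _ => hQle b i).trans ?_
    rw [prod_mul_distrib, prod_const, card_univ, Fintype.card_fin]
  set l : ℝ := ((T.cls j x.1).card : ℝ) / NN V with hl
  have hthin : ∀ i, l ≤ t2 * D.be (D.kid (D.cl (x.2 i)) (T.rad i j)) ^ 2 := fun i =>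
    not_lt.1 (hΩ x hx i).2.2.2
  have hlτ : l ≤ τ := by
    rw [hl, div_le_iff₀ hN]
    exact (T.tm_lt (mul_pos hτ hN) x.1).le
  have h4 := term_real (div_nonneg (Nat.cast_nonneg _) hN.le) ht2 hθ hθ1 (ts_be0 _) (ts_be0 _)
    (ts_be0 _) hlτ (hthin 0) (hthin 1) (hthin 2)
  have hp : 0 ≤ ∏ i, u i := prod_nonneg fun i _ => hu0 i
  have e : ((T.cls j x.1).card : ℝ) = l * NN V := (div_mul_cancel₀ _ hN.ne').symm
  rw [e] at h1
  refine h1.trans ?_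
  have h5 := mul_le_mul_of_nonneg_right h4
    (mul_nonneg hN.le (mul_nonneg (pow_nonneg (mul_nonneg ht1 hd.le) 3) hp))
  rw [mul_assoc]
  refine h5.trans (le_of_eq ?_)
  have e2 : (T.Wt θ j fun i => D.cl (x.2 i)) =
      D.be (D.kid (D.cl (x.2 0)) (T.rad 0 j)) ^ (1 - θ) *
      √(D.be (D.kid (D.cl (x.2 1)) (T.rad 1 j)) * D.be (D.kid (D.cl (x.2 2)) (T.rad 2 j))) *
      ∏ i, u i := rfl
  rw [e2]
  generalize D.be (D.kid (D.cl (x.2 0)) (T.rad 0 j)) ^ (1 - θ) = A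
  generalize √(D.be (D.kid (D.cl (x.2 1)) (T.rad 1 j)) *
    D.be (D.kid (D.cl (x.2 2)) (T.rad 2 j))) = B
  generalize ∏ i, u i = P
  generalize τ ^ (θ / 2) = R
  ring

theorem sta_step [CharZero F] (hP : D.Par C K ω k g M η t) (hc : D.Col) (hτ : 0 < τ)
    (hθ : 0 < θ) (hθ1 : θ ≤ 1) (hηθ : 1 - η ^ 3 / 32 ≤ η ^ θ) (hΩ : T.Sur η t t1 t2 τ Ω)
    {Λ : ℝ} (hΛ : 0 ≤ Λ) {j : ℕ} {x : V × (Fin 3 → V)} (hx : x ∈ Ω) (hj : j < T.tm τ x.1)
    (ih : ∀ y ∈ Ω, j + 1 ≤ T.tm τ y.1 →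
      ((T.sta τ Ω (j + 1) fun i => D.cl (y.2 i)).card : ℝ) ≤
        Λ * T.Wt θ (j + 1) fun i => D.cl (y.2 i)) :
    ((T.sta τ Ω j fun i => D.cl (x.2 i)).card : ℝ) ≤ Λ * T.Wt θ j fun i => D.cl (x.2 i) := by
  have hG := hP.ok.geo
  have hN := hP.ok.amb.Npos
  have hη := hP.ηpos
  have hτN := mul_pos hτ hN
  have hl0 : T.lev j ≠ 0 := (T.rad_ne 0 j).1 (hG.alive_ne (T.ts_alive hΩ hx hj.le 0))
  have hl1 : T.lev (j + 1) ≠ 0 := (T.rad_ne 0 (j + 1)).1 (hG.alive_ne (T.ts_alive hΩ hx hj 0))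
  have hr1 : ∀ i, T.rad i (j + 1) ≠ 0 := fun i => (T.rad_ne i (j + 1)).2 hl1
  obtain ⟨G, _, ρ, htf, hρ, hsum⟩ := T.digits hG hc hl1
  set S := T.sta τ Ω j fun i => D.cl (x.2 i) with hS
  set P : Fin 3 → Finset ι := fun i => D.ball (D.cl (x.2 i)) (T.rad i (j + 1)) with hPd
  have hSΩ : ∀ y ∈ S, y ∈ Ω := fun y hy => (mem_filter.1 hy).1
  have hSb : ∀ y ∈ S, ∀ i, D.ds (D.cl (x.2 i)) (D.cl (y.2 i)) ≤ T.rad i (j + 1) := fun y hy i =>
    (T.ds_lt_iff hl0 i _ _).1 ((mem_filter.1 hy).2.2 i)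
  have hbb : ∀ y ∈ S, ∀ y' ∈ S, ∀ i, D.ds (D.cl (y.2 i)) (D.cl (y'.2 i)) ≤ T.rad i (j + 1) :=
    fun y hy y' hy' i => ts_le (hSb y hy i) (hSb y' hy' i)
  have htm : ∀ y ∈ S, j + 1 ≤ T.tm τ y.1 := fun y hy =>
    (T.lt_tm hτN y.1).2 (by
      rw [T.cls_eq (T.ts_cls hG hc hΩ hx hj.le hy)]; exact (T.lt_tm hτN x.1).1 hj)
  have hal : ∀ y ∈ S, ∀ i, D.alive (D.cl (y.2 i)) (T.rad i (j + 1)) := fun y hy i =>
    T.ts_alive hΩ (hSΩ y hy) (htm y hy) i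
  have hPe : ∀ y ∈ S, ∀ i, D.ball (D.cl (y.2 i)) (T.rad i (j + 1)) = P i := fun y hy i =>
    (ts_ball (hSb y hy i)).symm
  have hrow : ∀ y ∈ S, ∀ i, ((P i).filter fun e => ρ i e = ρ i (D.cl (y.2 i))) =
      D.row (D.cl (y.2 i)) (T.rad i (j + 1)) := by
    intro y hy i
    rw [← hPe y hy i]
    ext e
    simp only [ball, row, mem_filter, mem_univ, true_and]
    exact and_congr_right fun _ => eq_comm.trans (hρ i _ _)
  have hbe : ∀ i, 0 < D.be (P i) := fun i => by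
    refine div_pos (Nat.cast_pos.2 (card_pos.2 ⟨x.1, ?_⟩)) hN
    refine mem_filter.2 ⟨(hΩ x hx i).1.2.2.1, x.2 i, (hΩ x hx i).1.1, ?_, (hΩ x hx i).1.2.2.2.1⟩
    exact mem_filter.2 ⟨mem_univ _, by rw [ds_self]; exact zero_le⟩
  have hbv : ∀ i, 0 < D.bv (P i) := fun i => by
    have h1 := (hbe i).trans_le ((hΩ x hx i).1.2.1.1 (T.rad i (j + 1))).1
    by_contra h2
    have h3 : D.bv (D.ball (D.cl (x.2 i)) (T.rad i (j + 1))) = 0 :=
      le_antisymm (not_lt.1 h2) (ts_bv0 _)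
    rw [h3, mul_zero] at h1
    exact lt_irrefl _ h1
  set p : Fin 3 → G → ℝ := fun i z => D.be ((P i).filter fun e => ρ i e = z) / D.be (P i) with hp
  set c : Fin 3 → V × (Fin 3 → V) → Finset ι := fun i y =>
    D.col (D.cl (y.2 i)) (T.rad i (j + 1)) with hcd
  set q : Fin 3 → Finset ι → ℝ := fun i R => D.bv R / D.bv (P i) with hq
  have hp0 : ∀ i z, 0 ≤ p i z := fun i z => div_nonneg (ts_be0 _) (ts_be0 _)
  have hq0 : ∀ i R, 0 ≤ q i R := fun i R => div_nonneg (ts_bv0 _) (ts_bv0 _)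
  have hps : ∀ i, ∑ z ∈ S.image (fun y => ρ i (D.cl (y.2 i))), p i z ≤ 1 := by
    intro i
    simp only [hp, be]
    rw [← sum_div, ← sum_div]
    refine div_le_one_of_le₀ (div_le_div_of_nonneg_right ?_ hN.le) (ts_be0 _)
    refine ts_pack S _ (fun z => D.H ((P i).filter fun e => ρ i e = z)) _
      (fun y _ => H_mono (filter_subset _ _)) fun y hy y' hy' hne => ?_
    refine disjoint_left.2 fun b h1 h2 => hne ?_
    simp only [hrow y hy i] at h1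
    simp only [hrow y' hy' i] at h2
    exact (hρ i _ _).2 (hG.row_of (mem_filter.1 h1).1 (hG.mh_row h1 (hal y hy i))
      (hG.mh_row h2 (hal y' hy' i)) ((ts_z _ _).trans (hbb y hy y' hy' i)))
  have hqs : ∀ i, ∑ R ∈ S.image (c i), q i R ≤ 1 := by
    intro i
    simp only [hq, bv]
    rw [← sum_div, ← sum_div]
    refine div_le_one_of_le₀ (div_le_div_of_nonneg_right ?_ hN.le) (ts_bv0 _)
    refine ts_pack S (c i) D.U _ (fun y hy => U_mono ?_) fun y hy y' hy' hne => ?_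
    · rw [← hPe y hy i]
      exact fun e he => mem_filter.2 ⟨mem_univ _, (mem_filter.1 he).2.1⟩
    · refine disjoint_left.2 fun b h1 h2 => hne ?_
      exact ts_col (hbb y hy y' hy' i) (hG.col_of (mem_filter.1 h1).1 (hG.mv_col h1 (hal y hy i))
        (hG.mv_col h2 (hal y' hy' i)) ((ts_w _ _).trans (hbb y hy y' hy' i)))
  have hpη : ∀ y ∈ S, ∀ i, η ≤ p i (ρ i (D.cl (y.2 i))) := by
    intro y hy i
    have h1 := ((hΩ y (hSΩ y hy) i).1.2.1.2 _ (hr1 i)).1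
    rw [hPe y hy i] at h1
    simp only [hp]
    rw [hrow y hy i, le_div_iff₀ (hbe i)]
    exact h1
  have hpm : ∀ y ∈ S, ∀ i, D.be (D.kid (D.cl (y.2 i)) (T.rad i (j + 1))) ≤
      p i (ρ i (D.cl (y.2 i))) * D.be (P i) := by
    intro y hy i
    simp only [hp]
    rw [hrow y hy i, div_mul_cancel₀ _ (hbe i).ne']
    exact ts_bem fun e he => mem_filter.2 ⟨mem_univ _, (mem_filter.1 he).2.le,
      (ts_w _ _).trans_lt (mem_filter.1 he).2⟩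
  have hqm : ∀ y i, D.bv (D.kid (D.cl (y.2 i)) (T.rad i (j + 1))) ≤ q i (c i y) * D.bv (P i) := by
    intro y i
    simp only [hq]
    rw [div_mul_cancel₀ _ (hbv i).ne']
    exact ts_bvm fun e he => mem_filter.2 ⟨mem_univ _, (mem_filter.1 he).2.le,
      (ts_z _ _).trans_lt (mem_filter.1 he).2⟩
  have hW : (T.Wt θ j fun i => D.cl (x.2 i)) = D.be (P 0) ^ (1 - θ) *
      √(D.be (P 1) * D.be (P 2)) * (D.bv (P 0) * D.bv (P 1) * D.bv (P 2)) := by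
    unfold Wt
    simp only [Fin.prod_univ_three, T.kid_eq hl0, hPd]
  have hW0 : 0 ≤ T.Wt θ j fun i => D.cl (x.2 i) :=
    mul_nonneg (mul_nonneg (Real.rpow_nonneg (ts_be0 _) _) (Real.sqrt_nonneg _))
      (prod_nonneg fun i _ => ts_bv0 _)
  refine step_count htf S (fun y => ρ 0 (D.cl (y.2 0))) (fun y => ρ 1 (D.cl (y.2 1)))
    (fun y => ρ 2 (D.cl (y.2 2))) (c 0) (c 1) (c 2) (p 0) (p 1) (p 2) (q 0) (q 1) (q 2)
    (hp0 0) (hp0 1) (hp0 2) (hq0 0) (hq0 1) (hq0 2) (hps 0) (hps 1) (hps 2) (hqs 0) (hqs 1) (hqs 2)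
    (k := η ^ (-θ)) hη (mul_nonneg hΛ hW0) (fun z => z ^ (1 - θ)) ?_ ?_
    (ρ 0 (D.cl (x.2 0)) + ρ 1 (D.cl (x.2 1)) + ρ 2 (D.cl (x.2 2))) ?_ ?_
  · intro z h1 h2
    have hz : 0 < z := hη.trans_le h1
    refine ⟨Real.rpow_nonneg hz.le _, Real.rpow_le_one hz.le h2 (by linarith), ?_⟩
    rw [sub_eq_neg_add, Real.rpow_add hz, Real.rpow_one]
    exact mul_le_mul_of_nonneg_right (Real.rpow_le_rpow_of_nonpos hη h1 (by linarith)) hz.le
  · rw [Real.rpow_neg hη.le, inv_mul_le_iff₀ (Real.rpow_pos_of_pos hη _), mul_one]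
    exact hηθ
  · intro y hy
    refine ⟨?_, hpη y hy 0, hpη y hy 2⟩
    refine hsum y.1 (hΩ y (hSΩ y hy) 0).1.2.2.1 x.1 (hΩ x hx 0).1.2.2.1 (fun i => D.cl (y.2 i))
      (fun i => D.cl (x.2 i)) fun i => ⟨(hΩ y (hSΩ y hy) i).2.1, (hΩ x hx i).2.1, ?_,
        T.ts_mh hG hΩ (hSΩ y hy) (htm y hy) i, T.ts_mh hG hΩ hx hj i⟩
    rw [ds_comm]
    exact hSb y hy i
  · intro y hy
    have h1 := ih y (hSΩ y hy) (htm y hy)
    refine le_trans (Nat.cast_le.2 (card_le_card ?_)) (h1.trans ?_)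
    · intro y' hy'
      obtain ⟨hy', e0, e1, e2, f0, f1, f2⟩ := mem_filter.1 hy'
      have he : ∀ i, ρ i (D.cl (y'.2 i)) = ρ i (D.cl (y.2 i)) := fun i => by
        fin_cases i
        exacts [e0, e1, e2]
      have hf : ∀ i, c i y' = c i y := fun i => by
        fin_cases i
        exacts [f0, f1, f2]
      refine mem_filter.2 ⟨hSΩ y' hy', htm y' hy', fun i => max_lt ?_ ((hρ i _ _).1 (he i).symm)⟩
      have h2 : D.cl (y'.2 i) ∈ c i y' := mem_filter.2 ⟨mem_univ _,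
        by rw [ds_self]; exact zero_le, by rw [sub_self, map_zero]; exact zero_lt_iff.2 (hr1 i)⟩
      rw [hf i] at h2
      exact (mem_filter.1 h2).2.2
    · have a0 : D.be (D.kid (D.cl (y.2 0)) (T.rad 0 (j + 1))) ^ (1 - θ) ≤
          p 0 (ρ 0 (D.cl (y.2 0))) ^ (1 - θ) * D.be (P 0) ^ (1 - θ) := by
        rw [← Real.mul_rpow (hp0 0 _) (ts_be0 _)]
        exact Real.rpow_le_rpow (ts_be0 _) (hpm y hy 0) (by linarith)
      have a1 : √(D.be (D.kid (D.cl (y.2 1)) (T.rad 1 (j + 1))) *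
          D.be (D.kid (D.cl (y.2 2)) (T.rad 2 (j + 1)))) ≤
          √(p 1 (ρ 1 (D.cl (y.2 1))) * p 2 (ρ 2 (D.cl (y.2 2)))) * √(D.be (P 1) * D.be (P 2)) := by
        rw [← Real.sqrt_mul (mul_nonneg (hp0 1 _) (hp0 2 _)), mul_mul_mul_comm]
        exact Real.sqrt_le_sqrt (mul_le_mul (hpm y hy 1) (hpm y hy 2) (ts_be0 _)
          (mul_nonneg (hp0 1 _) (ts_be0 _)))
      have a2 : ∏ i, D.bv (D.kid (D.cl (y.2 i)) (T.rad i (j + 1))) ≤
          ∏ i, q i (c i y) * D.bv (P i) :=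
        prod_le_prod (fun i _ => ts_bv0 _) fun i _ => hqm y i
      have a3 := mul_le_mul (mul_le_mul a0 a1 (Real.sqrt_nonneg _)
        (mul_nonneg (Real.rpow_nonneg (hp0 0 _) _) (Real.rpow_nonneg (ts_be0 _) _))) a2
        (prod_nonneg fun i _ => ts_bv0 _)
        (mul_nonneg (mul_nonneg (Real.rpow_nonneg (hp0 0 _) _) (Real.rpow_nonneg (ts_be0 _) _))
          (mul_nonneg (Real.sqrt_nonneg _) (Real.sqrt_nonneg _)))
      refine (mul_le_mul_of_nonneg_left a3 hΛ).trans (le_of_eq ?_)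
      rw [hW, Fin.prod_univ_three]
      ring

theorem sur_le [CharZero F] (hP : D.Par C K ω k g M η t) (hc : D.Col) (hτ : 0 < τ) (ht1 : 0 ≤ t1)
    (ht2 : 1 ≤ t2) (hθ : 0 < θ) (hθ1 : θ ≤ 1) (hηθ : 1 - η ^ 3 / 32 ≤ η ^ θ)
    {Ω : Finset (V × (Fin 3 → V))} (hΩ : T.Sur η t t1 t2 τ Ω) :
    (Ω.card : ℝ) ≤ t1 ^ 3 * t2 * τ ^ (θ / 2) * NN V * D.d ^ 3 := by
  have hd := hP.ok.amb.dpos
  have hN := hP.ok.amb.Npos
  have hΛ : 0 ≤ t1 ^ 3 * t2 * τ ^ (θ / 2) * NN V * D.d ^ 3 :=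
    mul_nonneg (mul_nonneg (mul_nonneg (mul_nonneg (pow_nonneg ht1 3) (by linarith))
      (Real.rpow_nonneg hτ.le _)) hN.le) (pow_pos hd 3).le
  set Λ := t1 ^ 3 * t2 * τ ^ (θ / 2) * NN V * D.d ^ 3 with hΛd
  rcases Ω.eq_empty_or_nonempty with h | ⟨x, hx⟩
  · simpa [h] using hΛ
  obtain ⟨n, hn⟩ : ∃ n : ℕ, ∀ y ∈ Ω, T.tm τ y.1 ≤ n := by
    obtain ⟨y, -, hy⟩ := exists_max_image Ω (fun y => T.tm τ y.1) ⟨x, hx⟩
    exact ⟨_, hy⟩
  have key : ∀ m j, ∀ y ∈ Ω, j ≤ T.tm τ y.1 → n ≤ j + m →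
      ((T.sta τ Ω j fun i => D.cl (y.2 i)).card : ℝ) ≤ Λ * T.Wt θ j fun i => D.cl (y.2 i) := by
    intro m
    induction m with
    | zero =>
      intro j y hy h1 h2
      have h3 : j = T.tm τ y.1 := le_antisymm h1 ((hn y hy).trans h2)
      rw [h3]
      exact T.sta_term hP hc hτ ht1 ht2 hθ hθ1 hΩ hy
    | succ m ih =>
      intro j y hy h1 h2
      rcases h1.eq_or_lt with h1 | h1
      · rw [h1]
        exact T.sta_term hP hc hτ ht1 ht2 hθ hθ1 hΩ hy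
      · exact T.sta_step hP hc hτ hθ hθ1 hηθ hΩ hΛ hy h1 fun y' hy' h =>
          ih (j + 1) y' hy' h (by omega)
  have h1 := key n 0 x hx (Nat.zero_le _) (Nat.zero_add _).ge
  have h2 : Ω ⊆ T.sta τ Ω 0 fun i => D.cl (x.2 i) := fun y hy =>
    mem_filter.2 ⟨hy, Nat.zero_le _, fun i => by
      rw [T.rad_zero]
      refine (ds_ultra _ (T.p i) _).trans_lt (max_lt (hΩ x hx i).2.1 ?_)
      rw [ds_comm]
      exact (hΩ y hy i).2.1⟩
  have h3 : (T.Wt θ 0 fun i => D.cl (x.2 i)) ≤ 1 :=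
    mul_le_one₀ (mul_le_one₀ (Real.rpow_le_one (ts_be0 _) (ts_be1 _) (by linarith))
      (Real.sqrt_nonneg _) (Real.sqrt_le_one.2 (mul_le_one₀ (ts_be1 _) (ts_be0 _) (ts_be1 _))))
      (prod_nonneg fun i _ => ts_bv0 _) (prod_le_one (fun i _ => ts_bv0 _) fun i _ => ts_bv1 _)
  calc (Ω.card : ℝ) ≤ (T.sta τ Ω 0 fun i => D.cl (x.2 i)).card := Nat.cast_le.2 (card_le_card h2)
    _ ≤ Λ * T.Wt θ 0 fun i => D.cl (x.2 i) := h1
    _ ≤ Λ * 1 := mul_le_mul_of_nonneg_left h3 hΛ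
    _ = Λ := mul_one Λ

end Tri
end TD

end
end Pool.Agent.Lib.MP_439fea_co.Pw
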