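import Pool.Agent.Lib.MP_439fea_co.Pw.TGeo

/-! Most points lie in good clusters. -/

namespace Pool.Agent.Lib.MP_439fea_co.Pw
open Finset Pool.Agent.Lib.MP_439fea_co.Z
open scoped Classical
noncomputable section
set_option linter.unusedSectionVars false

/-- Pairwise disjoint products fill at most the whole square. -/
theorem tg_prod {V κ : Type} [Fintype V] (J : Finset κ) (A B : κ → Finset V)
    (hd : ∀ x ∈ J, ∀ y ∈ J, ∀ b b', b ∈ A x → b ∈ A y → b' ∈ B x → b' ∈ B y → x = y) :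
    ∑ x ∈ J, ((A x).card / NN V * ((B x).card / NN V) : ℝ) ≤ 1 := by
  have h1 : ∑ x ∈ J, (A x ×ˢ B x).card ≤ Fintype.card (V × V) := by
    rw [← card_biUnion]
    · exact card_le_univ _
    · intro x hx y hy hne
      refine disjoint_left.2 fun z h h' => hne ?_
      exact hd x hx y hy z.1 z.2 (mem_product.1 h).1 (mem_product.1 h').1 (mem_product.1 h).2
        (mem_product.1 h').2
  have h2 := (Nat.cast_le (α := ℝ)).2 h1
  simp only [card_product, Fintype.card_prod] at h2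
  push_cast at h2
  simp only [div_mul_div_comm, ← sum_div]
  exact div_le_one_of_le₀ h2 (by positivity)

namespace TD
variable {V F Γ ι : Type} [Field F] [LinearOrderedCommGroupWithZero Γ] {D : TD V F Γ ι}
  {a b b' : V} {c c' c'' : ι} {s s' : Γ}

theorem tg_z (c c' : ι) : D.u (D.pz c - D.pz c') ≤ D.ds c c' := le_max_left _ _
theorem tg_w (c c' : ι) : D.u (D.pw c - D.pw c') ≤ D.ds c c' := le_max_right _ _
theorem tg_le (h : D.ds c c' ≤ s) (h' : D.ds c' c'' ≤ s) : D.ds c c'' ≤ s :=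
  (ds_ultra c c' c'').trans (max_le h h')
theorem tg_lt (h : D.ds c c' < s) (h' : D.ds c' c'' < s) : D.ds c c'' < s :=
  (ds_ultra c c' c'').trans_lt (max_lt h h')
theorem tg_tr {x y z : F} (h : D.u (x - y) < s) (h' : D.u (y - z) < s) : D.u (x - z) < s := by
  have := D.u.map_add_lt h h'
  rwa [sub_add_sub_cancel] at this

variable [Fintype ι]

theorem mem_ball : c' ∈ D.ball c s ↔ D.ds c c' ≤ s := by simp [ball]
theorem mem_kid : c' ∈ D.kid c s ↔ D.ds c c' < s := by simp [kid]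
theorem mem_row : c' ∈ D.row c s ↔ D.ds c c' ≤ s ∧ D.u (D.pw c - D.pw c') < s := by simp [row]
theorem mem_col : c' ∈ D.col c s ↔ D.ds c c' ≤ s ∧ D.u (D.pz c - D.pz c') < s := by simp [col]
theorem self_ball (c : ι) (s : Γ) : c ∈ D.ball c s := mem_ball.2 (by rw [ds_self]; exact zero_le)
theorem self_kid (c : ι) (hs : s ≠ 0) : c ∈ D.kid c s :=
  mem_kid.2 (by rw [ds_self]; exact zero_lt_iff.2 hs)
theorem row_sub (c : ι) (s : Γ) : D.row c s ⊆ D.ball c s := fun _ h =>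
  mem_ball.2 (mem_row.1 h).1
theorem col_sub (c : ι) (s : Γ) : D.col c s ⊆ D.ball c s := fun _ h =>
  mem_ball.2 (mem_col.1 h).1
theorem kid_row (c : ι) (s : Γ) : D.kid c s ⊆ D.row c s := fun x h =>
  mem_row.2 ⟨(mem_kid.1 h).le, (tg_w c x).trans_lt (mem_kid.1 h)⟩
theorem kid_col (c : ι) (s : Γ) : D.kid c s ⊆ D.col c s := fun x h =>
  mem_col.2 ⟨(mem_kid.1 h).le, (tg_z c x).trans_lt (mem_kid.1 h)⟩
theorem ball_mono (c : ι) (h : s ≤ s') : D.ball c s ⊆ D.ball c s' := fun _ e =>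
  mem_ball.2 ((mem_ball.1 e).trans h)
theorem ball_kid (c : ι) (h : s < s') : D.ball c s ⊆ D.kid c s' := fun _ e =>
  mem_kid.2 ((mem_ball.1 e).trans_lt h)
theorem ball_eq (h : D.ds c c' ≤ s) : D.ball c s = D.ball c' s := by
  ext x
  rw [mem_ball, mem_ball]
  exact ⟨tg_le (ds_comm (D := D) c c' ▸ h), tg_le h⟩
theorem kid_eq' (h : D.ds c c' < s) : D.kid c s = D.kid c' s := by
  ext x
  rw [mem_kid, mem_kid]
  exact ⟨tg_lt (ds_comm (D := D) c c' ▸ h), tg_lt h⟩
theorem row_eq (h : D.ds c c' ≤ s) (hw : D.u (D.pw c - D.pw c') < s) :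
    D.row c s = D.row c' s := by
  ext x
  rw [mem_row, mem_row]
  exact ⟨fun e => ⟨tg_le (ds_comm (D := D) c c' ▸ h) e.1,
    tg_tr (D.u.map_sub_swap _ _ ▸ hw) e.2⟩, fun e => ⟨tg_le h e.1, tg_tr hw e.2⟩⟩
theorem col_eq (h : D.ds c c' ≤ s) (hw : D.u (D.pz c - D.pz c') < s) :
    D.col c s = D.col c' s := by
  ext x
  rw [mem_col, mem_col]
  exact ⟨fun e => ⟨tg_le (ds_comm (D := D) c c' ▸ h) e.1,
    tg_tr (D.u.map_sub_swap _ _ ▸ hw) e.2⟩, fun e => ⟨tg_le h e.1, tg_tr hw e.2⟩⟩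
theorem swap_ball (c : ι) (s : Γ) : D.swap.ball c s = D.ball c s := by
  ext x
  rw [mem_ball, mem_ball, swap_ds]
theorem swap_row (c : ι) (s : Γ) : D.swap.row c s = D.col c s := by
  ext x
  rw [mem_row, mem_col, swap_ds]
  rfl
theorem Geo.ball_zero (h : D.Geo) (c : ι) : D.ball c 0 = {c} := by
  ext x
  rw [mem_ball, mem_singleton, le_zero_iff]
  exact ⟨fun e => by_contra fun n => h.sep c x (Ne.symm n) e, fun e => e ▸ ds_self _⟩

/-- Two balls that share a horizontal and a vertical are nested. -/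
theorem Geo.nest (h : D.Geo) (h1 : b ∈ D.H (D.ball c s)) (h2 : b ∈ D.H (D.ball c' s'))
    (h3 : b' ∈ D.U (D.ball c s)) (h4 : b' ∈ D.U (D.ball c' s')) (hs : s ≤ s') :
    D.ds c c' ≤ s' := by
  by_contra hn
  have h5 : s' < D.ds c c' := not_le.1 hn
  have hne : c' ≠ c := fun e => by
    rw [e, ds_self] at h5
    exact absurd h5 (not_lt.2 zero_le)
  have a1 : D.alive c (D.ds c c') := ⟨c', hne, le_rfl⟩
  have a2 : D.alive c' (D.ds c c') := ⟨c, hne.symm, (ds_comm _ _).le⟩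
  have k1 := ball_kid (D := D) c (hs.trans_lt h5)
  have k2 := ball_kid (D := D) c' h5
  exact h.cross (mem_filter.1 h1).1 (mem_filter.1 h3).1
    (h.mh_row (H_mono (k1.trans (kid_row _ _)) h1) a1)
    (h.mh_row (H_mono (k2.trans (kid_row _ _)) h2) a2)
    (h.mv_col (U_mono (k1.trans (kid_col _ _)) h3) a1)
    (h.mv_col (U_mono (k2.trans (kid_col _ _)) h4) a2) le_rfl le_rfl le_rfl le_rfl

/-- Two clusters do not share a horizontal and a vertical. -/
theorem Geo.single (h : D.Geo) (h1 : b ∈ D.H {c}) (h2 : b ∈ D.H {c'}) (h3 : b' ∈ D.U {c})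
    (h4 : b' ∈ D.U {c'}) : c = c' := by
  rw [← h.ball_zero] at h1 h2 h3 h4
  have := h.nest h1 h2 h3 h4 le_rfl
  exact by_contra fun n => h.sep _ _ n (le_zero_iff.1 this)

theorem tg_max (P : Γ → Prop) (c : ι) (h : ∃ s, P s) :
    ∃ s, P s ∧ ∀ s', P s' → s ≤ s' → D.ball c s = D.ball c s' := by
  obtain ⟨S, ⟨s, h1, rfl⟩, h2⟩ := Set.exists_max_image {S | ∃ s, P s ∧ D.ball c s = S} card
    (Set.toFinite _) (h.elim fun s e => ⟨_, s, e, rfl⟩)
  exact ⟨s, h1, fun s' e e' => eq_of_subset_of_card_le (ball_mono c e') (h2 _ ⟨s', e, rfl⟩)⟩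

variable [Fintype V]

theorem al_nn (S : Finset ι) : 0 ≤ D.al S := by unfold al; positivity
theorem be_nn (S : Finset ι) : 0 ≤ D.be S := by unfold be; positivity
theorem bv_nn (S : Finset ι) : 0 ≤ D.bv S := by unfold bv; positivity
theorem be_mono {S S' : Finset ι} (h : S ⊆ S') : D.be S ≤ D.be S' :=
  div_le_div_of_nonneg_right (Nat.cast_le.2 (card_le_card (H_mono h))) (Nat.cast_nonneg _)
theorem bv_mono {S S' : Finset ι} (h : S ⊆ S') : D.bv S ≤ D.bv S' :=
  div_le_div_of_nonneg_right (Nat.cast_le.2 (card_le_card (U_mono h))) (Nat.cast_nonneg _)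

/-- Packing in the product of the two families. -/
theorem tg_pack (I : Finset ι) (key : ι → Finset ι × Finset ι × Finset ι) {lam e : ℝ}
    (hlam : 0 ≤ lam) (he : 0 ≤ e) (hm : ∀ c ∈ I, c ∈ (key c).1)
    (hS : ∀ c ∈ I, D.al (key c).1 ≤ lam * (D.be (key c).2.1 * D.bv (key c).2.2) + e)
    (hd : ∀ c ∈ I, ∀ c' ∈ I, ∀ b b', b ∈ D.H (key c).2.1 → b ∈ D.H (key c').2.1 →
      b' ∈ D.U (key c).2.2 → b' ∈ D.U (key c').2.2 → key c = key c') :
    D.al I ≤ lam + Fintype.card ι * e := by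
  have h1 : (D.pt I).card ≤ ∑ x ∈ I.image key, (D.pt x.1).card := by
    refine le_trans (card_le_card fun a ha => ?_) card_biUnion_le
    obtain ⟨h1, h2⟩ := mem_filter.1 ha
    exact mem_biUnion.2 ⟨_, mem_image_of_mem key h2, mem_filter.2 ⟨h1, hm _ h2⟩⟩
  have h2 : D.al I ≤ ∑ x ∈ I.image key, D.al x.1 := by
    unfold al
    rw [← sum_div]
    exact div_le_div_of_nonneg_right (by exact_mod_cast h1) (Nat.cast_nonneg _)
  have h3 := tg_prod (I.image key) (fun x => D.H x.2.1) (fun x => D.U x.2.2)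
    fun x hx y hy b b' => by
      obtain ⟨c, hc, rfl⟩ := mem_image.1 hx
      obtain ⟨c', hc', rfl⟩ := mem_image.1 hy
      exact hd c hc c' hc' b b'
  have h4 : ∑ x ∈ I.image key, D.al x.1 ≤
      ∑ x ∈ I.image key, (lam * (D.be x.2.1 * D.bv x.2.2) + e) := sum_le_sum fun x hx => by
    obtain ⟨c, hc, rfl⟩ := mem_image.1 hx
    exact hS c hc
  rw [sum_add_distrib, ← mul_sum, sum_const, nsmul_eq_mul] at h4
  have h5 : ((I.image key).card : ℝ) ≤ Fintype.card ι :=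
    Nat.cast_le.2 (card_image_le.trans (card_le_univ _))
  have h6 := mul_le_mul_of_nonneg_right h5 he
  have h7 := mul_le_mul_of_nonneg_left h3 hlam
  unfold be bv at h4
  linarith

/-- Clusters inside an unbalanced ball. -/
theorem Geo.unb_count (h : D.Geo) {L e t : ℝ} (hL : 0 ≤ L) (he : 0 ≤ e) (ht : 0 < t)
    (h1 : ∀ S, D.al S ≤ L * D.be S ^ 2 + e) (h2 : ∀ S, D.al S ≤ L * D.bv S ^ 2 + e)
    (I : Finset ι) (hI : ∀ c ∈ I, ∃ s, t * D.bv (D.ball c s) < D.be (D.ball c s) ∨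
      t * D.be (D.ball c s) < D.bv (D.ball c s)) : D.al I ≤ L / t + Fintype.card ι * e := by
  choose! σ hσ hm using fun c hc => tg_max (D := D) _ c (hI c hc)
  have key : ∀ c ∈ I, ∀ c' ∈ I, σ c ≤ σ c' → ∀ b b', b ∈ D.H (D.ball c (σ c)) →
      b ∈ D.H (D.ball c' (σ c')) → b' ∈ D.U (D.ball c (σ c)) → b' ∈ D.U (D.ball c' (σ c')) →
      D.ball c (σ c) = D.ball c' (σ c') := fun c hc c' hc' hle b b' e1 e2 e3 e4 => by
    have e := ball_eq (h.nest e1 e2 e3 e4 hle)
    rw [← e]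
    exact hm c hc _ (e ▸ hσ c' hc') hle
  refine tg_pack I (fun c => (D.ball c (σ c), D.ball c (σ c), D.ball c (σ c))) (by positivity) he
    (fun c _ => self_ball _ _) (fun c hc => ?_) fun c hc c' hc' b b' e1 e2 e3 e4 => ?_
  · have a1 := h1 (D.ball c (σ c))
    have a2 := h2 (D.ball c (σ c))
    have a3 := hσ c hc
    have p1 := be_nn (D := D) (D.ball c (σ c))
    have p2 := bv_nn (D := D) (D.ball c (σ c))
    dsimp only
    generalize D.be (D.ball c (σ c)) = x at *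
    generalize D.bv (D.ball c (σ c)) = y at *
    have aux : ∀ x y : ℝ, 0 ≤ y → t * y < x → L * y ^ 2 ≤ L / t * (x * y) := fun x y p q => by
      rw [div_mul_eq_mul_div, le_div_iff₀ ht]
      have := mul_le_mul_of_nonneg_left (mul_le_mul_of_nonneg_right q.le p) hL
      linarith
    rcases a3 with a3 | a3
    · linarith [aux x y p2 a3]
    · linarith [aux y x p1 a3, mul_comm x y ▸ aux y x p1 a3]
  · rcases le_total (σ c) (σ c') with hle | hle
    · simp only [key c hc c' hc' hle b b' e1 e2 e3 e4]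
    · simp only [key c' hc' c hc hle b b' e2 e1 e4 e3]

/-- Clusters inside a light row of a balanced ball. -/
theorem Geo.row_count (h : D.Geo) {L e t η : ℝ} (hL : 0 ≤ L) (he : 0 ≤ e) (ht : 0 < t)
    (hη : 0 < η) (hη1 : η ≤ 1) (h1 : ∀ S, D.al S ≤ L * D.be S ^ 2 + e) (I : Finset ι)
    (hb : ∀ c ∈ I, ∀ s, D.be (D.ball c s) ≤ t * D.bv (D.ball c s))
    (hI : ∀ c ∈ I, ∃ s, s ≠ 0 ∧ D.be (D.row c s) < η * D.be (D.ball c s)) :
    D.al I ≤ L * (η * t) + Fintype.card ι * e := by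
  choose! σ hσ hm using fun c hc => tg_max (D := D) _ c (hI c hc)
  have hn : ∀ c ∈ I, ¬ D.ball c (σ c) ⊆ D.row c (σ c) := fun c hc e => by
    have := mul_le_mul_of_nonneg_right hη1 (be_nn (D := D) (D.ball c (σ c)))
    linarith [be_mono (D := D) e, (hσ c hc).2]
  have ha : ∀ c ∈ I, D.alive c (σ c) := fun c hc => by
    obtain ⟨x, e1, e2⟩ := not_subset.1 (hn c hc)
    exact ⟨x, fun e => e2 (by rw [e]; exact kid_row _ _ (self_kid _ (hσ c hc).1)), mem_ball.1 e1⟩
  have key : ∀ c ∈ I, ∀ c' ∈ I, σ c ≤ σ c' → ∀ b b', b ∈ D.H (D.row c (σ c)) →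
      b ∈ D.H (D.row c' (σ c')) → b' ∈ D.U (D.ball c (σ c)) → b' ∈ D.U (D.ball c' (σ c')) →
      D.row c (σ c) = D.row c' (σ c') ∧ D.ball c (σ c) = D.ball c' (σ c') := by
    intro c hc c' hc' hle b b' e1 e2 e3 e4
    have n := h.nest (H_mono (row_sub _ _) e1) (H_mono (row_sub _ _) e2) e3 e4 hle
    have e := ball_eq n
    have r := row_eq n (h.row_of (mem_filter.1 e1).1
      (lt_of_lt_of_le (h.mh_row e1 (ha c hc)) hle) (h.mh_row e2 (ha c' hc')) ((tg_z _ _).trans n))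
    have q := hm c hc _ ⟨(hσ c' hc').1, by rw [e, r]; exact (hσ c' hc').2⟩ hle
    rcases hle.eq_or_lt with hle | hle
    · rw [hle]
      exact ⟨r, e⟩
    · refine absurd ?_ (hn c' hc')
      rw [← e, ← r, ← q]
      exact (ball_kid c hle).trans (kid_row _ _)
  refine tg_pack I (fun c => (D.row c (σ c), D.row c (σ c), D.ball c (σ c))) (by positivity) he
    (fun c hc => kid_row _ _ (self_kid _ (hσ c hc).1)) (fun c hc => ?_)
    fun c hc c' hc' b b' e1 e2 e3 e4 => ?_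
  · have a1 := h1 (D.row c (σ c))
    have a2 := (hσ c hc).2.le.trans (mul_le_mul_of_nonneg_left (hb c hc (σ c)) hη.le)
    have a3 := mul_le_mul_of_nonneg_left
      (mul_le_mul_of_nonneg_left a2 (be_nn (D := D) (D.row c (σ c)))) hL
    dsimp only
    linarith
  · rcases le_total (σ c) (σ c') with hle | hle
    · simp only [key c hc c' hc' hle b b' e1 e2 e3 e4]
    · simp only [key c' hc' c hc hle b b' e2 e1 e4 e3]

variable {C K ω k g η t : ℝ} {M : ℕ}

theorem tg_l1 {E : V → V → Prop} {d : ℝ} (h : Amb E C K ω d) (hk : 0 < k) (S T : Finset V)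
    (hS : ∀ a ∈ S, k * d ≤ (nb E T a).card) :
    (S.card : ℝ) / NN V ≤ cL C k * ((T.card : ℝ) / NN V) ^ 2 + 2 * ω / k := by
  have hd := h.dpos
  have hN := h.Npos
  have h1 := (card_mul_le_ed S T hS).trans (h.stA S T (k / 2) (by positivity))
  have e : cL C k * ((T.card : ℝ) / NN V) ^ 2 + 2 * ω / k =
      (C / (k / 2) ^ 2 * d * (T.card : ℝ) ^ 2 / NN V + ω * NN V * d) / (k / 2 * d) / NN V := by
    unfold cL
    field_simp
    ring
  rw [e]
  refine div_le_div_of_nonneg_right ?_ hN.le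
  rw [le_div_iff₀ (by positivity)]
  linarith

theorem Par.cL_nn (hP : D.Par C K ω k g M η t) : 0 ≤ cL C k := by
  have := hP.C1
  have := hP.kpos
  unfold cL
  positivity

theorem Par.l1 (hP : D.Par C K ω k g M η t) (S : Finset ι) :
    D.al S ≤ cL C k * D.be S ^ 2 + 2 * ω / k ∧ D.al S ≤ cL C k * D.bv S ^ 2 + 2 * ω / k ∧
      D.al S ≤ cL C k * (D.be S * D.bv S) + 2 * ω / k := by
  have h1 : D.al S ≤ cL C k * D.be S ^ 2 + 2 * ω / k :=
    tg_l1 hP.ok.amb hP.kpos _ _ fun a ha => by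
      obtain ⟨e1, e2⟩ := mem_filter.1 ha
      refine (hP.ok.loH a e1).trans (Nat.cast_le.2 (card_le_card fun b hb => ?_))
      obtain ⟨e3, e4⟩ := mem_nb.1 hb
      exact mem_nb.2 ⟨mem_filter.2 ⟨e3, a, e1, e2, e4⟩, e4⟩
  have h2 : D.al S ≤ cL C k * D.bv S ^ 2 + 2 * ω / k :=
    tg_l1 hP.ok.amb hP.kpos _ _ fun a ha => by
      obtain ⟨e1, e2⟩ := mem_filter.1 ha
      refine (hP.ok.loU a e1).trans (Nat.cast_le.2 (card_le_card fun b hb => ?_))
      obtain ⟨e3, e4⟩ := mem_nb.1 hb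
      exact mem_nb.2 ⟨mem_filter.2 ⟨e3, a, e1, e2, e4⟩, e4⟩
  refine ⟨h1, h2, ?_⟩
  have hc := hP.cL_nn
  rcases le_total (D.be S) (D.bv S) with h | h
  · have := mul_le_mul_of_nonneg_left (mul_le_mul_of_nonneg_left h (be_nn (D := D) S)) hc
    linarith
  · have := mul_le_mul_of_nonneg_left (mul_le_mul_of_nonneg_right h (bv_nn (D := D) S)) hc
    linarith

theorem Par.good_count (hP : D.Par C K ω k g M η t) :
    ((D.X.filter fun a => ¬ D.Good η t (D.cl a)).card : ℝ) ≤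
      (cL C k * (1 / t + 2 * η * t) + 6 * M * ω / k) * NN V := by
  have hG := hP.ok.geo
  have hc := hP.cL_nn
  have hk := hP.kpos
  have hω := hP.ok.amb.ωpos
  have hN := hP.ok.amb.Npos
  have he : 0 ≤ 2 * ω / k := by positivity
  have ht : 0 < t := one_pos.trans_le hP.t1
  set B : ι → Prop := fun c => ∀ s, D.be (D.ball c s) ≤ t * D.bv (D.ball c s) ∧
    D.bv (D.ball c s) ≤ t * D.be (D.ball c s) with hB
  set I1 := univ.filter fun c => ¬ B c with hI1
  set I2 := univ.filter fun c => B c ∧ ∃ s, s ≠ 0 ∧ D.be (D.row c s) < η * D.be (D.ball c s)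
    with hI2
  set I3 := univ.filter fun c => B c ∧ ∃ s, s ≠ 0 ∧ D.bv (D.col c s) < η * D.bv (D.ball c s)
    with hI3
  have h1 := hG.unb_count hc he ht (fun S => (hP.l1 S).1) (fun S => (hP.l1 S).2.1) I1
    fun c hc => by
      obtain ⟨s, hs⟩ := not_forall.1 (mem_filter.1 hc).2
      exact ⟨s, (not_and_or.1 hs).imp not_le.1 not_le.1⟩
  have h2 := hG.row_count hc he ht hP.ηpos hP.η1 (fun S => (hP.l1 S).1) I2
    (fun c hc s => ((mem_filter.1 hc).2.1 s).1) fun c hc => (mem_filter.1 hc).2.2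
  have h3 : D.al I3 ≤ _ := hG.swap.row_count hc he ht hP.ηpos hP.η1 (fun S => (hP.l1 S).2.1) I3
    (fun c hc s => by rw [swap_ball]; exact ((mem_filter.1 hc).2.1 s).2) fun c hc => by
      simp only [swap_ball, swap_row]
      exact (mem_filter.1 hc).2.2
  have h4 : (D.X.filter fun a => ¬ D.Good η t (D.cl a)) ⊆ D.pt I1 ∪ D.pt I2 ∪ D.pt I3 := by
    intro a ha
    obtain ⟨e1, e2⟩ := mem_filter.1 ha
    simp only [pt, mem_union, mem_filter, e1, true_and, hI1, hI2, hI3, mem_univ]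
    by_contra hn
    push Not at hn
    exact e2 ⟨hn.1.1, fun s hs => ⟨hn.1.2 hn.1.1 s hs, hn.2 hn.1.1 s hs⟩⟩
  have h5 := (Nat.cast_le (α := ℝ)).2 ((card_le_card h4).trans ((card_union_le _ _).trans
    (Nat.add_le_add_right (card_union_le _ _) _)))
  push_cast at h5
  have h6 := mul_le_mul_of_nonneg_right ((Nat.cast_le (α := ℝ)).2 hP.ok.cι) he
  unfold al at h1 h2 h3
  rw [← div_le_iff₀ hN]
  refine (div_le_div_of_nonneg_right h5 hN.le).trans ?_
  rw [add_div, add_div]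
  have e1 : 6 * M * ω / k = 3 * (M * (2 * ω / k)) := by ring
  have e2 : cL C k * (1 / t + 2 * η * t) = cL C k / t + 2 * (cL C k * (η * t)) := by ring
  linarith
end TD

end
end Pool.Agent.Lib.MP_439fea_co.Pw
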