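import Pool.Agent.Lib.MP_439fea_co.Pw.TCls
import Pool.Agent.Lib.MP_439fea_co.Pw.TGood

/-! Dead and thin incidences are few. -/

namespace Pool.Agent.Lib.MP_439fea_co.Pw
open Finset Pool.Agent.Lib.MP_439fea_co.Z
open scoped Classical
noncomputable section

theorem cL_nonneg {C k : ℝ} (hC : 1 ≤ C) (hk : 0 < k) : 0 ≤ cL C k := by
  unfold cL
  positivity

/-- Pairwise disjoint finsets have total size at most the size of the type. -/
theorem tt_disj {α β : Type} [Fintype β] (I : Finset α) (G : α → Finset β)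
    (hd : ∀ a ∈ I, ∀ a' ∈ I, a ≠ a' → Disjoint (G a) (G a')) :
    ∑ a ∈ I, ((G a).card : ℝ) ≤ Fintype.card β := by
  have h : ∑ a ∈ I, (G a).card ≤ Fintype.card β := by
    rw [← card_biUnion fun a ha a' ha' hne => hd a ha a' ha' hne]
    exact card_le_univ _
  exact_mod_cast h

theorem tt_last {p : ℕ → Prop} {n : ℕ} (h0 : p 0) (hn : ¬ p n) :
    ∃ j, j < n ∧ p j ∧ ¬ p (j + 1) := by
  induction n with
  | zero => exact absurd h0 hn
  | succ n ih =>
    by_cases h : p n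
    · exact ⟨n, Nat.lt_succ_self n, h, hn⟩
    · obtain ⟨j, h1, h2⟩ := ih h
      exact ⟨j, h1.trans (Nat.lt_succ_self n), h2⟩

namespace TD
variable {V F Γ ι : Type} [Field F] [LinearOrderedCommGroupWithZero Γ] {D : TD V F Γ ι}
  [Fintype ι] [Fintype V] {C K ω k g η t t1 t2 τ m : ℝ} {M : ℕ}

omit [Fintype ι] in
theorem tt_be_nonneg (S : Finset ι) : 0 ≤ D.be S := by unfold be; positivity
omit [Fintype ι] in
theorem tt_bv_nonneg (S : Finset ι) : 0 ≤ D.bv S := by unfold bv; positivity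

/-- A set of points covered by few sets of clusters. -/
theorem Par.tt_cover (hP : D.Par C K ω k g M η t) (B : Finset V) (I : Finset (Finset ι))
    (hB : ∀ a ∈ B, a ∈ D.X ∧ ∃ S ∈ I, D.cl a ∈ S) (hI : (I.card : ℝ) ≤ M) {h s : ℝ} (h0 : 0 ≤ h)
    (hal : ∀ S ∈ I, D.al S ≤ h * D.bv S + 2 * ω / k) (hs : ∑ S ∈ I, D.bv S ≤ s) :
    (B.card : ℝ) ≤ (h * s + 2 * M * ω / k) * NN V := by
  have hN := hP.ok.amb.Npos
  have hω := hP.ok.amb.ωpos
  have hk := hP.kpos
  have h1 : B.card ≤ ∑ S ∈ I, (D.pt S).card := by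
    refine le_trans (card_le_card fun a ha => ?_) card_biUnion_le
    obtain ⟨h1, S, h2, h3⟩ := hB a ha
    exact mem_biUnion.2 ⟨S, h2, mem_filter.2 ⟨h1, h3⟩⟩
  have h2 : (B.card : ℝ) ≤ ∑ S ∈ I, (h * D.bv S + 2 * ω / k) * NN V := by
    refine (Nat.cast_le.2 h1).trans ?_
    rw [Nat.cast_sum]
    exact sum_le_sum fun S hS => (div_le_iff₀ hN).1 (hal S hS)
  refine h2.trans ?_
  rw [← sum_mul, sum_add_distrib, ← mul_sum, sum_const, nsmul_eq_mul]
  refine mul_le_mul_of_nonneg_right (add_le_add (mul_le_mul_of_nonneg_left hs h0) ?_) hN.le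
  calc (I.card : ℝ) * (2 * ω / k) ≤ M * (2 * ω / k) := by gcongr
    _ = _ := by ring

theorem Par.tt_single (hP : D.Par C K ω k g M η t) (c : ι) :
    D.al {c} ≤ cL C k * g * D.bv {c} + 2 * ω / k := by
  have hN := hP.ok.amb.Npos
  have hc := cL_nonneg hP.C1 hP.kpos
  have hg := hP.gpos
  have h1 := tt_be_nonneg (D := D) {c}
  have h2 := tt_bv_nonneg (D := D) {c}
  have h3 : D.be {c} * D.bv {c} ≤ g ^ 2 := by
    unfold be bv
    rw [div_mul_div_comm, div_le_iff₀ (by positivity), ← sq]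
    exact hP.ok.light c
  obtain ⟨-, l2, l3⟩ := hP.l1 {c}
  rw [mul_assoc]
  rcases le_total (D.be {c}) g with h | h
  · exact l3.trans (by gcongr)
  · have h4 : D.bv {c} ≤ g := by
      by_contra h5
      nlinarith [not_le.1 h5]
    refine l2.trans ?_
    rw [sq]
    gcongr

namespace Tri
variable (T : D.Tri)

theorem dead_count (hP : D.Par C K ω k g M η t) (hc : D.Col) (hτ : 0 < τ) (i : Fin 3) :
    ∑ b ∈ D.Y, ((D.X.filter fun a => T.near i (D.cl a) ∧ D.E a b ∧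
        ¬ D.alive (D.cl a) (T.rad i (T.tm τ b))).card : ℝ) ≤
      K * (cL C k * g / τ + 2 * M * ω / k) * NN V * D.d := by
  have hA := hP.ok.amb
  have hG := hP.ok.geo
  have hN := hA.Npos
  have hd := hA.dpos
  have hτN : 0 < τ * NN V := mul_pos hτ hN
  set B := D.X.filter fun a => ∃ b ∈ D.Y, T.near i (D.cl a) ∧ D.E a b ∧
    ¬ D.alive (D.cl a) (T.rad i (T.tm τ b)) with hB
  have hw : ∀ c, c ∈ B.image D.cl → ∃ (L : Finset V) (s : Γ), τ * NN V ≤ L.card ∧
      (∀ b ∈ L, b ∈ D.Y ∧ D.mh b c s) ∧ ∀ c', c' ≠ c → s ≤ D.ds c c' := by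
    intro c hcB
    obtain ⟨a, ha, rfl⟩ := mem_image.1 hcB
    obtain ⟨haX, b, hb, hn, hE, hna⟩ := mem_filter.1 ha
    obtain ⟨j, h1, h2, h3⟩ := tt_last (p := fun j => D.alive (D.cl a) (T.rad i j))
      (T.alive_zero hn) hna
    refine ⟨T.cls j b, T.rad i j, (T.lt_tm hτN b).1 h1, fun b' hb' =>
      ⟨T.cls_subY j b hb', T.cls_mh hG hc hn hb (hG.mh_adj haX hb hE h2) hb'⟩, fun c' hc' => ?_⟩
    by_contra h4
    exact h3 ⟨c', hc', (T.ds_lt_iff ((T.rad_ne i j).1 (hG.alive_ne h2)) i _ _).1 (not_le.1 h4)⟩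
  choose! L s hL1 hL2 hL3 using hw
  have h1 := tt_disj (B.image D.cl) (fun c => L c ×ˢ D.U {c}) fun c h c' h' hne =>
    disjoint_left.2 fun x h1 h2 => by
      obtain ⟨a1, a2⟩ := mem_product.1 h1
      obtain ⟨a3, a4⟩ := mem_product.1 h2
      obtain ⟨e1, a, ha, e2, e3⟩ := mem_filter.1 a2
      obtain ⟨-, a', ha', e4, e5⟩ := mem_filter.1 a4
      rw [mem_singleton] at e2 e4
      have m1 := hG.mv_adj ha e1 e3 (s := D.ds c c') ⟨c', e2 ▸ hne.symm, e2 ▸ le_rfl⟩
      have m2 := hG.mv_adj ha' e1 e5 (s := D.ds c c')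
        ⟨c, e4 ▸ hne, by rw [e4]; exact (ds_comm c' c).le⟩
      rw [e2] at m1
      rw [e4] at m2
      exact hG.cross (hL2 c h _ a1).1 e1 (hL2 c h _ a1).2 (hL2 c' h' _ a3).2 m1 m2
        (hL3 c h c' hne.symm) ((hL3 c' h' c hne).trans (ds_comm c' c).le) le_rfl le_rfl
  have h2 : ∑ S ∈ (B.image D.cl).image (fun c => ({c} : Finset ι)), D.bv S ≤ 1 / τ := by
    rw [sum_image fun c _ c' _ h => singleton_injective h, le_div_iff₀ hτ, sum_mul]
    refine le_of_mul_le_mul_right ?_ (mul_pos hN hN)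
    rw [Fintype.card_prod, Nat.cast_mul] at h1
    rw [sum_mul, one_mul]
    refine le_trans (sum_le_sum fun c hcB => ?_) h1
    rw [card_product, Nat.cast_mul]
    have e : D.bv {c} * τ * (NN V * NN V) = τ * NN V * (D.U {c}).card := by
      unfold bv
      field_simp
    rw [e]
    exact mul_le_mul_of_nonneg_right (hL1 c hcB) (Nat.cast_nonneg _)
  have hcl := cL_nonneg hP.C1 hP.kpos
  have h3 := hP.tt_cover B _ (fun a ha => ⟨(mem_filter.1 ha).1, {D.cl a},
      mem_image_of_mem _ (mem_image_of_mem _ ha), mem_singleton_self _⟩)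
    (Nat.cast_le.2 (card_image_le.trans ((card_le_univ _).trans hP.ok.cι)))
    (mul_nonneg hcl hP.gpos.le) (fun S hS => by
      obtain ⟨c, -, rfl⟩ := mem_image.1 hS
      exact hP.tt_single c) h2
  have h4 : ∑ b ∈ D.Y, (D.X.filter fun a => T.near i (D.cl a) ∧ D.E a b ∧
      ¬ D.alive (D.cl a) (T.rad i (T.tm τ b))).card ≤ ed D.E D.Y B :=
    sum_le_sum fun b hb => card_le_card fun a ha => by
      obtain ⟨a1, a2⟩ := mem_filter.1 ha
      exact mem_filter.2 ⟨mem_filter.2 ⟨a1, b, hb, a2⟩, hA.symm _ _ a2.2.1⟩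
  have h5 := ed_le_card_mul (E := D.E) B D.Y (j := K * D.d) fun a _ =>
    (Nat.cast_le.2 (card_le_card (nb_mono (subset_univ _) a))).trans (hA.hi a)
  rw [ed_comm hA.symm] at h4
  refine le_trans (by exact_mod_cast h4) (h5.trans ?_)
  have hK : 0 ≤ K * D.d := mul_nonneg (by linarith [hP.K1]) hd.le
  have h6 := mul_le_mul_of_nonneg_right h3 hK
  rw [mul_one_div] at h6
  linarith

theorem tm_congr {b b' : V} (hz : D.hz b = D.hz b') (hw : D.hw b = D.hw b') :
    T.tm τ b = T.tm τ b' := by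
  unfold tm
  simp only [T.cls_congr hz hw]

/-- Points with light balls along one horizontal are few. -/
theorem thin_pts (hP : D.Par C K ω k g M η t) (B : Finset V) (r : Γ) {b : V} (hb : b ∈ D.Y)
    {h : ℝ} (h0 : 0 ≤ h)
    (hB : ∀ a ∈ B, a ∈ D.X ∧ D.alive (D.cl a) r ∧ D.mh b (D.cl a) r ∧
      D.be (D.kid (D.cl a) r) ≤ h) :
    (B.card : ℝ) ≤ (cL C k * h + 2 * M * ω / k) * NN V := by
  have hG := hP.ok.geo
  have hN := hP.ok.amb.Npos
  have hcl := cL_nonneg hP.C1 hP.kpos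
  have hmv : ∀ a ∈ B, ∀ e ∈ D.U (D.kid (D.cl a) r), e ∈ D.Y' ∧ D.mv e (D.cl a) r := by
    intro a ha e he
    obtain ⟨e1, a1, ha1, e2, e3⟩ := mem_filter.1 he
    have e4 : D.ds (D.cl a1) (D.cl a) < r := ds_comm (D := D) (D.cl a) _ ▸ (mem_filter.1 e2).2
    exact ⟨e1, hG.mv_move e1 (hG.mv_adj ha1 e1 e3 ((hB a ha).2.1.move (mem_filter.1 e2).2.le))
      ((le_max_right _ _).trans e4.le) ((le_max_left _ _).trans_lt e4)⟩
  have h1 := tt_disj (B.image fun a => D.kid (D.cl a) r) D.U fun S hS S' hS' hne =>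
    disjoint_left.2 fun e h1 h2 => by
      obtain ⟨a, ha, rfl⟩ := mem_image.1 hS
      obtain ⟨a', ha', rfl⟩ := mem_image.1 hS'
      have h3 : r ≤ D.ds (D.cl a) (D.cl a') := by
        by_contra h4
        refine hne (filter_congr fun c _ => ⟨fun h5 => ?_, fun h5 => ?_⟩)
        · exact (ds_ultra _ (D.cl a) _).trans_lt
            (max_lt (ds_comm (D := D) (D.cl a) _ ▸ not_le.1 h4) h5)
        · exact (ds_ultra _ (D.cl a') _).trans_lt (max_lt (not_le.1 h4) h5)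
      exact hG.cross hb (hmv a ha e h1).1 (hB a ha).2.2.1 (hB a' ha').2.2.1 (hmv a ha e h1).2
        (hmv a' ha' e h2).2 h3 h3 h3 h3
  have h2 : ∑ S ∈ B.image fun a => D.kid (D.cl a) r, D.bv S ≤ 1 := by
    unfold bv
    rw [← sum_div, div_le_one hN]
    exact h1
  have h3 := hP.tt_cover B (B.image fun a => D.kid (D.cl a) r) (fun a ha =>
      ⟨(hB a ha).1, _, mem_image_of_mem _ ha, mem_filter.2 ⟨mem_univ _, by
        rw [ds_self]
        exact zero_lt_iff.2 (hG.alive_ne (hB a ha).2.1)⟩⟩)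
    (Nat.cast_le.2 (by
      rw [show (B.image fun a => D.kid (D.cl a) r) = (B.image D.cl).image fun c => D.kid c r by
        rw [image_image]; rfl]
      exact card_image_le.trans ((card_le_univ _).trans hP.ok.cι)))
    (mul_nonneg hcl h0) (fun S hS => by
      obtain ⟨a, ha, rfl⟩ := mem_image.1 hS
      refine (hP.l1 _).2.2.trans ?_
      have h4 := (hB a ha).2.2.2
      have h5 := tt_bv_nonneg (D := D) (D.kid (D.cl a) r)
      rw [mul_assoc]
      gcongr) h2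
  rwa [mul_one] at h3

theorem thin_count (hP : D.Par C K ω k g M η t) (hc : D.Col) (hτ : 0 < τ) (ht2 : 0 < t2)
    (hm : 0 < m) (i : Fin 3) :
    ∑ b ∈ D.Y, ((D.X.filter fun a => T.near i (D.cl a) ∧ D.E a b ∧
        D.alive (D.cl a) (T.rad i (T.tm τ b)) ∧ T.Thin τ t2 i a b).card : ℝ) ≤
      (m + 2 * C * cL C k ^ 2 / (m ^ 2 * t2) +
        M * (ω + 8 * C * M ^ 2 * ω ^ 2 / (m ^ 2 * k ^ 2))) * NN V * D.d := by
  have hA := hP.ok.amb
  have hG := hP.ok.geo
  have hN := hA.Npos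
  have hd := hA.dpos
  have hω := hA.ωpos
  have hk := hP.kpos
  have hC : 0 < C := lt_of_lt_of_le one_pos hP.C1
  have hτN : 0 < τ * NN V := mul_pos hτ hN
  set P : V → V → Prop := fun a b => T.near i (D.cl a) ∧ D.E a b ∧
    D.alive (D.cl a) (T.rad i (T.tm τ b)) ∧ T.Thin τ t2 i a b with hPd
  set lam : V → Finset V := fun b => T.cls (T.tm τ b) b with hlam
  set Y0 := D.Y.filter fun b => T.lev (T.tm τ b) ≠ 0 with hY0
  set α := (m + 2 * C * cL C k ^ 2 / (m ^ 2 * t2)) * D.d with hα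
  set β := (ω + 8 * C * M ^ 2 * ω ^ 2 / (m ^ 2 * k ^ 2)) * NN V * D.d with hβ
  have hself : ∀ b ∈ Y0, b ∈ lam b := fun b hb =>
    T.cls_self (mem_filter.1 hb).1 (mem_filter.1 hb).2
  have e0 : ∑ b ∈ D.Y, ((D.X.filter fun a => P a b).card : ℝ) =
      ∑ b ∈ Y0, ((D.X.filter fun a => P a b).card : ℝ) := by
    refine (sum_subset (filter_subset _ _) fun b hb hb0 => ?_).symm
    rw [Nat.cast_eq_zero, card_eq_zero, filter_eq_empty_iff]
    exact fun a _ h => hb0 (mem_filter.2 ⟨hb, (T.rad_ne i _).1 (hG.alive_ne h.2.2.1)⟩)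
  have key : ∀ b ∈ Y0, ∑ b' ∈ Y0.filter (fun b' => lam b' = lam b),
      ((D.X.filter fun a => P a b').card : ℝ) ≤ α * (lam b).card + β := by
    intro b hb
    set R := Y0.filter fun b' => lam b' = lam b with hR
    set B := D.X.filter fun a => ∃ b' ∈ R, P a b' with hB
    have hRl : ∀ b' ∈ R, b' ∈ lam b := fun b' hb' =>
      (mem_filter.1 hb').2 ▸ hself b' (mem_filter.1 hb').1
    have h1 : ∑ b' ∈ R, (D.X.filter fun a => P a b').card ≤ ed D.E (lam b) B :=
      le_trans (sum_le_sum fun b' hb' => card_le_card fun a ha =>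
        mem_nb.2 ⟨mem_filter.2 ⟨(mem_filter.1 ha).1, b', hb', (mem_filter.1 ha).2⟩,
          hA.symm _ _ (mem_filter.1 ha).2.2.1⟩) (ed_mono (X := R) (Y := B) hRl Subset.rfl)
    have hq : 0 ≤ ((lam b).card : ℝ) / NN V / t2 := by positivity
    have h2 := thin_pts hP B (T.rad i (T.tm τ b)) (mem_filter.1 hb).1 (Real.sqrt_nonneg _)
      (h := √(((lam b).card : ℝ) / NN V / t2)) fun a ha => by
        obtain ⟨haX, b', hb', p1, p2, p3, p4⟩ := mem_filter.1 ha
        obtain ⟨hb0, hl⟩ := mem_filter.1 hb'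
        have e1 : T.tm τ b' = T.tm τ b := T.tm_eq hτN (hRl b' hb')
        have hbY := (mem_filter.1 hb0).1
        have p5 := T.cls_mh hG hc p1 hbY (hG.mh_adj haX hbY p2 p3)
          (show b ∈ lam b' from hl ▸ hself b hb)
        unfold Thin at p4
        change _ < ((lam b').card : ℝ) / _ at p4
        rw [hl, e1] at p4
        rw [e1] at p3 p5
        refine ⟨haX, p3, p5, Real.le_sqrt_of_sq_le ?_⟩
        rw [le_div_iff₀ ht2, mul_comm]
        exact p4.le
    have h3 : (B.card : ℝ) ^ 2 ≤ (2 * cL C k ^ 2 * (((lam b).card : ℝ) / NN V / t2) +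
        8 * M ^ 2 * ω ^ 2 / k ^ 2) * NN V ^ 2 := by
      refine (pow_le_pow_left₀ (Nat.cast_nonneg _) h2 2).trans ?_
      rw [mul_pow]
      refine mul_le_mul_of_nonneg_right ?_ (sq_nonneg _)
      have e2 : 8 * (M : ℝ) ^ 2 * ω ^ 2 / k ^ 2 = 2 * (2 * M * ω / k) ^ 2 := by ring
      rw [e2]
      nlinarith [Real.sq_sqrt hq, sq_nonneg (cL C k * √(((lam b).card : ℝ) / NN V / t2) -
        2 * M * ω / k)]
    have h4 : C / m ^ 2 * D.d * (B.card : ℝ) ^ 2 / NN V ≤
        2 * C * cL C k ^ 2 / (m ^ 2 * t2) * D.d * (lam b).card +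
          8 * C * M ^ 2 * ω ^ 2 / (m ^ 2 * k ^ 2) * NN V * D.d := by
      rw [div_le_iff₀ hN]
      refine (mul_le_mul_of_nonneg_left h3 (by positivity)).trans (le_of_eq ?_)
      field_simp
    have h5 := hA.stA (lam b) B m hm
    have h6 : ∑ b' ∈ R, ((D.X.filter fun a => P a b').card : ℝ) ≤ ed D.E (lam b) B := by
      exact_mod_cast h1
    rw [hα, hβ]
    linarith
  have h7 := tt_disj (Y0.image lam) (fun L => L) fun L hL L' hL' hne =>
    disjoint_left.2 fun c h1 h2 => by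
      obtain ⟨b, -, rfl⟩ := mem_image.1 hL
      obtain ⟨b', -, rfl⟩ := mem_image.1 hL'
      refine hne ?_
      simp only [hlam]
      rw [← T.cls_eq h1, ← T.cls_eq h2, ← T.tm_eq hτN h1, ← T.tm_eq hτN h2]
  have h8 : (Y0.image lam).card ≤ M := by
    refine le_trans ?_ hP.ok.few
    refine card_le_card_of_surjOn (fun x => if h : ∃ b, (D.hz b, D.hw b) = x then lam h.choose
      else ∅) fun L hL => ?_
    obtain ⟨b, hb, rfl⟩ := mem_image.1 hL
    have h : ∃ b', (D.hz b', D.hw b') = (D.hz b, D.hw b) := ⟨b, rfl⟩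
    refine ⟨(D.hz b, D.hw b), mem_image_of_mem _ (mem_filter.1 hb).1, ?_⟩
    have e := Prod.ext_iff.1 h.choose_spec
    simp only [dif_pos h, hlam]
    rw [T.tm_congr e.1 e.2, T.cls_congr e.1 e.2]
  have hα0 : 0 ≤ α := by positivity
  have hβ0 : 0 ≤ β := by positivity
  refine e0.le.trans ?_
  rw [← sum_fiberwise_of_maps_to fun b hb => mem_image_of_mem lam hb]
  have h9 : ∑ L ∈ Y0.image lam, ∑ b' ∈ Y0.filter (fun b' => lam b' = L),
      ((D.X.filter fun a => P a b').card : ℝ) ≤ ∑ L ∈ Y0.image lam, (α * L.card + β) :=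
    sum_le_sum fun L hL => by
      obtain ⟨b, hb, rfl⟩ := mem_image.1 hL
      exact key b hb
  refine h9.trans ?_
  rw [sum_add_distrib, ← mul_sum, sum_const, nsmul_eq_mul]
  have h10 := mul_le_mul_of_nonneg_left h7 hα0
  have h11 := mul_le_mul_of_nonneg_right (Nat.cast_le.2 h8 : ((Y0.image lam).card : ℝ) ≤ M) hβ0
  refine (add_le_add h10 h11).trans (le_of_eq ?_)
  rw [hα, hβ]
  ring

end Tri

omit [Fintype ι] in
/-- Tuples that contain a marked incidence at the index `i`. -/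
theorem marked_le (hA : Amb D.E C K ω D.d) (Ω : Finset (V × (Fin 3 → V)))
    (hΩ : ∀ x ∈ Ω, x.1 ∈ D.Y ∧ ∀ n, x.2 n ∈ D.X ∧ D.E (x.2 n) x.1) (i : Fin 3) (P : V → V → Prop)
    (hPΩ : ∀ x ∈ Ω, P (x.2 i) x.1) :
    (Ω.card : ℝ) ≤ (K * D.d) ^ 2 * ∑ b ∈ D.Y, ((D.X.filter fun a => P a b).card : ℝ) := by
  have h1 : Ω.card ≤ (D.Y.sigma fun b => Fintype.piFinset fun n : Fin 3 =>
      if n = i then D.X.filter fun a => P a b else nb D.E univ b).card := by
    refine card_le_card_of_injOn (fun x => ⟨x.1, x.2⟩) (fun x hx => ?_) ?_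
    · obtain ⟨a1, a2⟩ := hΩ x hx
      simp only [coe_sigma, Set.mem_sigma_iff, mem_coe, Fintype.mem_piFinset]
      refine ⟨a1, fun n => ?_⟩
      split_ifs with h
      · rw [h]
        exact mem_filter.2 ⟨(a2 i).1, hPΩ x hx⟩
      · exact mem_filter.2 ⟨mem_univ _, hA.symm _ _ (a2 n).2⟩
    · rintro ⟨b, a⟩ _ ⟨b', a'⟩ _ h
      simp only [Sigma.mk.injEq, heq_eq_eq] at h
      rw [h.1, h.2]
  refine (Nat.cast_le.2 h1).trans ?_
  rw [card_sigma, Nat.cast_sum, mul_sum]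
  refine sum_le_sum fun b hb => ?_
  rw [Fintype.card_piFinset, Nat.cast_prod, ← mul_prod_erase _ _ (mem_univ i), if_pos rfl,
    mul_comm]
  refine mul_le_mul_of_nonneg_right ?_ (Nat.cast_nonneg _)
  have h2 : (univ.erase i).card = 2 := by
    rw [card_erase_of_mem (mem_univ i)]
    simp
  rw [← h2, ← prod_const]
  refine prod_le_prod (fun _ _ => Nat.cast_nonneg _) fun n hn => ?_
  rw [if_neg (ne_of_mem_erase hn)]
  exact hA.hi b

end TD

end
end Pool.Agent.Lib.MP_439fea_co.Pw
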