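import Pool.Agent.Lib.MP_439fea_co.Pw.TTri
import Pool.Agent.Lib.MP_439fea_co.Pw.TThin
import Pool.Agent.Lib.MP_439fea_co.Pw.TStep

/-! The tree lemma: colouring, constants and conclusion. -/

namespace Pool.Agent.Lib.MP_439fea_co.Pw
open Finset Pool.Agent.Lib.MP_439fea_co.Z
open scoped Classical
noncomputable section

theorem exists_theta {η : ℝ} (hη : 0 < η) (hη1 : η ≤ 1) :
    ∃ θ : ℝ, 0 < θ ∧ θ ≤ 1 ∧ 1 - η ^ 3 / 32 ≤ η ^ θ := by
  refine ⟨η ^ 4 / 32, by positivity, ?_, ?_⟩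
  · have : η ^ 4 ≤ 1 := pow_le_one₀ hη.le hη1
    linarith
  rw [Real.rpow_def_of_pos hη]
  refine le_trans ?_ (Real.add_one_le_exp _)
  have h1 := Real.one_sub_inv_le_log_of_pos hη
  have h2 : η⁻¹ * (η ^ 4 / 32) = η ^ 3 / 32 := by field_simp
  have h3 : 0 < η ^ 4 / 32 := by positivity
  nlinarith

theorem cL_pos {C k : ℝ} (hC : 1 ≤ C) (hk : 0 < k) : 0 < cL C k := by
  unfold cL; positivity

theorem exists_tau {A B θ : ℝ} (hA : 0 < A) (hB : 0 < B) (hθ : 0 < θ) :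
    ∃ τ : ℝ, 0 < τ ∧ A * τ ^ (θ / 2) < B := by
  have h1 : 0 < B / (2 * A) := by positivity
  refine ⟨(B / (2 * A)) ^ (θ / 2)⁻¹, by positivity, ?_⟩
  rw [Real.rpow_inv_rpow h1.le (by positivity)]
  have h4 : A * (B / (2 * A)) = B / 2 := by field_simp
  linarith

theorem exists_small {A B : ℝ} (hA : 0 ≤ A) (hB : 0 < B) :
    ∃ x : ℝ, 0 < x ∧ ∀ y, 0 ≤ y → y ≤ x → A * y ≤ B := by
  refine ⟨B / (A + 1), by positivity, fun y hy h => ?_⟩
  rw [le_div_iff₀ (by positivity)] at h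
  nlinarith

namespace TD
variable {V F Γ ι : Type} [Field F] [LinearOrderedCommGroupWithZero Γ] [Fintype ι] [Fintype V]
  {D : TD V F Γ ι} {C K ω k g η t t1 t2 τ τ0 θ l m δ c0 : ℝ} {M : ℕ}

theorem fin_marked (hO : D.Ok C K ω k g M) (Ω : Finset (V × (Fin 3 → V)))
    (hΩ : ∀ x ∈ Ω, x.1 ∈ D.Y ∧ ∀ n, x.2 n ∈ D.X ∧ D.E (x.2 n) x.1) (i : Fin 3) (P : V → V → Prop)
    (hPΩ : ∀ x ∈ Ω, P (x.2 i) x.1) :
    (Ω.card : ℝ) ≤ (K * D.d) ^ 2 * ∑ b ∈ D.Y, ((D.X.filter fun a => P a b).card : ℝ) := by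
  have h1 : Ω.card ≤ (D.Y.sigma fun b => Fintype.piFinset fun n : Fin 3 =>
      if n = i then D.X.filter fun a => P a b else nb D.E D.X b).card := by
    refine card_le_card_of_injOn (fun x => ⟨x.1, x.2⟩) (fun x hx => ?_) ?_
    · obtain ⟨a1, a2⟩ := hΩ x hx
      simp only [coe_sigma, Set.mem_sigma_iff, mem_coe, Fintype.mem_piFinset]
      refine ⟨a1, fun n => ?_⟩
      split_ifs with h
      · rw [h]
        exact mem_filter.2 ⟨(a2 i).1, hPΩ x hx⟩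
      · exact mem_filter.2 ⟨(a2 n).1, hO.amb.symm _ _ (a2 n).2⟩
    · rintro ⟨b, a⟩ _ ⟨b', a'⟩ _ h
      simp only [Sigma.mk.injEq, heq_eq_eq] at h
      rw [h.1, h.2]
  refine (Nat.cast_le.2 h1).trans ?_
  rw [card_sigma, Nat.cast_sum, mul_sum]
  refine sum_le_sum fun b hb => ?_
  rw [Fintype.card_piFinset, Nat.cast_prod, ← mul_prod_erase _ _ (mem_univ i), if_pos rfl,
    mul_comm]
  refine mul_le_mul_of_nonneg_right ?_ (Nat.cast_nonneg _)
  have h2 : (univ.erase i).card = 2 := by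
    rw [card_erase_of_mem (mem_univ i)]
    simp
  rw [← h2, ← prod_const]
  refine prod_le_prod (fun _ _ => Nat.cast_nonneg _) fun n hn => ?_
  rw [if_neg (ne_of_mem_erase hn)]
  exact (Nat.cast_le.2 (card_le_card (nb_mono (subset_univ _) b))).trans (hO.amb.hi b)

theorem Par.clean_lo (hP : D.Par C K ω k g M η t) (hX : δ * NN V ≤ D.X.card)
    (hgood : cL C k * (1 / t + 2 * η * t) + 6 * M * ω / k ≤ δ / 2) (ht1 : 0 < t1)
    (hcl : 32 * C * cL C k ^ 2 / t1 ^ 2 + M * (2 + 4 * K / k) * ω ≤ k * δ / 4) :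
    k * δ / 4 * NN V * D.d ≤ ∑ b ∈ D.Y, ((D.X.filter fun a => D.Cl η t t1 a b).card : ℝ) := by
  have hd := hP.ok.amb.dpos
  have hN := hP.ok.amb.Npos
  have hκ := hP.kpos
  have h1 := hP.good_count
  have h2 := hP.clean_count ht1
  set Gd := D.X.filter (fun a => D.Good η t (D.cl a)) with hGd
  have h3 : (Gd.card : ℝ) + ((D.X.filter fun a => ¬ D.Good η t (D.cl a)).card : ℝ) = D.X.card := by
    exact_mod_cast card_filter_add_card_filter_not (s := D.X) (fun a => D.Good η t (D.cl a))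
  have h4 : δ / 2 * NN V ≤ Gd.card := by
    have := mul_le_mul_of_nonneg_right hgood hN.le
    linarith
  have h5 : ∑ b ∈ D.Y, ((D.X.filter fun a => D.Cl η t t1 a b).card : ℝ) =
      ∑ a ∈ Gd, (((nb D.E D.Y a).filter fun b => D.Cl η t t1 a b).card : ℝ) := by
    have e1 : ∀ b ∈ D.Y, ((D.X.filter fun a => D.Cl η t t1 a b).card : ℝ) =
        ∑ a ∈ Gd, if D.Cl η t t1 a b then (1 : ℝ) else 0 := by
      intro b _
      rw [sum_boole]
      congr 2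
      ext a
      simp only [hGd, mem_filter]
      exact ⟨fun h => ⟨⟨h.1, h.2.2.1⟩, h.2⟩, fun h => ⟨h.1.1, h.2⟩⟩
    rw [sum_congr rfl e1, sum_comm]
    refine sum_congr rfl fun a _ => ?_
    rw [sum_boole]
    congr 2
    ext b
    simp only [mem_filter, mem_nb]
    exact ⟨fun h => ⟨⟨h.1, h.2.2.2.2.1⟩, h.2⟩, fun h => ⟨h.1.1, h.2⟩⟩
  have h6 : ∀ a ∈ Gd, k * D.d ≤ (((nb D.E D.Y a).filter fun b => D.Cl η t t1 a b).card : ℝ) +
      (((nb D.E D.Y a).filter fun b => ¬ D.Cl η t t1 a b).card : ℝ) := by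
    intro a ha
    have := hP.ok.loH a (mem_filter.1 ha).1
    have e : (((nb D.E D.Y a).filter fun b => D.Cl η t t1 a b).card : ℝ) +
        (((nb D.E D.Y a).filter fun b => ¬ D.Cl η t t1 a b).card : ℝ) = (nb D.E D.Y a).card := by
      exact_mod_cast card_filter_add_card_filter_not (s := nb D.E D.Y a) _
    linarith
  have h7 := sum_le_sum h6
  rw [sum_add_distrib, sum_const, nsmul_eq_mul, ← h5] at h7
  have h8 := mul_le_mul_of_nonneg_right hcl (mul_pos hN hd).le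
  have h9 := mul_le_mul_of_nonneg_right h4 (mul_pos hκ hd).le
  nlinarith

theorem Par.core [CharZero F] (hP : D.Par C K ω k g M η t) (hc : D.Col) (ht1 : 0 ≤ t1)
    (hl : 0 < l) (hτ0 : 0 < τ0) (hg : t * g ^ 2 < τ0 ^ 2) (hroot : τ0 ≤ D.be univ)
    (hτl : 8 * t1 * t * τ0 ≤ l)
    (hcl : l * NN V * D.d ≤ ∑ b ∈ D.Y, ((D.X.filter fun a => D.Cl η t t1 a b).card : ℝ))
    (hc0 : c0 = l ^ 3 / 32 * ((η * τ0) ^ 2 / t) ^ 3) (hτ : 0 < τ) (ht2 : 1 ≤ t2) (hm : 0 < m)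
    (hbad : 3 * K ^ 2 * (K * (cL C k * g / τ + 2 * M * ω / k) +
      (m + 2 * C * cL C k ^ 2 / (m ^ 2 * t2) +
        M * (ω + 8 * C * M ^ 2 * ω ^ 2 / (m ^ 2 * k ^ 2)))) ≤ c0 / 2)
    (hθ : 0 < θ) (hθ1 : θ ≤ 1) (hηθ : 1 - η ^ 3 / 32 ≤ η ^ θ)
    (hfin : t1 ^ 3 * t2 * τ ^ (θ / 2) < c0 / 2) : False := by
  have hd := hP.ok.amb.dpos
  have hN := hP.ok.amb.Npos
  obtain ⟨T, Ω0, hΩ0, h0⟩ := hP.tri_exists ht1 hl hτ0 hg hroot hτl hcl
  rw [← hc0] at hΩ0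
  set B1 := K * (cL C k * g / τ + 2 * M * ω / k) with hB1
  set B2 := m + 2 * C * cL C k ^ 2 / (m ^ 2 * t2) +
    M * (ω + 8 * C * M ^ 2 * ω ^ 2 / (m ^ 2 * k ^ 2)) with hB2
  let A : Fin 3 → V → V → Prop := fun i a b => D.alive (D.cl a) (T.rad i (T.tm τ b))
  have hmem : ∀ (S : Finset (V × (Fin 3 → V))), S ⊆ Ω0 →
      ∀ x ∈ S, x.1 ∈ D.Y ∧ ∀ n, x.2 n ∈ D.X ∧ D.E (x.2 n) x.1 := fun S hS x hx =>
    ⟨(h0 x (hS hx) 0).1.2.2.1, fun n => ⟨(h0 x (hS hx) n).1.1, (h0 x (hS hx) n).1.2.2.2.1⟩⟩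
  have bad1 : ∀ i, ((Ω0.filter fun x => ¬ A i (x.2 i) x.1).card : ℝ)
      ≤ (K * D.d) ^ 2 * (B1 * NN V * D.d) := by
    intro i
    have h1 := fin_marked hP.ok (Ω0.filter fun x => ¬ A i (x.2 i) x.1)
      (hmem _ (filter_subset _ _)) i
      (fun a b => T.near i (D.cl a) ∧ D.E a b ∧ ¬ D.alive (D.cl a) (T.rad i (T.tm τ b)))
      (fun x hx => by
        have hx0 := (mem_filter.1 hx).1
        exact ⟨(h0 x hx0 i).2, (h0 x hx0 i).1.2.2.2.1, (mem_filter.1 hx).2⟩)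
    refine h1.trans (mul_le_mul_of_nonneg_left (le_of_eq_of_le ?_
      (T.dead_count hP hc hτ i)) (sq_nonneg _))
    exact sum_congr rfl fun b _ => by congr
  have bad2 : ∀ i, ((Ω0.filter fun x => A i (x.2 i) x.1 ∧ T.Thin τ t2 i (x.2 i) x.1).card : ℝ)
      ≤ (K * D.d) ^ 2 * (B2 * NN V * D.d) := by
    intro i
    have h1 := fin_marked hP.ok (Ω0.filter fun x => A i (x.2 i) x.1 ∧ T.Thin τ t2 i (x.2 i) x.1)
      (hmem _ (filter_subset _ _)) i
      (fun a b => T.near i (D.cl a) ∧ D.E a b ∧ D.alive (D.cl a) (T.rad i (T.tm τ b)) ∧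
        T.Thin τ t2 i a b)
      (fun x hx => by
        have hx0 := (mem_filter.1 hx).1
        exact ⟨(h0 x hx0 i).2, (h0 x hx0 i).1.2.2.2.1, (mem_filter.1 hx).2⟩)
    refine h1.trans (mul_le_mul_of_nonneg_left (le_of_eq_of_le ?_
      (T.thin_count hP hc hτ (by linarith) hm i)) (sq_nonneg _))
    exact sum_congr rfl fun b _ => by congr
  set Ω := Ω0.filter fun x => ∀ i, A i (x.2 i) x.1 ∧ ¬ T.Thin τ t2 i (x.2 i) x.1 with hΩ
  have hS : T.Sur η t t1 t2 τ Ω := by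
    intro x hx i
    have hx0 := (mem_filter.1 hx).1
    exact ⟨(h0 x hx0 i).1, (h0 x hx0 i).2, ((mem_filter.1 hx).2 i).1, ((mem_filter.1 hx).2 i).2⟩
  have h1 := T.sur_le hP hc hτ ht1 ht2 hθ hθ1 hηθ hS
  have h2 : Ω0 ⊆ Ω ∪ univ.biUnion fun i => (Ω0.filter fun x => ¬ A i (x.2 i) x.1) ∪
      Ω0.filter fun x => A i (x.2 i) x.1 ∧ T.Thin τ t2 i (x.2 i) x.1 := by
    intro x hx
    by_cases h : ∀ i, A i (x.2 i) x.1 ∧ ¬ T.Thin τ t2 i (x.2 i) x.1
    · exact mem_union_left _ (mem_filter.2 ⟨hx, h⟩)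
    · obtain ⟨i, hi⟩ := not_forall.1 h
      refine mem_union_right _ (mem_biUnion.2 ⟨i, mem_univ _, ?_⟩)
      by_cases ha : A i (x.2 i) x.1
      · exact mem_union_right _ (mem_filter.2 ⟨hx, ha, by_contra fun e => hi ⟨ha, e⟩⟩)
      · exact mem_union_left _ (mem_filter.2 ⟨hx, ha⟩)
  have h3 : (Ω0.card : ℝ) ≤ Ω.card + ∑ i, (((Ω0.filter fun x => ¬ A i (x.2 i) x.1).card : ℝ) +
      ((Ω0.filter fun x => A i (x.2 i) x.1 ∧ T.Thin τ t2 i (x.2 i) x.1).card : ℝ)) := by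
    have := (card_le_card h2).trans ((card_union_le _ _).trans
      (Nat.add_le_add_left (card_biUnion_le.trans (sum_le_sum fun i _ => card_union_le _ _)) _))
    exact_mod_cast this
  have h4 := sum_le_sum fun i (_ : i ∈ (univ : Finset (Fin 3))) => add_le_add (bad1 i) (bad2 i)
  rw [sum_const, card_univ, Fintype.card_fin, nsmul_eq_mul] at h4
  have h5 := mul_le_mul_of_nonneg_right hbad (by positivity : (0 : ℝ) ≤ NN V * D.d ^ 3)
  have h6 := mul_lt_mul_of_pos_right hfin (by positivity : (0 : ℝ) < NN V * D.d ^ 3)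
  have e1 : ((3 : ℕ) : ℝ) * ((K * D.d) ^ 2 * (B1 * NN V * D.d) +
      (K * D.d) ^ 2 * (B2 * NN V * D.d)) = 3 * K ^ 2 * (B1 + B2) * (NN V * D.d ^ 3) := by
    push_cast; ring
  rw [e1] at h4
  nlinarith

theorem Par.root (hP : D.Par C K ω k g M η t) (hX : δ * NN V ≤ D.X.card) (hω : 2 * ω / k ≤ δ / 2)
    (hτ : cL C k * τ0 ^ 2 ≤ δ / 2) : τ0 ≤ D.be univ := by
  have hN := hP.ok.amb.Npos
  have hc := cL_pos hP.C1 hP.kpos
  have h1 := (hP.l1 univ).1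
  have h2 : δ ≤ D.al univ := by
    unfold al pt
    rw [le_div_iff₀ hN, filter_true_of_mem fun a _ => mem_univ _]
    exact hX
  have h3 : τ0 ^ 2 ≤ D.be univ ^ 2 := le_of_mul_le_mul_left (by linarith) hc
  exact le_of_sq_le_sq h3 (div_nonneg (Nat.cast_nonneg _) hN.le)

omit [Fintype ι] [Fintype V] in
theorem exists_col (u : Valuation F Γ) (h2 : u 2 = 1) : ∃ P : F → Prop,
    ∀ x y : F, 1 < u x → (P x ↔ P y) → 1 < u (x + y) := by
  let q : F → Set F := fun x => {y | u (x - y) ≤ 1}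
  have tr : ∀ x y z, u (x - y) ≤ 1 → u (y - z) ≤ 1 → u (x - z) ≤ 1 := fun x y z a b => by
    have e : x - z = (x - y) + (y - z) := by ring
    rw [e]
    exact u.map_add_le a b
  have hq : ∀ x y, u (x - y) ≤ 1 → q x = q y := fun x y h =>
    Set.ext fun z => ⟨fun e => tr _ _ _ (by rwa [u.map_sub_swap]) e, fun e => tr _ _ _ h e⟩
  refine ⟨fun x => WellOrderingRel (q x) (q (-x)), fun x y hx h => ?_⟩
  by_contra hxy
  rw [not_lt] at hxy
  have e1 : q x = q (-y) := hq _ _ (by rwa [sub_neg_eq_add])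
  have e2 : q y = q (-x) := hq _ _ (by rwa [sub_neg_eq_add, add_comm])
  simp only [← e1, e2] at h
  rcases trichotomous_of WellOrderingRel (q x) (q (-x)) with a | a | a
  · exact asymm_of WellOrderingRel a (h.1 a)
  · have b : -x ∈ q x := by
      rw [a]
      show u (-x - -x) ≤ 1
      simp
    have c : u (x - -x) ≤ 1 := b
    have e : x - -x = 2 * x := by ring
    rw [e, map_mul, h2, one_mul] at c
    exact absurd hx (not_lt.2 c)
  · exact asymm_of WellOrderingRel a (h.2 a)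

theorem col_res (hO : D.Ok C K ω k g M) (Y : Finset V) (hs : Y ⊆ D.Y)
    (hp : ∀ b ∈ Y, ∀ c ∈ Y, 1 < D.u (D.hz b + D.hz c)) :
    ∃ D' : TD V F Γ ι, D'.Ok C K ω (k / 2) g M ∧ D'.Col ∧
      D'.X = D.X.filter fun a => k * D.d ≤ 2 * (nb D.E Y a).card := by
  have hx : (D.X.filter fun a => k * D.d ≤ 2 * (nb D.E Y a).card) ⊆ D.X := filter_subset _ _
  refine ⟨⟨D.u, D.μ, D.E, D.X.filter fun a => k * D.d ≤ 2 * (nb D.E Y a).card, Y, D.Y', D.cl,
    D.pz, D.pw, D.hz, D.hw, D.vz, D.vw, D.d⟩, ⟨hO.amb, hO.cι, hO.nat, hO.μbig, hO.hP,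
      fun b hb => hO.hY b (hs hb), hO.hY', fun a ha b hb => hO.mH a (hx ha) b (hs hb),
      fun a ha => hO.mU a (hx ha), hO.sep, fun a ha => ?_, fun a ha => ?_,
      (card_le_card (image_subset_image hs)).trans hO.few, fun c => le_trans ?_ (hO.light c)⟩,
    hp, rfl⟩
  · have := (mem_filter.1 ha).2
    show k / 2 * D.d ≤ (nb D.E Y a).card
    linarith
  · have h1 := hO.loU a (hx ha)
    have h2 : (0 : ℝ) ≤ (nb D.E D.Y' a).card := Nat.cast_nonneg _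
    show k / 2 * D.d ≤ (nb D.E D.Y' a).card
    linarith
  · refine mul_le_mul (Nat.cast_le.2 (card_le_card fun b hb => ?_))
      (Nat.cast_le.2 (card_le_card fun b hb => ?_)) (Nat.cast_nonneg _) (Nat.cast_nonneg _)
    · obtain ⟨h1, a, h2, h3⟩ := mem_filter.1 hb
      exact mem_filter.2 ⟨hs h1, a, hx h2, h3⟩
    · obtain ⟨h1, a, h2, h3⟩ := mem_filter.1 hb
      exact mem_filter.2 ⟨h1, a, hx h2, h3⟩

/-- Two-colouring that separates opposite centres. -/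
theorem colour (hO : D.Ok C K ω k g M) :
    ∃ D' : TD V F Γ ι, D'.Ok C K ω (k / 2) g M ∧ D'.Col ∧ D.X.card ≤ 2 * D'.X.card := by
  obtain ⟨P, hP⟩ := exists_col D.u (by exact_mod_cast hO.nat 2 two_ne_zero)
  have hn : ∀ b ∈ D.Y, 1 < D.u (D.hz b) := fun b hb => hO.μbig.trans_le (hO.hY b hb)
  obtain ⟨D1, b1, c1, e1⟩ := col_res hO (D.Y.filter fun b => P (D.hz b))
    (filter_subset _ _) fun b hb c hc => hP _ _ (hn b (mem_filter.1 hb).1)
      (iff_of_true (mem_filter.1 hb).2 (mem_filter.1 hc).2)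
  obtain ⟨D2, b2, c2, e2⟩ := col_res hO (D.Y.filter fun b => ¬P (D.hz b))
    (filter_subset _ _) fun b hb c hc => hP _ _ (hn b (mem_filter.1 hb).1)
      (iff_of_false (mem_filter.1 hb).2 (mem_filter.1 hc).2)
  have hu : D.X ⊆ D1.X ∪ D2.X := fun a ha => by
    rw [e1, e2, mem_union, mem_filter, mem_filter]
    have h1 := hO.loH a ha
    have h2 : (nb D.E D.Y a).card = (nb D.E (D.Y.filter fun b => P (D.hz b)) a).card +
        (nb D.E (D.Y.filter fun b => ¬P (D.hz b)) a).card := by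
      unfold nb
      rw [filter_comm, filter_comm (fun b => ¬P (D.hz b)), card_filter_add_card_filter_not]
    rw [h2, Nat.cast_add] at h1
    by_contra h
    push Not at h
    have := h.1 ha
    have := h.2 ha
    linarith
  have hc := (card_le_card hu).trans (card_union_le _ _)
  rcases le_total D1.X.card D2.X.card with h | h
  · exact ⟨D2, b2, c2, by omega⟩
  · exact ⟨D1, b1, c1, by omega⟩

end TD

theorem tree0 (C K k δ : ℝ) (hC : 1 ≤ C) (hK : 1 ≤ K) (hk : 0 < k) (hδ : 0 < δ) :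
    ∃ g : ℝ, 0 < g ∧ ∀ M : ℕ, ∃ ω0 : ℝ, 0 < ω0 ∧
      ∀ (V F Γ ι : Type) [Fintype V] [Field F] [CharZero F] [LinearOrderedCommGroupWithZero Γ]
        [Fintype ι] (D : TD V F Γ ι) (ω : ℝ), ω ≤ ω0 → D.Ok C K ω k g M → D.Col →
        δ * NN V ≤ D.X.card → False := by
  have hc := cL_pos hC hk
  set c := cL C k with hcdef
  have hC0 : 0 < C := by linarith
  have hK0 : 0 < K := by linarith
  obtain ⟨t, ht1, htc⟩ : ∃ t : ℝ, 1 ≤ t ∧ 8 * c ≤ t * δ :=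
    ⟨1 + 8 * c / δ, by have : 0 < 8 * c / δ := by positivity
                       linarith, by field_simp; linarith⟩
  have ht0 : 0 < t := by linarith
  obtain ⟨η, hη, hη1, hηc⟩ : ∃ η : ℝ, 0 < η ∧ η ≤ 1 ∧ c * (2 * η * t) ≤ δ / 8 := by
    refine ⟨min 1 (δ / (16 * c * t)), by positivity, min_le_left _ _, ?_⟩
    have := min_le_right 1 (δ / (16 * c * t))
    rw [le_div_iff₀ (by positivity)] at this
    linarith
  obtain ⟨t1, ht11, ht1c⟩ : ∃ t1 : ℝ, 1 ≤ t1 ∧ 32 * C * c ^ 2 / t1 ^ 2 ≤ k * δ / 8 := by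
    have h1 : 0 < 256 * C * c ^ 2 / (k * δ) := by positivity
    refine ⟨1 + 256 * C * c ^ 2 / (k * δ), by linarith, ?_⟩
    rw [div_le_iff₀ (by positivity)]
    set A := 256 * C * c ^ 2 / (k * δ) with hA
    have h2 : k * δ * A = 256 * C * c ^ 2 := by rw [hA]; field_simp
    have h3 : A ≤ (1 + A) ^ 2 := by nlinarith
    have h4 := mul_le_mul_of_nonneg_left h3 (mul_pos hk hδ).le
    linarith
  have ht10 : 0 < t1 := by linarith
  set l := k * δ / 4 with hl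
  have hl0 : 0 < l := by positivity
  obtain ⟨τ0, hτ0, hτr, hτl⟩ : ∃ τ0 : ℝ, 0 < τ0 ∧ c * τ0 ^ 2 ≤ δ / 2 ∧ 8 * t1 * t * τ0 ≤ l := by
    obtain ⟨x, hx, h⟩ := exists_small hc.le (half_pos hδ)
    obtain ⟨y, hy, h'⟩ := exists_small (A := 8 * t1 * t) (by positivity) hl0
    have h0 : 0 < min 1 (min x y) := by positivity
    have h1 := min_le_left 1 (min x y)
    have h2 := (min_le_right 1 (min x y)).trans (min_le_left _ _)
    exact ⟨_, h0, h _ (sq_nonneg _) (by nlinarith),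
      h' _ h0.le ((min_le_right _ _).trans (min_le_right _ _))⟩
  obtain ⟨c0, hc0⟩ : ∃ c0 : ℝ, c0 = l ^ 3 / 32 * ((η * τ0) ^ 2 / t) ^ 3 := ⟨_, rfl⟩
  have hc00 : 0 < c0 := by rw [hc0]; positivity
  obtain ⟨m, hm⟩ : ∃ m : ℝ, m = c0 / (24 * K ^ 2) := ⟨_, rfl⟩
  have hm0 : 0 < m := by rw [hm]; positivity
  obtain ⟨t2, ht2, ht2c⟩ : ∃ t2 : ℝ, 1 ≤ t2 ∧ 2 * C * c ^ 2 / (m ^ 2 * t2) ≤ m := by
    have h2 : 0 < 2 * C * c ^ 2 / m ^ 3 := by positivity
    refine ⟨1 + 2 * C * c ^ 2 / m ^ 3, by linarith, ?_⟩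
    rw [div_le_iff₀ (by positivity)]
    have : m * (m ^ 2 * (1 + 2 * C * c ^ 2 / m ^ 3)) = m ^ 3 + 2 * C * c ^ 2 := by field_simp
    rw [this]
    linarith [pow_pos hm0 3]
  obtain ⟨θ, hθ, hθ1, hηθ⟩ := exists_theta hη hη1
  obtain ⟨τ, hτ, hfin⟩ := exists_tau (A := t1 ^ 3 * t2) (B := c0 / 2) (by positivity)
    (by positivity) hθ
  obtain ⟨g, hg0, hg1, hg2⟩ : ∃ g : ℝ, 0 < g ∧ t * g ^ 2 < τ0 ^ 2 ∧ K * (c * g / τ) ≤ m := by
    obtain ⟨x, hx, h⟩ := exists_small ht0.le (half_pos (pow_pos hτ0 2))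
    obtain ⟨y, hy, h'⟩ := exists_small (A := K * c / τ) (by positivity) hm0
    have h0 : 0 < min 1 (min x y) := by positivity
    have h1 := min_le_left 1 (min x y)
    have h2 := (min_le_right 1 (min x y)).trans (min_le_left _ _)
    have h3 := h (min 1 (min x y) ^ 2) (sq_nonneg _) (by nlinarith)
    have h4 := h' _ h0.le ((min_le_right _ _).trans (min_le_right _ _))
    refine ⟨_, h0, by linarith [pow_pos hτ0 2], le_of_eq_of_le ?_ h4⟩
    ring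
  refine ⟨g, hg0, fun M => ?_⟩
  obtain ⟨x1, hx1, h1⟩ := exists_small (A := 6 * M / k) (by positivity) (B := δ / 4) (by positivity)
  obtain ⟨x2, hx2, h2⟩ := exists_small (A := M * (2 + 4 * K / k)) (by positivity)
    (B := k * δ / 8) (by positivity)
  obtain ⟨x3, hx3, h3⟩ := exists_small (A := 2 / k) (by positivity) (half_pos hδ)
  obtain ⟨x4, hx4, h4⟩ := exists_small
    (A := K * (2 * M / k) + M * (1 + 8 * C * M ^ 2 / (m ^ 2 * k ^ 2))) (by positivity) hm0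
  refine ⟨min (min x1 x2) (min x3 x4), by positivity, fun V F Γ ι _ _ _ _ _ D ω hω hO hcol hX => ?_⟩
  have hω0 := hO.amb.ωpos
  have hω1 := hO.amb.ω1
  replace h1 := h1 ω hω0.le (hω.trans ((min_le_left _ _).trans (min_le_left _ _)))
  replace h2 := h2 ω hω0.le (hω.trans ((min_le_left _ _).trans (min_le_right _ _)))
  replace h3 := h3 ω hω0.le (hω.trans ((min_le_right _ _).trans (min_le_left _ _)))
  replace h4 := h4 ω hω0.le (hω.trans ((min_le_right _ _).trans (min_le_right _ _)))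
  have hP : D.Par C K ω k g M η t := ⟨hO, hC, hK, hk, hg0, hη, hη1, ht1⟩
  have hgood : c * (1 / t + 2 * η * t) + 6 * M * ω / k ≤ δ / 2 := by
    have h5 : c * (1 / t) ≤ δ / 8 := by
      rw [mul_one_div, div_le_iff₀ ht0]; linarith
    have h6 : 6 * M * ω / k = 6 * M / k * ω := by ring
    rw [mul_add]
    linarith
  have hcl := hP.clean_lo hX hgood ht10 (by linarith)
  have hroot := hP.root hX (le_of_eq_of_le (by ring) h3) hτr
  refine hP.core hcol ht10.le hl0 hτ0 hg1 hroot hτl hcl hc0 hτ ht2 hm0 ?_ hθ hθ1 hηθ hfin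
  have e1 : 8 * C * M ^ 2 * ω ^ 2 / (m ^ 2 * k ^ 2) ≤ 8 * C * M ^ 2 / (m ^ 2 * k ^ 2) * ω := by
    have e : 8 * C * M ^ 2 * ω ^ 2 / (m ^ 2 * k ^ 2) =
        8 * C * M ^ 2 / (m ^ 2 * k ^ 2) * ω ^ 2 := by ring
    rw [e]
    exact mul_le_mul_of_nonneg_left (by nlinarith) (by positivity)
  have e2 := mul_le_mul_of_nonneg_left e1 (Nat.cast_nonneg (α := ℝ) M)
  have e3 : K * (c * g / τ + 2 * M * ω / k) + (m + 2 * C * c ^ 2 / (m ^ 2 * t2) +
      M * (ω + 8 * C * M ^ 2 * ω ^ 2 / (m ^ 2 * k ^ 2))) ≤ 4 * m := by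
    have e4 : (K * (2 * M / k) + M * (1 + 8 * C * M ^ 2 / (m ^ 2 * k ^ 2))) * ω =
        K * (2 * M * ω / k) + M * ω + M * (8 * C * M ^ 2 / (m ^ 2 * k ^ 2) * ω) := by ring
    rw [mul_add, mul_add]
    linarith
  have e5 : 3 * K ^ 2 * (4 * m) = c0 / 2 := by rw [hm]; field_simp; ring
  rw [← e5]
  exact mul_le_mul_of_nonneg_left e3 (by positivity)

theorem treeS : TreeS := by
  intro C K k δ hC hK hk _ hδ
  obtain ⟨g, hg, h⟩ := tree0 C K (k / 2) (δ / 2) hC hK (half_pos hk) (half_pos hδ)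
  refine ⟨g, hg, fun M => ?_⟩
  obtain ⟨ω0, hω0, h⟩ := h M
  refine ⟨ω0, hω0, fun V F Γ ι _ _ _ _ _ D ω hω hO hX => ?_⟩
  obtain ⟨D', hO', hc, hc'⟩ := TD.colour hO
  refine h V F Γ ι D' ω hω hO' hc ?_
  have : (D.X.card : ℝ) ≤ 2 * D'.X.card := by exact_mod_cast hc'
  linarith

end
end Pool.Agent.Lib.MP_439fea_co.Pw
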