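import Pool.Agent.Lib.MP_439fea_co.Pw.Rel
import Pool.Agent.Lib.MP_439fea_co.Pw.Exp
import Pool.Agent.Lib.MP_439fea_co.Pw.Spec
import Pool.Agent.Lib.MP_439fea_co.Pw.Ht
import Pool.Agent.Lib.MP_439fea_co.Pw.Dbl
import Pool.Agent.Lib.MP_439fea_co.Pw.Cl
import Pool.Agent.Lib.MP_439fea_co.Pw.TFin
import Pool.Agent.Lib.MP_439fea_co.Pw.Mix
import Pool.Agent.Lib.MP_439fea_co.Pw.Box
import Pool.Agent.Lib.MP_439fea_co.Pw.BoxAll
import Pool.Agent.Lib.MP_439fea_co.Pw.Acc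
import Pool.Agent.Lib.MP_439fea_co.Pw.Pat2
import Pool.Agent.Lib.MP_439fea_co.Pw.Lim
import Pool.Agent.Lib.MP_439fea_co.Pw.LCell
import Pool.Agent.Lib.MP_439fea_co.Pw.LGeo
import Pool.Agent.Lib.MP_439fea_co.Pw.LLab
import Pool.Agent.Lib.MP_439fea_co.Pw.LMart
import Pool.Agent.Lib.MP_439fea_co.Pw.LMiss
import Pool.Agent.Lib.MP_439fea_co.Pw.LStep
import Pool.Agent.Lib.MP_439fea_co.Pw.LCore
import Pool.Agent.Lib.MP_439fea_co.Pw.Lln
import Pool.Agent.Lib.MP_439fea_co.Pw.Grid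

/-! The power saving. -/

namespace Pool.Agent.Lib.MP_439fea_co.Pw

theorem llnS : LlnS := llnS_of cellS geoS labS (coreS martS missS stepS)

theorem main : MainS :=
  mainS (graph_of (hostS relS) (noHost_of specS htS
    (boxAllS (boxS (mixS clusterS treeS)) dblS) accS patS limS llnS))

end Pool.Agent.Lib.MP_439fea_co.Pw
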