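import Pool.Agent.Lib.MP_439fea_co.Pw.Asm

/-! The valued ultrapower, leaders of maximal balls and the Lipschitz bound. -/

namespace Pool.Agent.Lib.MP_439fea_co.Pw
open Finset Filter Pool.Agent.Lib.MP_439fea_co.Z
open scoped Classical
noncomputable section

section Ultra
variable {O : Type} [Field O] (v : ℕ → AbsoluteValue O ℝ) (Φ : Ultrafilter ℕ)

/-- Classes of bounded sequences. -/
def mixBdd : ValuationSubring (Germ (Φ : Filter ℕ) O) where
  carrier := {x | ∃ (f : ℕ → O) (B : ℝ), (f : Germ (Φ : Filter ℕ) O) = x ∧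
    ∀ᶠ j in (Φ : Filter ℕ), v j (f j) ≤ B}
  mul_mem' := by
    rintro _ _ ⟨f, B, rfl, hf⟩ ⟨g, B', rfl, hg⟩
    refine ⟨f * g, B * B', rfl, ?_⟩
    filter_upwards [hf, hg] with j h1 h2
    rw [Pi.mul_apply, map_mul]
    exact mul_le_mul h1 h2 ((v j).nonneg _) (((v j).nonneg _).trans h1)
  one_mem' := ⟨1, 1, rfl, Eventually.of_forall fun j => by simp⟩
  add_mem' := by
    rintro _ _ ⟨f, B, rfl, hf⟩ ⟨g, B', rfl, hg⟩
    refine ⟨f + g, B + B', rfl, ?_⟩
    filter_upwards [hf, hg] with j h1 h2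
    exact ((v j).add_le _ _).trans (add_le_add h1 h2)
  zero_mem' := ⟨0, 0, rfl, Eventually.of_forall fun j => by simp⟩
  neg_mem' := by
    rintro _ ⟨f, B, rfl, hf⟩
    refine ⟨-f, B, rfl, ?_⟩
    filter_upwards [hf] with j h1
    simpa using h1
  mem_or_inv_mem' := by
    intro x
    refine Germ.inductionOn x fun f => ?_
    rcases Φ.em (fun j => v j (f j) ≤ 1) with h | h
    · exact Or.inl ⟨f, 1, rfl, h⟩
    · refine Or.inr ⟨f⁻¹, 1, rfl, ?_⟩
      filter_upwards [h] with j h1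
      rw [Pi.inv_apply, map_inv₀]
      exact inv_le_one_of_one_le₀ (not_le.1 h1).le

theorem mix_exists_val [CharZero O] : ∃ (F Γ : Type) (_ : Field F) (_ : CharZero F)
    (_ : LinearOrderedCommGroupWithZero Γ) (u : Valuation F Γ) (φ : (ℕ → O) →+* F),
    (∀ x y, (∀ᶠ j in (Φ : Filter ℕ), x j = y j) → φ x = φ y) ∧
    ∀ x y, u (φ x) ≤ u (φ y) ↔ ∃ B : ℝ, ∀ᶠ j in (Φ : Filter ℕ), v j (x j) ≤ B * v j (y j) := by
  have hc : CharZero (Germ (Φ : Filter ℕ) O) :=
    charZero_of_injective_ringHom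
      (f := (Germ.coeRingHom (Φ : Filter ℕ)).comp (Pi.constRingHom ℕ O)) (RingHom.injective _)
  refine ⟨Germ (Φ : Filter ℕ) O, (mixBdd v Φ).ValueGroup, inferInstance, hc, inferInstance,
    (mixBdd v Φ).valuation, Germ.coeRingHom _, fun x y h => Germ.coe_eq.2 h, fun x y => ?_⟩
  rw [ValuationSubring.valuation_le_iff]
  constructor
  · rintro ⟨⟨_, f, B, rfl, hf⟩, h⟩
    have h' : ∀ᶠ j in (Φ : Filter ℕ), (f * y) j = x j := Germ.coe_eq.1 h
    refine ⟨B, ?_⟩
    filter_upwards [hf, h'] with j h1 h2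
    rw [← h2, Pi.mul_apply, map_mul]
    exact mul_le_mul_of_nonneg_right h1 ((v j).nonneg _)
  · rintro ⟨B, h⟩
    refine ⟨⟨_, fun j => x j / y j, max B 0, rfl, ?_⟩, ?_⟩
    · filter_upwards [h] with j h1
      rw [map_div₀]
      refine div_le_of_le_mul₀ ((v j).nonneg _) (le_max_right _ _) (h1.trans ?_)
      exact mul_le_mul_of_nonneg_right (le_max_left _ _) ((v j).nonneg _)
    · refine (Germ.coe_eq (f := (fun j => x j / y j) * y) (g := x)).2 ?_
      filter_upwards [h] with j h1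
      by_cases hy : y j = 0
      · rw [hy, map_zero, mul_zero] at h1
        have : x j = 0 := (v j).eq_zero.1 (le_antisymm h1 ((v j).nonneg _))
        simp [this]
      · simp [hy]

/-- A sequence in a finite type is constant along the ultrafilter. -/
theorem mix_const {T : Type} [Finite T] (f : ℕ → T) : ∃ t, ∀ᶠ j in (Φ : Filter ℕ), f j = t := by
  obtain ⟨t, ht⟩ := (Φ.map f).eq_pure_of_finite
  refine ⟨t, ?_⟩
  have : {t} ∈ Φ.map f := by rw [ht]; simp
  exact this

end Ultra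

section Lead
variable {ι Γ : Type} [LinearOrder Γ]

/-- Leaders of the maximal balls in a finite ultrametric family. -/
theorem mix_leader [Fintype ι] [LinearOrder ι] (ds : ι → ι → Γ) (s : ι → Γ)
    (h0 : ∀ c, ds c c ≤ s c) (hs : ∀ c c', ds c c' = ds c' c)
    (ht : ∀ a b c, ds a c ≤ max (ds a b) (ds b c)) :
    ∃ ld : ι → ι, (∀ c, ds c (ld c) ≤ s (ld c) ∧ s c ≤ s (ld c)) ∧
      ∀ c c', ld c ≠ ld c' → s (ld c) < ds (ld c) (ld c') := by
  have hex : ∀ c, ∃ l, ds c l ≤ s l ∧ ∀ l', ds c l' ≤ s l' → toLex (s l', l') ≤ toLex (s l, l) := by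
    intro c
    obtain ⟨l, hl, hm⟩ := exists_max_image (univ.filter fun l => ds c l ≤ s l)
      (fun l => toLex (s l, l)) ⟨c, by simpa using h0 c⟩
    exact ⟨l, by simpa using hl, fun l' h => hm l' (by simpa using h)⟩
  choose ld h1 h2 using hex
  have h3 : ∀ c l, ds c l ≤ s l → s l ≤ s (ld c) := fun c l h =>
    (Prod.Lex.le_iff.1 (h2 c l h)).elim le_of_lt fun e => le_of_eq e.1
  have key : ∀ c c', s (ld c') ≤ s (ld c) → ds (ld c) (ld c') ≤ s (ld c) → ld c = ld c' := by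
    intro c c' a1 a2
    have b1 : ds c' (ld c) ≤ s (ld c) :=
      (ht _ (ld c') _).trans (max_le ((h1 c').trans a1) (by rw [hs]; exact a2))
    have e : s (ld c) = s (ld c') := le_antisymm (h3 c' _ b1) a1
    have b2 : ds c (ld c') ≤ s (ld c') :=
      (ht _ (ld c) _).trans (max_le ((h1 c).trans e.le) (a2.trans e.le))
    have := le_antisymm (h2 c' _ b1) (h2 c _ b2)
    exact congrArg (fun x : Γ ×ₗ ι => (ofLex x).2) this
  refine ⟨ld, fun c => ⟨h1 c, h3 c c (h0 c)⟩, fun c c' hne => ?_⟩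
  by_contra hle
  rw [not_lt] at hle
  rcases le_total (s (ld c')) (s (ld c)) with h | h
  · exact hne (key c c' h hle)
  · exact hne (key c' c h (by rw [hs]; exact hle.trans h)).symm

end Lead

section Lip
variable {F Γ : Type} [Field F] [LinearOrderedCommGroupWithZero Γ] (u : Valuation F Γ)

/-- A curve through a point close to `(x, y)` passes close to `(x, y)`. -/
theorem mix_lip {μ hz hw az aw x y : F} {s : Γ} (hμ : 1 < u μ) (hh : u μ ≤ u hz)
    (e : (az - hz) * (aw - hw) = μ) (ha : u az ≤ 1) (hx : u x ≤ 1)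
    (h1 : u (az - x) ≤ s) (h2 : u (aw - y) ≤ s) : u (hw + μ / (x - hz) - y) ≤ s := by
  have hz1 : 1 < u hz := hμ.trans_le hh
  have k1 : u (az - hz) = u hz := by
    rw [← u.map_neg, neg_sub]
    exact u.map_sub_eq_of_lt_left (ha.trans_lt hz1)
  have k2 : u (x - hz) = u hz := by
    rw [← u.map_neg, neg_sub]
    exact u.map_sub_eq_of_lt_left (hx.trans_lt hz1)
  have hz0 : u hz ≠ 0 := (zero_lt_one.trans hz1).ne'
  have n1 : az - hz ≠ 0 := fun h => hz0 (by rw [← k1, h, map_zero])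
  have n2 : x - hz ≠ 0 := fun h => hz0 (by rw [← k2, h, map_zero])
  have e2 : hw + μ / (x - hz) - y = (aw - y) + μ / (az - hz) * ((az - x) / (x - hz)) := by
    rw [← e]
    field_simp
    ring
  rw [e2]
  refine (u.map_add _ _).trans (max_le h2 ?_)
  rw [map_mul, map_div₀, map_div₀, k1, k2]
  have a1 : u μ / u hz ≤ 1 := div_le_one_of_le₀ hh zero_le
  have a2 : u (az - x) / u hz ≤ s := by
    refine le_trans ?_ h1
    rw [div_le_iff₀ (zero_lt_one.trans hz1)]
    exact le_mul_of_one_le_right' hz1.le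
  calc u μ / u hz * (u (az - x) / u hz) ≤ 1 * s := mul_le_mul' a1 a2
    _ = s := one_mul s

end Lip

end
end Pool.Agent.Lib.MP_439fea_co.Pw
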