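import Pool.Agent.Lib.MP_439fea_co.Pw.RelA

/-! The extremal set and its relative incidence bounds. -/

namespace Pool.Agent.Lib.MP_439fea_co.Pw
open Finset Pool.Agent.Lib.MP_439fea_co.Z
open scoped Classical

variable {V : Type} {E : V → V → Prop}

theorem rel_split {σ ε u : ℝ} (hσ : 0 < σ) (hσ1 : σ ≤ 1) (hε : 0 < ε) (hεσ : ε ≤ σ / 12)
    (hu : 0 < u) (hu1 : u ≤ 1) : u ^ (1 / 3 - ε) ≤ 2 * u ^ (1 / 3 : ℝ) + σ := by
  have p0 : 0 ≤ u ^ (1 / 3 : ℝ) := by positivity
  rcases le_total u (σ ^ 4) with h | h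
  · have h1 : u ^ (1 / 3 - ε) ≤ u ^ (1 / 4 : ℝ) :=
      Real.rpow_le_rpow_of_exponent_ge hu hu1 (by linarith)
    have h2 : u ^ (1 / 4 : ℝ) ≤ (σ ^ 4) ^ (1 / 4 : ℝ) := Real.rpow_le_rpow hu.le h (by norm_num)
    have h3 : (σ ^ 4) ^ (1 / 4 : ℝ) = σ := by
      rw [← Real.rpow_natCast, ← Real.rpow_mul hσ.le]
      norm_num
    linarith
  · have h1 : u ^ (-ε) ≤ 2 := by
      have a1 : Real.log (σ ^ 4) ≤ Real.log u := Real.log_le_log (by positivity) h
      rw [Real.log_pow] at a1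
      have a2 : -Real.log σ ≤ σ⁻¹ := by
        have := Real.log_le_sub_one_of_pos (inv_pos.2 hσ)
        rw [Real.log_inv] at this
        linarith
      have a3 : ε * σ⁻¹ ≤ 1 / 12 := by
        rw [← div_eq_mul_inv, div_le_iff₀ hσ]
        linarith
      have a4 : Real.log u * -ε ≤ 1 / 2 := by
        push_cast at a1
        nlinarith
      rw [Real.rpow_def_of_pos hu]
      refine (Real.exp_le_exp.2 (a4.trans ?_)).trans (Real.exp_log two_pos).le
      linarith [Real.log_two_gt_d9]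
    rw [sub_eq_add_neg, Real.rpow_add hu]
    nlinarith

theorem rel_amgm {a A B : ℝ} (hA : 0 ≤ A) (hB : 0 ≤ B) (h : a ^ 3 ≤ A ^ 2 * B) : a ≤ A + B := by
  refine le_of_pow_le_pow_left₀ three_ne_zero (by positivity) (h.trans ?_)
  have h1 : 0 ≤ A ^ 3 + 2 * (A ^ 2 * B) + 3 * (A * B ^ 2) + B ^ 3 := by positivity
  nlinarith

/-- The relative bound, for the smaller set `X` and the larger set `Y`. -/
theorem rel_main (h : PL E) (S : Finset V) {d σ ε : ℝ} (hd : 0 < d) (hσ : 0 < σ) (hσ1 : σ ≤ 1)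
    (hε : 0 < ε) (hεσ : ε ≤ σ / 12) (hN : 0 < S.card)
    (hS : ∀ T ⊆ S, (ed E T T : ℝ) ≤ d * S.card * ((T.card : ℝ) / S.card) ^ (4 / 3 - ε))
    (X Y : Finset V) (hX : X ⊆ S) (hY : Y ⊆ S) (hxy : X.card ≤ Y.card) :
    ∃ a : ℝ, a ^ 3 * S.card ≤ 28900 ^ 3 * ((X.card : ℝ) * Y.card) ^ 2 ∧
      (ed E X Y : ℝ) ≤ d * a + (3 + 14450 * σ * d) * Y.card := by
  have N0 : (0 : ℝ) < S.card := by exact_mod_cast hN
  have y00 : (0 : ℝ) ≤ Y.card := Nat.cast_nonneg _
  have t0 : 0 ≤ 14450 * σ * d * Y.card := by positivity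
  rw [ed_comm h.symm]
  by_cases hq : X.card ^ 2 < Y.card ∨ X.card = 0
  · refine ⟨0, le_trans (by simp) (by positivity : (0 : ℝ) ≤ _), ?_⟩
    have h1 := ed_le_param h.k22 Y X one_pos
    have h2 : (X.card : ℝ) ^ 2 ≤ Y.card := by
      rcases hq with hq | hq
      · exact_mod_cast hq.le
      · simp [hq]
    rw [div_one] at h1
    nlinarith
  rw [not_or, not_lt] at hq
  have h0 : 0 < X.card := Nat.pos_of_ne_zero hq.2
  have x0 : (0 : ℝ) < X.card := by exact_mod_cast h0
  have xy : (X.card : ℝ) ≤ Y.card := by exact_mod_cast hxy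
  have y0 : (0 : ℝ) < Y.card := x0.trans_le xy
  have xN : (X.card : ℝ) ≤ S.card := by exact_mod_cast card_le_card hX
  set u : ℝ := (X.card : ℝ) ^ 2 / (Y.card * S.card) with hu
  have u0 : 0 < u := by positivity
  have u1 : u ≤ 1 := by
    rw [hu, div_le_one (by positivity)]
    nlinarith
  have h1 := rel_cut h S X Y hX hY hxy h0 hq.1 (W := d * S.card * (25 * u ^ (4 / 3 - ε)))
    (by positivity) fun T hT hc => by
      refine (hS T hT).trans (mul_le_mul_of_nonneg_left ?_ (by positivity))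
      have a1 : (T.card : ℝ) / S.card ≤ 5 * u := by
        refine (div_le_div_of_nonneg_right hc N0.le).trans (le_of_eq ?_)
        rw [hu]
        field_simp
      refine (Real.rpow_le_rpow (by positivity) a1 (by linarith)).trans ?_
      rw [Real.mul_rpow (by norm_num) u0.le]
      refine mul_le_mul_of_nonneg_right ?_ (by positivity)
      have a2 : (5 : ℝ) ^ (4 / 3 - ε) ≤ 5 ^ (2 : ℝ) :=
        Real.rpow_le_rpow_of_exponent_le (by norm_num) (by linarith)
      refine a2.trans (le_of_eq ?_)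
      norm_num
  have h2 : u ^ (4 / 3 - ε) = u * u ^ (1 / 3 - ε) := by
    rw [show 4 / 3 - ε = 1 + (1 / 3 - ε) by ring, Real.rpow_add u0, Real.rpow_one]
  have h3 : ((Y.card : ℝ) / X.card) ^ 2 * (S.card * u) = Y.card := by
    rw [hu]
    field_simp
  have h4 : 578 * ((Y.card : ℝ) / X.card) ^ 2 * (d * S.card * (25 * u ^ (4 / 3 - ε))) =
      14450 * d * Y.card * u ^ (1 / 3 - ε) := by
    rw [h2]
    linear_combination 14450 * d * u ^ (1 / 3 - ε) * h3
  have h5 := mul_le_mul_of_nonneg_left (rel_split hσ hσ1 hε hεσ u0 u1)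
    (by positivity : (0 : ℝ) ≤ 14450 * d * Y.card)
  have h6 : (u ^ (1 / 3 : ℝ)) ^ 3 = u := by
    rw [← Real.rpow_natCast, ← Real.rpow_mul u0.le]
    norm_num
  refine ⟨28900 * Y.card * u ^ (1 / 3 : ℝ), le_of_eq ?_, ?_⟩
  · rw [mul_pow, h6, hu]
    field_simp
  · rw [h4] at h1
    nlinarith

/-- The relative bound with a free parameter. -/
theorem rel_par (h : PL E) (S : Finset V) {d σ ε : ℝ} (hd : 0 < d) (hσ : 0 < σ) (hσ1 : σ ≤ 1)
    (hε : 0 < ε) (hεσ : ε ≤ σ / 12) (hN : 0 < S.card)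
    (hS : ∀ T ⊆ S, (ed E T T : ℝ) ≤ d * S.card * ((T.card : ℝ) / S.card) ^ (4 / 3 - ε))
    (X Y : Finset V) (hX : X ⊆ S) (hY : Y ⊆ S) {m : ℝ} (hm : 0 < m) :
    (ed E X Y : ℝ) ≤ m / 2 * d * X.card + 10 ^ 14 / m ^ 2 * d * (Y.card : ℝ) ^ 2 / S.card +
      (3 + 14450 * σ * d) * max (X.card : ℝ) Y.card := by
  have N0 : (0 : ℝ) < S.card := by exact_mod_cast hN
  have key : ∃ a : ℝ, a ^ 3 * S.card ≤ 28900 ^ 3 * ((X.card : ℝ) * Y.card) ^ 2 ∧
      (ed E X Y : ℝ) ≤ d * a + (3 + 14450 * σ * d) * max (X.card : ℝ) Y.card := by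
    rcases le_total X.card Y.card with hc | hc
    · rw [max_eq_right (by exact_mod_cast hc)]
      exact rel_main h S hd hσ hσ1 hε hεσ hN hS X Y hX hY hc
    · rw [max_eq_left (by exact_mod_cast hc), ed_comm h.symm, mul_comm (X.card : ℝ)]
      exact rel_main h S hd hσ hσ1 hε hεσ hN hS Y X hY hX hc
  obtain ⟨a, h1, h2⟩ := key
  have h3 : a ≤ m / 2 * X.card + 10 ^ 14 / m ^ 2 * (Y.card : ℝ) ^ 2 / S.card := by
    refine rel_amgm (by positivity) (by positivity) ?_
    have e : (m / 2 * X.card) ^ 2 * (10 ^ 14 / m ^ 2 * (Y.card : ℝ) ^ 2 / S.card) =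
        10 ^ 14 / 4 * ((X.card : ℝ) * Y.card) ^ 2 / S.card := by
      field_simp
      ring
    rw [e, le_div_iff₀ N0]
    refine h1.trans (mul_le_mul_of_nonneg_right (by norm_num) (by positivity))
  have h4 := mul_le_mul_of_nonneg_left h3 hd.le
  refine h2.trans (add_le_add (h4.trans (le_of_eq ?_)) le_rfl)
  ring

/-- The set with the largest ratio of edges to a power of its size. -/
theorem rel_max (U : Finset V) {n ε A : ℝ} (hε : 0 < ε) (hε1 : ε ≤ 1 / 3) (hA : 1 ≤ A)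
    (hn : A ^ (2 / ε) ≤ n) (hU : (U.card : ℝ) ≤ n) (he : n ^ (4 / 3 - ε / 2) ≤ ed E U U) :
    ∃ S ⊆ U, ∃ d : ℝ, 0 < S.card ∧ A ≤ d ∧ d * S.card = ed E S S ∧
      (S.card : ℝ) ^ (1 / 3 - ε) ≤ d ∧
      ∀ T ⊆ S, (ed E T T : ℝ) ≤ d * S.card * ((T.card : ℝ) / S.card) ^ (4 / 3 - ε) := by
  obtain ⟨S, hS, hmax⟩ := exists_max_image U.powerset
    (fun T => (ed E T T : ℝ) / (T.card : ℝ) ^ (4 / 3 - ε)) ⟨∅, empty_mem_powerset _⟩
  have hSU := mem_powerset.1 hS
  have n1 : 1 ≤ n := (Real.one_le_rpow hA (by positivity)).trans hn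
  have n0 : 0 < n := by linarith
  have hz : ∀ T : Finset V, T.card = 0 → ed E T T = 0 := fun T hT => by
    rw [card_eq_zero.1 hT]
    simp [ed]
  have U0 : (0 : ℝ) < U.card := by
    refine Nat.cast_pos.2 (Nat.pos_of_ne_zero fun h0 => ?_)
    rw [hz U h0, Nat.cast_zero] at he
    exact absurd he (not_le.2 (by positivity))
  have hΦ : A ≤ (ed E S S : ℝ) / (S.card : ℝ) ^ (4 / 3 - ε) := by
    refine le_trans ?_ (hmax U (mem_powerset_self U))
    rw [le_div_iff₀ (by positivity)]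
    refine le_trans ?_ he
    have a1 : A ≤ n ^ (ε / 2) := by
      refine le_trans (le_of_eq ?_) (Real.rpow_le_rpow (by positivity) hn (by positivity))
      rw [← Real.rpow_mul (by linarith), show 2 / ε * (ε / 2) = 1 by field_simp, Real.rpow_one]
    have a2 : (U.card : ℝ) ^ (4 / 3 - ε) ≤ n ^ (4 / 3 - ε) :=
      Real.rpow_le_rpow U0.le hU (by linarith)
    rw [show 4 / 3 - ε / 2 = ε / 2 + (4 / 3 - ε) by ring, Real.rpow_add n0]
    exact mul_le_mul a1 a2 (by positivity) (by positivity)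
  have S0 : 0 < S.card := by
    refine Nat.pos_of_ne_zero fun h0 => ?_
    rw [hz S h0, Nat.cast_zero, zero_div] at hΦ
    linarith
  have N1 : (1 : ℝ) ≤ S.card := by exact_mod_cast S0
  have N0 : (0 : ℝ) < S.card := by linarith
  have e1 : (S.card : ℝ) ^ (4 / 3 - ε) = S.card * (S.card : ℝ) ^ (1 / 3 - ε) := by
    rw [show 4 / 3 - ε = 1 + (1 / 3 - ε) by ring, Real.rpow_add N0, Real.rpow_one]
  have p1 : 1 ≤ (S.card : ℝ) ^ (1 / 3 - ε) := Real.one_le_rpow N1 (by linarith)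
  have hd : A * (S.card : ℝ) ^ (1 / 3 - ε) ≤ (ed E S S : ℝ) / S.card := by
    rw [le_div_iff₀ (by positivity), e1] at hΦ
    rw [le_div_iff₀ N0]
    linarith
  refine ⟨S, hSU, (ed E S S : ℝ) / S.card, S0, by nlinarith, by field_simp, by nlinarith,
    fun T hT => ?_⟩
  rcases Nat.eq_zero_or_pos T.card with h0 | h0
  · rw [hz T h0, Nat.cast_zero]
    positivity
  have T0 : (0 : ℝ) < T.card := by exact_mod_cast h0
  have h1 := hmax T (mem_powerset.2 (hT.trans hSU))
  rw [div_le_iff₀ (by positivity)] at h1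
  refine h1.trans (le_of_eq ?_)
  rw [Real.div_rpow T0.le N0.le]
  field_simp

theorem relS : RelS := by
  refine ⟨10 ^ 14, by norm_num, fun ω hω hω1 => ⟨ω / 720000 / 2, by positivity,
    (2800 / ω) ^ (2 / (ω / 720000)), fun V E h U n hn hU he => ?_⟩⟩
  have hA : 2800 ≤ 2800 / ω := by
    rw [le_div_iff₀ hω]
    linarith
  obtain ⟨S, hSU, d, S0, hd, e1, e2, hS⟩ := rel_max (E := E) U (ε := ω / 720000) (by positivity)
    (by linarith) (by linarith) hn hU he
  have N1 : (1 : ℝ) ≤ S.card := by exact_mod_cast S0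
  have N0 : (0 : ℝ) < S.card := by linarith
  have d0 : 0 < d := by linarith
  have hωd : 2800 ≤ ω * d := by
    rw [div_le_iff₀ hω] at hd
    linarith
  have hP := fun X hX Y hY m hm => rel_par h S (σ := ω / 60000) (m := m) d0 (by positivity)
    (by linarith) (by positivity) (by linarith) S0 hS X Y hX hY hm
  have hσ : 3 + 14450 * (ω / 60000) * d ≤ ω / 2 * d := by nlinarith
  have hσ0 : 0 ≤ 3 + 14450 * (ω / 60000) * d := by positivity
  refine ⟨S, hSU, d, by linarith, e1, ?_, ?_, fun T hT => ?_, fun X hX Y hY m hm => ?_,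
    fun X hX Y hY m hm hm1 => ?_, fun X hX Y hY m hm => ?_⟩
  · have h1 := st_700 h S S (d / 2800) (by rw [le_div_iff₀ (by norm_num)]; linarith)
    rw [← e1] at h1
    have h2 : (S.card : ℝ) ^ 2 / (d / 2800) ^ 2 = 2800 ^ 2 * S.card / d ^ 2 * S.card := by
      field_simp
    rw [h2] at h1
    have h3 : d / 2 * S.card ≤ 700 * (2800 ^ 2 * S.card / d ^ 2) * S.card := by nlinarith
    have h4 := le_of_mul_le_mul_right h3 N0
    rw [← mul_div_assoc, le_div_iff₀ (by positivity)] at h4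
    nlinarith
  · refine le_trans ?_ (Real.rpow_le_rpow (by positivity) e2 (by linarith))
    rw [← Real.rpow_mul N0.le]
    refine le_trans (Real.rpow_one _).ge (Real.rpow_le_rpow_of_exponent_le N1 ?_)
    nlinarith
  · have TN : (T.card : ℝ) / S.card ≤ 1 := by
      rw [div_le_one N0]
      exact_mod_cast card_le_card hT
    have h1 : ((T.card : ℝ) / S.card) ^ (4 / 3 - ω / 720000) ≤
        ((T.card : ℝ) / S.card) ^ (13 / 10 : ℝ) :=
      Real.rpow_le_rpow_of_exponent_ge' (by positivity) TN (by norm_num) (by linarith)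
    have h2 := (hS T hT).trans (mul_le_mul_of_nonneg_left h1 (by positivity))
    have h3 := pow_le_pow_left₀ (Nat.cast_nonneg _) h2 10
    have h4 : (((T.card : ℝ) / S.card) ^ (13 / 10 : ℝ)) ^ 10 = ((T.card : ℝ) / S.card) ^ 13 := by
      rw [← Real.rpow_natCast, ← Real.rpow_mul (by positivity), ← Real.rpow_natCast]
      norm_num
    rw [mul_pow, h4] at h3
    refine (mul_le_mul_of_nonneg_right h3 (by positivity)).trans (le_of_eq ?_)
    field_simp
  · have h1 := hP X hX Y hY m hm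
    have h2 : max (X.card : ℝ) Y.card ≤ S.card :=
      max_le (by exact_mod_cast card_le_card hX) (by exact_mod_cast card_le_card hY)
    have h3 := mul_le_mul hσ h2 (by positivity) (by positivity)
    have h4 : 0 ≤ m * d * X.card := by positivity
    have h5 : 0 ≤ ω * S.card * d := by positivity
    nlinarith
  · have m0 : 0 < m := hω.trans_le hm
    have h1 := hP X hX Y hY m m0
    have x0 : (0 : ℝ) ≤ X.card := Nat.cast_nonneg _
    have y0 : (0 : ℝ) ≤ Y.card := Nat.cast_nonneg _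
    have h2 : max (X.card : ℝ) Y.card ≤ X.card + Y.card := max_le (by linarith) (by linarith)
    have h3 := mul_le_mul hσ h2 (by positivity) (by positivity)
    have h4 : (Y.card : ℝ) / S.card ≤ √(Y.card / S.card) := by
      refine Real.le_sqrt_of_sq_le ?_
      have a1 : (Y.card : ℝ) / S.card ≤ 1 := by
        rw [div_le_one N0]
        exact_mod_cast card_le_card hY
      have a2 : (0 : ℝ) ≤ (Y.card : ℝ) / S.card := by positivity
      nlinarith
    have h5 : (1 : ℝ) ≤ 10 ^ 14 / m ^ 2 := by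
      rw [le_div_iff₀ (by positivity)]
      nlinarith
    have h6 : 10 ^ 14 / m ^ 2 * d * (Y.card : ℝ) ^ 2 / S.card ≤
        10 ^ 14 / m ^ 2 * d * Y.card * √(Y.card / S.card) := by
      refine le_trans (le_of_eq ?_) (mul_le_mul_of_nonneg_left h4 (by positivity))
      ring
    have h7 : 1 * (d * Y.card * ω) ≤ 10 ^ 14 / m ^ 2 * (d * Y.card * ω) :=
      mul_le_mul_of_nonneg_right h5 (by positivity)
    have h8 : ω * (d * X.card) ≤ m * (d * X.card) := mul_le_mul_of_nonneg_right hm (by positivity)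
    have h9 : 0 ≤ d * Y.card * ω := by positivity
    nlinarith
  · have m0 : 0 < m := hω.trans_le hm
    have h1 := hP Y hY X hX m m0
    rw [ed_comm h.symm] at h1
    have x0 : (0 : ℝ) ≤ X.card := Nat.cast_nonneg _
    have y0 : (0 : ℝ) ≤ Y.card := Nat.cast_nonneg _
    have h2 : max (Y.card : ℝ) X.card ≤ X.card + Y.card := max_le (by linarith) (by linarith)
    have h3 := mul_le_mul hσ h2 (by positivity) (by positivity)
    have h4 : 10 ^ 14 / m ^ 2 * d * (X.card : ℝ) ^ 2 / S.card =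
        10 ^ 14 * d * ((X.card : ℝ) ^ 2 / (S.card * m ^ 2)) := by
      field_simp
    have h8 : ω * (d * Y.card) ≤ m * (d * Y.card) := mul_le_mul_of_nonneg_right hm (by positivity)
    have h9 : 0 ≤ ω * (d * X.card) := by positivity
    have h10 : 0 ≤ m * (d * Y.card) := by positivity
    rw [h4] at h1
    nlinarith

end Pool.Agent.Lib.MP_439fea_co.Pw
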