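import Mathlib

/-! The gain in torsion free groups. -/

namespace Pool.Agent.Lib.MP_439fea_co.Pw
open Finset
open scoped Classical

variable {A : Type} [AddCommGroup A]

/-- A finitely supported function is moved by a shift of infinite order. -/
theorem shift_l1 (htf : ∀ (n : ℕ) (x : A), n ≠ 0 → n • x = 0 → x = 0) (R : Finset A) (p : A → ℝ)
    (hp : ∀ x, 0 ≤ p x) (hR : ∀ x, x ∉ R → p x = 0) {h : A} (hh : h ≠ 0) (x0 : A) (S : Finset A)
    (hS : ∀ x, x ∈ R → x ∈ S) : p x0 ≤ ∑ x ∈ S, max (p x - p (x + h)) 0 := by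
  have inj : Function.Injective fun k : ℕ => x0 + k • h := by
    have key : ∀ i j : ℕ, i < j → x0 + i • h ≠ x0 + j • h := by
      intro i j hij e
      have e1 : (j - i) • h = 0 := by
        have := add_left_cancel e
        have e2 : j • h = (j - i) • h + i • h := by rw [← add_nsmul]; congr 1; omega
        rw [e2] at this
        exact (add_eq_right.1 this.symm)
      exact hh (htf _ _ (by omega) e1)
    intro i j e
    rcases lt_trichotomy i j with h1 | h1 | h1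
    exacts [absurd e (key i j h1), h1, absurd e.symm (key j i h1)]
  obtain ⟨n, hn⟩ : ∃ n : ℕ, x0 + n • h ∉ R := by
    by_contra hc
    push Not at hc
    exact (Set.infinite_range_of_injective inj)
      (R.finite_toSet.subset (by rintro _ ⟨k, rfl⟩; exact hc k))
  have tel : p x0 = ∑ k ∈ range n, (p (x0 + k • h) - p (x0 + (k + 1) • h)) := by
    rw [sum_range_sub' (fun k => p (x0 + k • h)), hR _ hn]; simp
  calc p x0 ≤ ∑ k ∈ range n, max (p (x0 + k • h) - p (x0 + k • h + h)) 0 := by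
        rw [tel]
        refine sum_le_sum fun k _ => ?_
        rw [succ_nsmul, ← add_assoc]
        exact le_max_left _ _
    _ = ∑ x ∈ (range n).image fun k => x0 + k • h, max (p x - p (x + h)) 0 :=
        (sum_image (f := fun x => max (p x - p (x + h)) 0) fun i _ j _ e => inj e).symm
    _ ≤ ∑ x ∈ S ∪ (range n).image fun k => x0 + k • h, max (p x - p (x + h)) 0 :=
        sum_le_sum_of_subset_of_nonneg subset_union_right fun _ _ _ => le_max_right _ _
    _ ≤ _ := by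
        refine le_of_eq (sum_subset subset_union_left fun x _ hx => ?_).symm
        rw [hR x fun h1 => hx (hS x h1)]
        exact max_eq_right (by linarith [hp (x + h)])

theorem abs_sub_le_hell {x y ε : ℝ} (hx : 0 ≤ x) (hy : 0 ≤ y) (hε : 0 < ε) :
    |x - y| ≤ ((x + y) / 2 - √(x * y)) / ε + ε * (x + y) := by
  obtain ⟨a, ha, rfl⟩ : ∃ a, 0 ≤ a ∧ x = a ^ 2 := ⟨√x, Real.sqrt_nonneg _, (Real.sq_sqrt hx).symm⟩
  obtain ⟨b, hb, rfl⟩ : ∃ b, 0 ≤ b ∧ y = b ^ 2 := ⟨√y, Real.sqrt_nonneg _, (Real.sq_sqrt hy).symm⟩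
  rw [← mul_pow, Real.sqrt_sq (mul_nonneg ha hb), div_add' _ _ _ hε.ne', le_div_iff₀ hε]
  rcases abs_cases (a ^ 2 - b ^ 2) with h | h <;> rw [h.1]
  · nlinarith [sq_nonneg ((a - b) - ε * (a + b)), sq_nonneg (ε * (a - b))]
  · nlinarith [sq_nonneg ((a - b) + ε * (a + b)), sq_nonneg (ε * (a - b))]

theorem sqrt_mul_le_half {x y : ℝ} (hx : 0 ≤ x) (hy : 0 ≤ y) : √(x * y) ≤ (x + y) / 2 :=
  Real.sqrt_le_iff.2 ⟨by linarith, by nlinarith [sq_nonneg (x - y)]⟩

omit [AddCommGroup A] in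
theorem l1_le_hell (S : Finset A) (p q : A → ℝ) (hp : ∀ x, 0 ≤ p x) (hq : ∀ x, 0 ≤ q x)
    (sp : ∑ x ∈ S, p x ≤ 1) (sq : ∑ x ∈ S, q x ≤ 1) {ε : ℝ} (hε : 0 < ε) :
    ∑ x ∈ S, |p x - q x| ≤ (1 - ∑ x ∈ S, √(p x * q x)) / ε + 2 * ε := by
  refine (sum_le_sum fun x _ => abs_sub_le_hell (hp x) (hq x) hε).trans ?_
  rw [sum_add_distrib, ← sum_div, sum_sub_distrib, ← sum_div, ← mul_sum, sum_add_distrib]
  refine add_le_add (div_le_div_of_nonneg_right (by linarith) hε.le) (by nlinarith)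

/-- One step of the potential does not increase it. -/
theorem gain (htf : ∀ (n : ℕ) (x : A), n ≠ 0 → n • x = 0 → x = 0) (p1 p2 p3 : A → ℝ)
    (h2 : ∀ x, 0 ≤ p2 x) (h3 : ∀ x, 0 ≤ p3 x) (R1 R2 R3 : Finset A)
    (s1 : ∑ x ∈ R1, p1 x ≤ 1) (s2 : ∑ x ∈ R2, p2 x ≤ 1) (s3 : ∑ x ∈ R3, p3 x ≤ 1)
    (h1 : ∀ x, 0 ≤ p1 x) {η k : ℝ} (hη : 0 < η) (φ : ℝ → ℝ)
    (hφ : ∀ x, η ≤ x → x ≤ 1 → 0 ≤ φ x ∧ φ x ≤ 1 ∧ φ x ≤ k * x) (hk : k * (1 - η ^ 3 / 32) ≤ 1)
    (c0 : A) (T : Finset (A × A × A))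
    (hT : ∀ t ∈ T, t.1 ∈ R1 ∧ t.2.1 ∈ R2 ∧ t.2.2 ∈ R3 ∧ t.1 + t.2.1 + t.2.2 = c0 ∧
      η ≤ p1 t.1 ∧ η ≤ p3 t.2.2) :
    ∑ t ∈ T, φ (p1 t.1) * √(p2 t.2.1 * p3 t.2.2) ≤ 1 := by
  set G := T.image Prod.fst with hG
  set P : A → ℝ := fun x => if x ∈ R2 then p2 x else 0 with hP
  set q : A → A → ℝ := fun r x => if c0 - r - x ∈ R3 then p3 (c0 - r - x) else 0 with hq
  have hP0 : ∀ x, 0 ≤ P x := fun x => by simp only [hP]; split_ifs; exacts [h2 x, le_rfl]
  have hq0 : ∀ r x, 0 ≤ q r x := fun r x => by simp only [hq]; split_ifs; exacts [h3 _, le_rfl]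
  have sP : ∀ S : Finset A, ∑ x ∈ S, P x ≤ 1 := fun S => by
    rw [hP, ← sum_filter]
    exact (sum_le_sum_of_subset_of_nonneg (fun x hx => (mem_filter.1 hx).2)
      fun x _ _ => h2 x).trans s2
  have sq : ∀ r (S : Finset A), ∑ x ∈ S, q r x ≤ 1 := fun r S => by
    simp only [hq]
    rw [← sum_filter, ← sum_image (f := p3) (g := fun x => c0 - r - x)
      fun x _ y _ e => sub_right_injective e]
    refine (sum_le_sum_of_subset_of_nonneg (fun x hx => ?_) fun x _ _ => h3 x).trans s3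
    obtain ⟨y, hy, rfl⟩ := mem_image.1 hx
    exact (mem_filter.1 hy).2
  set B : A → ℝ := fun r => ∑ x ∈ R2, √(P x * q r x) with hB
  have hBS : ∀ r (S : Finset A), R2 ⊆ S → ∑ x ∈ S, √(P x * q r x) = B r := fun r S hS =>
    (sum_subset hS fun x _ hx => by simp [hP, hx]).symm
  have hB1 : ∀ r, B r ≤ 1 := fun r => by
    refine (sum_le_sum fun x _ => sqrt_mul_le_half (hP0 x) (hq0 r x)).trans ?_
    rw [← sum_div, sum_add_distrib]
    linarith [sP R2, sq r R2]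
  have hB0 : ∀ r, 0 ≤ B r := fun r => sum_nonneg fun _ _ => Real.sqrt_nonneg _
  have hGm : ∀ r ∈ G, r ∈ R1 ∧ η ≤ p1 r ∧ p1 r ≤ 1 := fun r hr => by
    obtain ⟨t, ht, rfl⟩ := mem_image.1 hr
    exact ⟨(hT t ht).1, (hT t ht).2.2.2.2.1,
      (single_le_sum (fun x _ => h1 x) (hT t ht).1).trans s1⟩
  have step : ∑ t ∈ T, φ (p1 t.1) * √(p2 t.2.1 * p3 t.2.2) ≤ ∑ r ∈ G, φ (p1 r) * B r := by
    rw [← sum_fiberwise_of_maps_to (g := Prod.fst) (t := G) fun t ht => mem_image_of_mem _ ht]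
    refine sum_le_sum fun r hr => ?_
    have e : ∑ t ∈ T.filter fun t => t.1 = r, φ (p1 t.1) * √(p2 t.2.1 * p3 t.2.2)
        = φ (p1 r) * ∑ t ∈ T.filter fun t => t.1 = r, √(P t.2.1 * q r t.2.1) := by
      rw [mul_sum]
      refine sum_congr rfl fun t ht => ?_
      obtain ⟨a1, a2⟩ := mem_filter.1 ht
      obtain ⟨-, b2, b3, b4, -⟩ := hT t a1
      have : c0 - r - t.2.1 = t.2.2 := by rw [← b4, ← a2]; abel
      simp only [hP, hq, this, a2, if_pos b2, if_pos b3]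
    rw [e]
    refine mul_le_mul_of_nonneg_left ?_ (hφ _ (hGm r hr).2.1 (hGm r hr).2.2).1
    rw [← sum_image (f := fun x => √(P x * q r x)) (g := fun t : A × A × A => t.2.1) ?_]
    · refine sum_le_sum_of_subset_of_nonneg (fun x hx => ?_) fun _ _ _ => Real.sqrt_nonneg _
      obtain ⟨t, ht, rfl⟩ := mem_image.1 hx
      exact (hT t (mem_filter.1 ht).1).2.1
    · intro t ht t' ht' e
      obtain ⟨a1, a2⟩ := mem_filter.1 ht
      obtain ⟨a3, a4⟩ := mem_filter.1 ht'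
      have b1 := (hT t a1).2.2.2.1
      have b2 := (hT t' a3).2.2.2.1
      have e' : t.2.1 = t'.2.1 := e
      rw [← b2, a2, a4, e'] at b1
      exact Prod.ext (a2.trans a4.symm) (Prod.ext e' (add_left_cancel b1))
  refine step.trans ?_
  by_cases hc : G.card ≤ 1
  · rcases (show G = ∅ ∨ ∃ r, G = {r} from by
      rcases Nat.le_one_iff_eq_zero_or_eq_one.1 hc with h | h
      exacts [Or.inl (card_eq_zero.1 h), Or.inr (card_eq_one.1 h)]) with h0 | ⟨r, h0⟩
    · rw [h0]; simp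
    · have := hGm r (by rw [h0]; simp)
      rw [h0, sum_singleton]
      exact mul_le_one₀ (hφ _ this.2.1 this.2.2).2.1 (hB0 r) (hB1 r)
  obtain ⟨r, hr, r', hr', hne⟩ := one_lt_card.1 (not_le.1 hc)
  obtain ⟨rs, hrs, hb⟩ : ∃ rs ∈ G, B rs ≤ 1 - η ^ 2 / 32 := by
    by_contra hcon
    push Not at hcon
    obtain ⟨t, ht, -⟩ := mem_image.1 hr
    set S := R2 ∪ R3.image fun x => c0 - r - x with hS
    have a1 := shift_l1 htf (R3.image fun x => c0 - r - x) (q r) (hq0 r) (fun x hx => by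
      simp only [hq]
      exact if_neg fun h => hx (mem_image.2 ⟨_, h, by abel⟩)) (sub_ne_zero.2 hne.symm)
      (c0 - r - t.2.2) S fun x hx => mem_union_right _ hx
    have a2 : q r (c0 - r - t.2.2) = p3 t.2.2 := by
      simp only [hq, sub_sub_cancel, if_pos (hT t ht).2.2.1]
    have a3 : ∑ x ∈ S, max (q r x - q r (x + (r' - r))) 0
        ≤ ∑ x ∈ S, |P x - q r x| + ∑ x ∈ S, |P x - q r' x| := by
      rw [← sum_add_distrib]
      refine sum_le_sum fun x _ => ?_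
      have : q r (x + (r' - r)) = q r' x := by
        simp only [hq, show c0 - r - (x + (r' - r)) = c0 - r' - x by abel]
      rw [this]
      exact max_le (by linarith [neg_abs_le (P x - q r x), le_abs_self (P x - q r' x)])
        (by positivity)
    have a4 := l1_le_hell S P (q r) hP0 (hq0 r) (sP S) (sq r S) (show 0 < η / 8 by positivity)
    have a5 := l1_le_hell S P (q r') hP0 (hq0 r') (sP S) (sq r' S) (show 0 < η / 8 by positivity)
    rw [hBS _ S subset_union_left] at a4 a5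
    have a6 : ∀ r ∈ G, (1 - B r) / (η / 8) < η / 4 := fun r hr => by
      rw [div_lt_iff₀ (by positivity)]
      nlinarith [hcon r hr]
    linarith [a6 r hr, a6 r' hr', (hT t ht).2.2.2.2.2]
  have hk0 : 0 ≤ k := by
    have a := hGm r hr
    have b := hφ _ a.2.1 a.2.2
    exact nonneg_of_mul_nonneg_left (b.1.trans b.2.2) (hη.trans_le a.2.1)
  calc ∑ r ∈ G, φ (p1 r) * B r ≤ ∑ r ∈ G, k * (p1 r * B r) := sum_le_sum fun r hr => by
        rw [← mul_assoc]
        exact mul_le_mul_of_nonneg_right (hφ _ (hGm r hr).2.1 (hGm r hr).2.2).2.2 (hB0 r)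
    _ ≤ k * (1 - η ^ 3 / 32) := by
        rw [← mul_sum]
        refine mul_le_mul_of_nonneg_left ?_ hk0
        have a1 : ∑ r ∈ G, p1 r ≤ 1 := (sum_le_sum_of_subset_of_nonneg
          (fun r hr => (hGm r hr).1) fun x _ _ => h1 x).trans s1
        have a2 : p1 rs * (1 - B rs) ≤ ∑ r ∈ G, p1 r * (1 - B r) :=
          single_le_sum (f := fun r => p1 r * (1 - B r))
            (fun r _ => mul_nonneg (h1 r) (by linarith [hB1 r])) hrs
        have a3 : η * (η ^ 2 / 32) ≤ p1 rs * (1 - B rs) :=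
          mul_le_mul (hGm rs hrs).2.1 (by linarith) (by positivity) (h1 rs)
        simp only [mul_sub, mul_one, sum_sub_distrib] at a2 a3
        nlinarith
    _ ≤ 1 := hk

end Pool.Agent.Lib.MP_439fea_co.Pw
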