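import Pool.Agent.Lib.MP_439fea_co.Pw.TGeo

/-! Levels, classes of curves, digits and the stopping time. -/

namespace Pool.Agent.Lib.MP_439fea_co.Pw
open Finset Pool.Agent.Lib.MP_439fea_co.Z
open scoped Classical
noncomputable section

namespace TD
variable {V F Γ ι : Type} [Field F] [LinearOrderedCommGroupWithZero Γ] {D : TD V F Γ ι}
  {a b b' : V} {c c' c'' : ι} {s s' r r' : Γ}

namespace Tri
variable (T : D.Tri) {i : Fin 3} {j j' : ℕ}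

theorem m_ge (i : Fin 3) : T.m 1 ≤ T.m i := by
  fin_cases i
  exacts [T.h01, le_rfl, T.h12.le]
theorem m_le (i : Fin 3) : T.m i ≤ T.m 0 := by
  fin_cases i
  exacts [le_rfl, T.h01, T.h12.ge.trans T.h01]
theorem m_pos (i : Fin 3) : 0 < T.m i := (zero_lt_iff.2 T.mne).trans_le (T.m_ge i)
theorem one_le_q (i : Fin 3) : 1 ≤ T.m i / T.m 1 := (one_le_div₀ (T.m_pos 1)).2 (T.m_ge i)
theorem q_pos (i : Fin 3) : 0 < T.m i / T.m 1 := zero_lt_one.trans_le (T.one_le_q i)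
theorem m_mul_q (i : Fin 3) : T.m 1 * (T.m i / T.m 1) = T.m i := mul_div_cancel₀ _ T.mne
theorem z_one (i : Fin 3) : D.u (D.pz (T.p i) - D.pz (T.p 1)) ≤ T.m i := by
  have h0 : D.u (D.pz (T.p 0) - D.pz (T.p 1)) ≤ T.m 0 := T.o01.le
  have h1 : D.u (D.pz (T.p 1) - D.pz (T.p 1)) ≤ T.m 1 := by simp
  have h2 : D.u (D.pz (T.p 2) - D.pz (T.p 1)) ≤ T.m 2 := vle_symm (T.o12.trans T.h12).le
  fin_cases i
  exacts [h0, h1, h2]
theorem near.z {T : D.Tri} (h : T.near i c) : D.u (D.pz c - D.pz (T.p i)) < T.m i :=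
  (z_le_ds _ _).trans_lt h
theorem ds12 : D.ds (T.p 1) (T.p 2) = T.m 1 := by rw [ds, T.o12, max_eq_left T.w12]
theorem ds01 : D.ds (T.p 0) (T.p 1) = T.m 0 := by rw [ds, T.o01, max_eq_left T.w01]
theorem near_z12 (h1 : T.near 1 c) (h2 : T.near 2 c') : D.u (D.pz c - D.pz c') = T.m 1 := by
  rw [← T.o12]
  exact v_sub_keep (by rw [T.o12]; exact vlt_symm h1.z) (by rw [T.o12, T.h12]; exact vlt_symm h2.z)
theorem near_z01 (h0 : T.near 0 c) (h1 : T.near 1 c') : D.u (D.pz c - D.pz c') = T.m 0 := by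
  rw [← T.o01]
  exact v_sub_keep (by rw [T.o01]; exact vlt_symm h0.z)
    (by rw [T.o01]; exact (vlt_symm h1.z).trans_le T.h01)
theorem alive_m (h : T.near i c) : D.alive c (T.m i) := by
  have key : ∀ k, D.ds (T.p i) (T.p k) = T.m i → D.alive c (T.m i) := fun k hk =>
    ⟨T.p k, fun e => by
      have h1 : D.ds c (T.p i) < T.m i := h
      rw [← e, ds_comm, hk] at h1
      exact h1.false, ds_le_trans (le_of_lt h) hk.le⟩
  fin_cases i
  exacts [key 1 T.ds01, key 2 T.ds12, key 1 ((ds_comm _ _).trans (T.ds12.trans T.h12))]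

variable [Fintype ι]

theorem rad_one (j : ℕ) : T.rad 1 j = T.lev j ∧ T.rad 2 j = T.lev j := by
  rw [rad, rad, ← T.h12, div_self T.mne, mul_one]
  exact ⟨rfl, rfl⟩
theorem rad_zero (i : Fin 3) : T.rad i 0 = T.m i := T.m_mul_q i
theorem lev_succ_le (j : ℕ) : T.lev (j + 1) ≤ T.lev j :=
  Finset.sup_le fun _ hs => (mem_filter.1 hs).2.le
theorem lev_anti (h : j ≤ j') : T.lev j' ≤ T.lev j :=
  antitone_nat_of_succ_le T.lev_succ_le h
theorem lev_succ_lt (h : T.lev j ≠ 0) : T.lev (j + 1) < T.lev j :=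
  (Finset.sup_lt_iff (bot_lt_iff_ne_bot.2 (by rwa [bot_eq_zero]))).2 fun _ hs =>
    (mem_filter.1 hs).2
theorem le_lev_succ (hs : s ∈ T.lv) (h : s < T.lev j) : s ≤ T.lev (j + 1) :=
  Finset.le_sup (f := id) (mem_filter.2 ⟨hs, h⟩)
theorem rad_anti (i : Fin 3) (h : j ≤ j') : T.rad i j' ≤ T.rad i j :=
  mul_le_mul' (T.lev_anti h) le_rfl
theorem rad_le_m (i : Fin 3) (j : ℕ) : T.rad i j ≤ T.m i :=
  (T.rad_anti i j.zero_le).trans (T.rad_zero i).le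
theorem rad_ne (i : Fin 3) (j : ℕ) : T.rad i j ≠ 0 ↔ T.lev j ≠ 0 := by
  rw [rad, mul_ne_zero_iff]
  exact and_iff_left (T.q_pos i).ne'
theorem lev_end : ∃ j, T.lev j = 0 := by
  by_contra hn
  have hne : ∀ j, T.lev j ≠ 0 := fun j e => hn ⟨j, e⟩
  have hm : ∀ j, T.lev (j + 1) ∈ T.lv := fun j => by
    have h1 : (T.lv.filter fun s => s < T.lev j).Nonempty := by
      rw [nonempty_iff_ne_empty]
      intro e
      apply hne (j + 1)
      rw [lev, e, sup_empty, bot_eq_zero]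
    obtain ⟨x, hx, e⟩ := exists_mem_eq_sup _ h1 id
    rw [lev, e]
    exact (mem_filter.1 hx).1
  have hs : StrictAnti fun j => T.lev (j + 1) :=
    strictAnti_nat_of_succ_lt fun j => T.lev_succ_lt (hne _)
  exact Set.infinite_of_injective_forall_mem hs.injective hm T.lv.finite_toSet
theorem ds_lt_iff (h : T.lev j ≠ 0) (i : Fin 3) (c c' : ι) :
    D.ds c c' < T.rad i j ↔ D.ds c c' ≤ T.rad i (j + 1) := by
  refine ⟨fun h1 => ?_, fun h1 =>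
    h1.trans_lt (mul_lt_mul_of_pos_right (T.lev_succ_lt h) (T.q_pos i))⟩
  have m1 : D.ds c c' ∈ T.lv := mem_union_left _ (mem_image.2 ⟨(c, c'), mem_univ _, rfl⟩)
  have m0 : D.ds c c' * (T.m 1 / T.m 0) ∈ T.lv :=
    mem_union_right _ (mem_image.2 ⟨(c, c'), mem_univ _, rfl⟩)
  have k0 : D.ds c c' < T.rad 0 j → D.ds c c' ≤ T.rad 0 (j + 1) := fun h2 => by
    have e : T.m 1 / T.m 0 = (T.m 0 / T.m 1)⁻¹ := (inv_div _ _).symm
    rw [e] at m0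
    exact (mul_inv_le_iff₀ (T.q_pos 0)).1 (T.le_lev_succ m0 ((mul_inv_lt_iff₀ (T.q_pos 0)).2 h2))
  have k1 : D.ds c c' < T.rad 1 j → D.ds c c' ≤ T.rad 1 (j + 1) := by
    rw [(T.rad_one _).1, (T.rad_one _).1]
    exact T.le_lev_succ m1
  have k2 : D.ds c c' < T.rad 2 j → D.ds c c' ≤ T.rad 2 (j + 1) := by
    rw [(T.rad_one _).2, (T.rad_one _).2]
    exact T.le_lev_succ m1
  fin_cases i
  exacts [k0 h1, k1 h1, k2 h1]
theorem kid_eq (h : T.lev j ≠ 0) (i : Fin 3) (c : ι) :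
    D.kid c (T.rad i j) = D.ball c (T.rad i (j + 1)) :=
  filter_congr fun c' _ => T.ds_lt_iff h i c c'
theorem alive_zero (h : T.near i c) : D.alive c (T.rad i 0) := by
  rw [rad_zero]
  exact T.alive_m h
theorem cls_subY (j : ℕ) (b : V) : T.cls j b ⊆ D.Y := filter_subset _ _
theorem cls_self (hb : b ∈ D.Y) (h : T.lev j ≠ 0) : b ∈ T.cls j b :=
  mem_filter.2 ⟨hb, by simpa using zero_lt_iff.2 h, by simpa using zero_lt_iff.2 h⟩
theorem cls_eq (h : b' ∈ T.cls j b) : T.cls j b' = T.cls j b := by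
  obtain ⟨-, h1, h2⟩ := mem_filter.1 h
  exact filter_congr fun x _ => ⟨fun g => ⟨vlt_trans h1 g.1, vlt_trans h2 g.2⟩,
    fun g => ⟨vlt_trans (vlt_symm h1) g.1, vlt_trans (vlt_symm h2) g.2⟩⟩
theorem cls_anti (b : V) (h : j ≤ j') : T.cls j' b ⊆ T.cls j b := fun _ hx =>
  mem_filter.2 ⟨(mem_filter.1 hx).1, (mem_filter.1 hx).2.1.trans_le (T.lev_anti h),
    (mem_filter.1 hx).2.2.trans_le (T.lev_anti h)⟩
theorem cls_congr (hz : D.hz b = D.hz b') (hw : D.hw b = D.hw b') (j : ℕ) :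
    T.cls j b = T.cls j b' := by
  simp only [cls, gh, hz, hw]
theorem cls_zero (h : T.lev j = 0) (b : V) : T.cls j b = ∅ :=
  filter_false_of_mem fun _ _ g => not_lt_zero (h ▸ g.1)
theorem cls_mh (h : D.Geo) (hc : D.Col) (hn : T.near i c) (hb : b ∈ D.Y)
    (hm : D.mh b c (T.rad i j)) (hb' : b' ∈ T.cls j b) : D.mh b' c (T.rad i j) := by
  obtain ⟨h0, h1, h2⟩ := mem_filter.1 hb'
  have key : D.u (D.gh b (D.pz c) - D.gh b' (D.pz c)) < T.rad i j :=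
    gf_move (h.μbig.trans_le (h.hY b hb)) (h.μbig.trans_le (h.hY b' h0)) (hc b hb b' h0)
      (h.hP _).1 (h.hP _).1 (h.hP c).1 (T.one_le_q i)
      (by rw [T.o12, T.m_mul_q]; exact vle_trans hn.z.le (T.z_one i)) h1 h2
  exact vlt_trans (vlt_symm key) hm
theorem cls_of (h : D.Geo) (hc : D.Col) (h1 : T.near 1 c) (h2 : T.near 2 c') (hb : b ∈ D.Y)
    (hb' : b' ∈ D.Y) (m1 : D.mh b c (T.lev j)) (m2 : D.mh b c' (T.lev j))
    (m3 : D.mh b' c (T.lev j)) (m4 : D.mh b' c' (T.lev j)) : b' ∈ T.cls j b := by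
  have key : ∀ k : Fin 3, D.u (D.pz (T.p k) - D.pz c) ≤ T.m 1 →
      D.u (D.gh b (D.pz (T.p k)) - D.gh b' (D.pz (T.p k))) < T.lev j := fun k hk => by
    have := gf_move (μ := D.μ) (w := D.hw b) (w' := D.hw b') (h.μbig.trans_le (h.hY b hb))
      (h.μbig.trans_le (h.hY b' hb')) (hc b hb b' hb') (h.hP c).1 (h.hP c').1 (h.hP (T.p k)).1
      le_rfl (by rwa [T.near_z12 h1 h2, mul_one]) (vlt_trans m1 (vlt_symm m3))
      (vlt_trans m2 (vlt_symm m4))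
    rwa [mul_one] at this
  exact mem_filter.2 ⟨hb', key 1 (vle_symm h1.z.le),
    key 2 (vle_trans (vle_symm T.o12.le) (vle_symm h1.z.le))⟩
theorem digits [CharZero F] (h : D.Geo) (hc : D.Col) (hj : T.lev j ≠ 0) :
    ∃ (G : Type) (_ : AddCommGroup G) (ρ : Fin 3 → ι → G),
      (∀ (n : ℕ) (x : G), n ≠ 0 → n • x = 0 → x = 0) ∧
      (∀ i c c', ρ i c = ρ i c' ↔ D.u (D.pw c - D.pw c') < T.rad i j) ∧
      ∀ b ∈ D.Y, ∀ b' ∈ D.Y, ∀ q q' : Fin 3 → ι,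
        (∀ i, T.near i (q i) ∧ T.near i (q' i) ∧ D.ds (q i) (q' i) ≤ T.rad i j ∧
          D.mh b (q i) (T.rad i j) ∧ D.mh b' (q' i) (T.rad i j)) →
        ρ 0 (q 0) + ρ 1 (q 1) + ρ 2 (q 2) = ρ 0 (q' 0) + ρ 1 (q' 1) + ρ 2 (q' 2) := by
  obtain ⟨k, k0, k1, k2⟩ : ∃ k : Fin 3 → F, k 0 = D.pz (T.p 2) - D.pz (T.p 1) ∧
      k 1 = D.pz (T.p 0) - D.pz (T.p 2) ∧ k 2 = D.pz (T.p 1) - D.pz (T.p 0) :=
    ⟨![_, _, _], rfl, rfl, rfl⟩
  have v0 : D.u (k 0) = T.m 1 := by rw [k0, D.u.map_sub_swap, T.o12]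
  have v1 : D.u (k 1) = T.m 0 := by rw [k1, T.o02]
  have v2 : D.u (k 2) = T.m 0 := by rw [k2, D.u.map_sub_swap, T.o01]
  have hk : ∀ i, 0 < D.u (k i) ∧ D.u (k i) * T.rad i j = T.m 0 * T.lev j := by
    refine Fin.forall_fin_succ.2 ⟨⟨v0 ▸ T.m_pos 1, ?_⟩, Fin.forall_fin_two.2
      ⟨⟨v1 ▸ T.m_pos 0, ?_⟩, ⟨v2 ▸ T.m_pos 0, ?_⟩⟩⟩
    · rw [v0, rad, mul_left_comm, T.m_mul_q, mul_comm]
    · exact congrArg₂ _ v1 (T.rad_one j).1
    · exact congrArg₂ _ v2 (T.rad_one j).2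
  have hR : T.m 0 * T.lev j ≠ 0 := mul_ne_zero (T.m_pos 0).ne' hj
  refine ⟨F ⧸ obl D.u hR, inferInstance, fun i c => QuotientAddGroup.mk (k i * D.pw c),
    obl_tf h.nat hR, fun i c c' => ?_, fun b hb b' hb' q q' hq => ?_⟩
  · rw [obl_eq, ← mul_sub, map_mul, ← (hk i).2, mul_lt_mul_iff_right₀ (hk i).1]
  · have hr : ∀ i, T.rad i j ≠ 0 := fun i => (T.rad_ne i j).2 hj
    obtain ⟨δ, hδ⟩ : ∃ δ : Fin 3 → F, ∀ i, δ i = D.gh b (D.pz (q i)) - D.gh b' (D.pz (q i)) :=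
      ⟨_, fun _ => rfl⟩
    have a1 : ∀ i, D.u (D.pw (q i) - D.pw (q' i) - δ i) < T.rad i j := fun i => by
      obtain ⟨-, -, g1, g2, g3⟩ := hq i
      have g4 := vlt_trans (h.lip hb' (h.hP _).1 (h.hP _).1 ((z_le_ds _ _).trans g1) (hr i)) g3
      have g5 := D.u.map_sub_lt g4 g2
      rwa [show D.gh b' (D.pz (q i)) - D.pw (q' i) - (D.gh b (D.pz (q i)) - D.pw (q i)) =
        D.pw (q i) - D.pw (q' i) - δ i by rw [hδ]; ring] at g5
    have a2 : ∀ i, D.u (δ i) ≤ T.rad i j := fun i => by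
      have := D.u.map_sub_le ((w_le_ds _ _).trans (hq i).2.2.1) (a1 i).le
      rwa [sub_sub_cancel] at this
    have a3 : ∀ i, D.u (k i * (D.pw (q i) - D.pw (q' i) - δ i)) < T.m 0 * T.lev j := fun i => by
      rw [map_mul, ← (hk i).2]
      exact mul_lt_mul_of_pos_left (a1 i) (hk i).1
    have a4 : ∀ i x, D.u x < D.u (k i) → D.u (x * δ i) < T.m 0 * T.lev j := fun i x hx => by
      rw [map_mul, ← (hk i).2]
      exact (mul_le_mul' le_rfl (a2 i)).trans_lt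
        (mul_lt_mul_of_pos_right hx (zero_lt_iff.2 (hr i)))
    have n0 := (hq 0).1.z
    have n1 := (hq 1).1.z
    have n2 := (hq 2).1.z
    rw [← T.h12] at n2
    have b0 := a4 0 _ (v0 ▸ D.u.map_sub_lt n1 n2)
    have b1 := a4 1 _ (v1 ▸ D.u.map_sub_lt (n2.trans_le T.h01) n0)
    have b2 := a4 2 _ (v2 ▸ D.u.map_sub_lt n0 (n1.trans_le T.h01))
    have o := T.near_z01 (hq 0).1 (hq 1).1
    have b3 := gf_digit (μ := D.μ) (w := D.hw b) (w' := D.hw b') (h.μbig.trans_le (h.hY b hb))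
      (h.μbig.trans_le (h.hY b' hb')) (hc b hb b' hb') (h.hP (q 0)).1 (h.hP (q 1)).1
      (h.hP (q 2)).1 hj (D.u.ne_zero_iff.1 (o ▸ (T.m_pos 0).ne'))
      ((hδ 1 ▸ a2 1).trans (T.rad_one j).1.le) ((hδ 2 ▸ a2 2).trans (T.rad_one j).2.le)
    rw [o] at b3
    have b4 := D.u.map_sub_lt (D.u.map_add_lt (D.u.map_add_lt (D.u.map_add_lt (a3 0) (a3 1)) (a3 2))
      (D.u.map_add_lt (D.u.map_add_lt b0 b1) b2)) b3
    rw [← QuotientAddGroup.mk_add, ← QuotientAddGroup.mk_add, ← QuotientAddGroup.mk_add,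
      ← QuotientAddGroup.mk_add, obl_eq]
    refine Eq.trans_lt (congrArg D.u ?_) b4
    rw [hδ, hδ, hδ, k0, k1, k2]
    simp only [gh, gf]
    ring

variable [Fintype V] {τ : ℝ}

theorem tm_lt (hτ : 0 < τ * NN V) (b : V) : ((T.cls (T.tm τ b) b).card : ℝ) < τ * NN V := by
  obtain ⟨j, hj⟩ := T.lev_end
  exact Nat.sInf_mem (s := {j : ℕ | ((T.cls j b).card : ℝ) < τ * NN V})
    ⟨j, by simpa [T.cls_zero hj] using hτ⟩
theorem lt_tm (hτ : 0 < τ * NN V) (b : V) :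
    j < T.tm τ b ↔ τ * NN V ≤ (T.cls j b).card := by
  refine ⟨fun h => not_lt.1 (Nat.notMem_of_lt_sInf h), fun h => not_le.1 fun h' => ?_⟩
  exact (h.trans (Nat.cast_le.2 (card_le_card (T.cls_anti b h')))).not_gt (T.tm_lt hτ b)
theorem tm_eq (hτ : 0 < τ * NN V) (h : b' ∈ T.cls (T.tm τ b) b) : T.tm τ b' = T.tm τ b := by
  apply le_antisymm
  · by_contra hn
    have h1 := (T.lt_tm hτ b').1 (not_le.1 hn)
    rw [T.cls_eq h] at h1
    exact h1.not_gt (T.tm_lt hτ b)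
  · by_contra hn
    have h1 := (T.lt_tm hτ b).1 (not_le.1 hn)
    rw [← T.cls_eq (T.cls_anti b (not_le.1 hn).le h)] at h1
    exact h1.not_gt (T.tm_lt hτ b')
end Tri
end TD

end
end Pool.Agent.Lib.MP_439fea_co.Pw
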