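import Pool.Agent.Lib.MP_439fea_co.Pw.Asm

/-! Definitions for the tree lemma. -/

namespace Pool.Agent.Lib.MP_439fea_co.Pw
open Finset Pool.Agent.Lib.MP_439fea_co.Z
open scoped Classical
noncomputable section

/-- The constant of the basic share bound. -/
def cL (C k : ℝ) : ℝ := 8 * C / k ^ 3

namespace TD
variable {V F Γ ι : Type} [Field F] [LinearOrderedCommGroupWithZero Γ] (D : TD V F Γ ι)

/-- Exchange of the two coordinates. -/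
def swap : TD V F Γ ι where
  u := D.u
  μ := D.μ
  E := D.E
  X := D.X
  Y := D.Y'
  Y' := D.Y
  cl := D.cl
  pz := D.pw
  pw := D.pz
  hz := D.vw
  hw := D.vz
  vz := D.hw
  vw := D.hz
  d := D.d

/-- The geometric hypotheses. -/
structure Geo : Prop where
  nat : ∀ n : ℕ, n ≠ 0 → D.u n = 1
  μbig : 1 < D.u D.μ
  hP : ∀ c, D.u (D.pz c) ≤ 1 ∧ D.u (D.pw c) ≤ 1
  hY : ∀ b ∈ D.Y, D.u D.μ ≤ D.u (D.hz b)
  hY' : ∀ b ∈ D.Y', D.u D.μ ≤ D.u (D.vw b)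
  mH : ∀ a ∈ D.X, ∀ b ∈ D.Y, D.E a b → ∀ c, c ≠ D.cl a →
    D.u (D.gh b (D.pz (D.cl a)) - D.pw (D.cl a)) < D.ds (D.cl a) c
  mU : ∀ a ∈ D.X, ∀ b ∈ D.Y', D.E a b → ∀ c, c ≠ D.cl a →
    D.u (D.gv b (D.pw (D.cl a)) - D.pz (D.cl a)) < D.ds (D.cl a) c
  sep : ∀ c c', c ≠ c' → D.ds c c' ≠ 0

/-- Some other centre is within `s` of `c`. -/
def alive (c : ι) (s : Γ) : Prop := ∃ c', c' ≠ c ∧ D.ds c c' ≤ s
/-- The horizontal `b` passes closer than `s` to the centre `c`. -/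
def mh (b : V) (c : ι) (s : Γ) : Prop := D.u (D.gh b (D.pz c) - D.pw c) < s
/-- The vertical `b` passes closer than `s` to the centre `c`. -/
def mv (b : V) (c : ι) (s : Γ) : Prop := D.u (D.gv b (D.pw c) - D.pz c) < s
/-- No two horizontal centres are opposite. -/
def Col : Prop := ∀ b ∈ D.Y, ∀ c ∈ D.Y, 1 < D.u (D.hz b + D.hz c)

/-- Three separated columns; index `0` is the far one. -/
structure Tri where
  p : Fin 3 → ι
  m : Fin 3 → Γ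
  h12 : m 1 = m 2
  h01 : m 1 ≤ m 0
  mne : m 1 ≠ 0
  o12 : D.u (D.pz (p 1) - D.pz (p 2)) = m 1
  o01 : D.u (D.pz (p 0) - D.pz (p 1)) = m 0
  o02 : D.u (D.pz (p 0) - D.pz (p 2)) = m 0
  w12 : D.u (D.pw (p 1) - D.pw (p 2)) ≤ m 1
  w01 : D.u (D.pw (p 0) - D.pw (p 1)) ≤ m 0

variable [Fintype ι]

def ball (c : ι) (s : Γ) : Finset ι := univ.filter fun c' => D.ds c c' ≤ s
def kid (c : ι) (s : Γ) : Finset ι := univ.filter fun c' => D.ds c c' < s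
def row (c : ι) (s : Γ) : Finset ι :=
  univ.filter fun c' => D.ds c c' ≤ s ∧ D.u (D.pw c - D.pw c') < s
def col (c : ι) (s : Γ) : Finset ι :=
  univ.filter fun c' => D.ds c c' ≤ s ∧ D.u (D.pz c - D.pz c') < s

variable [Fintype V]

def al (S : Finset ι) : ℝ := (D.pt S).card / NN V
def be (S : Finset ι) : ℝ := (D.H S).card / NN V
def bv (S : Finset ι) : ℝ := (D.U S).card / NN V

def Good (η t : ℝ) (c : ι) : Prop :=
  (∀ s, D.be (D.ball c s) ≤ t * D.bv (D.ball c s) ∧ D.bv (D.ball c s) ≤ t * D.be (D.ball c s)) ∧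
    ∀ s, s ≠ 0 → η * D.be (D.ball c s) ≤ D.be (D.row c s) ∧
      η * D.bv (D.ball c s) ≤ D.bv (D.col c s)

/-- Clean incidences. -/
def Cl (η t t1 : ℝ) (a b : V) : Prop :=
  a ∈ D.X ∧ D.Good η t (D.cl a) ∧ b ∈ D.Y ∧ D.E a b ∧
    ((nb D.E (D.pt {D.cl a}) b).card : ℝ) ≤ t1 * D.bv {D.cl a} * D.d

structure Par (C K ω k g : ℝ) (M : ℕ) (η t : ℝ) : Prop where
  ok : D.Ok C K ω k g M
  C1 : 1 ≤ C
  K1 : 1 ≤ K
  kpos : 0 < k
  gpos : 0 < g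
  ηpos : 0 < η
  η1 : η ≤ 1
  t1 : 1 ≤ t

theorem Ok.geo {D : TD V F Γ ι} {C K ω k g : ℝ} {M : ℕ} (h : D.Ok C K ω k g M) : D.Geo :=
  ⟨h.nat, h.μbig, h.hP, h.hY, h.hY', h.mH, h.mU, h.sep⟩

namespace Tri
variable {D} (T : D.Tri)

omit [Fintype V] in
/-- The finite set of levels. -/
def lv : Finset Γ := (univ.image fun x : ι × ι => D.ds x.1 x.2) ∪
  univ.image fun x : ι × ι => D.ds x.1 x.2 * (T.m 1 / T.m 0)

omit [Fintype V] in
/-- Level at time `j`. -/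
def lev : ℕ → Γ
  | 0 => T.m 1
  | j + 1 => (T.lv.filter fun s => s < lev j).sup id

omit [Fintype V] in
/-- Radius of the `i`-th ball at time `j`. -/
def rad (i : Fin 3) (j : ℕ) : Γ := T.lev j * (T.m i / T.m 1)

omit [Fintype V] [Fintype ι] in
def near (i : Fin 3) (c : ι) : Prop := D.ds c (T.p i) < T.m i

omit [Fintype V] in
/-- Horizontals that agree with `b` at time `j`. -/
def cls (j : ℕ) (b : V) : Finset V := D.Y.filter fun c =>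
  D.u (D.gh b (D.pz (T.p 1)) - D.gh c (D.pz (T.p 1))) < T.lev j ∧
  D.u (D.gh b (D.pz (T.p 2)) - D.gh c (D.pz (T.p 2))) < T.lev j

/-- Stopping time. -/
def tm (τ : ℝ) (b : V) : ℕ := sInf {j : ℕ | ((T.cls j b).card : ℝ) < τ * NN V}

def Thin (τ t2 : ℝ) (i : Fin 3) (a b : V) : Prop :=
  t2 * D.be (D.kid (D.cl a) (T.rad i (T.tm τ b))) ^ 2 < (T.cls (T.tm τ b) b).card / NN V

/-- The potential. -/
def Wt (θ : ℝ) (j : ℕ) (c : Fin 3 → ι) : ℝ :=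
  D.be (D.kid (c 0) (T.rad 0 j)) ^ (1 - θ) *
    √(D.be (D.kid (c 1) (T.rad 1 j)) * D.be (D.kid (c 2) (T.rad 2 j))) *
    ∏ i, D.bv (D.kid (c i) (T.rad i j))

/-- Tuples that pass through the state of `c` at time `j`. -/
def sta (τ : ℝ) (Ω : Finset (V × (Fin 3 → V))) (j : ℕ) (c : Fin 3 → ι) :
    Finset (V × (Fin 3 → V)) :=
  Ω.filter fun x => j ≤ T.tm τ x.1 ∧ ∀ i, D.ds (c i) (D.cl (x.2 i)) < T.rad i j

/-- Surviving tuples. -/
def Sur (η t t1 t2 τ : ℝ) (Ω : Finset (V × (Fin 3 → V))) : Prop :=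
  ∀ x ∈ Ω, ∀ i, D.Cl η t t1 (x.2 i) x.1 ∧ T.near i (D.cl (x.2 i)) ∧
    D.alive (D.cl (x.2 i)) (T.rad i (T.tm τ x.1)) ∧ ¬ T.Thin τ t2 i (x.2 i) x.1

end Tri
end TD

end
end Pool.Agent.Lib.MP_439fea_co.Pw
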