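import Pool.Agent.Lib.MP_439fea_co.Pw.Defs

/-! Curves over a valued field: contraction, crossing, slope, digits. -/

namespace Pool.Agent.Lib.MP_439fea_co.Pw
open Finset
open scoped Classical
noncomputable section

variable {F Γ : Type} [Field F] [LinearOrderedCommGroupWithZero Γ] {u : Valuation F Γ}

theorem vlt_trans {x y z : F} {r : Γ} (h : u (x - y) < r) (h' : u (y - z) < r) :
    u (x - z) < r := by
  have := u.map_add_lt h h'
  rwa [sub_add_sub_cancel] at this

theorem vle_trans {x y z : F} {r : Γ} (h : u (x - y) ≤ r) (h' : u (y - z) ≤ r) :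
    u (x - z) ≤ r := by
  have := u.map_add_le h h'
  rwa [sub_add_sub_cancel] at this

theorem vlt_symm {x y : F} {r : Γ} (h : u (x - y) < r) : u (y - x) < r := by
  rwa [u.map_sub_swap]

theorem vle_symm {x y : F} {r : Γ} (h : u (x - y) ≤ r) : u (y - x) ≤ r := by
  rwa [u.map_sub_swap]

/-- A difference keeps its value when both ends move a little. -/
theorem v_sub_keep {p q x y : F} (hx : u (p - x) < u (p - q)) (hy : u (q - y) < u (p - q)) :
    u (x - y) = u (p - q) := by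
  have := u.map_add_eq_of_lt_left (u.map_sub_lt hy hx)
  rwa [show p - q + (q - y - (p - x)) = x - y by ring] at this

theorem v_far {t z : F} (hz : 1 < u z) (ht : u t ≤ 1) : u (t - z) = u z :=
  u.map_sub_eq_of_lt_right (ht.trans_lt hz)

theorem far_ne {t z : F} (hz : 1 < u z) (ht : u t ≤ 1) : t - z ≠ 0 := by
  rw [← u.ne_zero_iff, v_far hz ht]
  exact (zero_lt_one.trans hz).ne'

/-- The curve with centre `(z, w)`. -/
def gf (μ z w t : F) : F := w + μ / (t - z)

theorem gf_lip {μ z w t t' : F} (hμ : 1 < u μ) (hz : u μ ≤ u z) (ht : u t ≤ 1) (ht' : u t' ≤ 1) :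
    u (gf μ z w t - gf μ z w t') * u μ ≤ u (t - t') := by
  have h1 := hμ.trans_le hz
  have a1 := far_ne h1 ht
  have a2 := far_ne h1 ht'
  have h0 : 0 < u z := zero_lt_one.trans h1
  have e : (gf μ z w t - gf μ z w t') * ((t - z) * (t' - z)) = μ * (t' - t) := by
    unfold gf
    field_simp
    ring
  have e' := congrArg u e
  rw [map_mul, map_mul, map_mul, v_far h1 ht, v_far h1 ht', u.map_sub_swap t' t] at e'
  refine le_of_mul_le_mul_right ?_ (mul_pos h0 h0)
  calc u (gf μ z w t - gf μ z w t') * u μ * (u z * u z)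
      = u (gf μ z w t - gf μ z w t') * (u z * u z) * u μ := mul_right_comm _ _ _
    _ = u (t - t') * (u μ * u μ) := by rw [e', mul_comm (u μ), mul_assoc]
    _ ≤ u (t - t') * (u z * u z) := mul_le_mul' le_rfl (mul_le_mul' hz hz)

theorem gf_le {μ z w t t' : F} (hμ : 1 < u μ) (hz : u μ ≤ u z) (ht : u t ≤ 1) (ht' : u t' ≤ 1) :
    u (gf μ z w t - gf μ z w t') ≤ u (t - t') :=
  (le_mul_of_one_le_right' hμ.le).trans (gf_lip hμ hz ht ht')

/-- Contraction: a closed ball goes into the open ball. -/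
theorem gf_lt {μ z w t t' : F} {r : Γ} (hμ : 1 < u μ) (hz : u μ ≤ u z) (ht : u t ≤ 1)
    (ht' : u t' ≤ 1) (hr : r ≠ 0) (h : u (t - t') ≤ r) : u (gf μ z w t - gf μ z w t') < r := by
  have h1 := (gf_lip (w := w) hμ hz ht ht').trans h
  by_contra hn
  have h2 : r * u μ ≤ r * 1 := by
    rw [mul_one]
    exact (mul_le_mul' (not_lt.1 hn) le_rfl).trans h1
  exact (le_of_mul_le_mul_left h2 (zero_lt_iff.2 hr)).not_gt hμ

/-- A curve close to two points of a closed ball puts them in one row. -/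
theorem gf_back {μ z w x y x' y' : F} {r : Γ} (hμ : 1 < u μ) (hz : u μ ≤ u z) (hx : u x ≤ 1)
    (hx' : u x' ≤ 1) (h : u (x - x') ≤ r) (h1 : u (gf μ z w x - y) < r)
    (h2 : u (gf μ z w x' - y') < r) : u (y - y') < r :=
  vlt_trans (vlt_trans (vlt_symm h1) (gf_lt hμ hz hx hx' (ne_zero_of_lt h1) h)) h2

/-- Closeness to a point moves along a row. -/
theorem gf_row {μ z w x y x' y' : F} {r : Γ} (hμ : 1 < u μ) (hz : u μ ≤ u z) (hx : u x ≤ 1)
    (hx' : u x' ≤ 1) (h : u (x - x') ≤ r) (hy : u (y - y') < r) (h1 : u (gf μ z w x - y) < r) :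
    u (gf μ z w x' - y') < r :=
  vlt_trans (vlt_trans (gf_lt hμ hz hx' hx (ne_zero_of_lt h1) (vle_symm h)) h1) hy

theorem gf_row_le {μ z w x y x' y' : F} {r : Γ} (hμ : 1 < u μ) (hz : u μ ≤ u z) (hx : u x ≤ 1)
    (hx' : u x' ≤ 1) (h : u (x - x') ≤ r) (hy : u (y - y') ≤ r) (h1 : u (gf μ z w x - y) ≤ r) :
    u (gf μ z w x' - y') ≤ r :=
  vle_trans (vle_trans ((gf_le hμ hz hx' hx).trans (vle_symm h)) h1) hy

theorem unit_mul {x y : F} (hx : u (x - 1) < 1) (hy : u (y - 1) < 1) : u (x * y - 1) < 1 := by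
  have e : x * y - 1 = (x - 1) * (y - 1) + (x - 1) + (y - 1) := by ring
  rw [e]
  refine u.map_add_lt (u.map_add_lt ?_ hx) hy
  rw [map_mul]
  exact (mul_le_of_le_one_right' hy.le).trans_lt hx

theorem unit_val {e : F} (he : u (e - 1) < 1) : u e = 1 := by
  have := u.map_one_add_of_lt he
  rwa [add_sub_cancel] at this

theorem v_div_lt {t z : F} (hz : 1 < u z) (ht : u t ≤ 1) : u (t / z) < 1 := by
  rw [map_div₀, div_lt_one₀ (zero_lt_one.trans hz)]
  exact ht.trans_lt hz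

theorem unit_frac {t z : F} (hz : 1 < u z) (ht : u t ≤ 1) : u (-z / (t - z) - 1) < 1 := by
  have a1 := far_ne hz ht
  have e : -z / (t - z) - 1 = -t / (t - z) := by
    field_simp
    ring
  rw [e]
  exact v_div_lt (by rwa [v_far hz ht]) (by rwa [u.map_neg])

/-- The slope of the difference of two curves. -/
def slp (μ z z' : F) : F := μ * (z - z') * (z + z') / (z * z') ^ 2

/-- The difference of two curves is linear to first order. -/
theorem gf_slope {μ z w z' w' t t' : F} (hz : 1 < u z) (hz' : 1 < u z') (hc : 1 < u (z + z'))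
    (ht : u t ≤ 1) (ht' : u t' ≤ 1) : ∃ e : F, u (e - 1) < 1 ∧
      (gf μ z w t - gf μ z' w' t) - (gf μ z w t' - gf μ z' w' t') = slp μ z z' * (t - t') * e := by
  have a1 := far_ne hz ht
  have a2 := far_ne hz ht'
  have a3 := far_ne hz' ht
  have a4 := far_ne hz' ht'
  refine ⟨(1 - (t + t') / (z + z')) * (-z / (t - z)) * (-z / (t' - z)) *
    (-z' / (t - z')) * (-z' / (t' - z')), ?_, ?_⟩
  · refine unit_mul (unit_mul (unit_mul (unit_mul ?_ (unit_frac hz ht)) (unit_frac hz ht'))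
      (unit_frac hz' ht)) (unit_frac hz' ht')
    rw [sub_sub_cancel_left, u.map_neg]
    exact v_div_lt hc (u.map_add_le ht ht')
  · have b1 : z ≠ 0 := u.ne_zero_iff.1 (zero_lt_one.trans hz).ne'
    have b2 : z' ≠ 0 := u.ne_zero_iff.1 (zero_lt_one.trans hz').ne'
    have b3 : z + z' ≠ 0 := u.ne_zero_iff.1 (zero_lt_one.trans hc).ne'
    unfold gf slp
    field_simp
    ring

theorem v_slope {μ z w z' w' t t' : F} (hz : 1 < u z) (hz' : 1 < u z') (hc : 1 < u (z + z'))
    (ht : u t ≤ 1) (ht' : u t' ≤ 1) :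
    u ((gf μ z w t - gf μ z' w' t) - (gf μ z w t' - gf μ z' w' t')) =
      u (slp μ z z') * u (t - t') := by
  obtain ⟨e, he, h⟩ := gf_slope (μ := μ) (w := w) (w' := w') hz hz' hc ht ht'
  rw [h, map_mul, map_mul, unit_val he, mul_one]

/-- Two curves that are close over two points stay close, with the expected loss. -/
theorem gf_move {μ z w z' w' t1 t2 t : F} {r l : Γ} (hz : 1 < u z) (hz' : 1 < u z')
    (hc : 1 < u (z + z')) (h1 : u t1 ≤ 1) (h2 : u t2 ≤ 1) (ht : u t ≤ 1)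
    (hl : 1 ≤ l) (hd : u (t - t1) ≤ u (t1 - t2) * l)
    (c1 : u (gf μ z w t1 - gf μ z' w' t1) < r) (c2 : u (gf μ z w t2 - gf μ z' w' t2) < r) :
    u (gf μ z w t - gf μ z' w' t) < r * l := by
  have hl0 : 0 < l := zero_lt_one.trans_le hl
  have e1 := u.map_sub_lt c1 c2
  rw [v_slope hz hz' hc h1 h2] at e1
  have e2 : u ((gf μ z w t - gf μ z' w' t) - (gf μ z w t1 - gf μ z' w' t1)) < r * l := by
    rw [v_slope hz hz' hc ht h1]
    refine (mul_le_mul' le_rfl hd).trans_lt ?_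
    rw [← mul_assoc]
    exact mul_lt_mul_of_pos_right e1 hl0
  have := u.map_add_lt e2 (c1.trans_le (le_mul_of_one_le_right' hl))
  rwa [sub_add_cancel] at this

/-- The open ball as a subgroup. -/
def obl (u : Valuation F Γ) {r : Γ} (hr : r ≠ 0) : AddSubgroup F where
  carrier := {x | u x < r}
  zero_mem' := by simpa using zero_lt_iff.2 hr
  add_mem' := u.map_add_lt
  neg_mem' := fun {x} h => by simpa using h

theorem obl_eq {r : Γ} {hr : r ≠ 0} {x y : F} :
    (QuotientAddGroup.mk x : F ⧸ obl u hr) = QuotientAddGroup.mk y ↔ u (x - y) < r :=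
  QuotientAddGroup.eq_iff_sub_mem

theorem obl_tf (hn : ∀ n : ℕ, n ≠ 0 → u n = 1) {r : Γ} (hr : r ≠ 0) (n : ℕ) (x : F ⧸ obl u hr)
    (h0 : n ≠ 0) (hx : n • x = 0) : x = 0 := by
  obtain ⟨y, rfl⟩ := QuotientAddGroup.mk_surjective x
  rw [← QuotientAddGroup.mk_nsmul, QuotientAddGroup.eq_zero_iff, nsmul_eq_mul] at hx
  refine (QuotientAddGroup.eq_zero_iff y).2 ?_
  have h1 : u (n * y) < r := hx
  rwa [map_mul, hn n h0, one_mul] at h1

/-- The linear relation between three digits. -/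
theorem gf_digit {μ z w z' w' t0 t1 t2 : F} {r : Γ} (hz : 1 < u z) (hz' : 1 < u z')
    (hc : 1 < u (z + z')) (h0 : u t0 ≤ 1) (h1 : u t1 ≤ 1) (h2 : u t2 ≤ 1) (hr : r ≠ 0)
    (hne : t0 - t1 ≠ 0)
    (c1 : u (gf μ z w t1 - gf μ z' w' t1) ≤ r) (c2 : u (gf μ z w t2 - gf μ z' w' t2) ≤ r) :
    u ((t0 - t1) * (gf μ z w t2 - gf μ z' w' t2) - ((t2 - t1) * (gf μ z w t0 - gf μ z' w' t0) +
      (t0 - t2) * (gf μ z w t1 - gf μ z' w' t1))) < u (t0 - t1) * r := by
  obtain ⟨e, he, e1⟩ := gf_slope (μ := μ) (w := w) (w' := w') hz hz' hc h1 h2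
  obtain ⟨e', he', e2⟩ := gf_slope (μ := μ) (w := w) (w' := w') hz hz' hc h0 h1
  have h3 := u.map_sub_le c1 c2
  rw [e1, map_mul, unit_val he, mul_one] at h3
  have h4 : u (e' - e) < 1 := by
    have := u.map_sub_lt he' he
    rwa [sub_sub_sub_cancel_right] at this
  have e3 : (t0 - t1) * (gf μ z w t2 - gf μ z' w' t2) - ((t2 - t1) * (gf μ z w t0 - gf μ z' w' t0) +
      (t0 - t2) * (gf μ z w t1 - gf μ z' w' t1)) =
      (t0 - t1) * (slp μ z z' * (t1 - t2) * (e' - e)) := by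
    linear_combination (t1 - t2) * e2 - (t0 - t1) * e1
  rw [e3, map_mul, map_mul]
  refine mul_lt_mul_of_pos_left ?_ (zero_lt_iff.2 (u.ne_zero_iff.2 hne))
  calc _ ≤ r * u (e' - e) := mul_le_mul' h3 le_rfl
    _ < r * 1 := mul_lt_mul_of_pos_left h4 (zero_lt_iff.2 hr)
    _ = r := mul_one r

end
end Pool.Agent.Lib.MP_439fea_co.Pw
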