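import Pool.Agent.Lib.MP_439fea_co.Pw.TDefs
import Pool.Agent.Lib.MP_439fea_co.Pw.TVal

/-! Geometry of clusters and curves. -/

namespace Pool.Agent.Lib.MP_439fea_co.Pw
open Finset Pool.Agent.Lib.MP_439fea_co.Z
open scoped Classical
noncomputable section

namespace TD
variable {V F Γ ι : Type} [Field F] [LinearOrderedCommGroupWithZero Γ] {D : TD V F Γ ι}
  {a b b' : V} {c c' c'' : ι} {s s' r r' : Γ}

theorem ds_self (c : ι) : D.ds c c = 0 := by simp [ds]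
theorem ds_comm (c c' : ι) : D.ds c c' = D.ds c' c := by
  rw [ds, ds, D.u.map_sub_swap (D.pz c), D.u.map_sub_swap (D.pw c)]
theorem z_le_ds (c c' : ι) : D.u (D.pz c - D.pz c') ≤ D.ds c c' := le_max_left _ _
theorem w_le_ds (c c' : ι) : D.u (D.pw c - D.pw c') ≤ D.ds c c' := le_max_right _ _
theorem ds_ultra (c c' c'' : ι) : D.ds c c'' ≤ max (D.ds c c') (D.ds c' c'') :=
  max_le (vle_trans ((z_le_ds c c').trans (le_max_left _ _))
      ((z_le_ds c' c'').trans (le_max_right _ _)))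
    (vle_trans ((w_le_ds c c').trans (le_max_left _ _)) ((w_le_ds c' c'').trans (le_max_right _ _)))
theorem ds_le_trans (h : D.ds c c' ≤ s) (h' : D.ds c' c'' ≤ s) : D.ds c c'' ≤ s :=
  (ds_ultra c c' c'').trans (max_le h h')
theorem ds_lt_trans (h : D.ds c c' < s) (h' : D.ds c' c'' < s) : D.ds c c'' < s :=
  (ds_ultra c c' c'').trans_lt (max_lt h h')
theorem swap_ds (c c' : ι) : D.swap.ds c c' = D.ds c c' := max_comm _ _
theorem Geo.swap (h : D.Geo) : D.swap.Geo :=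
  ⟨h.nat, h.μbig, fun c => (h.hP c).symm, h.hY', h.hY,
    fun a ha b hb e c hc => (h.mU a ha b hb e c hc).trans_eq (swap_ds _ _).symm,
    fun a ha b hb e c hc => (h.mH a ha b hb e c hc).trans_eq (swap_ds _ _).symm,
    fun c c' hc => (swap_ds c c').trans_ne (h.sep c c' hc)⟩
theorem H_mono {S S' : Finset ι} (h : S ⊆ S') : D.H S ⊆ D.H S' := fun _ hb => by
  obtain ⟨h1, a, h2, h3, h4⟩ := mem_filter.1 hb
  exact mem_filter.2 ⟨h1, a, h2, h h3, h4⟩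
theorem U_mono {S S' : Finset ι} (h : S ⊆ S') : D.U S ⊆ D.U S' := fun _ hb => by
  obtain ⟨h1, a, h2, h3, h4⟩ := mem_filter.1 hb
  exact mem_filter.2 ⟨h1, a, h2, h h3, h4⟩
theorem alive.mono (h : D.alive c s) (hs : s ≤ s') : D.alive c s' :=
  h.imp fun _ h => ⟨h.1, h.2.trans hs⟩
theorem alive.move (h : D.alive c s) (hc : D.ds c c' ≤ s) : D.alive c' s := by
  by_cases e : c = c'
  · exact e ▸ h
  · exact ⟨c, e, (ds_comm c' c).trans_le hc⟩
theorem Geo.alive_ne (h : D.Geo) (hc : D.alive c s) : s ≠ 0 := by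
  obtain ⟨x, h1, h2⟩ := hc
  exact ((zero_lt_iff.2 (h.sep c x h1.symm)).trans_le h2).ne'
theorem Geo.lip (h : D.Geo) (hb : b ∈ D.Y) {x x' : F} (hx : D.u x ≤ 1) (hx' : D.u x' ≤ 1)
    (hs : D.u (x - x') ≤ s) (h0 : s ≠ 0) : D.u (D.gh b x - D.gh b x') < s :=
  gf_lt h.μbig (h.hY b hb) hx hx' h0 hs
theorem Geo.mh_adj (h : D.Geo) (ha : a ∈ D.X) (hb : b ∈ D.Y) (e : D.E a b)
    (hs : D.alive (D.cl a) s) : D.mh b (D.cl a) s := by
  obtain ⟨x, h1, h2⟩ := hs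
  exact (h.mH a ha b hb e x h1).trans_le h2
theorem Geo.mv_adj (h : D.Geo) (ha : a ∈ D.X) (hb : b ∈ D.Y') (e : D.E a b)
    (hs : D.alive (D.cl a) s) : D.mv b (D.cl a) s := by
  obtain ⟨x, h1, h2⟩ := hs
  exact (h.mU a ha b hb e x h1).trans_le h2
theorem mh.mono (h : D.mh b c s) (hs : s ≤ s') : D.mh b c s' := lt_of_lt_of_le h hs
theorem mv.mono (h : D.mv b c s) (hs : s ≤ s') : D.mv b c s' := lt_of_lt_of_le h hs
theorem Geo.mh_move (h : D.Geo) (hb : b ∈ D.Y) (hm : D.mh b c s)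
    (hz : D.u (D.pz c - D.pz c') ≤ s) (hw : D.u (D.pw c - D.pw c') < s) : D.mh b c' s :=
  gf_row h.μbig (h.hY b hb) (h.hP c).1 (h.hP c').1 hz hw hm
theorem Geo.mv_move (h : D.Geo) (hb : b ∈ D.Y') (hm : D.mv b c s)
    (hw : D.u (D.pw c - D.pw c') ≤ s) (hz : D.u (D.pz c - D.pz c') < s) : D.mv b c' s :=
  gf_row h.μbig (h.hY' b hb) (h.hP c).2 (h.hP c').2 hw hz hm
theorem Geo.row_of (h : D.Geo) (hb : b ∈ D.Y) (h1 : D.mh b c s) (h2 : D.mh b c' s)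
    (hz : D.u (D.pz c - D.pz c') ≤ s) : D.u (D.pw c - D.pw c') < s :=
  gf_back h.μbig (h.hY b hb) (h.hP c).1 (h.hP c').1 hz h1 h2
theorem Geo.col_of (h : D.Geo) (hb : b ∈ D.Y') (h1 : D.mv b c s) (h2 : D.mv b c' s)
    (hw : D.u (D.pw c - D.pw c') ≤ s) : D.u (D.pz c - D.pz c') < s :=
  gf_back h.μbig (h.hY' b hb) (h.hP c).2 (h.hP c').2 hw h1 h2
theorem Geo.cross (h : D.Geo) (hb : b ∈ D.Y) (hb' : b' ∈ D.Y') (h1 : D.mh b c s)
    (h2 : D.mh b c' s') (h3 : D.mv b' c r) (h4 : D.mv b' c' r') (e1 : s ≤ D.ds c c')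
    (e2 : s' ≤ D.ds c c') (e3 : r ≤ D.ds c c') (e4 : r' ≤ D.ds c c') : False :=
  (max_lt (h.col_of hb' (h3.mono e3) (h4.mono e4) (w_le_ds c c'))
    (h.row_of hb (h1.mono e1) (h2.mono e2) (z_le_ds c c'))).false

variable [Fintype ι]

theorem Geo.mh_row (h : D.Geo) (hb : b ∈ D.H (D.row c s)) (hs : D.alive c s) : D.mh b c s := by
  obtain ⟨h1, a, h2, h3, h4⟩ := mem_filter.1 hb
  obtain ⟨h5, h6⟩ := (mem_filter.1 h3).2
  exact h.mh_move h1 (h.mh_adj h2 h1 h4 (hs.move h5)) (vle_symm ((z_le_ds _ _).trans h5))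
    (vlt_symm h6)
theorem Geo.mv_col (h : D.Geo) (hb : b ∈ D.U (D.col c s)) (hs : D.alive c s) : D.mv b c s := by
  obtain ⟨h1, a, h2, h3, h4⟩ := mem_filter.1 hb
  obtain ⟨h5, h6⟩ := (mem_filter.1 h3).2
  exact h.mv_move h1 (h.mv_adj h2 h1 h4 (hs.move h5)) (vle_symm ((w_le_ds _ _).trans h5))
    (vlt_symm h6)

end TD

end
end Pool.Agent.Lib.MP_439fea_co.Pw
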