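import Pool.Agent.Lib.MP_439fea_co.Pw.TClean

/-! Three separated columns that carry many clean tuples. -/

namespace Pool.Agent.Lib.MP_439fea_co.Pw
open Finset Pool.Agent.Lib.MP_439fea_co.Z
open scoped Classical
noncomputable section

theorem ttri_pair {α β : Type} (A : Finset α) (k : α → β) (m : ℝ)
    (hk : ∀ a ∈ A, ((A.filter fun a' => k a' = k a).card : ℝ) ≤ m) (i j l : Fin 3)
    (h : ∀ n, n = i ∨ n = j ∨ n = l) :
    (((Fintype.piFinset fun _ : Fin 3 => A).filter fun a => k (a j) = k (a i)).card : ℝ) ≤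
      m * (A.card : ℝ) ^ 2 := by
  have h1 : (((A ×ˢ A).filter fun x => k x.2 = k x.1).card : ℝ) ≤ m * A.card := by
    rw [card_filter, sum_product]
    push_cast
    calc _ ≤ ∑ _a ∈ A, m := sum_le_sum fun a ha => by
          have := hk a ha
          rw [card_filter] at this
          push_cast at this
          exact this
      _ = _ := by rw [sum_const, nsmul_eq_mul, mul_comm]
  have h2 : ((Fintype.piFinset fun _ : Fin 3 => A).filter fun a => k (a j) = k (a i)).card ≤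
      (((A ×ˢ A).filter fun x => k x.2 = k x.1) ×ˢ A).card := by
    refine card_le_card_of_injOn (fun a => ((a i, a j), a l)) (fun a ha => ?_) fun a _ a' _ e => ?_
    · simp only [coe_filter, Fintype.mem_piFinset, Set.mem_ofPred_eq] at ha
      simp only [coe_product, coe_filter, Set.mem_prod, Set.mem_ofPred_eq, mem_product, mem_coe]
      exact ⟨⟨⟨ha.1 i, ha.1 j⟩, ha.2⟩, ha.1 l⟩
    · simp only [Prod.mk.injEq] at e
      funext n
      rcases h n with rfl | rfl | rfl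
      exacts [e.1.1, e.1.2, e.2]
  rw [card_product] at h2
  have h3 := (Nat.cast_le (α := ℝ)).2 h2
  push_cast at h3
  have := mul_le_mul_of_nonneg_right h1 (Nat.cast_nonneg (α := ℝ) A.card)
  nlinarith

/-- Triples with three different labels. -/
theorem ttri_triple {α β : Type} (A : Finset α) (k : α → β) (m : ℝ) (_hm : 0 ≤ m)
    (hk : ∀ a ∈ A, ((A.filter fun a' => k a' = k a).card : ℝ) ≤ m) (hA : 4 * m ≤ A.card) :
    (A.card : ℝ) ^ 3 / 4 ≤
      ((Fintype.piFinset fun _ : Fin 3 => A).filter fun a => Function.Injective (k ∘ a)).card := by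
  set P := Fintype.piFinset fun _ : Fin 3 => A with hP
  have h01 := ttri_pair A k m hk 0 1 2 (by decide)
  have h02 := ttri_pair A k m hk 0 2 1 (by decide)
  have h12 := ttri_pair A k m hk 1 2 0 (by decide)
  have hsub : P ⊆ (P.filter fun a => Function.Injective (k ∘ a)) ∪
      (((P.filter fun a => k (a 1) = k (a 0)) ∪ P.filter fun a => k (a 2) = k (a 0)) ∪
        P.filter fun a => k (a 2) = k (a 1)) := by
    intro a ha
    simp only [mem_union, mem_filter, ha, true_and]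
    by_contra hn
    push Not at hn
    refine hn.1 fun i j e => ?_
    simp only [Function.comp] at e
    fin_cases i <;> fin_cases j <;> first
      | rfl
      | exact absurd e hn.2.1.1
      | exact absurd e hn.2.1.2
      | exact absurd e hn.2.2
      | exact absurd e.symm hn.2.1.1
      | exact absurd e.symm hn.2.1.2
      | exact absurd e.symm hn.2.2
  have h1 := (card_le_card hsub).trans ((card_union_le _ _).trans (Nat.add_le_add_left
    ((card_union_le _ _).trans (Nat.add_le_add_right (card_union_le _ _) _)) _))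
  have h2 : (P.card : ℝ) = (A.card : ℝ) ^ 3 := by
    rw [hP, Fintype.card_piFinset]
    simp
  have h3 := (Nat.cast_le (α := ℝ)).2 h1
  push_cast at h3
  rw [h2] at h3
  have h4 := mul_le_mul_of_nonneg_right hA (sq_nonneg (A.card : ℝ))
  nlinarith

theorem ttri_cnt {α β : Type} (A : Finset α) (k : α → β) (m : ℝ) (hm : 0 ≤ m)
    (hk : ∀ a ∈ A, ∀ S ⊆ A, (∀ a' ∈ S, k a' = k a) → (S.card : ℝ) ≤ m) :
    ∃ S : Finset (Fin 3 → α), (4 * m) ^ 2 / 4 * ((A.card : ℝ) - 4 * m) ≤ S.card ∧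
      ∀ a ∈ S, (∀ i, a i ∈ A) ∧ Function.Injective (k ∘ a) := by
  refine ⟨(Fintype.piFinset fun _ : Fin 3 => A).filter fun a => Function.Injective (k ∘ a), ?_,
    fun a ha => ⟨Fintype.mem_piFinset.1 (mem_filter.1 ha).1, (mem_filter.1 ha).2⟩⟩
  by_cases h : 4 * m ≤ A.card
  · refine le_trans ?_ (ttri_triple A k m hm (fun a ha => hk a ha _ (filter_subset _ _)
      fun a' ha' => (mem_filter.1 ha').2) h)
    have h1 : (4 * m) ^ 2 ≤ (A.card : ℝ) ^ 2 := by gcongr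
    have h2 := mul_le_mul_of_nonneg_right h1 (Nat.cast_nonneg (α := ℝ) A.card)
    have h3 : 0 ≤ (4 * m) ^ 2 * (4 * m) := by positivity
    nlinarith
  · exact (mul_nonpos_of_nonneg_of_nonpos (by positivity) (by linarith)).trans
      (Nat.cast_nonneg _)

theorem ttri_fib {α β : Type} (I : Finset α) (hI : I.Nonempty) (k : α → β) (J : Finset β)
    (hJ : ∀ a ∈ I, k a ∈ J) : ∃ a ∈ I, ∃ S : Finset α, (I.card : ℝ) ≤ J.card * S.card ∧
      ∀ x ∈ S, x ∈ I ∧ k x = k a := by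
  obtain ⟨a, ha, hmax⟩ := exists_max_image I (fun a => (I.filter fun a' => k a' = k a).card) hI
  refine ⟨a, ha, I.filter fun a' => k a' = k a, ?_, fun x hx => mem_filter.1 hx⟩
  have h1 : I.card ≤ (I.filter fun a' => k a' = k a).card * (I.image k).card := by
    refine card_le_mul_card_image I _ fun b hb => ?_
    obtain ⟨a', ha', rfl⟩ := mem_image.1 hb
    exact hmax a' ha'
  have h2 := h1.trans (Nat.mul_le_mul_left _ (card_le_card (image_subset_iff.2 hJ)))
  rw [mul_comm] at h2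
  exact_mod_cast h2

theorem ttri_pack {α β γ : Type} [Fintype γ] [DecidableEq β] (I : Finset α) (f : α → β) (G : α → Finset γ)
    (hd : ∀ a ∈ I, ∀ a' ∈ I, f a ≠ f a' → Disjoint (G a) (G a')) (w : ℝ)
    (hw : ∀ a ∈ I, w ≤ (G a).card) : w * (I.image f).card ≤ Fintype.card γ := by
  have hr : ∀ y : I.image f, ∃ a ∈ I, f a = y.1 := fun y => mem_image.1 y.2
  choose r hr1 hr2 using hr
  have h1 : ((univ : Finset (I.image f)).biUnion fun y => G (r y)).card =
      ∑ y, (G (r y)).card := card_biUnion fun y _ y' _ hne =>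
    hd _ (hr1 y) _ (hr1 y') fun e => hne (Subtype.ext (by rw [← hr2 y, ← hr2 y', e]))
  have h2 := (Nat.cast_le (α := ℝ)).2 (h1 ▸ card_le_univ _)
  push_cast at h2
  have h3 := card_nsmul_le_sum (univ : Finset (I.image f)) (fun y => ((G (r y)).card : ℝ)) w
    fun y _ => hw _ (hr1 y)
  rw [nsmul_eq_mul, mul_comm, card_univ, Fintype.card_coe] at h3
  exact h3.trans h2

theorem ttri_ord {Γ : Type} [LinearOrder Γ] (δ : Fin 3 → Fin 3 → Γ) (hs : ∀ i j, δ i j = δ j i)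
    (hu : ∀ i j k, δ i k ≤ max (δ i j) (δ j k)) :
    ∃ σ : Fin 3 ≃ Fin 3, δ (σ 0) (σ 2) = δ (σ 0) (σ 1) ∧ δ (σ 1) (σ 2) ≤ δ (σ 0) (σ 1) := by
  have e1 := hu 0 1 2
  have e2 := hu 1 2 0
  have e3 := hu 2 0 1
  have c1 := hs 1 0
  have c2 := hs 2 0
  have c3 := hs 2 1
  by_cases h1 : δ 0 2 = δ 0 1 ∧ δ 1 2 ≤ δ 0 1
  · exact ⟨Equiv.refl _, h1⟩
  by_cases h2 : δ 1 2 = δ 1 0 ∧ δ 0 2 ≤ δ 1 0
  · exact ⟨Equiv.swap 0 1, h2⟩
  refine ⟨Equiv.swap 0 2, ?_⟩
  change δ 2 0 = δ 2 1 ∧ δ 1 0 ≤ δ 2 1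
  rw [c1, c2, c3] at *
  grind

namespace TD
variable {V F Γ ι : Type} [Field F] [LinearOrderedCommGroupWithZero Γ] {D : TD V F Γ ι}
  [Fintype ι] [Fintype V] {C K ω k g η t t1 τ0 l : ℝ} {M : ℕ}

omit [Fintype ι] in
theorem ttri_be_mono {S S' : Finset ι} (h : S ⊆ S') : D.be S ≤ D.be S' :=
  div_le_div_of_nonneg_right (Nat.cast_le.2 (card_le_card (H_mono h))) (Nat.cast_nonneg _)

omit [Fintype V] in
theorem ttri_kid_ball (c : ι) {s : Γ} (hs : s ≠ 0) : ∃ r, r < s ∧ D.kid c s = D.ball c r := by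
  obtain ⟨x, hx, hm⟩ := exists_max_image (D.kid c s) (D.ds c)
    ⟨c, mem_kid.2 (by rw [ds_self]; exact zero_lt_iff.2 hs)⟩
  refine ⟨D.ds c x, mem_kid.1 hx, ext fun y => ⟨fun hy => mem_ball.2 (hm y hy), fun hy => ?_⟩⟩
  exact mem_kid.2 ((mem_ball.1 hy).trans_lt (mem_kid.1 hx))

/-- The radius of the least heavy ball. -/
theorem ttri_rad (hroot : τ0 ≤ D.be univ) : ∃ s : ι → Γ, ∀ c, τ0 ≤ D.be (D.ball c (s c)) ∧
    (∀ r, τ0 ≤ D.be (D.ball c r) → s c ≤ r) ∧ ∃ c', s c = D.ds c c' := by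
  have h : ∀ c, ∃ s, τ0 ≤ D.be (D.ball c s) ∧
      (∀ r, τ0 ≤ D.be (D.ball c r) → s ≤ r) ∧ ∃ c', s = D.ds c c' := by
    intro c
    obtain ⟨x, -, hx⟩ := exists_max_image univ (D.ds c) ⟨c, mem_univ _⟩
    obtain ⟨y, hy, hm⟩ := exists_min_image
      (univ.filter fun y => τ0 ≤ D.be (D.ball c (D.ds c y))) (D.ds c)
      ⟨x, mem_filter.2 ⟨mem_univ _, hroot.trans
        (ttri_be_mono fun y hy => mem_ball.2 (hx y hy))⟩⟩
    refine ⟨_, (mem_filter.1 hy).2, fun r hr => ?_, y, rfl⟩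
    obtain ⟨z, hz, hz'⟩ := exists_max_image (D.ball c r) (D.ds c)
      ⟨c, mem_ball.2 (by rw [ds_self]; exact zero_le)⟩
    exact (hm z (mem_filter.2 ⟨mem_univ _, hr.trans
      (ttri_be_mono fun y hy => mem_ball.2 (hz' y hy))⟩)).trans (mem_ball.1 hz)
  exact ⟨fun c => (h c).choose, fun c => (h c).choose_spec⟩

/-- The first light balls. -/
theorem Par.ttri_lab (hP : D.Par C K ω k g M η t) (hτ : 0 < τ0) (hg : t * g ^ 2 < τ0 ^ 2)
    (hroot : τ0 ≤ D.be univ) : ∃ (s : ι → Γ) (J : Finset (Finset ι)),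
      (η * τ0) ^ 2 / t * J.card ≤ 1 ∧
      (∀ c, D.Good η t c → D.kid c (s c) ∈ J ∧ c ∈ D.kid c (s c) ∧
        D.bv (D.kid c (s c)) ≤ t * τ0) ∧
      ∀ c c', D.kid c (s c) ≠ D.kid c' (s c') → s c ≤ D.ds c c' := by
  obtain ⟨s, hs⟩ := ttri_rad hroot
  have hG := hP.ok.geo
  have hN := hP.ok.amb.Npos
  have ht : 0 < t := one_pos.trans_le hP.t1
  have hη := hP.ηpos
  have lt : ∀ c, s c ≠ 0 → ∃ r, D.kid c (s c) = D.ball c r ∧ D.be (D.ball c r) < τ0 := by
    intro c h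
    obtain ⟨r, h1, h2⟩ := ttri_kid_ball (D := D) c h
    exact ⟨r, h2, not_le.1 fun h3 => h1.not_ge ((hs c).2.1 r h3)⟩
  have far : ∀ c c', D.kid c (s c) ≠ D.kid c' (s c') → s c ≤ D.ds c c' := by
    intro c c' hne
    by_contra h
    rw [not_le] at h
    have h' : D.ds c' c < s c := (ds_comm c' c).trans_lt h
    have e : s c' = s c := by
      refine le_antisymm ((hs c').2.1 _ ((hs c).1.trans (ttri_be_mono fun y hy =>
        mem_ball.2 (ds_le_trans h'.le (mem_ball.1 hy))))) (not_lt.1 fun h2 => ?_)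
      obtain ⟨r, h3, h4⟩ := lt c (zero_le.trans_lt h).ne'
      refine h4.not_ge ((hs c').1.trans (ttri_be_mono fun y hy => ?_))
      rw [← h3]
      exact mem_kid.2 (ds_lt_trans h ((mem_ball.1 hy).trans_lt h2))
    refine hne (ext fun y => ?_)
    rw [e, mem_kid, mem_kid]
    exact ⟨ds_lt_trans h', ds_lt_trans h⟩
  have ne : ∀ c, D.Good η t c → s c ≠ 0 := by
    intro c hc h0
    have e : D.ball c (s c) = {c} := by
      refine ext fun y => ?_
      rw [mem_ball, h0, mem_singleton]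
      refine ⟨fun h => by_contra fun n => hG.sep c y (Ne.symm n) (le_zero_iff.1 h), ?_⟩
      rintro rfl
      exact (ds_self _).le
    have h1 := (hs c).1
    have h2 := (hc.1 (s c)).1
    rw [e] at h1 h2
    have h3 : D.be {c} * D.bv {c} ≤ g ^ 2 := by
      unfold be bv
      rw [div_mul_div_comm, div_le_iff₀ (mul_pos hN hN), ← sq]
      exact hP.ok.light c
    have h4 := mul_le_mul h1 h1 hτ.le (hτ.le.trans h1)
    have h5 := mul_le_mul_of_nonneg_left h2 (hτ.le.trans h1)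
    have h6 := mul_le_mul_of_nonneg_left h3 ht.le
    nlinarith
  have al : ∀ c, D.Good η t c → D.alive c (s c) := by
    intro c hc
    obtain ⟨c', e⟩ := (hs c).2.2
    refine ⟨c', ?_, e.ge⟩
    rintro rfl
    exact ne _ hc (e.trans (ds_self _))
  refine ⟨s, (univ.filter (D.Good η t)).image fun c => D.kid c (s c), ?_, fun c hc =>
    ⟨mem_image_of_mem _ (mem_filter.2 ⟨mem_univ _, hc⟩),
      mem_kid.2 (by rw [ds_self]; exact zero_lt_iff.2 (ne c hc)), ?_⟩, far⟩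
  · have := ttri_pack (univ.filter (D.Good η t)) (fun c => D.kid c (s c))
      (fun c => D.H (D.row c (s c)) ×ˢ D.U (D.col c (s c))) (fun c hc c' hc' hne => by
        rw [disjoint_left]
        intro y hy hy'
        obtain ⟨h1, h2⟩ := mem_product.1 hy
        obtain ⟨h3, h4⟩ := mem_product.1 hy'
        have a1 := al c (mem_filter.1 hc).2
        have a2 := al c' (mem_filter.1 hc').2
        have f2 := (far c' c hne.symm).trans_eq (ds_comm c' c)
        exact hG.cross (mem_filter.1 h1).1 (mem_filter.1 h2).1 (hG.mh_row h1 a1) (hG.mh_row h3 a2)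
          (hG.mv_col h2 a1) (hG.mv_col h4 a2) (far c c' hne) f2 (far c c' hne) f2)
      ((η * τ0) ^ 2 / t * NN V ^ 2) fun c hc => by
        have hc' := (mem_filter.1 hc).2
        obtain ⟨h1, h2⟩ := hc'.2 _ (ne c hc')
        have h3 := (hc'.1 (s c)).1
        have h4 := (hs c).1
        have h5 : η * τ0 ≤ D.be (D.row c (s c)) := (mul_le_mul_of_nonneg_left h4 hη.le).trans h1
        have h6 : η * τ0 / t ≤ D.bv (D.col c (s c)) := by
          rw [div_le_iff₀ ht]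
          have := mul_le_mul_of_nonneg_left (h4.trans h3) hη.le
          have := mul_le_mul_of_nonneg_left h2 ht.le
          linarith
        unfold be at h5
        unfold bv at h6
        rw [le_div_iff₀ hN] at h5 h6
        rw [card_product, Nat.cast_mul]
        refine le_trans (le_of_eq ?_) (mul_le_mul h5 h6 (by positivity) (Nat.cast_nonneg _))
        ring
    rw [Fintype.card_prod, Nat.cast_mul] at this
    refine le_of_mul_le_mul_right ?_ (mul_pos hN hN)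
    unfold NN at *
    linarith
  · obtain ⟨r, h1, h2⟩ := lt c (ne c hc)
    rw [h1]
    exact (hc.1 r).2.trans (mul_le_mul_of_nonneg_left h2.le ht.le)

omit [Fintype ι] [Fintype V] in
/-- Three points on one horizontal in different clusters. -/
theorem Geo.ttri_mk (h : D.Geo) (q : Fin 3 → V) (hq : ∀ i, q i ∈ D.X) {b : V} (hb : b ∈ D.Y)
    (hE : ∀ i, D.E (q i) b) (hi : Function.Injective (D.cl ∘ q)) :
    ∃ (T : D.Tri) (σ : Fin 3 ≃ Fin 3), ∀ i, T.p i = D.cl (q (σ i)) ∧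
      ∃ j, j ≠ i ∧ T.m i = D.ds (D.cl (q (σ i))) (D.cl (q (σ j))) := by
  have hw : ∀ i j, i ≠ j → D.u (D.pw (D.cl (q i)) - D.pw (D.cl (q j))) <
      D.ds (D.cl (q i)) (D.cl (q j)) := fun i j n =>
    h.row_of hb (h.mh_adj (hq i) hb (hE i) ⟨_, fun e => n (hi e).symm, le_rfl⟩)
      (h.mh_adj (hq j) hb (hE j) ⟨_, fun e => n (hi e), (ds_comm _ _).le⟩) (z_le_ds _ _)
  have hz : ∀ i j, i ≠ j → D.u (D.pz (D.cl (q i)) - D.pz (D.cl (q j))) =
      D.ds (D.cl (q i)) (D.cl (q j)) := fun i j n =>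
    le_antisymm (z_le_ds _ _) ((le_max_iff.1 le_rfl).resolve_right (hw i j n).not_ge)
  obtain ⟨σ, e1, e2⟩ := ttri_ord (fun i j => D.ds (D.cl (q i)) (D.cl (q j)))
    (fun i j => ds_comm _ _) fun i j k => ds_ultra _ _ _
  have n01 : σ 0 ≠ σ 1 := σ.injective.ne (by decide)
  have n02 : σ 0 ≠ σ 2 := σ.injective.ne (by decide)
  have n12 : σ 1 ≠ σ 2 := σ.injective.ne (by decide)
  refine ⟨⟨fun i => D.cl (q (σ i)), ![D.ds (D.cl (q (σ 0))) (D.cl (q (σ 1))),
      D.ds (D.cl (q (σ 1))) (D.cl (q (σ 2))), D.ds (D.cl (q (σ 1))) (D.cl (q (σ 2)))], rfl, e2,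
      h.sep _ _ fun e => n12 (hi e), hz _ _ n12, hz _ _ n01, (hz _ _ n02).trans e1,
      w_le_ds _ _, w_le_ds _ _⟩, σ, fun i => ⟨rfl, ?_⟩⟩
  fin_cases i
  exacts [⟨1, by decide, rfl⟩, ⟨2, by decide, rfl⟩, ⟨1, by decide, ds_comm _ _⟩]

theorem Par.tri_exists (hP : D.Par C K ω k g M η t) (ht1 : 0 ≤ t1) (hl : 0 < l) (hτ : 0 < τ0)
    (hg : t * g ^ 2 < τ0 ^ 2) (hroot : τ0 ≤ D.be univ) (hτl : 8 * t1 * t * τ0 ≤ l)
    (hcl : l * NN V * D.d ≤ ∑ b ∈ D.Y, ((D.X.filter fun a => D.Cl η t t1 a b).card : ℝ)) :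
    ∃ (T : D.Tri) (Ω : Finset (V × (Fin 3 → V))),
      l ^ 3 / 32 * ((η * τ0) ^ 2 / t) ^ 3 * NN V * D.d ^ 3 ≤ Ω.card ∧
      ∀ x ∈ Ω, ∀ i, D.Cl η t t1 (x.2 i) x.1 ∧ T.near i (D.cl (x.2 i)) := by
  have hd := hP.ok.amb.dpos
  have hN := hP.ok.amb.Npos
  have hη := hP.ηpos
  have ht : 0 < t := one_pos.trans_le hP.t1
  obtain ⟨s, J, hJ, hk, far⟩ := hP.ttri_lab hτ hg hroot
  set lb : V → Finset ι := fun a => D.kid (D.cl a) (s (D.cl a)) with hlb
  set A : V → Finset V := fun b => D.X.filter fun a => D.Cl η t t1 a b with hA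
  have hfib : ∀ b, ∀ a ∈ A b, ∀ S ⊆ A b, (∀ a' ∈ S, lb a' = lb a) →
      (S.card : ℝ) ≤ l * D.d / 8 := fun b a ha S hS hS' => by
    have h5 : S ⊆ D.X.filter fun a' => D.Cl η t t1 a' b ∧ D.cl a' ∈ lb a := fun a' ha' => by
      obtain ⟨h8, h9⟩ := mem_filter.1 (hS ha')
      exact mem_filter.2 ⟨h8, h9, hS' a' ha' ▸ (hk _ h9.2.1).2.1⟩
    have h6 := ((Nat.cast_le (α := ℝ)).2 (card_le_card h5)).trans (hP.clean_ball ht1 b (lb a))
    have h7 := mul_le_mul_of_nonneg_right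
      (mul_le_mul_of_nonneg_left (hk _ (mem_filter.1 ha).2.2.1).2.2 ht1) hd.le
    have h8 := mul_le_mul_of_nonneg_right hτl hd.le
    linarith
  choose R hR1 hR2 using fun b => ttri_cnt (A b) lb _ (by positivity) (hfib b)
  set Ω := (D.Y.sigma R).map (Equiv.sigmaEquivProd V (Fin 3 → V)).toEmbedding with hΩ
  have h1 : l ^ 3 / 32 * NN V * D.d ^ 3 ≤ Ω.card := by
    rw [hΩ, card_map, card_sigma]
    push_cast
    refine le_trans ?_ (sum_le_sum fun b _ => hR1 b)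
    rw [← mul_sum, sum_sub_distrib, sum_const, nsmul_eq_mul]
    have cY : (D.Y.card : ℝ) ≤ NN V := Nat.cast_le.2 (card_le_univ _)
    have h1 := mul_le_mul_of_nonneg_right cY (show 0 ≤ 4 * (l * D.d / 8) by positivity)
    have h2 : l * NN V * D.d / 2 ≤
        ∑ b ∈ D.Y, ((A b).card : ℝ) - D.Y.card * (4 * (l * D.d / 8)) := by
      linarith
    refine le_trans (le_of_eq ?_) (mul_le_mul_of_nonneg_left h2 (by positivity))
    ring
  have h2 : ∀ x ∈ Ω, (∀ i, D.Cl η t t1 (x.2 i) x.1) ∧ Function.Injective (lb ∘ x.2) := by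
    intro x hx
    obtain ⟨y, hy, rfl⟩ := mem_map.1 hx
    obtain ⟨h1, h2⟩ := hR2 _ _ (mem_sigma.1 hy).2
    exact ⟨fun i => (mem_filter.1 (h1 i)).2, h2⟩
  have hne : Ω.Nonempty := card_pos.1 (Nat.cast_pos.1 (lt_of_lt_of_le (by positivity) h1))
  have hw : 0 < (η * τ0) ^ 2 / t := by positivity
  obtain ⟨x0, hx0, S, h3, hS⟩ := ttri_fib Ω hne (fun x => lb ∘ x.2)
    (Fintype.piFinset fun _ : Fin 3 => J) fun x hx => Fintype.mem_piFinset.2 fun i =>
      (hk _ ((h2 x hx).1 i).2.1).1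
  rw [Fintype.card_piFinset, prod_const, card_univ, Fintype.card_fin, Nat.cast_pow] at h3
  have hq := (h2 x0 hx0).1
  obtain ⟨T, σ, hT⟩ := hP.ok.geo.ttri_mk x0.2 (fun i => (hq i).1) (hq 0).2.2.1
    (fun i => (hq i).2.2.2.1) fun i j e => (h2 x0 hx0).2
      (congrArg (fun c => D.kid c (s c)) e)
  refine ⟨T, S.image fun x => (x.1, x.2 ∘ σ), ?_, fun y hy i => ?_⟩
  · rw [card_image_of_injective _ fun x y e => Prod.ext (Prod.mk.inj e).1
      (σ.surjective.injective_comp_right (Prod.mk.inj e).2)]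
    have h5 : ((η * τ0) ^ 2 / t * J.card) ^ 3 ≤ 1 := pow_le_one₀ (by positivity) hJ
    have h6 := mul_le_mul_of_nonneg_left (h1.trans h3) (pow_pos hw 3).le
    have h7 := mul_le_mul_of_nonneg_right h5 (Nat.cast_nonneg (α := ℝ) S.card)
    rw [mul_pow] at h7
    linarith
  · obtain ⟨x, hx, rfl⟩ := mem_image.1 hy
    obtain ⟨hx1, hx2⟩ := hS x hx
    have ha := (h2 x hx1).1 (σ i)
    have e : lb (x.2 (σ i)) = lb (x0.2 (σ i)) := congrFun hx2 (σ i)
    have hm : D.cl (x.2 (σ i)) ∈ lb (x0.2 (σ i)) := e ▸ (hk _ ha.2.1).2.1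
    obtain ⟨e1, j, hj, e2⟩ := hT i
    refine ⟨ha, ?_⟩
    change D.ds (D.cl (x.2 (σ i))) (T.p i) < T.m i
    rw [e1, e2, ds_comm]
    exact (mem_kid.1 hm).trans_le (far _ _ fun e3 => hj (σ.injective ((h2 x0 hx0).2 e3)).symm)

end TD

end
end Pool.Agent.Lib.MP_439fea_co.Pw
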